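import Pool.Agent.Lib.MP_abca01_gt.QGeom

/-!
# MP_abca01_gt: a convex subset of almost full volume contains the disc
-/

set_option autoImplicit false

open MeasureTheory Set Metric Filter Topology
open scoped RealInnerProductSpace Pointwise

namespace Pool.Agent.Lib.MP_abca01_gt

namespace Ballaux

open QGeomaux

variable {E : Type} [NormedAddCommGroup E] [InnerProductSpace ℝ E]

/-- The ball of radius `1/10` around `16/15 e` is contained in the standard cone. -/
theorem closedBall_subset {v : E} (hv : ‖v‖ = 1) {e : E} (he : e ∈ DD v 1) :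
    closedBall ((16 / 15 : ℝ) • e) (1 / 10) ⊆ QQ v 1 := by
  intro x hx
  rw [mem_closedBall, dist_eq_norm] at hx
  obtain ⟨he1, he2⟩ := he
  set z := x - (16 / 15 : ℝ) • e with hz
  have hxz : x = (16 / 15 : ℝ) • e + z := by rw [hz]; abel
  have h3 := norm_sq_eq hv z
  have h4 := hor_nonneg v z
  have hnz := norm_nonneg z
  have h7 : ht v x = 8 / 15 + ht v z := by
    rw [hxz, ht_add, ht_smul, he1]; norm_num
  have h8 : hor v x ≤ 4 / 5 + hor v z := by
    have := hor_add_le v ((16 / 15 : ℝ) • e) z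
    rw [hor_smul, abs_of_pos (by norm_num), ← hxz] at this
    linarith
  have h9 : ht v z ^ 2 + hor v z ^ 2 ≤ 1 / 100 := by nlinarith
  have h10 : ht v z ≤ 1 / 10 := by nlinarith [sq_nonneg (hor v z)]
  have h11 : hor v z - 2 * ht v z ≤ 4 / 15 := by
    by_contra hcon
    push Not at hcon
    nlinarith [sq_nonneg (2 * hor v z + ht v z)]
  constructor
  · rw [h7]
    linarith
  · rw [h7]
    linarith

theorem QQ_subset_closedBall {v : E} (hv : ‖v‖ = 1) : QQ v 1 ⊆ closedBall (0 : E) 3 := by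
  intro x hx
  have h0 := ht_nonneg_of_mem one_pos hx
  have h1 := hx.1
  have h2 := hx.2
  have h3 := norm_sq_eq hv x
  have h4 := hor_nonneg v x
  rw [mem_closedBall, dist_zero_right]
  apply le_of_sq_le_sq (b := 3) _ (by positivity)
  nlinarith

theorem half_ball [FiniteDimensional ℝ E] [MeasurableSpace E] [BorelSpace E]
    (lam : Measure E) [lam.IsAddHaarMeasure] (p : E) (r : ℝ) (f : E →L[ℝ] ℝ) :
    1 / 2 * lam.real (closedBall p r) ≤ lam.real (closedBall p r ∩ {x | f p ≤ f x}) := by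
  set H : Set E := closedBall p r ∩ {x | f p ≤ f x} with hH
  have hHm : MeasurableSet H :=
    (isClosed_closedBall.inter (isClosed_le continuous_const f.continuous)).measurableSet
  have hfin : lam (closedBall p r) ≠ ⊤ := measure_closedBall_lt_top.ne
  have hmp : MeasurePreserving (fun x : E => (2 : ℝ) • p - x) lam lam :=
    Measure.measurePreserving_sub_left lam _
  have hsub : closedBall p r ⊆ H ∪ (fun x : E => (2 : ℝ) • p - x) ⁻¹' H := by
    intro x hx
    by_cases hfx : f p ≤ f x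
    · left
      exact ⟨hx, hfx⟩
    · right
      push Not at hfx
      refine ⟨?_, ?_⟩
      · rw [mem_closedBall, dist_eq_norm] at hx ⊢
        have : (2 : ℝ) • p - x - p = -(x - p) := by
          rw [two_smul]; abel
        rw [this, norm_neg]
        exact hx
      · show f p ≤ f ((2 : ℝ) • p - x)
        rw [map_sub, map_smul, smul_eq_mul]
        linarith
  have h1 : lam.real (closedBall p r) ≤
      lam.real H + lam.real ((fun x : E => (2 : ℝ) • p - x) ⁻¹' H) := by
    refine (measureReal_mono hsub ?_).trans (measureReal_union_le _ _)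
    rw [← lt_top_iff_ne_top]
    apply lt_of_le_of_lt (measure_union_le _ _)
    rw [hmp.measure_preimage hHm.nullMeasurableSet, ENNReal.add_lt_top]
    have : lam H < ⊤ := lt_of_le_of_lt (measure_mono inter_subset_left) hfin.lt_top
    exact ⟨this, this⟩
  have h2 : lam.real ((fun x : E => (2 : ℝ) • p - x) ⁻¹' H) = lam.real H := by
    rw [measureReal_def, measureReal_def, hmp.measure_preimage hHm.nullMeasurableSet]
  linarith

theorem ball_one [FiniteDimensional ℝ E] [MeasurableSpace E] [BorelSpace E]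
    (lam : Measure E) [lam.IsAddHaarMeasure] {v : E} (hv : ‖v‖ = 1) {K : Set E}
    (hK : IsCompact K) (hKc : Convex ℝ K) (hKQ : K ⊆ QQ v 1)
    (hvol : (1 - 1 / (2 * 30 ^ Module.finrank ℝ E)) * lam.real (QQ v 1) < lam.real K) :
    DD v 1 ⊆ (15 / 16 : ℝ) • K := by
  intro e he
  by_contra hcon
  have hQfin : lam (QQ v 1) ≠ ⊤ := (isCompact_QQ hv one_pos).measure_lt_top.ne
  have hp : (16 / 15 : ℝ) • e ∉ K := by
    intro h
    apply hcon
    refine ⟨_, h, ?_⟩
    simp only [smul_smul]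
    norm_num
  set p := (16 / 15 : ℝ) • e with hpdef
  obtain ⟨f, c, hf1, hf2⟩ := geometric_hahn_banach_closed_point hKc hK.isClosed hp
  set n := Module.finrank ℝ E
  set H : Set E := closedBall p (1 / 10) ∩ {x | f p ≤ f x} with hH
  have hHm : MeasurableSet H :=
    (isClosed_closedBall.inter (isClosed_le continuous_const f.continuous)).measurableSet
  have hHQ : H ⊆ QQ v 1 := inter_subset_left.trans (closedBall_subset hv he)
  have hKH : K ⊆ QQ v 1 \ H := by
    intro x hx
    refine ⟨hKQ hx, fun hxH => ?_⟩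
    have h1 := hf1 x hx
    have h2 : f p ≤ f x := hxH.2
    linarith
  have h1 : lam.real K ≤ lam.real (QQ v 1) - lam.real H := by
    rw [← measureReal_sdiff hHQ hHm hQfin]
    exact measureReal_mono hKH (measure_ne_top_of_subset sdiff_subset hQfin)
  have h2 : 1 / 2 * lam.real (closedBall p (1 / 10)) ≤ lam.real H := half_ball lam p _ f
  have h3 : lam.real (closedBall p (1 / 10)) = (1 / 10) ^ n * lam.real (closedBall 0 1) :=
    lam.addHaar_real_closedBall' p (by norm_num)
  have h4 : lam.real (closedBall (0 : E) 3) = 3 ^ n * lam.real (closedBall 0 1) :=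
    lam.addHaar_real_closedBall' 0 (by norm_num)
  have h5 : lam.real (QQ v 1) ≤ lam.real (closedBall (0 : E) 3) :=
    measureReal_mono (QQ_subset_closedBall hv) measure_closedBall_lt_top.ne
  have h6 : lam.real (closedBall p (1 / 10)) = 1 / 30 ^ n * lam.real (closedBall (0 : E) 3) := by
    rw [h3, h4, ← mul_assoc]
    congr 1
    rw [div_pow, one_pow, div_mul_eq_mul_div, one_mul, div_eq_div_iff (by positivity)
      (by positivity), one_mul, ← mul_pow]
    norm_num
  have h7 : 1 / 30 ^ n * lam.real (QQ v 1) ≤ lam.real (closedBall p (1 / 10)) := by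
    rw [h6]
    exact mul_le_mul_of_nonneg_left h5 (by positivity)
  have h8 : 1 / (2 * 30 ^ n) * lam.real (QQ v 1) = 1 / 2 * (1 / 30 ^ n * lam.real (QQ v 1)) := by
    field_simp
  have h9 : (1 - 1 / (2 * 30 ^ n)) * lam.real (QQ v 1) =
    lam.real (QQ v 1) - 1 / (2 * 30 ^ n) * lam.real (QQ v 1) := by ring
  rw [h9, h8] at hvol
  linarith

/-- The map scaling the orthogonal part by `R`. -/
noncomputable def S (v : E) (R : ℝ) : E →L[ℝ] E :=
  R • ContinuousLinearMap.id ℝ E + (1 - R) • (innerSL ℝ v).smulRight v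

theorem S_apply (v : E) (R : ℝ) (x : E) : S v R x = R • x + ((1 - R) * ⟪x, v⟫) • v := by
  unfold S
  simp [smul_smul, real_inner_comm]

theorem ht_S {v : E} (hv : ‖v‖ = 1) (R : ℝ) (x : E) : ht v (S v R x) = ht v x := by
  rw [S_apply, ht_add, ht_smul, ht_smul, ht_self hv]
  unfold ht
  ring

theorem hor_S {v : E} (hv : ‖v‖ = 1) {R : ℝ} (hR : 0 < R) (x : E) :
    hor v (S v R x) = R * hor v x := by
  have h1 : S v R x - ⟪S v R x, v⟫ • v = R • (x - ⟪x, v⟫ • v) := by
    have h2 : ⟪S v R x, v⟫ = ⟪x, v⟫ := ht_S hv R x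
    rw [h2, S_apply, smul_sub, smul_smul, sub_mul, one_mul, sub_smul]
    abel
  unfold hor
  rw [h1, norm_smul, Real.norm_of_nonneg hR.le]

theorem S_S {v : E} (hv : ‖v‖ = 1) {R : ℝ} (hR : R ≠ 0) (x : E) : S v R (S v R⁻¹ x) = x := by
  have h2 : ⟪S v R⁻¹ x, v⟫ = ⟪x, v⟫ := ht_S hv R⁻¹ x
  rw [S_apply v R, h2, S_apply v R⁻¹, smul_add, smul_smul, smul_smul, mul_inv_cancel₀ hR, one_smul,
    add_assoc, ← add_smul]
  have : R * ((1 - R⁻¹) * ⟪x, v⟫) + (1 - R) * ⟪x, v⟫ = 0 := by
    field_simp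
    ring
  rw [this, zero_smul, add_zero]

theorem S_S' {v : E} (hv : ‖v‖ = 1) {R : ℝ} (hR : R ≠ 0) (x : E) : S v R⁻¹ (S v R x) = x := by
  have := S_S hv (inv_ne_zero hR) x
  rwa [inv_inv] at this

theorem mem_QQ_S {v : E} (hv : ‖v‖ = 1) {R : ℝ} (hR : 0 < R) {x : E} :
    S v R x ∈ QQ v R ↔ x ∈ QQ v 1 := by
  unfold QQ
  simp only [mem_ofPred_eq, ht_S hv, hor_S hv hR]
  have : R * hor v x ≤ 2 * R * ht v x ↔ hor v x ≤ 2 * 1 * ht v x := by
    constructor
    · intro h
      have h' : R * hor v x ≤ R * (2 * 1 * ht v x) := by linarith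
      exact le_of_mul_le_mul_left h' hR
    · intro h
      have h' := mul_le_mul_of_nonneg_left h hR.le
      linarith
  rw [this]

theorem image_eq {v : E} (hv : ‖v‖ = 1) {R : ℝ} (hR : 0 < R) :
    S v R '' (QQ v 1) = QQ v R := by
  ext x
  constructor
  · rintro ⟨y, hy, rfl⟩
    exact (mem_QQ_S hv hR).mpr hy
  · intro hx
    refine ⟨S v R⁻¹ x, ?_, S_S hv hR.ne' x⟩
    rw [← S_S hv hR.ne' x] at hx
    exact (mem_QQ_S hv hR).mp hx

theorem image_image {v : E} (hv : ‖v‖ = 1) {R : ℝ} (hR : 0 < R) (K : Set E) :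
    S v R '' (S v R⁻¹ '' K) = K := by
  rw [← image_comp]
  have : (S v R : E → E) ∘ (S v R⁻¹ : E → E) = id := by
    funext x
    exact S_S hv hR.ne' x
  rw [this, image_id]

end Ballaux

open Ballaux QGeomaux

theorem stmtBall : StmtBall := by
  intro E _ _ _ _ _ lam _ v R K hv hR hK hKc hKQ hvol
  set d : ℝ := |LinearMap.det ((S v R : E →L[ℝ] E) : E →ₗ[ℝ] E)| with hd
  have hmeas : ∀ A : Set E, lam.real (S v R '' A) = d * lam.real A := by
    intro A
    rw [measureReal_def, Measure.addHaar_image_continuousLinearMap, ENNReal.toReal_mul,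
      ENNReal.toReal_ofReal (abs_nonneg _), measureReal_def]
  set K' : Set E := S v R⁻¹ '' K with hK'
  have hSK' : S v R '' K' = K := image_image hv hR K
  have hK'c : IsCompact K' := hK.image (S v R⁻¹).continuous
  have hK'cv : Convex ℝ K' := hKc.is_linear_image (S v R⁻¹).toLinearMap.isLinear
  have hK'Q : K' ⊆ QQ v 1 := by
    rintro _ ⟨x, hx, rfl⟩
    have h1 := hKQ hx
    rw [← S_S hv hR.ne' x] at h1
    exact (mem_QQ_S hv hR).mp h1
  have hd0 : 0 ≤ d := abs_nonneg _
  have hvol' : (1 - 1 / (2 * 30 ^ Module.finrank ℝ E)) * lam.real (QQ v 1) < lam.real K' := by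
    rw [← image_eq hv hR, hmeas, ← hSK', hmeas] at hvol
    have h1 : d * ((1 - 1 / (2 * 30 ^ Module.finrank ℝ E)) * lam.real (QQ v 1)) <
        d * lam.real K' := by linarith
    exact lt_of_mul_lt_mul_left h1 hd0
  have hmain := ball_one lam hv hK'c hK'cv hK'Q hvol'
  intro x hx
  have h1 : S v R⁻¹ x ∈ DD v 1 := by
    refine ⟨?_, ?_⟩
    · rw [ht_S hv]; exact hx.1
    · rw [hor_S hv (inv_pos.mpr hR)]
      have := hx.2
      rw [inv_mul_le_iff₀ hR]
      linarith
  obtain ⟨y, ⟨z, hz, hzy⟩, hy⟩ := hmain h1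
  refine ⟨z, hz, ?_⟩
  have h2 := congrArg (S v R) hy
  rw [S_S hv hR.ne'] at h2
  rw [← h2, ← hzy]
  show (15 / 16 : ℝ) • z = S v R ((15 / 16 : ℝ) • (S v R⁻¹) z)
  rw [map_smul, S_S hv hR.ne']

end Pool.Agent.Lib.MP_abca01_gt
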