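import Pool.Agent.Lib.MP_abca01_gt.Spec

/-!
# MP_abca01_gt: from compact sets to Borel sets
-/

set_option autoImplicit false

open MeasureTheory Set Metric Filter Topology
open scoped RealInnerProductSpace Pointwise

namespace Pool.Agent.Lib.MP_abca01_gt

namespace Borelaux

variable {E : Type} [NormedAddCommGroup E] [InnerProductSpace ℝ E]

theorem isCompact_segs {K ω : Set E} (hK : IsCompact K) (hω : IsCompact ω) :
    IsCompact (segs K ω) := by
  have h1 : IsCompact ((Icc (0 : ℝ) 1 ×ˢ (K ×ˢ ω)) ∩
      ⋂ z ∈ K, {p : ℝ × E × E | ⟪z, p.2.2⟫ ≤ ⟪p.2.1, p.2.2⟫}) := by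
    apply (isCompact_Icc.prod (hK.prod hω)).inter_right
    apply isClosed_biInter
    intro z _
    exact isClosed_le (continuous_const.inner (continuous_snd.comp continuous_snd))
      ((continuous_fst.comp continuous_snd).inner (continuous_snd.comp continuous_snd))
  have h2 : segs K ω = (fun p : ℝ × E × E => p.1 • p.2.1) '' ((Icc (0 : ℝ) 1 ×ˢ (K ×ˢ ω)) ∩
      ⋂ z ∈ K, {p : ℝ × E × E | ⟪z, p.2.2⟫ ≤ ⟪p.2.1, p.2.2⟫}) := by
    ext x
    constructor
    · rintro ⟨u, hu, y, hy, hmax, s, hs, rfl⟩
      exact ⟨⟨s, y, u⟩, ⟨⟨hs, hy, hu⟩, by simpa using hmax⟩, rfl⟩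
    · rintro ⟨⟨s, y, u⟩, ⟨⟨hs, hy, hu⟩, hmax⟩, rfl⟩
      refine ⟨u, hu, y, hy, ?_, s, hs, rfl⟩
      simpa using hmax
  rw [h2]
  exact h1.image (continuous_fst.smul (continuous_fst.comp continuous_snd))

theorem exists_compact [FiniteDimensional ℝ E] [MeasurableSpace E] [BorelSpace E]
    (mu : Measure E) [IsFiniteMeasure mu] {ω : Set E} (hω : MeasurableSet ω) {ε : ℝ}
    (hε : 0 < ε) : ∃ ω' ⊆ ω, IsCompact ω' ∧ mu.real ω ≤ mu.real ω' + ε := by
  obtain ⟨ω', h1, h2, h3⟩ := hω.exists_isCompact_lt_add (measure_ne_top mu ω)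
    (ε := ENNReal.ofReal ε) (by simpa using hε)
  refine ⟨ω', h1, h2, ?_⟩
  have h4 := ENNReal.toReal_mono (by simp) h3.le
  rw [ENNReal.toReal_add (measure_ne_top _ _) (by simp), ENNReal.toReal_ofReal hε.le] at h4
  exact h4

end Borelaux

open Borelaux

theorem stmtBorel (h1 : StmtOverlap) : StmtBorel := by
  intro E _ _ _ _ _ lam mu _ _ K hK hKc h0 hV hmu hsph hineq ω hω hωs
  have hKfin : lam K ≠ ⊤ := hK.measure_lt_top.ne
  have hsegfin : ∀ ω : Set E, lam (segs K ω) ≠ ⊤ := fun ω =>
    measure_ne_top_of_subset (segs_subset hKc h0) hKfin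
  have hM : 0 ≤ mu.real univ := measureReal_nonneg
  apply le_antisymm
  · -- upper bound
    have hcm : MeasurableSet (sphere (0 : E) 1 \ ω) := isClosed_sphere.measurableSet.diff hω
    have hsphM : mu.real (sphere (0 : E) 1) = mu.real univ := by
      have h3 : mu.real (sphere (0 : E) 1) + mu.real (sphere (0 : E) 1)ᶜ = mu.real univ :=
        measureReal_add_measureReal_compl isClosed_sphere.measurableSet
      have h4 : mu.real (sphere (0 : E) 1)ᶜ = 0 := by
        rw [measureReal_def, hsph, ENNReal.toReal_zero]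
      linarith
    have hsum : mu.real (sphere (0 : E) 1 \ ω) = mu.real univ - mu.real ω := by
      rw [measureReal_sdiff hωs hω, hsphM]
    apply le_of_forall_pos_le_add
    intro ε hε
    obtain ⟨ω', hω'sub, hω'c, hω'⟩ := exists_compact mu hcm (show 0 < ε / lam.real K by positivity)
    have hω's : ω' ⊆ sphere (0 : E) 1 := hω'sub.trans sdiff_subset
    have h2 := hineq ω' hω'c hω's
    have hdisj : Disjoint ω ω' := by
      rw [Set.disjoint_left]
      intro u hu hu'
      exact (hω'sub hu').2 hu
    have hov := h1 E lam K ω ω' hK hKc h0 hωs hω's hdisj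
    have h3 : lam (segs K ω ∪ segs K ω') + lam (segs K ω ∩ segs K ω') =
        lam (segs K ω) + lam (segs K ω') :=
      measure_union_add_inter _ (isCompact_segs hK hω'c).measurableSet
    rw [hov, add_zero] at h3
    have h4 : lam (segs K ω) + lam (segs K ω') ≤ lam K := by
      rw [← h3]
      exact measure_mono (union_subset (segs_subset hKc h0) (segs_subset hKc h0))
    have h5 : lam.real (segs K ω) + lam.real (segs K ω') ≤ lam.real K := by
      have := ENNReal.toReal_mono hKfin h4
      rw [ENNReal.toReal_add (hsegfin _) (hsegfin _)] at this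
      exact this
    have h6 : mu.real univ * (lam.real (segs K ω) + lam.real (segs K ω')) ≤
        mu.real univ * lam.real K := mul_le_mul_of_nonneg_left h5 hM
    have h7 : (mu.real univ - mu.real ω) * lam.real K ≤ mu.real ω' * lam.real K + ε := by
      have h8 : (mu.real univ - mu.real ω) * lam.real K ≤
          (mu.real ω' + ε / lam.real K) * lam.real K :=
        mul_le_mul_of_nonneg_right (by linarith) hV.le
      have h9 : (mu.real ω' + ε / lam.real K) * lam.real K = mu.real ω' * lam.real K + ε := by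
        field_simp
      linarith
    nlinarith
  · -- lower bound
    apply le_of_forall_pos_le_add
    intro ε hε
    obtain ⟨ω', hω'sub, hω'c, hω'⟩ := exists_compact mu hω (show 0 < ε / lam.real K by positivity)
    have h2 := hineq ω' hω'c (hω'sub.trans hωs)
    have h3 : lam.real (segs K ω') ≤ lam.real (segs K ω) :=
      measureReal_mono (segs_mono hω'sub) (hsegfin ω)
    have h4 : mu.real univ * lam.real (segs K ω') ≤ mu.real univ * lam.real (segs K ω) :=
      mul_le_mul_of_nonneg_left h3 hM
    have h8 : mu.real ω * lam.real K ≤ (mu.real ω' + ε / lam.real K) * lam.real K :=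
      mul_le_mul_of_nonneg_right hω' hV.le
    have h9 : (mu.real ω' + ε / lam.real K) * lam.real K = mu.real ω' * lam.real K + ε := by
      field_simp
    linarith

end Pool.Agent.Lib.MP_abca01_gt
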