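import Pool.Agent.Lib.MP_abca01_gt.Energy

/-!
# MP_abca01_gt: the theorem, cap form
-/

set_option autoImplicit false

open MeasureTheory Set Metric Filter Topology
open scoped RealInnerProductSpace Pointwise

namespace Pool.Agent.Lib.MP_abca01_gt

namespace Capaux

open Variationaux QGeomaux Energyaux

variable {E : Type} [NormedAddCommGroup E] [InnerProductSpace ℝ E]

theorem segs_smul {r : ℝ} (hr : 0 < r) (K ω : Set E) : segs (r • K) ω = r • segs K ω := by
  ext x
  constructor
  · rintro ⟨u, hu, _, ⟨y, hy, rfl⟩, hmax, s, hs, rfl⟩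
    refine ⟨s • y, ⟨u, hu, y, hy, fun z hz => ?_, s, hs, rfl⟩, ?_⟩
    · have h1 := hmax (r • z) (smul_mem_smul_set hz)
      simp only [real_inner_smul_left] at h1
      exact le_of_mul_le_mul_left h1 hr
    · simp only [smul_smul, mul_comm]
  · rintro ⟨_, ⟨u, hu, y, hy, hmax, s, hs, rfl⟩, rfl⟩
    refine ⟨u, hu, r • y, smul_mem_smul_set hy, ?_, s, hs, ?_⟩
    · rintro _ ⟨z, hz, rfl⟩
      simp only [real_inner_smul_left]
      exact mul_le_mul_of_nonneg_left (hmax z hz) hr.le
    · simp only [smul_smul, mul_comm]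

theorem interior_nonempty [FiniteDimensional ℝ E] [MeasurableSpace E] [BorelSpace E]
    (lam : Measure E) [lam.IsAddHaarMeasure] {K : Set E} (hK : Convex ℝ K)
    (hv : 0 < lam.real K) : (interior K).Nonempty := by
  by_contra hcon
  rw [not_nonempty_iff_eq_empty] at hcon
  have h1 : K ⊆ frontier K := by
    intro x hx
    refine ⟨subset_closure hx, ?_⟩
    rw [hcon]
    exact notMem_empty x
  have h2 : lam K = 0 := measure_mono_null h1 (hK.addHaar_frontier lam)
  rw [measureReal_def, h2] at hv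
  simp at hv

end Capaux

open Capaux Energyaux Variationaux QGeomaux

theorem stmtCap (h1 : StmtEnergy) (h2 : StmtQGeom) (h3 : StmtVariation) (h4 : StmtBorel) :
    StmtCap := by
  intro E _ _ _ _ _ lam mu _ _ v R hv hR hmu hsph hcone hcap
  obtain ⟨K, hK, hKv, hK15, hmin⟩ := h1 E lam mu v R hv hR hmu hsph hcone hcap
  obtain ⟨⟨hQcpt, hQcvx, hQ0⟩, ⟨hQv, hDQ, hDne⟩, hQ3, hQ4, hQ5, hQ6⟩ := h2 E lam v R hv hR
  have hMpos : 0 < mu.real univ := by
    rw [measureReal_def, ENNReal.toReal_pos_iff]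
    refine ⟨?_, measure_lt_top _ _⟩
    rw [pos_iff_ne_zero]
    simpa using hmu
  have hn : 0 < Module.finrank ℝ E := by
    haveI : Nontrivial E := ⟨v, 0, by
      intro h
      rw [h, norm_zero] at hv
      exact zero_ne_one hv⟩
    exact Module.finrank_pos
  have hc : 0 < 1 / 4 * min (1 / 2) (R / 2) := by
    have : (0 : ℝ) < min (1 / 2) (R / 2) := lt_min (by norm_num) (by positivity)
    positivity
  have hae : ∀ᵐ u ∂mu, ‖u‖ = 1 ∧ 1 / 4 * min (1 / 2) (R / 2) ≤ supp K u := by
    have e1 : ∀ᵐ u ∂mu, u ∈ sphere (0 : E) 1 := hsph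
    have e2 : ∀ᵐ u ∂mu, ¬ ht v u < -(R * hor v u) := by
      rw [ae_iff]
      simpa using hcone
    filter_upwards [e1, e2] with u hu1 hu2
    have hu1' : ‖u‖ = 1 := by simpa using hu1
    refine ⟨hu1', ?_⟩
    obtain ⟨x, hx, hxu⟩ := hQ4 u
    have h5 := le_supp hK.cpt (hK.low hx) u
    have h6 := hQ6 u hu1' (not_lt.mp hu2)
    have h7 : -(R * hor v u) ≤ ht v u := not_lt.mp hu2
    rw [hxu] at h5
    linarith
  have hlocal : ∀ t : ℝ, 0 < t → t ≤ 1 / 16 → ∀ K' : Set E, IsCompact K' → Convex ℝ K' →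
      (1 - t) • K ⊆ K' → K' ⊆ K → Phi lam mu K ≤ Phi lam mu K' := by
    intro t ht0 ht1 K' hK'c hK'cv hsub hK'K
    apply hmin
    · refine ⟨hK'c, hK'cv, hsub ⟨0, hK.zero, by simp⟩, ?_, hK'K.trans hK.up⟩
      intro x hx
      apply hsub
      obtain ⟨z, hz, rfl⟩ := hK15 hx
      refine ⟨(15 / 16 / (1 - t)) • z, ?_, ?_⟩
      · apply hK.cvx.smul_mem_of_zero_mem hK.zero hz
        refine ⟨by
          apply div_nonneg (by norm_num)
          linarith, ?_⟩
        rw [div_le_one (by linarith)]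
        linarith
      · simp only [smul_smul]
        congr 1
        have h9 : (1 - t) ≠ 0 := by linarith
        field_simp
    · have h5 : lam.real ((1 - t) • K) ≤ lam.real K' :=
        measureReal_mono hsub hK'c.measure_lt_top.ne
      rw [real_smul lam (by linarith)] at h5
      have h6 : 0 < (1 - t) ^ Module.finrank ℝ E * lam.real K :=
        mul_pos (pow_pos (by linarith) _) hKv
      linarith
  have hvar := h3 E lam mu K (1 / 16) _ hK.cpt hK.cvx hK.zero hKv (by norm_num) (by norm_num) hc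
    hmu hae hlocal
  have hbor := h4 E lam mu K hK.cpt hK.cvx hK.zero hKv hmu hsph hvar
  -- normalisation
  set r : ℝ := (mu.real univ / lam.real K) ^ ((Module.finrank ℝ E : ℝ)⁻¹) with hrdef
  have hr : 0 < r := Real.rpow_pos_of_pos (div_pos hMpos hKv) _
  have hrn : r ^ Module.finrank ℝ E = mu.real univ / lam.real K :=
    Real.rpow_inv_natCast_pow (div_pos hMpos hKv).le hn.ne'
  refine ⟨r • K, hK.cpt.smul r, hK.cvx.smul r, ?_, ⟨0, hK.zero, by simp⟩, ?_⟩
  · apply interior_nonempty lam (hK.cvx.smul r)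
    rw [real_smul lam hr.le]
    exact mul_pos (pow_pos hr _) hKv
  · intro ω hω hωs
    have h5 : lam.real (segs (r • K) ω) = mu.real ω := by
      rw [segs_smul hr, real_smul lam hr.le, hrn]
      have h6 := hbor ω hω hωs
      field_simp
      linarith
    have h7 : lam (segs (r • K) ω) ≠ ⊤ :=
      measure_ne_top_of_subset (segs_subset (hK.cvx.smul r) ⟨0, hK.zero, by simp⟩)
        (hK.cpt.smul r).measure_lt_top.ne
    rw [measureReal_def, measureReal_def] at h5
    exact (ENNReal.toReal_eq_toReal_iff' h7 (measure_ne_top _ _)).mp h5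

end Pool.Agent.Lib.MP_abca01_gt
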