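import Mathlib

/-!
# Cone volume measures: definitions and the support function

* `segs K ω`: the union of the segments `[0, y]` over the points `y` of `K` at which some vector
  of `ω` is an exterior normal. Its volume is the cone volume measure of `ω`.
* `supp K u`: the support function.
* `Adm D Q K`: `K` is compact and convex, `0 ∈ K`, `D ⊆ K ⊆ Q`.
* `Phi lam mu K = ∫ log (supp K u) dmu - (|mu| / n) log (lam K)`.
* `ht v u`, `hor v u`: the component along `v` and the norm of the component orthogonal to `v`.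
* `QQ v R = {x | hor x ≤ 2 R ht x, ht x ≤ 1}`, `DD v R = {x | ht x = 1/2, hor x ≤ 3R/4}`.
-/

set_option autoImplicit false

open MeasureTheory Set Metric
open scoped RealInnerProductSpace Pointwise

namespace Pool.Agent.Lib.MP_abca01_gt

variable {E : Type} [NormedAddCommGroup E] [InnerProductSpace ℝ E]

/-- The union of the segments `[0, y]` over the points `y` of `K` at which some vector of `ω` is an
exterior normal of `K`. -/
def segs (K ω : Set E) : Set E :=
  {x | ∃ u ∈ ω, ∃ y ∈ K, (∀ z ∈ K, ⟪z, u⟫ ≤ ⟪y, u⟫) ∧ ∃ s ∈ Icc (0 : ℝ) 1, x = s • y}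

/-- The support function. -/
noncomputable def supp (K : Set E) (u : E) : ℝ := sSup ((fun x => ⟪x, u⟫) '' K)

/-- Admissible bodies. -/
structure Adm (D Q K : Set E) : Prop where
  cpt : IsCompact K
  cvx : Convex ℝ K
  zero : (0 : E) ∈ K
  low : D ⊆ K
  up : K ⊆ Q

/-- The component along `v`. -/
noncomputable def ht (v x : E) : ℝ := ⟪x, v⟫

/-- The norm of the component orthogonal to `v`. -/
noncomputable def hor (v x : E) : ℝ := ‖x - ⟪x, v⟫ • v‖

/-- The truncated cone. -/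
def QQ (v : E) (R : ℝ) : Set E := {x | hor v x ≤ 2 * R * ht v x ∧ ht v x ≤ 1}

/-- The disc. -/
def DD (v : E) (R : ℝ) : Set E := {x | ht v x = 1 / 2 ∧ hor v x ≤ 3 / 4 * R}

/-- The functional of the logarithmic Minkowski problem. -/
noncomputable def Phi [MeasurableSpace E] (lam mu : Measure E) (K : Set E) : ℝ :=
  ∫ u, Real.log (supp K u) ∂mu - mu.real univ / Module.finrank ℝ E * Real.log (lam.real K)

/-! ### The support function -/

theorem exists_supp {K : Set E} (hK : IsCompact K) (hne : K.Nonempty) (u : E) :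
    ∃ y ∈ K, ⟪y, u⟫ = supp K u ∧ ∀ z ∈ K, ⟪z, u⟫ ≤ ⟪y, u⟫ := by
  have hc : ContinuousOn (fun x : E => ⟪x, u⟫) K :=
    (continuous_id.inner continuous_const).continuousOn
  obtain ⟨y, hy, hmax⟩ := hK.exists_isMaxOn hne hc
  refine ⟨y, hy, ?_, fun z hz => hmax hz⟩
  apply le_antisymm
  · exact le_csSup (hK.image_of_continuousOn hc).bddAbove ⟨y, hy, rfl⟩
  · apply csSup_le (hne.image _)
    rintro _ ⟨z, hz, rfl⟩
    exact hmax hz

theorem le_supp {K : Set E} (hK : IsCompact K) {x : E} (hx : x ∈ K) (u : E) :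
    ⟪x, u⟫ ≤ supp K u := by
  have hc : ContinuousOn (fun x : E => ⟪x, u⟫) K :=
    (continuous_id.inner continuous_const).continuousOn
  exact le_csSup (hK.image_of_continuousOn hc).bddAbove ⟨x, hx, rfl⟩

theorem supp_le {K : Set E} (hne : K.Nonempty) {u : E} {c : ℝ} (h : ∀ x ∈ K, ⟪x, u⟫ ≤ c) :
    supp K u ≤ c := by
  apply csSup_le (hne.image _)
  rintro _ ⟨z, hz, rfl⟩
  exact h z hz

theorem supp_mono {K L : Set E} (hne : K.Nonempty) (hL : IsCompact L) (h : K ⊆ L) (u : E) :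
    supp K u ≤ supp L u :=
  supp_le hne fun _ hx => le_supp hL (h hx) u

theorem supp_nonneg {K : Set E} (hK : IsCompact K) (h0 : (0 : E) ∈ K) (u : E) :
    0 ≤ supp K u := by
  have := le_supp hK h0 u
  simpa using this

theorem supp_sub_le {K : Set E} (hK : IsCompact K) (hne : K.Nonempty) {r : ℝ}
    (hr : ∀ x ∈ K, ‖x‖ ≤ r) (u w : E) : supp K u - supp K w ≤ r * ‖u - w‖ := by
  obtain ⟨y, hy, hyu, -⟩ := exists_supp hK hne u
  have h1 := le_supp hK hy w
  have h2 : ⟪y, u⟫ - ⟪y, w⟫ = ⟪y, u - w⟫ := by rw [inner_sub_right]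
  have h3 : ⟪y, u - w⟫ ≤ ‖y‖ * ‖u - w‖ := real_inner_le_norm _ _
  have h4 : ‖y‖ * ‖u - w‖ ≤ r * ‖u - w‖ :=
    mul_le_mul_of_nonneg_right (hr y hy) (norm_nonneg _)
  linarith

theorem continuous_supp {K : Set E} (hK : IsCompact K) (hne : K.Nonempty) :
    Continuous (supp K) := by
  obtain ⟨r, hr⟩ := hK.isBounded.exists_norm_le
  have h : LipschitzWith (Real.toNNReal (max r 0)) (supp K) := by
    apply LipschitzWith.of_dist_le_mul
    intro u w
    rw [Real.coe_toNNReal _ (le_max_right _ _), Real.dist_eq, dist_eq_norm]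
    have hr' : ∀ x ∈ K, ‖x‖ ≤ max r 0 := fun x hx => (hr x hx).trans (le_max_left _ _)
    rw [abs_le]
    constructor
    · have := supp_sub_le hK hne hr' w u
      rw [norm_sub_rev] at this
      linarith
    · exact supp_sub_le hK hne hr' u w
  exact h.continuous

theorem supp_le_norm {K : Set E} (hne : K.Nonempty) {r : ℝ} (hr : ∀ x ∈ K, ‖x‖ ≤ r)
    (u : E) : supp K u ≤ r * ‖u‖ := by
  refine supp_le hne fun x hx => (real_inner_le_norm _ _).trans ?_
  exact mul_le_mul_of_nonneg_right (hr x hx) (norm_nonneg _)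

/-- If `K` is within `δ` of `L` then the support functions differ by at most `δ ‖u‖`. -/
theorem supp_le_of_cthickening {K L : Set E} (hne : K.Nonempty) (hL : IsCompact L)
    {δ : ℝ} (h : ∀ x ∈ K, ∃ y ∈ L, ‖x - y‖ ≤ δ) (u : E) : supp K u ≤ supp L u + δ * ‖u‖ := by
  refine supp_le hne fun x hx => ?_
  obtain ⟨y, hy, hxy⟩ := h x hx
  have h1 := le_supp hL hy u
  have h2 : ⟪x, u⟫ = ⟪y, u⟫ + ⟪x - y, u⟫ := by rw [← inner_add_left]; simp
  have h3 : ⟪x - y, u⟫ ≤ ‖x - y‖ * ‖u‖ := real_inner_le_norm _ _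
  have h4 : ‖x - y‖ * ‖u‖ ≤ δ * ‖u‖ := mul_le_mul_of_nonneg_right hxy (norm_nonneg _)
  linarith

theorem supp_smul {K : Set E} {c : ℝ} (hc : 0 ≤ c) (u : E) : supp (c • K) u = c * supp K u := by
  unfold supp
  have : (fun x => ⟪x, u⟫) '' (c • K) = c • ((fun x => ⟪x, u⟫) '' K) := by
    ext r
    simp only [mem_image, mem_smul_set, smul_eq_mul]
    constructor
    · rintro ⟨x, ⟨y, hy, rfl⟩, rfl⟩
      exact ⟨_, ⟨y, hy, rfl⟩, by rw [real_inner_smul_left]⟩
    · rintro ⟨_, ⟨y, hy, rfl⟩, rfl⟩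
      exact ⟨_, ⟨y, hy, rfl⟩, by rw [real_inner_smul_left]⟩
  rw [this, Real.sSup_smul_of_nonneg hc, smul_eq_mul]

theorem segs_subset {K ω : Set E} (hK : Convex ℝ K) (h0 : (0 : E) ∈ K) : segs K ω ⊆ K := by
  rintro x ⟨u, -, y, hy, -, s, hs, rfl⟩
  exact hK.smul_mem_of_zero_mem h0 hy hs

theorem segs_mono {K ω ω' : Set E} (h : ω ⊆ ω') : segs K ω ⊆ segs K ω' := by
  rintro x ⟨u, hu, hx⟩
  exact ⟨u, h hu, hx⟩

end Pool.Agent.Lib.MP_abca01_gt
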