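import Pool.Agent.Lib.MP_abca01_gt.Defs

/-!
# Essential subspaces, 1: the volume of boxes
-/

set_option autoImplicit false

open MeasureTheory Set Metric
open scoped RealInnerProductSpace Pointwise

namespace Pool.Agent.Lib.MP_abca01_gt.Ess

/-- The volume of a box with sides in the directions of an orthonormal basis. -/
theorem box_vol (E : Type) [NormedAddCommGroup E] [InnerProductSpace ℝ E] [FiniteDimensional ℝ E]
    [MeasurableSpace E] [BorelSpace E] (lam : Measure E) [lam.IsAddHaarMeasure] :
    ∃ κ : ℝ, 0 < κ ∧ ∀ (ι : Type) [Fintype ι] (e : OrthonormalBasis ι ℝ E) (g : E) (a : ι → ℝ),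
      (∀ i, 0 ≤ a i) → lam.real {x | ∀ i, |⟪x - g, e i⟫| ≤ a i} = κ * ∏ i, (2 * a i) := by
  have hlam : lam = lam.addHaarScalarFactor (volume : Measure E) • (volume : Measure E) :=
    Measure.isAddLeftInvariant_eq_smul lam volume
  have hpos : 0 < lam.addHaarScalarFactor (volume : Measure E) :=
    Measure.addHaarScalarFactor_pos_of_isAddHaarMeasure lam volume
  refine ⟨lam.addHaarScalarFactor (volume : Measure E), by exact_mod_cast hpos, ?_⟩
  intro ι _ e g a ha
  have h1 : lam.real {x | ∀ i, |⟪x - g, e i⟫| ≤ a i} =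
      lam.real {x | ∀ i, |⟪x, e i⟫| ≤ a i} := by
    have h2 : {x | ∀ i, |⟪x - g, e i⟫| ≤ a i} =
        (fun x => x + (-g)) ⁻¹' {x | ∀ i, |⟪x, e i⟫| ≤ a i} := by
      ext x
      simp [sub_eq_add_neg]
    rw [measureReal_def, h2, measure_preimage_add_right, ← measureReal_def]
  have h3 : (volume : Measure E) {x | ∀ i, |⟪x, e i⟫| ≤ a i} = ENNReal.ofReal (∏ i, (2 * a i)) := by
    have hmp : MeasurePreserving (fun x : E => WithLp.ofLp (e.repr x)) volume volume :=
      (PiLp.volume_preserving_ofLp ι).comp e.measurePreserving_repr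
    have h4 : {x | ∀ i, |⟪x, e i⟫| ≤ a i} =
        (fun x : E => WithLp.ofLp (e.repr x)) ⁻¹' Icc (fun i => -a i) (fun i => a i) := by
      ext x
      simp only [mem_ofPred_eq, mem_preimage, mem_Icc, Pi.le_def]
      rw [← forall_and]
      refine forall_congr' fun i => ?_
      rw [abs_le, e.repr_apply_apply, real_inner_comm]
    rw [h4, hmp.measure_preimage measurableSet_Icc.nullMeasurableSet, Real.volume_Icc_pi,
      ENNReal.ofReal_prod_of_nonneg (fun i _ => by have := ha i; positivity)]
    refine Finset.prod_congr rfl fun i _ => ?_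
    congr 1
    ring
  rw [h1]
  conv_lhs => rw [hlam]
  rw [measureReal_nnreal_smul_apply, measureReal_def, h3, ENNReal.toReal_ofReal]
  apply Finset.prod_nonneg
  intro i _
  have := ha i
  positivity

end Pool.Agent.Lib.MP_abca01_gt.Ess
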