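import Pool.Agent.Lib.MP_abca01_gt.Defs

/-!
# Essential subspaces, 5: the class of bodies and the functional

* `Cls Sg K`: `K` is a convex body cut out by halfspaces with exterior normals in `Sg`.
* `FF mu K ξ = ∫ log (h_K(u) - ⟪ξ, u⟫) dmu(u)`.
* `EE mu K`: the supremum of `FF mu K` over the interior of `K`.
-/

set_option autoImplicit false

open MeasureTheory Set Metric
open scoped RealInnerProductSpace Pointwise

namespace Pool.Agent.Lib.MP_abca01_gt.Ess

variable {E : Type} [NormedAddCommGroup E] [InnerProductSpace ℝ E]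

/-- Convex bodies cut out by halfspaces with exterior normals in `Sg`. -/
structure Cls (Sg K : Set E) : Prop where
  cpt : IsCompact K
  cvx : Convex ℝ K
  int : (interior K).Nonempty
  cut : ∀ x, (∀ u ∈ Sg, ⟪x, u⟫ ≤ supp K u) → x ∈ K

/-- The logarithmic integral of the support function with respect to `ξ`. -/
noncomputable def FF [MeasurableSpace E] (mu : Measure E) (K : Set E) (ξ : E) : ℝ :=
  ∫ u, Real.log (supp K u - ⟪ξ, u⟫) ∂mu

/-- The supremum of the logarithmic integrals. -/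
noncomputable def EE [MeasurableSpace E] (mu : Measure E) (K : Set E) : ℝ :=
  sSup (FF mu K '' interior K)

theorem le_supp_sub {K : Set E} (hK : IsCompact K) {ξ : E} {ρ : ℝ} (hρ : 0 ≤ ρ)
    (hb : closedBall ξ ρ ⊆ K) {u : E} (hu : ‖u‖ = 1) : ρ ≤ supp K u - ⟪ξ, u⟫ := by
  have h1 : ξ + ρ • u ∈ K := by
    apply hb
    rw [mem_closedBall, dist_eq_norm, add_sub_cancel_left, norm_smul, hu, mul_one,
      Real.norm_eq_abs, abs_of_nonneg hρ]
  have h2 := le_supp hK h1 u
  rw [inner_add_left, real_inner_smul_left, real_inner_self_eq_norm_sq, hu] at h2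
  linarith

theorem supp_sub_le' {K : Set E} {ξ : E} {D : ℝ} (hne : K.Nonempty)
    (hD : ∀ x ∈ K, ‖x - ξ‖ ≤ D) {u : E} (hu : ‖u‖ = 1) : supp K u - ⟪ξ, u⟫ ≤ D := by
  have h1 : supp K u ≤ D + ⟪ξ, u⟫ := by
    refine supp_le hne fun x hx => ?_
    have h2 : ⟪x, u⟫ = ⟪x - ξ, u⟫ + ⟪ξ, u⟫ := by rw [inner_sub_left]; ring
    have h3 := real_inner_le_norm (x - ξ) u
    rw [hu, mul_one] at h3
    linarith [hD x hx]
  linarith

theorem exists_diam {K : Set E} (hK : IsCompact K) :
    ∃ D : ℝ, 1 ≤ D ∧ ∀ x ∈ K, ∀ y ∈ K, ‖x - y‖ ≤ D := by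
  obtain ⟨r, hr⟩ := hK.isBounded.exists_norm_le
  refine ⟨max 1 (2 * r), le_max_left _ _, fun x hx y hy => ?_⟩
  refine (norm_sub_le x y).trans (le_trans ?_ (le_max_right _ _))
  linarith [hr x hx, hr y hy]

theorem exists_ball {K : Set E} {ξ : E} (hξ : ξ ∈ interior K) :
    ∃ ρ : ℝ, 0 < ρ ∧ closedBall ξ ρ ⊆ K := by
  obtain ⟨ε, hε, h⟩ := Metric.isOpen_iff.1 isOpen_interior ξ hξ
  refine ⟨ε / 2, by linarith, fun x hx => interior_subset (h ?_)⟩
  rw [mem_closedBall] at hx
  rw [mem_ball]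
  linarith

theorem mem_int {K : Set E} {ξ : E} {ρ : ℝ} (hρ : 0 < ρ) (h : closedBall ξ ρ ⊆ K) :
    ξ ∈ interior K :=
  mem_interior_iff_mem_nhds.2 (Filter.mem_of_superset (closedBall_mem_nhds ξ hρ) h)

section meas

variable [MeasurableSpace E] [BorelSpace E] {mu : Measure E} [IsFiniteMeasure mu]
  (hmu : ∀ᵐ u ∂mu, ‖u‖ = 1)

include hmu

theorem cont_log {K : Set E} (hK : IsCompact K) (hne : K.Nonempty) (ξ : E) :
    Measurable fun u => Real.log (supp K u - ⟪ξ, u⟫) :=
  Real.measurable_log.comp ((continuous_supp hK hne).sub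
    (continuous_const.inner continuous_id)).measurable

theorem int_FF {K : Set E} (hK : IsCompact K) {ξ : E} (hξ : ξ ∈ interior K) :
    Integrable (fun u => Real.log (supp K u - ⟪ξ, u⟫)) mu := by
  obtain ⟨ρ, hρ, hb⟩ := exists_ball hξ
  obtain ⟨D, hD1, hD⟩ := exists_diam hK
  have hne : K.Nonempty := ⟨ξ, interior_subset hξ⟩
  refine Integrable.mono' (integrable_const (|Real.log ρ| + |Real.log D|))
    (cont_log hmu hK hne ξ).aestronglyMeasurable ?_
  filter_upwards [hmu] with u hu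
  have h1 := le_supp_sub hK hρ.le hb hu
  have h2 := supp_sub_le' hne (fun x hx => hD x hx ξ (interior_subset hξ)) hu
  have h3 := Real.log_le_log hρ h1
  have h4 := Real.log_le_log (lt_of_lt_of_le hρ h1) h2
  rw [Real.norm_eq_abs, abs_le]
  constructor
  · have := neg_abs_le (Real.log ρ)
    have := abs_nonneg (Real.log D)
    linarith
  · have := le_abs_self (Real.log D)
    have := abs_nonneg (Real.log ρ)
    linarith

theorem FF_le {K : Set E} (hK : IsCompact K) {ξ : E} (hξ : ξ ∈ interior K) {D : ℝ}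
    (hD : ∀ x ∈ K, ‖x - ξ‖ ≤ D) : FF mu K ξ ≤ mu.real univ * Real.log D := by
  obtain ⟨ρ, hρ, hb⟩ := exists_ball hξ
  have hne : K.Nonempty := ⟨ξ, interior_subset hξ⟩
  have h := integral_mono_ae (int_FF hmu hK hξ) (integrable_const (Real.log D)) (by
    filter_upwards [hmu] with u hu
    exact Real.log_le_log (lt_of_lt_of_le hρ (le_supp_sub hK hρ.le hb hu))
      (supp_sub_le' hne hD hu))
  rw [integral_const, smul_eq_mul] at h
  exact h

theorem le_FF {K : Set E} (hK : IsCompact K) {ξ : E} {ρ : ℝ} (hρ : 0 < ρ)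
    (hb : closedBall ξ ρ ⊆ K) : mu.real univ * Real.log ρ ≤ FF mu K ξ := by
  have h := integral_mono_ae (integrable_const (Real.log ρ)) (int_FF hmu hK (mem_int hρ hb)) (by
    filter_upwards [hmu] with u hu
    exact Real.log_le_log hρ (le_supp_sub hK hρ.le hb hu))
  rw [integral_const, smul_eq_mul] at h
  exact h

theorem bdd_FF {K : Set E} (hK : IsCompact K) : BddAbove (FF mu K '' interior K) := by
  obtain ⟨D, hD1, hD⟩ := exists_diam hK
  refine ⟨mu.real univ * Real.log D, ?_⟩
  rintro _ ⟨ξ, hξ, rfl⟩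
  exact FF_le hmu hK hξ (fun x hx => hD x hx ξ (interior_subset hξ))

theorem FF_le_EE {K : Set E} (hK : IsCompact K) {ξ : E} (hξ : ξ ∈ interior K) :
    FF mu K ξ ≤ EE mu K :=
  le_csSup (bdd_FF hmu hK) ⟨ξ, hξ, rfl⟩

omit hmu [BorelSpace E] [IsFiniteMeasure mu] in
theorem exists_FF {K : Set E} (hi : (interior K).Nonempty) {ε : ℝ} (hε : 0 < ε) :
    ∃ ξ ∈ interior K, EE mu K - ε < FF mu K ξ := by
  obtain ⟨_, ⟨ξ, hξ, rfl⟩, h⟩ := exists_lt_of_lt_csSup (hi.image (FF mu K))
    (show EE mu K - ε < sSup (FF mu K '' interior K) by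
      change EE mu K - ε < EE mu K
      linarith)
  exact ⟨ξ, hξ, h⟩

omit hmu [BorelSpace E] [IsFiniteMeasure mu] in
theorem EE_le {K : Set E} (hi : (interior K).Nonempty) {A : ℝ}
    (h : ∀ ξ ∈ interior K, FF mu K ξ ≤ A) : EE mu K ≤ A := by
  apply csSup_le (hi.image _)
  rintro _ ⟨ξ, hξ, rfl⟩
  exact h ξ hξ

end meas

/-! ### Translations and dilations -/

theorem supp_add {K : Set E} (a u : E) (hK : IsCompact K) (hne : K.Nonempty) :
    supp ((fun x => x + a) '' K) u = supp K u + ⟪a, u⟫ := by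
  apply le_antisymm
  · refine supp_le (hne.image _) ?_
    rintro _ ⟨x, hx, rfl⟩
    rw [inner_add_left]
    linarith [le_supp hK hx u]
  · obtain ⟨y, hy, hyu, -⟩ := exists_supp hK hne u
    have h1 : IsCompact ((fun x => x + a) '' K) := hK.image (by fun_prop)
    have h2 := le_supp h1 (mem_image_of_mem _ hy) u
    rw [inner_add_left, hyu] at h2
    exact h2

theorem interior_add (K : Set E) (a : E) :
    interior ((fun x => x + a) '' K) = (fun x => x + a) '' interior K :=
  ((Homeomorph.addRight a).image_interior K).symm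

theorem FF_add [MeasurableSpace E] (mu : Measure E) {K : Set E} (hK : IsCompact K)
    (hne : K.Nonempty) (a ξ : E) : FF mu ((fun x => x + a) '' K) (ξ + a) = FF mu K ξ := by
  unfold FF
  simp only [supp_add a _ hK hne, inner_add_left, add_sub_add_right_eq_sub]

theorem EE_add [MeasurableSpace E] (mu : Measure E) {K : Set E} (hK : IsCompact K)
    (hne : K.Nonempty) (a : E) : EE mu ((fun x => x + a) '' K) = EE mu K := by
  unfold EE
  rw [interior_add, image_image]
  simp only [FF_add mu hK hne a]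

theorem Cls.add {Sg K : Set E} (h : Cls Sg K) (a : E) : Cls Sg ((fun x => x + a) '' K) := by
  have hne : K.Nonempty := h.int.mono interior_subset
  refine ⟨h.cpt.image (by fun_prop), ?_, ?_, ?_⟩
  · have h1 := h.cvx.translate a
    have h2 : (fun x => x + a) '' K = (fun x => a + x) '' K := by
      ext x
      simp only [mem_image, add_comm]
    rw [h2]
    exact h1
  · rw [interior_add]
    exact h.int.image _
  · intro x hx
    refine ⟨x - a, h.cut _ fun u hu => ?_, sub_add_cancel x a⟩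
    have h1 := hx u hu
    rw [supp_add a u h.cpt hne] at h1
    rw [inner_sub_left]
    linarith

theorem smul_interior {K : Set E} {s : ℝ} (hs : s ≠ 0) : interior (s • K) = s • interior K :=
  (interior_smul₀ hs K)

theorem FF_smul [MeasurableSpace E] [BorelSpace E] {mu : Measure E} [IsFiniteMeasure mu]
    (hmu : ∀ᵐ u ∂mu, ‖u‖ = 1) {K : Set E} (hK : IsCompact K) {ξ : E} (hξ : ξ ∈ interior K)
    {s : ℝ} (hs : 0 < s) : FF mu (s • K) (s • ξ) = FF mu K ξ + mu.real univ * Real.log s := by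
  obtain ⟨ρ, hρ, hb⟩ := exists_ball hξ
  unfold FF
  have h1 : ∫ u, Real.log (supp (s • K) u - ⟪s • ξ, u⟫) ∂mu =
      ∫ u, (Real.log (supp K u - ⟪ξ, u⟫) + Real.log s) ∂mu := by
    apply integral_congr_ae
    filter_upwards [hmu] with u hu
    have h2 := lt_of_lt_of_le hρ (le_supp_sub hK hρ.le hb hu)
    rw [supp_smul hs.le, real_inner_smul_left, ← mul_sub, Real.log_mul hs.ne' h2.ne', add_comm]
  rw [h1, integral_add (int_FF hmu hK hξ) (integrable_const _), integral_const, smul_eq_mul]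

theorem EE_smul [MeasurableSpace E] [BorelSpace E] {mu : Measure E} [IsFiniteMeasure mu]
    (hmu : ∀ᵐ u ∂mu, ‖u‖ = 1) {K : Set E} (hK : IsCompact K) (hi : (interior K).Nonempty)
    {s : ℝ} (hs : 0 < s) : EE mu (s • K) = EE mu K + mu.real univ * Real.log s := by
  have hsK : IsCompact (s • K) := hK.smul s
  have hii : (interior (s • K)).Nonempty := by
    rw [smul_interior hs.ne']
    exact hi.smul_set
  apply le_antisymm
  · refine EE_le hii fun ξ hξ => ?_
    rw [smul_interior hs.ne'] at hξ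
    obtain ⟨η, hη, rfl⟩ := hξ
    rw [FF_smul hmu hK hη hs]
    linarith [FF_le_EE hmu hK hη]
  · refine le_of_forall_pos_lt_add fun ε hε => ?_
    obtain ⟨ξ, hξ, h1⟩ := exists_FF (mu := mu) hi hε
    have h2 : s • ξ ∈ interior (s • K) := by
      rw [smul_interior hs.ne']
      exact smul_mem_smul_set hξ
    have h3 := FF_le_EE hmu hsK h2
    rw [FF_smul hmu hK hξ hs] at h3
    linarith

theorem Cls.smul {Sg K : Set E} (h : Cls Sg K) {s : ℝ} (hs : 0 < s) : Cls Sg (s • K) := by
  refine ⟨h.cpt.smul s, h.cvx.smul s, ?_, ?_⟩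
  · rw [smul_interior hs.ne']
    exact h.int.smul_set
  · intro x hx
    refine ⟨s⁻¹ • x, h.cut _ fun u hu => ?_, ?_⟩
    · have h1 := hx u hu
      rw [supp_smul hs.le] at h1
      rw [real_inner_smul_left]
      calc s⁻¹ * ⟪x, u⟫ ≤ s⁻¹ * (s * supp K u) := mul_le_mul_of_nonneg_left h1 (by positivity)
        _ = supp K u := by field_simp
    · simp only
      rw [smul_inv_smul₀ hs.ne']

end Pool.Agent.Lib.MP_abca01_gt.Ess
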