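import Pool.Agent.Lib.MP_abca01_gt.ELow

/-!
# Essential subspaces, 7: long bodies and essential subspaces
-/

set_option autoImplicit false

open MeasureTheory Set Metric Filter Topology
open scoped RealInnerProductSpace Pointwise

namespace Pool.Agent.Lib.MP_abca01_gt.Ess

variable {E : Type} [NormedAddCommGroup E] [InnerProductSpace ℝ E]

/-- If the directions of the small axes of a body of the class are almost contained in a subspace,
much smaller than the other axes, then this subspace is essential. -/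
theorem ess_false {M : ℕ} {c : ℝ} (hc : 0 < c) {Sg : Set E} (hSg : ∀ u ∈ Sg, ‖u‖ = 1)
    (e : OrthonormalBasis (Fin (M + 1)) ℝ E) (i : Fin M) {v : E} (hv : v ≠ 0)
    (hvL : ∀ m, i.castSucc < m → ⟪e m, v⟫ = 0) {ε : ℝ} (hε : 0 < ε)
    (h : ∀ u ∈ Sg, (∀ m, i.castSucc < m → |⟪e m, u⟫| < ε) → ⟪u, v⟫ ≤ 0) :
    ∃ η : ℝ, 0 < η ∧ ∀ (K : Set E) (g : E) (e' : OrthonormalBasis (Fin (M + 1)) ℝ E)
      (r : Fin (M + 1) → ℝ), Cls Sg K → Pos c K g e' r → (∀ m, ‖e' m - e m‖ < η) →
      η * r i.succ ≤ r i.castSucc := by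
  obtain ⟨m0, hm0⟩ : ∃ m, ⟪e m, v⟫ ≠ 0 := by
    by_contra hcon
    push Not at hcon
    apply hv
    rw [← e.sum_repr' v]
    simp [hcon]
  have hm0i : m0 ≤ i.castSucc := by
    by_contra hcon
    exact hm0 (hvL m0 (not_le.1 hcon))
  set β : ℝ := |⟪e m0, v⟫| with hβ
  have hβpos : 0 < β := abs_pos.2 hm0
  have hvpos : 0 < ‖v‖ := norm_pos_iff.2 hv
  set Λ : ℝ := 4 * c⁻¹ / β with hΛ
  have hΛpos : 0 < Λ := by positivity
  have hden : 0 < Λ * ‖v‖ / c + 1 := by positivity
  refine ⟨min (β / (2 * ‖v‖)) (ε / (Λ * ‖v‖ / c + 1)), by positivity, ?_⟩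
  intro K g e' r hK hP hee
  by_contra hcon
  push Not at hcon
  set η := min (β / (2 * ‖v‖)) (ε / (Λ * ‖v‖ / c + 1)) with hη
  have hηpos : 0 < η := by positivity
  have hη1 : η * ‖v‖ ≤ β / 2 := by
    have h1 : η ≤ β / (2 * ‖v‖) := min_le_left _ _
    calc η * ‖v‖ ≤ β / (2 * ‖v‖) * ‖v‖ := mul_le_mul_of_nonneg_right h1 hvpos.le
      _ = β / 2 := by field_simp
  have hη2 : η * (Λ * ‖v‖ / c + 1) ≤ ε := by
    have h1 : η ≤ ε / (Λ * ‖v‖ / c + 1) := min_le_right _ _
    rwa [le_div_iff₀ hden] at h1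
  have hri := hP.pos i.castSucc
  -- the point outside of `K`
  have hxK : g + (Λ * r i.castSucc) • v ∉ K := by
    intro hx
    have h1 := hP.up _ hx m0
    rw [add_sub_cancel_left, real_inner_smul_left, abs_mul, abs_of_pos (mul_pos hΛpos hri)] at h1
    have h2 : β / 2 ≤ |⟪v, e' m0⟫| := by
      have h3 : ⟪e m0, v⟫ = ⟪v, e' m0⟫ - ⟪e' m0 - e m0, v⟫ := by
        rw [inner_sub_left, real_inner_comm v (e' m0)]
        ring
      have h4 : |⟪e' m0 - e m0, v⟫| ≤ β / 2 := by
        refine (abs_real_inner_le_norm _ _).trans ?_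
        refine le_trans ?_ hη1
        exact mul_le_mul_of_nonneg_right (hee m0).le hvpos.le
      have h5 : β ≤ |⟪v, e' m0⟫| + |⟪e' m0 - e m0, v⟫| := by
        rw [hβ, h3]
        exact abs_sub _ _
      linarith
    have h3 : c⁻¹ * r m0 ≤ c⁻¹ * r i.castSucc :=
      mul_le_mul_of_nonneg_left (hP.mono hm0i) (by positivity)
    have h4 : Λ * r i.castSucc * (β / 2) ≤ Λ * r i.castSucc * |⟪v, e' m0⟫| :=
      mul_le_mul_of_nonneg_left h2 (mul_pos hΛpos hri).le
    have h5 : Λ * r i.castSucc * (β / 2) = 2 * (c⁻¹ * r i.castSucc) := by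
      rw [hΛ]
      field_simp
      ring
    have h6 : 0 < c⁻¹ * r i.castSucc := by positivity
    linarith
  have hex : ∃ u ∈ Sg, supp K u < ⟪g + (Λ * r i.castSucc) • v, u⟫ := by
    by_contra hcon'
    push Not at hcon'
    exact hxK (hK.cut _ hcon')
  obtain ⟨u, huS, hu⟩ := hex
  have hu1 := hSg u huS
  rw [inner_add_left, real_inner_smul_left] at hu
  have hm : ∀ m, c * (r m * |⟪e' m, u⟫|) < Λ * r i.castSucc * ⟪v, u⟫ := by
    intro m
    have h1 := hP.le_supp hK.cpt hc u m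
    linarith
  have hvu : 0 < ⟪v, u⟫ := by
    have h1 := hm m0
    have h2 : 0 ≤ c * (r m0 * |⟪e' m0, u⟫|) := by
      have := hP.pos m0
      positivity
    have h3 : 0 < Λ * r i.castSucc * ⟪v, u⟫ := lt_of_le_of_lt h2 h1
    exact (pos_iff_pos_of_mul_pos h3).1 (mul_pos hΛpos hri)
  have hvu1 : ⟪v, u⟫ ≤ ‖v‖ := by
    have := real_inner_le_norm v u
    rwa [hu1, mul_one] at this
  have h1 := h u huS (by
    intro m him
    have h2 := hm m
    have h3 : r i.castSucc < η * r m := by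
      refine lt_of_lt_of_le hcon (mul_le_mul_of_nonneg_left (hP.mono ?_) hηpos.le)
      rw [Fin.le_def, Fin.val_succ]
      rw [Fin.lt_def, Fin.val_castSucc] at him
      exact him
    have hrm := hP.pos m
    have h4 : Λ * r i.castSucc * ⟪v, u⟫ ≤ Λ * (η * r m) * ‖v‖ := by
      have h5 : Λ * r i.castSucc ≤ Λ * (η * r m) := mul_le_mul_of_nonneg_left h3.le hΛpos.le
      exact mul_le_mul h5 hvu1 hvu.le (by positivity)
    have h5 : |⟪e' m, u⟫| < Λ * ‖v‖ / c * η := by
      have h6 : c * (r m * |⟪e' m, u⟫|) < Λ * (η * r m) * ‖v‖ := lt_of_lt_of_le h2 h4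
      have h7 : (c * r m) * |⟪e' m, u⟫| < (c * r m) * (Λ * ‖v‖ / c * η) := by
        calc (c * r m) * |⟪e' m, u⟫| = c * (r m * |⟪e' m, u⟫|) := by ring
          _ < Λ * (η * r m) * ‖v‖ := h6
          _ = (c * r m) * (Λ * ‖v‖ / c * η) := by field_simp
      exact lt_of_mul_lt_mul_left h7 (by positivity)
    have h6 : |⟪e m, u⟫| ≤ |⟪e' m, u⟫| + η := by
      have h7 : ⟪e m, u⟫ = ⟪e' m, u⟫ - ⟪e' m - e m, u⟫ := by
        rw [inner_sub_left]
        ring
      have h8 : |⟪e' m - e m, u⟫| ≤ η := by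
        refine (abs_real_inner_le_norm _ _).trans ?_
        rw [hu1, mul_one]
        exact (hee m).le
      rw [h7]
      exact (abs_sub _ _).trans (by linarith)
    have h7 : Λ * ‖v‖ / c * η + η ≤ ε := by linarith
    linarith)
  rw [real_inner_comm] at h1
  linarith

/-- The span of the first `i + 1` vectors of an orthonormal basis. -/
def Lsp {M : ℕ} (e : OrthonormalBasis (Fin (M + 1)) ℝ E) (i : Fin M) : Submodule ℝ E where
  carrier := {u | ∀ m, i.castSucc < m → ⟪e m, u⟫ = 0}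
  add_mem' := by
    intro a b ha hb m hm
    rw [inner_add_right, ha m hm, hb m hm, add_zero]
  zero_mem' := by
    intro m _
    rw [inner_zero_right]
  smul_mem' := by
    intro s a ha m hm
    rw [real_inner_smul_right, ha m hm, mul_zero]

theorem mem_Lsp {M : ℕ} {e : OrthonormalBasis (Fin (M + 1)) ℝ E} {i : Fin M} {u : E} :
    u ∈ Lsp e i ↔ ∀ m, i.castSucc < m → ⟪e m, u⟫ = 0 := Iff.rfl

theorem Lsp_ne_bot {M : ℕ} (e : OrthonormalBasis (Fin (M + 1)) ℝ E) (i : Fin M) :
    Lsp e i ≠ ⊥ := by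
  intro h
  have h1 : e 0 ∈ Lsp e i := by
    intro m hm
    apply e.inner_eq_zero
    rintro rfl
    exact absurd hm (Fin.not_lt_zero _)
  rw [h, Submodule.mem_bot] at h1
  have h2 := e.norm_eq_one 0
  rw [h1, norm_zero] at h2
  exact zero_ne_one h2

theorem Lsp_ne_top {M : ℕ} (e : OrthonormalBasis (Fin (M + 1)) ℝ E) (i : Fin M) :
    Lsp e i ≠ ⊤ := by
  intro h
  have h1 : e (Fin.last M) ∈ Lsp e i := by rw [h]; trivial
  have h2 := h1 (Fin.last M) (Fin.castSucc_lt_last i)
  rw [real_inner_self_eq_norm_sq, e.norm_eq_one] at h2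
  norm_num at h2

theorem finrank_Lsp {M : ℕ} (e : OrthonormalBasis (Fin (M + 1)) ℝ E) (i : Fin M) :
    Module.finrank ℝ (Lsp e i) = (i : ℕ) + 1 := by
  have hle : (i : ℕ) + 1 ≤ M + 1 := by
    have := i.2
    omega
  have h1 : Lsp e i = Submodule.span ℝ (Set.range fun k : Fin ((i : ℕ) + 1) =>
      e (Fin.castLE hle k)) := by
    apply le_antisymm
    · intro u hu
      rw [← e.sum_repr' u]
      apply Submodule.sum_mem
      intro m _
      by_cases hm : i.castSucc < m
      · rw [hu m hm, zero_smul]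
        exact Submodule.zero_mem _
      · apply Submodule.smul_mem
        apply Submodule.subset_span
        rw [not_lt, Fin.le_def, Fin.val_castSucc] at hm
        refine ⟨⟨m, by omega⟩, ?_⟩
        simp
    · rw [Submodule.span_le]
      rintro _ ⟨k, rfl⟩
      intro m hm
      apply e.inner_eq_zero
      rintro rfl
      rw [Fin.lt_def, Fin.val_castSucc, Fin.val_castLE] at hm
      have := k.2
      omega
  have h2 : LinearIndependent ℝ fun k : Fin ((i : ℕ) + 1) => e (Fin.castLE hle k) :=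
    e.orthonormal.linearIndependent.comp _ (Fin.castLE_injective hle)
  rw [h1, finrank_span_eq_card h2, Fintype.card_fin]

theorem infDist_Lsp {M : ℕ} (e : OrthonormalBasis (Fin (M + 1)) ℝ E) (i : Fin M) {u : E} {ε : ℝ}
    (hε : 0 < ε) (h : ∀ m, i.castSucc < m → |⟪e m, u⟫| < ε / ((M : ℝ) + 1)) :
    infDist u (Lsp e i : Set E) < ε := by
  classical
  let p : E := ∑ m, if i.castSucc < m then (0 : E) else ⟪e m, u⟫ • e m
  have hp : p ∈ (Lsp e i : Set E) := by
    apply Submodule.sum_mem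
    intro m _
    split_ifs with hm
    · exact Submodule.zero_mem _
    · apply Submodule.smul_mem
      intro m' hm'
      apply e.inner_eq_zero
      rintro rfl
      exact hm hm'
  refine lt_of_le_of_lt (infDist_le_dist_of_mem hp) ?_
  rw [dist_eq_norm]
  have h1 : u - p = ∑ m, if i.castSucc < m then ⟪e m, u⟫ • e m else 0 := by
    conv_lhs => rw [← e.sum_repr' u]
    rw [← Finset.sum_sub_distrib]
    refine Finset.sum_congr rfl fun m _ => ?_
    split_ifs
    · rw [sub_zero]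
    · rw [sub_self]
  rw [h1]
  refine lt_of_le_of_lt (norm_sum_le _ _) ?_
  have h2 : ∀ m ∈ Finset.univ, ‖(if i.castSucc < m then ⟪e m, u⟫ • e m else (0 : E))‖ <
      ε / ((M : ℝ) + 1) := by
    intro m _
    split_ifs with hm
    · rw [norm_smul, e.norm_eq_one, mul_one, Real.norm_eq_abs]
      exact h m hm
    · rw [norm_zero]
      positivity
  refine lt_of_lt_of_eq (Finset.sum_lt_sum_of_nonempty Finset.univ_nonempty h2) ?_
  rw [Finset.sum_const, Finset.card_univ, Fintype.card_fin, nsmul_eq_mul]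
  push_cast
  field_simp

/-- The hypothesis on the subspaces. -/
def Hyp [MeasurableSpace E] (mu : Measure E) (Sg : Set E) : Prop :=
  ∀ L : Submodule ℝ E, L ≠ ⊥ → L ≠ ⊤ →
    (Module.finrank ℝ E : ℝ) * mu.real (L : Set E) < Module.finrank ℝ L * mu.real univ ∨
    ∃ v ∈ L, v ≠ 0 ∧ ∃ ε : ℝ, 0 < ε ∧ ∀ u ∈ Sg, infDist u (L : Set E) < ε → ⟪u, v⟫ ≤ 0

/-- small neighbourhoods of the subspace have almost the same measure -/
theorem exists_delta [MeasurableSpace E] [BorelSpace E] {mu : Measure E} [IsFiniteMeasure mu]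
    {M : ℕ} (e : OrthonormalBasis (Fin (M + 1)) ℝ E) (i : Fin M) {x : ℝ}
    (h : mu.real (Lsp e i : Set E) < x) : ∃ δ : ℝ, 0 < δ ∧ mu.real (BB e δ i) < x := by
  have h1 : (Lsp e i : Set E) = ⋂ k : ℕ, BB e (1 / ((k : ℝ) + 1)) i := by
    ext u
    rw [mem_iInter]
    constructor
    · intro hu k m hm
      rw [hu m hm, abs_zero]
      positivity
    · intro hu m hm
      by_contra hne
      obtain ⟨k, hk⟩ := exists_nat_one_div_lt (abs_pos.2 hne)
      exact absurd (hu k m hm) (not_lt.2 hk.le)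
  have h2 : Antitone fun k : ℕ => BB e (1 / ((k : ℝ) + 1)) i := by
    intro k l hkl u hu m hm
    refine lt_of_lt_of_le (hu m hm) ?_
    apply one_div_le_one_div_of_le (by positivity)
    have : (k : ℝ) ≤ l := by exact_mod_cast hkl
    linarith
  have h3 := tendsto_measure_iInter_atTop (μ := mu)
    (fun k : ℕ => (isOpen_BB e (1 / ((k : ℝ) + 1)) i).measurableSet.nullMeasurableSet) h2
    ⟨0, measure_ne_top mu _⟩
  rw [← h1] at h3
  have h4 : Tendsto (fun k : ℕ => mu.real (BB e (1 / ((k : ℝ) + 1)) i)) atTop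
      (𝓝 (mu.real (Lsp e i : Set E))) :=
    (ENNReal.tendsto_toReal (measure_ne_top mu _)).comp h3
  obtain ⟨k, hk⟩ := (h4.eventually (gt_mem_nhds h)).exists
  exact ⟨1 / ((k : ℝ) + 1), by positivity, hk⟩

end Pool.Agent.Lib.MP_abca01_gt.Ess
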