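import Pool.Agent.Lib.MP_abca01_gt.EVar
import Pool.Agent.Lib.MP_abca01_gt.Cap

/-!
# Essential subspaces, 11: the theorem
-/

set_option autoImplicit false

open MeasureTheory Set Metric Filter Topology
open scoped RealInnerProductSpace Pointwise

namespace Pool.Agent.Lib.MP_abca01_gt.Ess

open Capaux

theorem ess_theorem (hVD : StmtVolDeriv) (hBor : StmtBorel) (E : Type) [NormedAddCommGroup E]
    [InnerProductSpace ℝ E] [FiniteDimensional ℝ E] [MeasurableSpace E] [BorelSpace E]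
    (lam mu : Measure E) [lam.IsAddHaarMeasure] [IsFiniteMeasure mu]
    (hn : 0 < Module.finrank ℝ E) (Sg : Set E) (hSgc : IsClosed Sg)
    (hSgsph : Sg ⊆ sphere (0 : E) 1) (hSgmu : mu Sgᶜ = 0)
    (hex : ∀ v : E, v ≠ 0 → ∃ u ∈ Sg, ⟪u, v⟫ < 0)
    (hpl : ∀ v : E, v ≠ 0 → mu {u | ⟪u, v⟫ ≠ 0} ≠ 0)
    (hH : ∀ L : Submodule ℝ E, L ≠ ⊥ → L ≠ ⊤ →
      (Module.finrank ℝ E : ℝ) * mu.real (L : Set E) < Module.finrank ℝ L * mu.real univ ∨
      ∃ v ∈ L, v ≠ 0 ∧ ∃ ε : ℝ, 0 < ε ∧ ∀ u ∈ Sg, infDist u (L : Set E) < ε → ⟪u, v⟫ ≤ 0) :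
    ∃ K : Set E, IsCompact K ∧ Convex ℝ K ∧ (interior K).Nonempty ∧ (0 : E) ∈ K ∧
      ∀ ω : Set E, MeasurableSet ω → ω ⊆ sphere (0 : E) 1 → lam (segs K ω) = mu ω := by
  obtain ⟨M, hM⟩ : ∃ M, Module.finrank ℝ E = M + 1 := ⟨Module.finrank ℝ E - 1, by omega⟩
  have hSgae : ∀ᵐ u ∂mu, u ∈ Sg := hSgmu
  have hsph : mu (sphere (0 : E) 1)ᶜ = 0 := measure_mono_null (compl_subset_compl.2 hSgsph) hSgmu
  have hSg : ∀ u ∈ Sg, ‖u‖ = 1 := fun u hu => by simpa using hSgsph hu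
  have hmu : ∀ᵐ u ∂mu, ‖u‖ = 1 := by
    filter_upwards [hSgae] with u hu
    exact hSg u hu
  have hpos : ∀ x : E, x ≠ 0 → mu {u | ⟪x, u⟫ ≠ 0} ≠ 0 := by
    intro x hx h
    apply hpl x hx
    have h1 : {u : E | ⟪u, x⟫ ≠ 0} = {u | ⟪x, u⟫ ≠ 0} := by
      ext u
      simp only [mem_ofPred_eq, real_inner_comm]
    rw [h1]
    exact h
  obtain ⟨x0, hx0⟩ : ∃ x : E, x ≠ 0 := by
    have : Nontrivial E := Module.finrank_pos_iff.1 hn
    exact exists_ne 0
  have hmu0 : mu ≠ 0 := by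
    rintro rfl
    exact hpl x0 hx0 rfl
  have hMpos : 0 < mu.real univ := by
    rw [measureReal_def, ENNReal.toReal_pos_iff]
    refine ⟨?_, measure_lt_top _ _⟩
    rw [pos_iff_ne_zero]
    simpa using hmu0
  -- the minimiser
  obtain ⟨K0, hK0, hV0, hmin0⟩ := exists_min lam mu hmu hM hSg hH (exists_cls hSg hex)
  have hmin1 := fun K' (hK' : Cls Sg K') => min_ineq lam mu hmu hM hmin0 hK'
  obtain ⟨ξ₀, hξ₀, C, hC, hst⟩ := exists_star mu hmu hpos hK0.cpt hK0.cvx hK0.int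
  have hne0 : K0.Nonempty := ⟨ξ₀, hξ₀⟩
  set K : Set E := (fun x => x + -ξ₀) '' K0 with hKdef
  have hK : Cls Sg K := hK0.add _
  have h0 : (0 : E) ∈ K := ⟨ξ₀, hξ₀, by simp⟩
  have hV : lam.real K = 1 := (vol_add lam _ _).trans hV0
  have hE : EE mu K = EE mu K0 := EE_add mu hK0.cpt hne0 _
  have hmin : ∀ K', Cls Sg K' →
      EE mu K + mu.real univ / ((M : ℝ) + 1) * Real.log (lam.real K') ≤ EE mu K' := by
    intro K' hK'
    rw [hE]
    exact hmin1 K' hK'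
  have hstar : ∀ ξ ∈ interior K, ‖ξ‖ ^ 2 ≤ C * (EE mu K - FF mu K ξ) := by
    intro ξ hξ
    rw [hKdef, interior_add] at hξ
    obtain ⟨η, hη, rfl⟩ := hξ
    have h1 := hst η hη
    rw [hE]
    have h2 : FF mu K (η + -ξ₀) = FF mu K0 η := FF_add mu hK0.cpt hne0 _ _
    simp only
    rw [h2, ← sub_eq_add_neg]
    exact h1
  have hnull := null_zero mu hmu hK.cpt hK.int h0 hC hstar
  have hvar : ∀ ω : Set E, IsCompact ω → ω ⊆ sphere (0 : E) 1 →
      mu.real ω * lam.real K ≤ mu.real univ * lam.real (segs K ω) := by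
    intro ω hω hωs
    rw [hV, mul_one]
    have hω' : IsCompact (ω ∩ Sg) := hω.inter_right hSgc
    have h1 : ∀ k : ℕ, mu.real ((ω ∩ Sg) ∩ {u | 1 / ((k : ℝ) + 1) ≤ supp K u}) ≤
        mu.real univ * lam.real (segs K ω) := by
      intro k
      refine (var_ineq lam mu hVD hmu hM hSgsph hK h0 hV hmin hC hstar hω' inter_subset_right
        (by positivity)).trans ?_
      apply mul_le_mul_of_nonneg_left _ hMpos.le
      exact measureReal_mono (segs_mono inter_subset_left)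
        (measure_ne_top_of_subset (segs_subset hK.cvx h0) hK.cpt.measure_lt_top.ne)
    have h2 : Monotone fun k : ℕ => (ω ∩ Sg) ∩ {u | 1 / ((k : ℝ) + 1) ≤ supp K u} := by
      intro k l hkl u hu
      refine ⟨hu.1, ?_⟩
      have h3 : 1 / ((k : ℝ) + 1) ≤ supp K u := hu.2
      have h4 : 1 / ((l : ℝ) + 1) ≤ 1 / ((k : ℝ) + 1) := by
        apply one_div_le_one_div_of_le (by positivity)
        have : (k : ℝ) ≤ l := by exact_mod_cast hkl
        linarith
      exact h4.trans h3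
    have h3 := tendsto_measure_iUnion_atTop (μ := mu) h2
    have h4 : mu (⋃ k : ℕ, (ω ∩ Sg) ∩ {u | 1 / ((k : ℝ) + 1) ≤ supp K u}) = mu ω := by
      apply measure_congr
      have h5 : ∀ᵐ u ∂mu, supp K u ≠ 0 := by
        rw [ae_iff]
        simpa using hnull
      filter_upwards [hSgae, h5] with u hu hu0
      apply propext
      constructor
      · intro h
        obtain ⟨k, hk⟩ := mem_iUnion.1 h
        exact hk.1.1
      · intro h
        have h6 : 0 < supp K u := lt_of_le_of_ne (supp_nonneg hK.cpt h0 u) (Ne.symm hu0)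
        obtain ⟨k, hk⟩ := exists_nat_one_div_lt h6
        exact mem_iUnion.2 ⟨k, ⟨h, hu⟩, hk.le⟩
    rw [h4] at h3
    have h5 : Tendsto (fun k : ℕ => mu.real ((ω ∩ Sg) ∩ {u | 1 / ((k : ℝ) + 1) ≤ supp K u}))
        atTop (𝓝 (mu.real ω)) := (ENNReal.tendsto_toReal (measure_ne_top mu _)).comp h3
    exact le_of_tendsto' h5 h1
  have hKv : 0 < lam.real K := by rw [hV]; exact one_pos
  have hbor := hBor E lam mu K hK.cpt hK.cvx h0 hKv hmu0 hsph hvar
  -- normalisation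
  set r : ℝ := (mu.real univ / lam.real K) ^ ((Module.finrank ℝ E : ℝ)⁻¹) with hrdef
  have hr : 0 < r := Real.rpow_pos_of_pos (div_pos hMpos hKv) _
  have hrn : r ^ Module.finrank ℝ E = mu.real univ / lam.real K :=
    Real.rpow_inv_natCast_pow (div_pos hMpos hKv).le hn.ne'
  refine ⟨r • K, hK.cpt.smul r, hK.cvx.smul r, (hK.smul hr).int, ⟨0, h0, by simp⟩, ?_⟩
  intro ω hω hωs
  have h5 : lam.real (segs (r • K) ω) = mu.real ω := by
    rw [segs_smul hr, vol_smul lam _ hr, hrn]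
    have h6 := hbor ω hω hωs
    field_simp
    linarith
  have h7 : lam (segs (r • K) ω) ≠ ⊤ :=
    measure_ne_top_of_subset (segs_subset (hK.cvx.smul r) ⟨0, h0, by simp⟩)
      (hK.cpt.smul r).measure_lt_top.ne
  rw [measureReal_def, measureReal_def] at h5
  exact (ENNReal.toReal_eq_toReal_iff' h7 (measure_ne_top _ _)).mp h5

end Pool.Agent.Lib.MP_abca01_gt.Ess
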