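import Pool.Agent.Lib.MP_abca01_gt.Defs

/-!
# Essential subspaces, 3: principal axes
-/

set_option autoImplicit false

open MeasureTheory Set Metric
open scoped RealInnerProductSpace Pointwise

namespace Pool.Agent.Lib.MP_abca01_gt.Ess

/-- Principal axes of the quadratic form `u ↦ ∑ ⟪v k, u⟫ ^ 2`. -/
theorem exists_axes (E : Type) [NormedAddCommGroup E] [InnerProductSpace ℝ E]
    [FiniteDimensional ℝ E] (N : ℕ) (hN : Module.finrank ℝ E = N) (v : Fin N → E)
    (hli : LinearIndependent ℝ v) :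
    ∃ (e : OrthonormalBasis (Fin N) ℝ E) (r : Fin N → ℝ), (∀ i, 0 < r i) ∧ Monotone r ∧
      ∀ u, ∑ k, ⟪v k, u⟫ ^ 2 = ∑ i, (r i) ^ 2 * ⟪e i, u⟫ ^ 2 := by
  let T : E →ₗ[ℝ] E := ∑ k, ((innerSL ℝ (v k)).toLinearMap).smulRight (v k)
  have hTa : ∀ x, T x = ∑ k, ⟪v k, x⟫ • v k := by
    intro x
    simp only [T, LinearMap.sum_apply, LinearMap.smulRight_apply, ContinuousLinearMap.coe_coe,
      innerSL_apply_apply]
  have hTi : ∀ x y, ⟪T x, y⟫ = ∑ k, ⟪v k, x⟫ * ⟪v k, y⟫ := by
    intro x y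
    rw [hTa, sum_inner]
    exact Finset.sum_congr rfl fun k _ => by rw [real_inner_smul_left]
  have hT : T.IsSymmetric := by
    intro x y
    rw [hTi, real_inner_comm, hTi]
    exact Finset.sum_congr rfl fun k _ => mul_comm _ _
  let e0 : OrthonormalBasis (Fin N) ℝ E := hT.eigenvectorBasis hN
  let l : Fin N → ℝ := hT.eigenvalues hN
  have hl : ∀ i, T (e0 i) = l i • e0 i := fun i => hT.apply_eigenvectorBasis hN i
  have hl2 : ∀ i, l i = ∑ k, ⟪v k, e0 i⟫ ^ 2 := by
    intro i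
    have h1 := hTi (e0 i) (e0 i)
    rw [hl, real_inner_smul_left, real_inner_self_eq_norm_sq, e0.norm_eq_one] at h1
    simp only [one_pow, mul_one] at h1
    rw [h1]
    exact Finset.sum_congr rfl fun k _ => by ring
  have hpos : ∀ i, 0 < l i := by
    intro i
    rw [hl2]
    have h0 : ∀ k ∈ Finset.univ, 0 ≤ ⟪v k, e0 i⟫ ^ 2 := fun k _ => sq_nonneg _
    refine lt_of_le_of_ne (Finset.sum_nonneg h0) (fun h => ?_)
    have h1 := (Finset.sum_eq_zero_iff_of_nonneg h0).1 h.symm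
    have hspan : Submodule.span ℝ (Set.range v) = ⊤ :=
      hli.span_eq_top_of_card_eq_finrank' (by rw [Fintype.card_fin, hN])
    have h2 : ∀ x : E, ⟪x, e0 i⟫ = 0 := by
      intro x
      have hx : x ∈ Submodule.span ℝ (Set.range v) := by rw [hspan]; trivial
      induction hx using Submodule.span_induction with
      | mem y hy =>
        obtain ⟨k, rfl⟩ := hy
        exact pow_eq_zero_iff (two_ne_zero) |>.1 (h1 k (Finset.mem_univ k))
      | zero => rw [inner_zero_left]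
      | add y z _ _ hy hz => rw [inner_add_left, hy, hz, add_zero]
      | smul a y _ hy => rw [real_inner_smul_left, hy, mul_zero]
    have h3 := h2 (e0 i)
    rw [real_inner_self_eq_norm_sq, e0.norm_eq_one] at h3
    norm_num at h3
  let r0 : Fin N → ℝ := fun i => Real.sqrt (l i)
  have hr0 : ∀ i, r0 i ^ 2 = l i := fun i => Real.sq_sqrt (hpos i).le
  let s := Tuple.sort r0
  refine ⟨e0.reindex s.symm, r0 ∘ s, fun i => Real.sqrt_pos.2 (hpos _), Tuple.monotone_sort r0, ?_⟩
  intro u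
  have h1 : ∑ k, ⟪v k, u⟫ ^ 2 = ∑ i, l i * ⟪e0 i, u⟫ ^ 2 := by
    have h2 : ∑ k, ⟪v k, u⟫ ^ 2 = ⟪T u, u⟫ := by
      rw [hTi]
      exact Finset.sum_congr rfl fun k _ => by ring
    rw [h2, ← e0.sum_inner_mul_inner (T u) u]
    refine Finset.sum_congr rfl fun i _ => ?_
    rw [hT u (e0 i), hl, real_inner_smul_right, real_inner_comm u]
    ring
  rw [h1, ← Equiv.sum_comp s]
  refine Finset.sum_congr rfl fun i _ => ?_
  simp only [Function.comp_apply, OrthonormalBasis.reindex_apply, Equiv.symm_symm]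
  rw [hr0]

end Pool.Agent.Lib.MP_abca01_gt.Ess
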