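import Pool.Agent.Lib.MP_abca01_gt.ESim
import Pool.Agent.Lib.MP_abca01_gt.ESpec

/-!
# Essential subspaces, 4: convex bodies between two boxes
-/

set_option autoImplicit false

open MeasureTheory Set Metric
open scoped RealInnerProductSpace Pointwise

namespace Pool.Agent.Lib.MP_abca01_gt.Ess

theorem mem_of_coeff {E : Type} [NormedAddCommGroup E] [InnerProductSpace ℝ E] {N : ℕ} {K : Set E}
    (hc : Convex ℝ K) {x0 : E} (hx0 : x0 ∈ K) {v : Fin N → E} (hv : ∀ i, x0 + v i ∈ K)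
    {β : Fin N → ℝ} (hβ : ∀ i, 0 ≤ β i) (hs : ∑ i, β i ≤ 1) : x0 + ∑ i, β i • v i ∈ K := by
  have h := hc.sum_mem (t := (Finset.univ : Finset (Option (Fin N))))
    (w := fun o => o.elim (1 - ∑ i, β i) β) (z := fun o => o.elim x0 (fun i => x0 + v i))
    (by
      intro o _
      cases o with
      | none => simpa using hs
      | some i => exact hβ i)
    (by rw [Fintype.sum_option]; simp)
    (by
      intro o _
      cases o with
      | none => exact hx0
      | some i => exact hv i)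
  rw [Fintype.sum_option] at h
  simp only [Option.elim_none, Option.elim_some, smul_add, Finset.sum_add_distrib] at h
  rw [← Finset.sum_smul, ← add_assoc, ← add_smul, sub_add_cancel, one_smul] at h
  exact h

/-- `K - g` is between the boxes with half sides `c r i` and `r i / c` in the directions `e i`. -/
structure Pos {E : Type} [NormedAddCommGroup E] [InnerProductSpace ℝ E] {N : ℕ} (c : ℝ)
    (K : Set E) (g : E) (e : OrthonormalBasis (Fin N) ℝ E) (r : Fin N → ℝ) : Prop where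
  mem : g ∈ K
  pos : ∀ i, 0 < r i
  mono : Monotone r
  up : ∀ x ∈ K, ∀ i, |⟪x - g, e i⟫| ≤ c⁻¹ * r i
  low : ∀ x, (∀ i, |⟪x - g, e i⟫| ≤ c * r i) → x ∈ K

theorem exists_pos (E : Type) [NormedAddCommGroup E] [InnerProductSpace ℝ E]
    [FiniteDimensional ℝ E] (N : ℕ) (hN : Module.finrank ℝ E = N) (hN0 : 0 < N) :
    ∃ c : ℝ, 0 < c ∧ c ≤ 1 ∧ ∀ K : Set E, IsCompact K → Convex ℝ K → (interior K).Nonempty →
      ∃ (g : E) (e : OrthonormalBasis (Fin N) ℝ E) (r : Fin N → ℝ), Pos c K g e r := by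
  have hN1 : (1 : ℝ) ≤ N := by exact_mod_cast hN0
  have hNpos : (0 : ℝ) < N := by linarith
  set c : ℝ := 1 / (2 * N ^ 2 * (N + 1)) with hc
  have hcpos : 0 < c := by positivity
  have hcinv : c⁻¹ = 2 * N ^ 2 * (N + 1) := by rw [hc, one_div, inv_inv]
  refine ⟨c, hcpos, ?_, ?_⟩
  · rw [hc, div_le_one (by positivity)]
    nlinarith
  intro K hK hcv hi
  obtain ⟨x0, hx0, v, hli, hv, hup⟩ := exists_simplex E N hN K hK hi
  obtain ⟨e, r, hr, hmono, hq⟩ := exists_axes E N hN v hli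
  have hri : ∀ k i, |⟪v k, e i⟫| ≤ r i := by
    intro k i
    have h1 := hq (e i)
    have h2 : ∑ j, (r j) ^ 2 * ⟪e j, e i⟫ ^ 2 = (r i) ^ 2 := by
      rw [Finset.sum_eq_single i]
      · rw [real_inner_self_eq_norm_sq, e.norm_eq_one]
        ring
      · intro j _ hj
        rw [e.inner_eq_zero hj]
        ring
      · intro h
        exact absurd (Finset.mem_univ i) h
    rw [h2] at h1
    have h3 : ⟪v k, e i⟫ ^ 2 ≤ (r i) ^ 2 := by
      rw [← h1]
      exact Finset.single_le_sum (f := fun k => ⟪v k, e i⟫ ^ 2) (fun _ _ => sq_nonneg _)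
        (Finset.mem_univ k)
    exact abs_le_of_sq_le_sq h3 (hr i).le
  have hmemK : ∀ β : Fin N → ℝ, (∀ i, 0 ≤ β i) → ∑ i, β i ≤ 1 → x0 + ∑ i, β i • v i ∈ K :=
    fun β h1 h2 => mem_of_coeff hcv hx0 hv h1 h2
  have hsumc : ∀ a : ℝ, ∑ _i : Fin N, a = N * a := by
    intro a
    rw [Finset.sum_const, Finset.card_univ, Fintype.card_fin, nsmul_eq_mul]
  refine ⟨x0 + ∑ i, (1 / ((N : ℝ) + 1)) • v i, e, r, ?_, hr, hmono, ?_, ?_⟩
  · apply hmemK
    · intro i
      positivity
    · rw [hsumc, mul_one_div, div_le_one (by positivity)]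
      linarith
  · intro x hx i
    obtain ⟨β, hβ, rfl⟩ := hup x hx
    have h1 : x0 + ∑ i, β i • v i - (x0 + ∑ i, (1 / ((N : ℝ) + 1)) • v i) =
        ∑ k, (β k - 1 / ((N : ℝ) + 1)) • v k := by
      simp only [sub_smul, Finset.sum_sub_distrib]
      abel
    rw [h1, sum_inner]
    have h2 : ∀ k ∈ Finset.univ, |⟪(β k - 1 / ((N : ℝ) + 1)) • v k, e i⟫| ≤ 2 * r i := by
      intro k _
      rw [real_inner_smul_left, abs_mul]
      have h3 : |β k - 1 / ((N : ℝ) + 1)| ≤ 2 := by
        have h4 : 0 < 1 / ((N : ℝ) + 1) := by positivity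
        have h5 : 1 / ((N : ℝ) + 1) ≤ 1 := by
          rw [div_le_one (by positivity)]
          linarith
        have h6 := abs_le.1 (hβ k)
        rw [abs_le]
        constructor <;> linarith [h6.1, h6.2]
      exact mul_le_mul h3 (hri k i) (abs_nonneg _) (by norm_num)
    calc |∑ k, ⟪(β k - 1 / ((N : ℝ) + 1)) • v k, e i⟫|
        ≤ ∑ k, |⟪(β k - 1 / ((N : ℝ) + 1)) • v k, e i⟫| := Finset.abs_sum_le_sum_abs _ _
      _ ≤ ∑ _k : Fin N, 2 * r i := Finset.sum_le_sum h2
      _ = N * (2 * r i) := hsumc _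
      _ ≤ c⁻¹ * r i := by
        rw [hcinv]
        have h7 : (N : ℝ) * 2 ≤ 2 * N ^ 2 * (N + 1) := by nlinarith
        have h8 := mul_le_mul_of_nonneg_right h7 (hr i).le
        linarith
  · intro x hx
    by_contra hxK
    obtain ⟨f, s, hfs, hsx⟩ := geometric_hahn_banach_closed_point hcv hK.isClosed hxK
    let u : E := (InnerProductSpace.toDual ℝ E).symm f
    have hfu : ∀ y, f y = ⟪u, y⟫ := fun y => (InnerProductSpace.toDual_symm_apply).symm
    set A : ℝ := ∑ k, |⟪v k, u⟫| with hA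
    have hA0 : 0 ≤ A := Finset.sum_nonneg fun _ _ => abs_nonneg _
    have hAi : ∀ i, r i * |⟪e i, u⟫| ≤ A := by
      intro i
      have h1 : (r i * |⟪e i, u⟫|) ^ 2 ≤ A ^ 2 := by
        calc (r i * |⟪e i, u⟫|) ^ 2 = (r i) ^ 2 * ⟪e i, u⟫ ^ 2 := by rw [mul_pow, sq_abs]
          _ ≤ ∑ j, (r j) ^ 2 * ⟪e j, u⟫ ^ 2 :=
            Finset.single_le_sum (f := fun j => (r j) ^ 2 * ⟪e j, u⟫ ^ 2)
              (fun _ _ => by positivity) (Finset.mem_univ i)
          _ = ∑ k, ⟪v k, u⟫ ^ 2 := (hq u).symm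
          _ ≤ ∑ k, |⟪v k, u⟫| * A := by
            refine Finset.sum_le_sum fun k _ => ?_
            rw [← sq_abs, sq]
            exact mul_le_mul_of_nonneg_left
              (Finset.single_le_sum (f := fun k => |⟪v k, u⟫|) (fun _ _ => abs_nonneg _)
                (Finset.mem_univ k)) (abs_nonneg _)
          _ = A ^ 2 := by rw [← Finset.sum_mul, ← hA, sq]
      exact (le_abs_self _).trans (abs_le_of_sq_le_sq h1 hA0)
    -- the point of `K`
    let β : Fin N → ℝ := fun k => 1 / ((N : ℝ) + 1) +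
      (if 0 ≤ ⟪v k, u⟫ then 1 else -1) / (N * ((N : ℝ) + 1))
    have hy := hmemK β
      (by
        intro k
        have h1 : 1 / ((N : ℝ) * (N + 1)) ≤ 1 / ((N : ℝ) + 1) := by
          apply one_div_le_one_div_of_le (by positivity)
          nlinarith
        simp only [β]
        split_ifs
        · positivity
        · rw [neg_div]
          linarith)
      (by
        have h1 : ∀ k ∈ Finset.univ, β k ≤ 1 / ((N : ℝ) + 1) + 1 / (N * ((N : ℝ) + 1)) := by
          intro k _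
          have h2 : 0 < 1 / ((N : ℝ) * (N + 1)) := by positivity
          simp only [β]
          split_ifs
          · exact le_rfl
          · rw [neg_div]
            linarith
        refine (Finset.sum_le_sum h1).trans ?_
        rw [hsumc]
        have h3 : (N : ℝ) * (1 / ((N : ℝ) + 1) + 1 / (N * ((N : ℝ) + 1))) = 1 := by
          field_simp
        exact h3.le)
    have h1 := hfs _ hy
    rw [hfu] at h1 hsx
    have h2 : ⟪u, x0 + ∑ i, β i • v i⟫ = ⟪u, x0 + ∑ i, (1 / ((N : ℝ) + 1)) • v i⟫ +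
        A / (N * (N + 1)) := by
      have h3 : x0 + ∑ i, β i • v i = (x0 + ∑ i, (1 / ((N : ℝ) + 1)) • v i) +
          ∑ k, ((if 0 ≤ ⟪v k, u⟫ then 1 else -1) / (N * ((N : ℝ) + 1))) • v k := by
        simp only [β, add_smul, Finset.sum_add_distrib]
        abel
      rw [h3, inner_add_right _ (x0 + ∑ i, (1 / ((N : ℝ) + 1)) • v i)]
      congr 1
      rw [inner_sum, hA, Finset.sum_div]
      refine Finset.sum_congr rfl fun k _ => ?_
      rw [real_inner_smul_right, real_inner_comm]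
      split_ifs with h4
      · rw [abs_of_nonneg h4]
        ring
      · rw [abs_of_neg (not_le.1 h4)]
        ring
    have h5 : ⟪u, x⟫ = ⟪u, x0 + ∑ i, (1 / ((N : ℝ) + 1)) • v i⟫ +
        ⟪x - (x0 + ∑ i, (1 / ((N : ℝ) + 1)) • v i), u⟫ := by
      rw [real_inner_comm u, inner_sub_right]
      ring
    have h6 : ⟪x - (x0 + ∑ i, (1 / ((N : ℝ) + 1)) • v i), u⟫ ≤ A / (N * (N + 1)) := by
      rw [← e.sum_inner_mul_inner]
      have h7 : ∀ i ∈ Finset.univ, ⟪x - (x0 + ∑ i, (1 / ((N : ℝ) + 1)) • v i), e i⟫ * ⟪e i, u⟫ ≤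
          c * A := by
        intro i _
        calc ⟪x - (x0 + ∑ i, (1 / ((N : ℝ) + 1)) • v i), e i⟫ * ⟪e i, u⟫
            ≤ |⟪x - (x0 + ∑ i, (1 / ((N : ℝ) + 1)) • v i), e i⟫ * ⟪e i, u⟫| := le_abs_self _
          _ = |⟪x - (x0 + ∑ i, (1 / ((N : ℝ) + 1)) • v i), e i⟫| * |⟪e i, u⟫| := abs_mul _ _
          _ ≤ c * r i * |⟪e i, u⟫| := mul_le_mul_of_nonneg_right (hx i) (abs_nonneg _)
          _ = c * (r i * |⟪e i, u⟫|) := by ring
          _ ≤ c * A := mul_le_mul_of_nonneg_left (hAi i) hcpos.le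
      refine (Finset.sum_le_sum h7).trans ?_
      rw [hsumc]
      have h8 : (N : ℝ) * (c * A) = A / (N * (N + 1)) / 2 := by
        rw [hc]
        field_simp
      rw [h8]
      have h9 : 0 ≤ A / (N * (N + 1)) := by positivity
      linarith
    linarith

end Pool.Agent.Lib.MP_abca01_gt.Ess
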