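import Pool.Agent.Lib.MP_abca01_gt.EDefs
import Pool.Agent.Lib.MP_abca01_gt.EPos

/-!
# Essential subspaces, 6: the lower bound of the logarithmic integral
-/

set_option autoImplicit false

open MeasureTheory Set Metric
open scoped RealInnerProductSpace Pointwise

namespace Pool.Agent.Lib.MP_abca01_gt.Ess

theorem sum_gap : ∀ (M : ℕ) (a : Fin (M + 1) → ℝ) (I : Fin (M + 1)),
    ∑ i : Fin M, (if I ≤ i.castSucc then a i.succ - a i.castSucc else 0) = a (Fin.last M) - a I := by
  intro M
  induction M with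
  | zero =>
    intro a I
    have : I = Fin.last 0 := Subsingleton.elim (α := Fin 1) _ _
    rw [this]
    simp
  | succ M ih =>
    intro a I
    rw [Fin.sum_univ_castSucc]
    refine Fin.lastCases ?_ ?_ I
    · have h1 : ∀ i : Fin (M + 1), ¬ Fin.last (M + 1) ≤ i.castSucc := fun i =>
        not_le.2 (Fin.castSucc_lt_last i)
      simp [h1]
    · intro J
      have h1 := ih (fun i => a i.castSucc) J
      have h2 : J.castSucc ≤ (Fin.last M).castSucc := Fin.castSucc_le_castSucc_iff.2 (Fin.le_last J)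
      rw [if_pos h2]
      have h3 : ∑ i : Fin M, (if J.castSucc ≤ i.castSucc.castSucc then
          a i.castSucc.succ - a i.castSucc.castSucc else 0) =
          ∑ i : Fin M, (if J ≤ i.castSucc then a i.succ.castSucc - a i.castSucc.castSucc else 0) := by
        refine Finset.sum_congr rfl fun i _ => ?_
        have h4 : (J.castSucc ≤ i.castSucc.castSucc) ↔ J ≤ i.castSucc :=
          Fin.castSucc_le_castSucc_iff
        have h5 : i.castSucc.succ = i.succ.castSucc := Fin.succ_castSucc i
        simp only [h4, h5]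
      rw [h3, h1]
      have h6 : (Fin.last M).succ = Fin.last (M + 1) := Fin.succ_last M
      rw [h6]
      ring

theorem sum_abel : ∀ (M : ℕ) (a : Fin (M + 1) → ℝ),
    ((M : ℝ) + 1) * a (Fin.last M) =
      ∑ m, a m + ∑ i : Fin M, ((i : ℝ) + 1) * (a i.succ - a i.castSucc) := by
  intro M
  induction M with
  | zero =>
    intro a
    simp
  | succ M ih =>
    intro a
    rw [Fin.sum_univ_castSucc (n := M + 1) (f := fun m => a m),
      Fin.sum_univ_castSucc (n := M) (f := fun i => ((i : ℝ) + 1) * (a i.succ - a i.castSucc))]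
    have h1 := ih (fun i => a i.castSucc)
    have h5 : ∀ i : Fin M, i.castSucc.succ = i.succ.castSucc := fun i => Fin.succ_castSucc i
    have h6 : (Fin.last M).succ = Fin.last (M + 1) := Fin.succ_last M
    simp only [h5, h6, Fin.val_castSucc, Fin.val_last]
    push_cast
    linarith

variable {E : Type} [NormedAddCommGroup E] [InnerProductSpace ℝ E]

theorem Pos.le_supp {N : ℕ} {c : ℝ} {K : Set E} {g : E} {e : OrthonormalBasis (Fin N) ℝ E}
    {r : Fin N → ℝ} (h : Pos c K g e r) (hK : IsCompact K) (hc : 0 < c) (u : E) (i : Fin N) :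
    c * (r i * |⟪e i, u⟫|) ≤ supp K u - ⟪g, u⟫ := by
  have hmem : ∀ s : ℝ, |s| ≤ 1 → g + (s * (c * r i)) • e i ∈ K := by
    intro s hs
    apply h.low
    intro j
    rw [add_sub_cancel_left, real_inner_smul_left]
    by_cases hj : i = j
    · subst hj
      rw [real_inner_self_eq_norm_sq, e.norm_eq_one, one_pow, mul_one, abs_mul,
        abs_of_pos (mul_pos hc (h.pos i))]
      exact mul_le_of_le_one_left (mul_pos hc (h.pos i)).le hs
    · rw [e.inner_eq_zero hj, mul_zero, abs_zero]
      exact (mul_pos hc (h.pos j)).le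
  rcases le_total 0 ⟪e i, u⟫ with h0 | h0
  · have h1 := MP_abca01_gt.le_supp hK (hmem 1 (by norm_num)) u
    rw [inner_add_left, real_inner_smul_left] at h1
    rw [abs_of_nonneg h0]
    linarith
  · have h1 := MP_abca01_gt.le_supp hK (hmem (-1) (by norm_num)) u
    rw [inner_add_left, real_inner_smul_left] at h1
    rw [abs_of_nonpos h0]
    linarith

theorem Pos.ball_sub {N : ℕ} {c : ℝ} {K : Set E} {g : E} {e : OrthonormalBasis (Fin N) ℝ E}
    {r : Fin N → ℝ} (h : Pos c K g e r) {ρ : ℝ} (hρ : ∀ i, ρ ≤ c * r i) :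
    closedBall g ρ ⊆ K := by
  intro x hx
  apply h.low
  intro i
  rw [mem_closedBall, dist_eq_norm] at hx
  have h1 := abs_real_inner_le_norm (x - g) (e i)
  rw [e.norm_eq_one, mul_one] at h1
  exact h1.trans (hx.trans (hρ i))

/-- the unit vectors which are almost orthogonal to `e m`, `m > i` -/
def BB {M : ℕ} (e : Fin (M + 1) → E) (δ : ℝ) (i : Fin M) : Set E :=
  {u | ∀ m, i.castSucc < m → |⟪e m, u⟫| < δ}

theorem isOpen_BB {M : ℕ} (e : Fin (M + 1) → E) (δ : ℝ) (i : Fin M) : IsOpen (BB e δ i) := by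
  have h1 : BB e δ i = ⋂ m, {u | i.castSucc < m → |⟪e m, u⟫| < δ} := by
    ext u
    simp [BB]
  rw [h1]
  apply isOpen_iInter_of_finite
  intro m
  by_cases h : i.castSucc < m
  · have h2 : {u : E | i.castSucc < m → |⟪e m, u⟫| < δ} = {u : E | |⟪e m, u⟫| < δ} := by
      ext u
      simp [h]
    rw [h2]
    exact isOpen_lt (by fun_prop) continuous_const
  · have h2 : {u : E | i.castSucc < m → |⟪e m, u⟫| < δ} = univ := by
      ext u
      simp [h]
    rw [h2]
    exact isOpen_univ

theorem low_point {M : ℕ} {c : ℝ} {K : Set E} {g : E} {e : OrthonormalBasis (Fin (M + 1)) ℝ E}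
    {r : Fin (M + 1) → ℝ} (h : Pos c K g e r) (hK : IsCompact K) (hc : 0 < c) {δ : ℝ} (hδ : 0 < δ)
    (hδ1 : ((M : ℝ) + 1) * δ ^ 2 ≤ 1) {u : E} (hu : ‖u‖ = 1) :
    Real.log (c * δ) + Real.log (r (Fin.last M)) -
      ∑ i : Fin M, (BB e δ i).indicator 1 u * (Real.log (r i.succ) - Real.log (r i.castSucc)) ≤
      Real.log (supp K u - ⟪g, u⟫) := by
  classical
  -- the largest index with a large coordinate
  have hex : ∃ m, δ ≤ |⟪e m, u⟫| := by
    by_contra hcon
    push Not at hcon
    have h1 : ∑ m, ⟪e m, u⟫ ^ 2 = 1 := by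
      have h2 := e.sum_sq_norm_inner_right u
      rw [hu] at h2
      simp only [Real.norm_eq_abs, sq_abs, one_pow] at h2
      exact h2
    have h3 : ∑ m, ⟪e m, u⟫ ^ 2 < ∑ _m : Fin (M + 1), δ ^ 2 := by
      apply Finset.sum_lt_sum_of_nonempty Finset.univ_nonempty
      intro m _
      rw [← sq_abs]
      exact pow_lt_pow_left₀ (hcon m) (abs_nonneg _) two_ne_zero
    rw [h1, Finset.sum_const, Finset.card_univ, Fintype.card_fin, nsmul_eq_mul] at h3
    push_cast at h3
    linarith
  let S : Finset (Fin (M + 1)) := Finset.univ.filter fun m => δ ≤ |⟪e m, u⟫|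
  have hS : S.Nonempty := by
    obtain ⟨m, hm⟩ := hex
    exact ⟨m, by simp [S, hm]⟩
  let I := S.max' hS
  have hI : δ ≤ |⟪e I, u⟫| := by
    have := S.max'_mem hS
    simpa [S] using this
  have hImax : ∀ m, I < m → |⟪e m, u⟫| < δ := by
    intro m hm
    by_contra hcon
    push Not at hcon
    exact absurd (S.le_max' m (by simp [S, hcon])) (not_le.2 hm)
  have hind : ∀ i : Fin M, (BB e δ i).indicator (1 : E → ℝ) u *
      (Real.log (r i.succ) - Real.log (r i.castSucc)) =
      if I ≤ i.castSucc then Real.log (r i.succ) - Real.log (r i.castSucc) else 0 := by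
    intro i
    by_cases hi : I ≤ i.castSucc
    · rw [if_pos hi, indicator_of_mem]
      · simp
      · intro m hm
        exact hImax m (lt_of_le_of_lt hi hm)
    · rw [if_neg hi, indicator_of_notMem, zero_mul]
      intro hmem
      exact absurd (hmem I (not_le.1 hi)) (not_lt.2 hI)
  simp only [hind]
  rw [sum_gap M (fun i => Real.log (r i)) I]
  have h1 := h.le_supp hK hc u I
  have h2 : c * δ * r I ≤ supp K u - ⟪g, u⟫ := by
    refine le_trans ?_ h1
    have h3 := mul_le_mul_of_nonneg_left hI (mul_pos hc (h.pos I)).le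
    linarith
  have h3 : 0 < c * δ * r I := by
    have := h.pos I
    positivity
  have h4 := Real.log_le_log h3 h2
  rw [Real.log_mul (by positivity) (h.pos I).ne'] at h4
  linarith

theorem low_FF [MeasurableSpace E] [BorelSpace E] {mu : Measure E} [IsFiniteMeasure mu]
    (hmu : ∀ᵐ u ∂mu, ‖u‖ = 1) {M : ℕ} {c : ℝ} {K : Set E} {g : E}
    {e : OrthonormalBasis (Fin (M + 1)) ℝ E} {r : Fin (M + 1) → ℝ} (h : Pos c K g e r)
    (hK : IsCompact K) (hg : g ∈ interior K) (hc : 0 < c) {δ : ℝ} (hδ : 0 < δ)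
    (hδ1 : ((M : ℝ) + 1) * δ ^ 2 ≤ 1) :
    mu.real univ * Real.log (c * δ) + mu.real univ / ((M : ℝ) + 1) * ∑ m, Real.log (r m) +
      ∑ i : Fin M, (((i : ℝ) + 1) / ((M : ℝ) + 1) * mu.real univ - mu.real (BB e δ i)) *
        (Real.log (r i.succ) - Real.log (r i.castSucc)) ≤ FF mu K g := by
  have hmeas : ∀ i : Fin M, MeasurableSet (BB e δ i) := fun i => (isOpen_BB e δ i).measurableSet
  have hint : ∀ i : Fin M, Integrable (fun u => (BB e δ i).indicator (1 : E → ℝ) u *
      (Real.log (r i.succ) - Real.log (r i.castSucc))) mu := by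
    intro i
    apply Integrable.mul_const
    exact (integrable_indicator_iff (hmeas i)).2 (integrable_const (1 : ℝ)).integrableOn
  have hsum : Integrable (fun u => ∑ i : Fin M, (BB e δ i).indicator (1 : E → ℝ) u *
      (Real.log (r i.succ) - Real.log (r i.castSucc))) mu :=
    integrable_finsetSum Finset.univ fun i _ => hint i
  have h1 : ∫ u, ((Real.log (c * δ) + Real.log (r (Fin.last M))) -
      ∑ i : Fin M, (BB e δ i).indicator (1 : E → ℝ) u *
        (Real.log (r i.succ) - Real.log (r i.castSucc))) ∂mu ≤ FF mu K g := by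
    refine integral_mono_ae ((integrable_const _).sub hsum) (int_FF hmu hK hg) ?_
    filter_upwards [hmu] with u hu
    exact low_point h hK hc hδ hδ1 hu
  have h2 : ∫ u, ((Real.log (c * δ) + Real.log (r (Fin.last M))) -
      ∑ i : Fin M, (BB e δ i).indicator (1 : E → ℝ) u *
        (Real.log (r i.succ) - Real.log (r i.castSucc))) ∂mu =
      mu.real univ * (Real.log (c * δ) + Real.log (r (Fin.last M))) -
      ∑ i : Fin M, mu.real (BB e δ i) * (Real.log (r i.succ) - Real.log (r i.castSucc)) := by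
    rw [integral_sub (integrable_const _) hsum,
      integral_const, smul_eq_mul, integral_finsetSum Finset.univ fun i _ => hint i]
    congr 1
    refine Finset.sum_congr rfl fun i _ => ?_
    rw [integral_mul_const, integral_indicator_one (hmeas i)]
  rw [h2] at h1
  refine le_trans (le_of_eq ?_) h1
  have h3 := sum_abel M (fun i => Real.log (r i))
  have hM : (0 : ℝ) < (M : ℝ) + 1 := by positivity
  have h4 : mu.real univ * Real.log (r (Fin.last M)) =
      mu.real univ / ((M : ℝ) + 1) * (∑ m, Real.log (r m) +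
        ∑ i : Fin M, ((i : ℝ) + 1) * (Real.log (r i.succ) - Real.log (r i.castSucc))) := by
    rw [← h3]
    field_simp
  rw [mul_add, h4]
  have h5 : ∑ i : Fin M, (((i : ℝ) + 1) / ((M : ℝ) + 1) * mu.real univ - mu.real (BB e δ i)) *
        (Real.log (r i.succ) - Real.log (r i.castSucc)) =
      mu.real univ / ((M : ℝ) + 1) *
        ∑ i : Fin M, ((i : ℝ) + 1) * (Real.log (r i.succ) - Real.log (r i.castSucc)) -
      ∑ i : Fin M, mu.real (BB e δ i) * (Real.log (r i.succ) - Real.log (r i.castSucc)) := by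
    rw [Finset.mul_sum, ← Finset.sum_sub_distrib]
    refine Finset.sum_congr rfl fun i _ => ?_
    ring
  rw [h5]
  ring

end Pool.Agent.Lib.MP_abca01_gt.Ess
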