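import Pool.Agent.Lib.MP_abca01_gt.Variation

/-!
# MP_abca01_gt: existence of a minimiser
-/

set_option autoImplicit false

open MeasureTheory Set Metric Filter Topology
open scoped RealInnerProductSpace Pointwise

namespace Pool.Agent.Lib.MP_abca01_gt

namespace ExistsMinaux

open Variationaux

variable {E : Type} [NormedAddCommGroup E] [InnerProductSpace ℝ E]

/-- Blaschke selection in the form used below. -/
theorem exists_limit [FiniteDimensional ℝ E] {Q : Set E} (hQ : IsCompact Q) (K : ℕ → Set E)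
    (hK : ∀ j, IsCompact (K j)) (hne : ∀ j, (K j).Nonempty) (hKQ : ∀ j, K j ⊆ Q) :
    ∃ (φ : ℕ → ℕ) (L : Set E) (r : ℕ → ℝ), StrictMono φ ∧ IsCompact L ∧ L.Nonempty ∧ L ⊆ Q ∧
      Tendsto r atTop (𝓝 0) ∧ (∀ j, 0 ≤ r j) ∧
      (∀ j, ∀ x ∈ K (φ j), ∃ y ∈ L, ‖x - y‖ ≤ r j) ∧
      (∀ j, ∀ x ∈ L, ∃ y ∈ K (φ j), ‖x - y‖ ≤ r j) := by
  let X : ℕ → TopologicalSpace.NonemptyCompacts E := fun j => ⟨⟨K j, hK j⟩, hne j⟩
  have hX : ∀ j, X j ∈ {L : TopologicalSpace.NonemptyCompacts E | (L : Set E) ⊆ Q} :=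
    fun j => hKQ j
  obtain ⟨L, hL, φ, hφ, hlim⟩ :=
    (TopologicalSpace.NonemptyCompacts.isCompact_subsets_of_isCompact hQ).tendsto_subseq hX
  rw [tendsto_iff_dist_tendsto_zero] at hlim
  have hlt : ∀ j : ℕ, hausdorffDist (K (φ j)) (L : Set E) <
      dist (X (φ j)) L + 1 / ((j : ℝ) + 1) := by
    intro j
    have h1 : dist (X (φ j)) L = hausdorffDist (K (φ j)) (L : Set E) :=
      Metric.NonemptyCompacts.dist_eq
    rw [h1]
    have : (0 : ℝ) < 1 / ((j : ℝ) + 1) := by positivity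
    linarith
  have hfin : ∀ j : ℕ, hausdorffEDist (K (φ j)) (L : Set E) ≠ ⊤ := fun j =>
    hausdorffEDist_ne_top_of_nonempty_of_bounded (hne _) L.nonempty (hK _).isBounded
      L.isCompact.isBounded
  refine ⟨φ, L, fun j => dist (X (φ j)) L + 1 / ((j : ℝ) + 1), hφ, L.isCompact, L.nonempty, hL,
    ?_, ?_, ?_, ?_⟩
  · have := hlim.add (tendsto_one_div_add_atTop_nhds_zero_nat (𝕜 := ℝ))
    simpa using this
  · intro j
    positivity
  · intro j x hx
    obtain ⟨y, hy, hxy⟩ := exists_dist_lt_of_hausdorffDist_lt hx (hlt j) (hfin j)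
    exact ⟨y, hy, by rw [← dist_eq_norm]; exact hxy.le⟩
  · intro j x hx
    obtain ⟨y, hy, hxy⟩ := exists_dist_lt_of_hausdorffDist_lt' hx (hlt j) (hfin j)
    exact ⟨y, hy, by rw [← dist_eq_norm, dist_comm]; exact hxy.le⟩

omit [InnerProductSpace ℝ E] in
theorem mem_of_approx {L : Set E} (hL : IsClosed L) {x : E} {s : ℕ → ℝ}
    (hs : Tendsto s atTop (𝓝 0)) (h : ∀ j, ∃ y ∈ L, ‖x - y‖ ≤ s j) : x ∈ L := by
  rw [← hL.closure_eq, Metric.mem_closure_iff]
  intro ε hε
  obtain ⟨j, hj⟩ := (hs.eventually (gt_mem_nhds hε)).exists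
  obtain ⟨y, hy, hxy⟩ := h j
  exact ⟨y, hy, by rw [dist_eq_norm]; linarith⟩

theorem convex_limit {L : Set E} (hL : IsClosed L) {K : ℕ → Set E} (hKc : ∀ j, Convex ℝ (K j))
    {r : ℕ → ℝ} (hr : Tendsto r atTop (𝓝 0)) (h1 : ∀ j, ∀ x ∈ K j, ∃ y ∈ L, ‖x - y‖ ≤ r j)
    (h2 : ∀ j, ∀ x ∈ L, ∃ y ∈ K j, ‖x - y‖ ≤ r j) : Convex ℝ L := by
  intro x hx y hy a b ha hb hab
  have hs : Tendsto (fun j => 2 * r j) atTop (𝓝 0) := by
    simpa using hr.const_mul 2
  apply mem_of_approx hL hs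
  intro j
  obtain ⟨x', hx', hxx⟩ := h2 j x hx
  obtain ⟨y', hy', hyy⟩ := h2 j y hy
  obtain ⟨z, hz, hzz⟩ := h1 j _ (hKc j hx' hy' ha hb hab)
  refine ⟨z, hz, ?_⟩
  have e : a • x + b • y - z = a • (x - x') + b • (y - y') + (a • x' + b • y' - z) := by
    rw [smul_sub, smul_sub]; abel
  rw [e]
  have n1 : ‖a • (x - x')‖ ≤ a * r j := by
    rw [norm_smul, Real.norm_of_nonneg ha]
    exact mul_le_mul_of_nonneg_left hxx ha
  have n2 : ‖b • (y - y')‖ ≤ b * r j := by
    rw [norm_smul, Real.norm_of_nonneg hb]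
    exact mul_le_mul_of_nonneg_left hyy hb
  calc ‖a • (x - x') + b • (y - y') + (a • x' + b • y' - z)‖
      ≤ ‖a • (x - x') + b • (y - y')‖ + ‖a • x' + b • y' - z‖ := norm_add_le _ _
    _ ≤ ‖a • (x - x')‖ + ‖b • (y - y')‖ + ‖a • x' + b • y' - z‖ := by
        gcongr; exact norm_add_le _ _
    _ ≤ a * r j + b * r j + r j := by linarith
    _ = 2 * r j := by rw [← add_mul, hab]; ring

theorem log_sub_log_le {a b c : ℝ} (hc : 0 < c) (ha : c ≤ a) (hb : c ≤ b) {d : ℝ}
    (hd : 0 ≤ d) (h : a ≤ b + d) : Real.log a ≤ Real.log b + d / c := by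
  have ha' : 0 < a := lt_of_lt_of_le hc ha
  have hb' : 0 < b := lt_of_lt_of_le hc hb
  have h1 : Real.log a - Real.log b ≤ a / b - 1 := by
    rw [← Real.log_div ha'.ne' hb'.ne']
    exact Real.log_le_sub_one_of_pos (div_pos ha' hb')
  have h2 : a / b - 1 ≤ d / b := by
    rw [div_sub_one hb'.ne']
    exact div_le_div_of_nonneg_right (by linarith) hb'.le
  have h3 : d / b ≤ d / c := div_le_div_of_nonneg_left hd hc hb
  linarith

end ExistsMinaux

open ExistsMinaux Variationaux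

theorem stmtExistsMin : StmtExistsMin := by
  intro E _ _ _ _ _ lam mu _ _ D Q c hQ hQc hQ0 hQv hDQ hDne hc hmu hae
  -- masses and the dimension
  have hMpos : 0 < mu.real univ := by
    rw [measureReal_def, ENNReal.toReal_pos_iff]
    refine ⟨?_, measure_lt_top _ _⟩
    rw [pos_iff_ne_zero]
    simpa using hmu
  have hn : 0 < Module.finrank ℝ E := by
    haveI : (ae mu).NeBot := ae_neBot.mpr hmu
    obtain ⟨u, hu⟩ := hae.exists
    haveI : Nontrivial E := ⟨u, 0, by
      intro h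
      rw [h, norm_zero] at hu
      exact zero_ne_one hu.1⟩
    exact Module.finrank_pos
  set n : ℕ := Module.finrank ℝ E with hndef
  have hn' : (0 : ℝ) < n := by exact_mod_cast hn
  set M : ℝ := mu.real univ with hMdef
  have hMn : 0 < M / n := by positivity
  -- bodies
  have haeK : ∀ K : Set E, IsCompact K → D ⊆ K → ∀ᵐ u ∂mu, ‖u‖ = 1 ∧ c ≤ supp K u := by
    intro K hK hDK
    filter_upwards [hae] with u hu
    obtain ⟨hu1, x, hx, hxu⟩ := hu
    exact ⟨hu1, hxu.trans (le_supp hK (hDK hx) u)⟩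
  have hint : ∀ K : Set E, IsCompact K → D ⊆ K →
      Integrable (fun u => Real.log (supp K u)) mu := fun K hK hDK =>
    integrable_log_supp hK (hDne.mono hDK) hc (haeK K hK hDK)
  have hlow : ∀ K : Set E, IsCompact K → D ⊆ K →
      M * Real.log c ≤ ∫ u, Real.log (supp K u) ∂mu := by
    intro K hK hDK
    have h1 : ∫ _u, Real.log c ∂mu ≤ ∫ u, Real.log (supp K u) ∂mu := by
      apply integral_mono_ae (integrable_const _) (hint K hK hDK)
      filter_upwards [haeK K hK hDK] with u hu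
      exact Real.log_le_log hc hu.2
    rwa [integral_const, smul_eq_mul] at h1
  set 𝒜 : Set (Set E) := {K | Adm D Q K ∧ 0 < lam.real K} with h𝒜
  have hQA : Q ∈ 𝒜 := ⟨⟨hQ, hQc, hQ0, hDQ, Subset.rfl⟩, hQv⟩
  have hbdd : BddBelow (Phi lam mu '' 𝒜) := by
    refine ⟨M * Real.log c - M / n * Real.log (lam.real Q), ?_⟩
    rintro _ ⟨K, ⟨hK, hKv⟩, rfl⟩
    have h1 := hlow K hK.cpt hK.low
    have h2 : Real.log (lam.real K) ≤ Real.log (lam.real Q) :=
      Real.log_le_log hKv (measureReal_mono hK.up hQ.measure_lt_top.ne)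
    have h3 := mul_le_mul_of_nonneg_left h2 hMn.le
    unfold Phi
    linarith
  obtain ⟨w, hwanti, hwlim, hwmem⟩ := exists_seq_tendsto_sInf (⟨_, Q, hQA, rfl⟩ :
    (Phi lam mu '' 𝒜).Nonempty) hbdd
  choose K hKA hKw using hwmem
  obtain ⟨φ, L, r, hφ, hLc, hLne, hLQ, hr, hr0, hKL, hLK⟩ := exists_limit hQ K
    (fun j => (hKA j).1.cpt) (fun j => ⟨0, (hKA j).1.zero⟩) (fun j => (hKA j).1.up)
  have hmemL : ∀ x, (∀ j, x ∈ K j) → x ∈ L := fun x hx =>
    mem_of_approx hLc.isClosed hr fun j => hKL j x (hx _)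
  have hLA : Adm D Q L := by
    refine ⟨hLc, ?_, ?_, ?_, hLQ⟩
    · exact convex_limit hLc.isClosed (fun j => (hKA (φ j)).1.cvx) hr hKL hLK
    · exact hmemL 0 fun j => (hKA j).1.zero
    · exact fun x hx => hmemL x fun j => (hKA j).1.low hx
  -- volumes
  have hvol1 : ∀ j, lam.real (K (φ j)) ≤ lam.real (cthickening (r j) L) := by
    intro j
    apply measureReal_mono _ hLc.isBounded.cthickening.measure_lt_top.ne
    intro x hx
    obtain ⟨y, hy, hxy⟩ := hKL j x hx
    exact mem_cthickening_of_dist_le x y _ _ hy (by rwa [dist_eq_norm])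
  have hvol2 : Tendsto (fun j => lam.real (cthickening (r j) L)) atTop (𝓝 (lam.real L)) := by
    have h1 : Tendsto (fun j => lam (cthickening (r j) L)) atTop (𝓝 (lam L)) :=
      (tendsto_measure_cthickening_of_isCompact hLc).comp hr
    exact (ENNReal.tendsto_toReal hLc.measure_lt_top.ne).comp h1
  -- a lower bound for the volumes
  have hexp : ∀ j, Real.exp (n / M * (M * Real.log c - w 0)) ≤ lam.real (K (φ j)) := by
    intro j
    have h1 : Phi lam mu (K (φ j)) ≤ w 0 := by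
      rw [hKw]
      exact hwanti (Nat.zero_le _)
    have h2 := hlow _ (hKA (φ j)).1.cpt (hKA (φ j)).1.low
    unfold Phi at h1
    have h3 : M * Real.log c - w 0 ≤ M / n * Real.log (lam.real (K (φ j))) := by linarith
    have h4 : n / M * (M * Real.log c - w 0) ≤
        n / M * (M / n * Real.log (lam.real (K (φ j)))) :=
      mul_le_mul_of_nonneg_left h3 (by positivity)
    have h5 : n / M * (M / n * Real.log (lam.real (K (φ j)))) =
        Real.log (lam.real (K (φ j))) := by field_simp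
    rw [h5] at h4
    calc Real.exp (n / M * (M * Real.log c - w 0))
        ≤ Real.exp (Real.log (lam.real (K (φ j)))) := Real.exp_le_exp.mpr h4
      _ = _ := Real.exp_log (hKA (φ j)).2
  have hLv : 0 < lam.real L := by
    apply lt_of_lt_of_le (Real.exp_pos (n / M * (M * Real.log c - w 0)))
    apply ge_of_tendsto hvol2
    exact Eventually.of_forall fun j => (hexp j).trans (hvol1 j)
  -- the functional
  have hphi : ∀ j, ∫ u, Real.log (supp L u) ∂mu - M * (r j / c) -
      M / n * Real.log (lam.real (cthickening (r j) L)) ≤ w (φ j) := by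
    intro j
    rw [← hKw]
    unfold Phi
    have h1 : ∫ u, Real.log (supp L u) ∂mu ≤
        ∫ u, (Real.log (supp (K (φ j)) u) + r j / c) ∂mu := by
      apply integral_mono_ae (hint L hLc hLA.low)
        ((hint _ (hKA (φ j)).1.cpt (hKA (φ j)).1.low).add (integrable_const _))
      filter_upwards [haeK L hLc hLA.low, haeK _ (hKA (φ j)).1.cpt (hKA (φ j)).1.low]
        with u hu hu'
      have h2 := supp_le_of_cthickening hLne (hKA (φ j)).1.cpt (hLK j) u
      rw [hu.1, mul_one] at h2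
      exact log_sub_log_le hc hu.2 hu'.2 (hr0 j) h2
    rw [integral_add (hint _ (hKA (φ j)).1.cpt (hKA (φ j)).1.low) (integrable_const _),
      integral_const, smul_eq_mul] at h1
    have h2 : Real.log (lam.real (K (φ j))) ≤ Real.log (lam.real (cthickening (r j) L)) :=
      Real.log_le_log (hKA (φ j)).2 (hvol1 j)
    have h3 := mul_le_mul_of_nonneg_left h2 hMn.le
    have hM' : mu.real univ = M := rfl
    rw [hM'] at h1
    rw [hM']
    linarith
  have hlim : Tendsto (fun j => ∫ u, Real.log (supp L u) ∂mu - M * (r j / c) -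
      M / n * Real.log (lam.real (cthickening (r j) L))) atTop
      (𝓝 (∫ u, Real.log (supp L u) ∂mu - M * (0 / c) - M / n * Real.log (lam.real L))) := by
    apply Tendsto.sub
    · exact tendsto_const_nhds.sub ((hr.div_const c).const_mul M)
    · exact ((Real.continuousAt_log hLv.ne').tendsto.comp hvol2).const_mul _
  have hfinal : Phi lam mu L ≤ sInf (Phi lam mu '' 𝒜) := by
    have h1 := le_of_tendsto_of_tendsto' hlim (hwlim.comp hφ.tendsto_atTop) hphi
    have h2 : Phi lam mu L = ∫ u, Real.log (supp L u) ∂mu - M * (0 / c) -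
        M / n * Real.log (lam.real L) := by
      simp only [Phi, zero_div, mul_zero, sub_zero, hMdef, hndef]
    rw [h2]
    exact h1
  refine ⟨L, hLA, hLv, fun K' hK' hK'v => ?_⟩
  exact hfinal.trans (csInf_le hbdd ⟨K', ⟨hK', hK'v⟩, rfl⟩)

end Pool.Agent.Lib.MP_abca01_gt
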