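import Pool.Agent.Lib.MP_abca01_gt.EBdd
import Pool.Agent.Lib.MP_abca01_gt.ExistsMin

/-!
# Essential subspaces, 9: existence of a minimiser
-/

set_option autoImplicit false

open MeasureTheory Set Metric Filter Topology
open scoped RealInnerProductSpace Pointwise

namespace Pool.Agent.Lib.MP_abca01_gt.Ess

open ExistsMinaux

variable {E : Type} [NormedAddCommGroup E] [InnerProductSpace ℝ E] [FiniteDimensional ℝ E]

/-- The class is not empty if `Sg` positively spans the space. -/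
theorem exists_cls {Sg : Set E} (hSg : ∀ u ∈ Sg, ‖u‖ = 1)
    (h1 : ∀ v : E, v ≠ 0 → ∃ u ∈ Sg, ⟪u, v⟫ < 0) : ∃ K, Cls Sg K := by
  have hc : ∃ c : ℝ, 0 < c ∧ ∀ v ∈ sphere (0 : E) 1, ∃ u ∈ Sg, c < ⟪u, v⟫ := by
    refine (isCompact_sphere (0 : E) 1).induction_on
      (p := fun S => ∃ c : ℝ, 0 < c ∧ ∀ v ∈ S, ∃ u ∈ Sg, c < ⟪u, v⟫) ?_ ?_ ?_ ?_
    · exact ⟨1, one_pos, fun v hv => absurd hv (notMem_empty _)⟩
    · rintro s t hst ⟨c, hc, h⟩
      exact ⟨c, hc, fun v hv => h v (hst hv)⟩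
    · rintro s t ⟨c, hc, h⟩ ⟨c', hc', h'⟩
      refine ⟨min c c', lt_min hc hc', fun v hv => ?_⟩
      rcases hv with hv | hv
      · obtain ⟨u, hu, huv⟩ := h v hv
        exact ⟨u, hu, (min_le_left _ _).trans_lt huv⟩
      · obtain ⟨u, hu, huv⟩ := h' v hv
        exact ⟨u, hu, (min_le_right _ _).trans_lt huv⟩
    · intro v hv
      have hv0 : -v ≠ 0 := by
        rw [neg_ne_zero]
        exact ne_of_mem_sphere hv one_ne_zero
      obtain ⟨u, hu, huv⟩ := h1 (-v) hv0
      rw [inner_neg_right] at huv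
      have huv' : 0 < ⟪u, v⟫ := by linarith
      refine ⟨{v' | ⟪u, v⟫ / 2 < ⟪u, v'⟫}, ?_, ⟪u, v⟫ / 2, by positivity, fun v' hv' => ⟨u, hu, hv'⟩⟩
      apply mem_nhdsWithin_of_mem_nhds
      refine (isOpen_lt continuous_const (by fun_prop)).mem_nhds ?_
      change ⟪u, v⟫ / 2 < ⟪u, v⟫
      linarith
  obtain ⟨c, hc, hcv⟩ := hc
  let W : Set E := {x | ∀ u ∈ Sg, ⟪x, u⟫ ≤ 1}
  have hWcl : IsClosed W := by
    have h2 : W = ⋂ u ∈ Sg, {x | ⟪x, u⟫ ≤ 1} := by
      ext x
      simp [W]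
    rw [h2]
    exact isClosed_biInter fun u _ => isClosed_le (by fun_prop) continuous_const
  have hWb : W ⊆ closedBall 0 c⁻¹ := by
    intro x hx
    rw [mem_closedBall, dist_zero_right]
    rcases eq_or_ne x 0 with rfl | hx0
    · rw [norm_zero]
      positivity
    · have hxn : 0 < ‖x‖ := norm_pos_iff.2 hx0
      obtain ⟨u, hu, huv⟩ := hcv (‖x‖⁻¹ • x) (by
        rw [mem_sphere_zero_iff_norm, norm_smul, norm_inv, norm_norm, inv_mul_cancel₀ hxn.ne'])
      rw [real_inner_smul_right, real_inner_comm] at huv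
      have h2 := hx u hu
      have h3 : c * ‖x‖ < 1 := by
        calc c * ‖x‖ < ‖x‖⁻¹ * ⟪x, u⟫ * ‖x‖ := mul_lt_mul_of_pos_right huv hxn
          _ = ⟪x, u⟫ := by field_simp
          _ ≤ 1 := h2
      rw [← one_div, le_div_iff₀ hc]
      linarith
  have hball : closedBall (0 : E) 1 ⊆ W := by
    intro x hx u hu
    rw [mem_closedBall, dist_zero_right] at hx
    have := real_inner_le_norm x u
    rw [hSg u hu, mul_one] at this
    linarith
  have hne : W.Nonempty := ⟨0, hball (mem_closedBall_self zero_le_one)⟩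
  refine ⟨W, Metric.isCompact_of_isClosed_isBounded hWcl (isBounded_closedBall.subset hWb), ?_,
    ⟨0, mem_int one_pos hball⟩, ?_⟩
  · intro x hx y hy a b ha hb hab u hu
    rw [inner_add_left, real_inner_smul_left, real_inner_smul_left]
    have h2 := mul_le_mul_of_nonneg_left (hx u hu) ha
    have h3 := mul_le_mul_of_nonneg_left (hy u hu) hb
    linarith
  · intro x hx u hu
    exact (hx u hu).trans (supp_le hne fun y hy => hy u hu)

variable [MeasurableSpace E] [BorelSpace E] (lam mu : Measure E)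
  [lam.IsAddHaarMeasure] [IsFiniteMeasure mu]

omit [FiniteDimensional ℝ E] in
theorem vol_add (K : Set E) (a : E) : lam.real ((fun x => x + a) '' K) = lam.real K := by
  rw [image_add_right, measureReal_def, measure_preimage_add_right, ← measureReal_def]

theorem vol_smul (K : Set E) {s : ℝ} (hs : 0 < s) :
    lam.real (s • K) = s ^ Module.finrank ℝ E * lam.real K := by
  rw [measureReal_def, Measure.addHaar_smul, ENNReal.toReal_mul, ENNReal.toReal_ofReal (abs_nonneg _),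
    abs_of_pos (pow_pos hs _), ← measureReal_def]

/-- The minimiser. -/
theorem exists_min (hmu : ∀ᵐ u ∂mu, ‖u‖ = 1) {M : ℕ} (hM : Module.finrank ℝ E = M + 1) {Sg : Set E}
    (hSg : ∀ u ∈ Sg, ‖u‖ = 1) (hH : Hyp mu Sg) (hne : ∃ K, Cls Sg K) :
    ∃ K, Cls Sg K ∧ lam.real K = 1 ∧ ∀ K', Cls Sg K' → lam.real K' = 1 → EE mu K ≤ EE mu K' := by
  have hμ : 0 ≤ mu.real univ := measureReal_nonneg
  have hvolpos : ∀ K, Cls Sg K → 0 < lam.real K := by
    intro K hK
    rw [measureReal_def, ENNReal.toReal_pos_iff]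
    exact ⟨(isOpen_interior.measure_pos lam hK.int).trans_le (measure_mono interior_subset),
      hK.cpt.measure_lt_top⟩
  -- normalisation
  have hnorm : ∀ K, Cls Sg K → ∃ s : ℝ, 0 < s ∧ lam.real (s • K) = 1 ∧
      (1 ≤ lam.real K → Real.log s ≤ 0) := by
    intro K hK
    have hV := hvolpos K hK
    refine ⟨Real.exp (-(Real.log (lam.real K)) / ((M : ℝ) + 1)), Real.exp_pos _, ?_, ?_⟩
    · rw [vol_smul lam K (Real.exp_pos _), hM, ← Real.exp_nat_mul]
      push_cast
      rw [mul_div_cancel₀ _ (by positivity : (M : ℝ) + 1 ≠ 0), Real.exp_neg, Real.exp_log hV,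
        inv_mul_cancel₀ hV.ne']
    · intro h1
      rw [Real.log_exp]
      have := Real.log_nonneg h1
      apply div_nonpos_of_nonpos_of_nonneg (by linarith) (by positivity)
  obtain ⟨K0, hK0⟩ := hne
  obtain ⟨s0, hs0, hv0, -⟩ := hnorm K0 hK0
  set 𝒜 : Set (Set E) := {K | Cls Sg K ∧ lam.real K = 1} with h𝒜
  have hA0 : s0 • K0 ∈ 𝒜 := ⟨hK0.smul hs0, hv0⟩
  have hbdd : BddBelow (EE mu '' 𝒜) := by
    obtain ⟨ρ, R, hρ, h⟩ := bdd_energy lam mu hmu hM hSg hH (EE mu (s0 • K0))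
    refine ⟨min (EE mu (s0 • K0)) (mu.real univ * Real.log ρ), ?_⟩
    rintro _ ⟨K, ⟨hK, hv⟩, rfl⟩
    rcases le_total (EE mu K) (EE mu (s0 • K0)) with hle | hle
    · obtain ⟨g, hg, -⟩ := h K hK hv hle
      exact (min_le_right _ _).trans ((le_FF hmu hK.cpt hρ hg).trans
        (FF_le_EE hmu hK.cpt (mem_int hρ hg)))
    · exact (min_le_left _ _).trans hle
  obtain ⟨w, hwanti, hwlim, hwmem⟩ := exists_seq_tendsto_sInf (⟨_, s0 • K0, hA0, rfl⟩ :
    (EE mu '' 𝒜).Nonempty) hbdd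
  obtain ⟨ρ, R, hρ, hBdd⟩ := bdd_energy lam mu hmu hM hSg hH (w 0)
  choose K hKA hKw using hwmem
  have hle : ∀ j, EE mu (K j) ≤ w 0 := fun j => by
    rw [hKw]
    exact hwanti (Nat.zero_le j)
  choose g hg1 hg2 using fun j => hBdd (K j) (hKA j).1 (hKA j).2 (hle j)
  -- the translated bodies
  let K' : ℕ → Set E := fun j => (fun x => x + -(g j)) '' K j
  have hKne : ∀ j, (K j).Nonempty := fun j => (hKA j).1.int.mono interior_subset
  have hK'cls : ∀ j, Cls Sg (K' j) := fun j => (hKA j).1.add _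
  have hK'v : ∀ j, lam.real (K' j) = 1 := fun j => (vol_add lam _ _).trans (hKA j).2
  have hK'E : ∀ j, EE mu (K' j) = w j := fun j =>
    (EE_add mu (hKA j).1.cpt (hKne j) _).trans (hKw j)
  have hK'b : ∀ j, closedBall 0 ρ ⊆ K' j := by
    intro j x hx
    refine ⟨x + g j, hg1 j ?_, by simp⟩
    rw [mem_closedBall, dist_zero_right] at hx
    rw [mem_closedBall, dist_eq_norm, add_sub_cancel_right]
    exact hx
  have hK'Q : ∀ j, K' j ⊆ closedBall 0 R := by
    rintro j _ ⟨x, hx, rfl⟩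
    have h1 := hg2 j hx
    rw [mem_closedBall, dist_eq_norm] at h1
    rw [mem_closedBall, dist_zero_right]
    change ‖x + -g j‖ ≤ R
    rw [← sub_eq_add_neg]
    exact h1
  obtain ⟨φ, L, r, hφ, hLc, hLne, hLQ, hr, hr0, hKL, hLK⟩ := exists_limit
    (isCompact_closedBall (0 : E) R) K' (fun j => (hK'cls j).cpt)
    (fun j => (hK'cls j).int.mono interior_subset) hK'Q
  have hLb : closedBall 0 ρ ⊆ L := fun x hx =>
    mem_of_approx hLc.isClosed hr fun j => hKL j x (hK'b _ hx)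
  have hLcv : Convex ℝ L := convex_limit hLc.isClosed (fun j => (hK'cls (φ j)).cvx) hr hKL hLK
  have hLi : (0 : E) ∈ interior L := mem_int hρ hLb
  have hsupp : ∀ j, ∀ u : E, ‖u‖ = 1 → supp L u ≤ supp (K' (φ j)) u + r j := by
    intro j u hu
    have := supp_le_of_cthickening hLne (hK'cls (φ j)).cpt (hLK j) u
    rwa [hu, mul_one] at this
  -- `L` is in the class
  have hLcls : Cls Sg L := by
    refine ⟨hLc, hLcv, ⟨0, hLi⟩, ?_⟩
    intro x hx
    by_contra hxL
    obtain ⟨s, hs0, hs1, hsx⟩ : ∃ s : ℝ, 0 < s ∧ s < 1 ∧ s • x ∉ L := by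
      have h1 : Tendsto (fun s : ℝ => s • x) (𝓝[<] 1) (𝓝 ((1 : ℝ) • x)) :=
        ((continuous_id.smul continuous_const).tendsto 1).mono_left nhdsWithin_le_nhds
      rw [one_smul] at h1
      have h2 : ∀ᶠ s in 𝓝[<] (1 : ℝ), s • x ∈ Lᶜ :=
        h1.eventually (hLc.isClosed.isOpen_compl.mem_nhds hxL)
      have h3 : ∀ᶠ s in 𝓝[<] (1 : ℝ), s ∈ Ioo (0 : ℝ) 1 := Ioo_mem_nhdsLT one_pos
      obtain ⟨s, hs, hs'⟩ := (h2.and h3).exists
      exact ⟨s, hs'.1, hs'.2, hs⟩
    have h1 : ∀ᶠ j in atTop, s • x ∉ K' (φ j) := by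
      obtain ⟨d, hd, hdx⟩ := Metric.isOpen_iff.1 hLc.isClosed.isOpen_compl (s • x) hsx
      filter_upwards [hr.eventually (gt_mem_nhds hd)] with j hj hmem
      obtain ⟨y, hy, hxy⟩ := hKL j _ hmem
      have hyb : y ∈ ball (s • x) d := by
        rw [mem_ball, dist_comm, dist_eq_norm]
        exact lt_of_le_of_lt hxy hj
      exact hdx hyb hy
    have h2 : ∀ᶠ j in atTop, r j < (1 - s) * ρ :=
      hr.eventually (gt_mem_nhds (mul_pos (by linarith) hρ))
    obtain ⟨j, hj1, hj2⟩ := (h1.and h2).exists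
    have h3 : ∃ u ∈ Sg, supp (K' (φ j)) u < ⟪s • x, u⟫ := by
      by_contra hcon
      push Not at hcon
      exact hj1 ((hK'cls (φ j)).cut _ hcon)
    obtain ⟨u, hu, hux⟩ := h3
    have hu1 := hSg u hu
    have h4 := hsupp j u hu1
    have h5 := hx u hu
    rw [real_inner_smul_left] at hux
    have h6 := mul_le_mul_of_nonneg_left h5 hs0.le
    have h7 := le_supp_sub hLc hρ.le hLb hu1
    rw [inner_zero_left, sub_zero] at h7
    have h8 : (1 - s) * ρ ≤ (1 - s) * supp L u := mul_le_mul_of_nonneg_left h7 (by linarith)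
    linarith
  -- volume
  have hvol1 : ∀ j, 1 ≤ lam.real (cthickening (r j) L) := by
    intro j
    rw [← hK'v (φ j)]
    apply measureReal_mono _ hLc.isBounded.cthickening.measure_lt_top.ne
    intro x hx
    obtain ⟨y, hy, hxy⟩ := hKL j x hx
    exact mem_cthickening_of_dist_le x y _ _ hy (by rwa [dist_eq_norm])
  have hvol2 : Tendsto (fun j => lam.real (cthickening (r j) L)) atTop (𝓝 (lam.real L)) := by
    have h1 : Tendsto (fun j => lam (cthickening (r j) L)) atTop (𝓝 (lam L)) :=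
      (tendsto_measure_cthickening_of_isCompact hLc).comp hr
    exact (ENNReal.tendsto_toReal hLc.measure_lt_top.ne).comp h1
  have hLv : 1 ≤ lam.real L := ge_of_tendsto' hvol2 hvol1
  -- energy
  have hLE : EE mu L ≤ sInf (EE mu '' 𝒜) := by
    refine EE_le ⟨0, hLi⟩ fun ξ hξ => ?_
    obtain ⟨σ, hσ, hσb⟩ := exists_ball hξ
    have h1 : ∀ᶠ j in atTop, FF mu L ξ ≤ w (φ j) + mu.real univ * (r j / (σ / 2)) := by
      filter_upwards [hr.eventually (gt_mem_nhds (show (0 : ℝ) < σ / 2 by linarith))] with j hj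
      have hb : closedBall ξ (σ / 2) ⊆ K' (φ j) := by
        intro y hy
        apply (hK'cls (φ j)).cut
        intro u hu
        have hu1 := hSg u hu
        have h2 := hsupp j u hu1
        have h3 := le_supp_sub hLc hσ.le hσb hu1
        rw [mem_closedBall, dist_eq_norm] at hy
        have h4 : ⟪y, u⟫ = ⟪ξ, u⟫ + ⟪y - ξ, u⟫ := by rw [inner_sub_left]; ring
        have h5 := real_inner_le_norm (y - ξ) u
        rw [hu1, mul_one] at h5
        linarith
      have hσ2 : 0 < σ / 2 := by linarith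
      have h2 : FF mu L ξ ≤ ∫ u, (Real.log (supp (K' (φ j)) u - ⟪ξ, u⟫) + r j / (σ / 2)) ∂mu := by
        apply integral_mono_ae (int_FF hmu hLc hξ)
          ((int_FF hmu (hK'cls (φ j)).cpt (mem_int hσ2 hb)).add (integrable_const _))
        filter_upwards [hmu] with u hu
        apply log_sub_log_le hσ2 _ _ (hr0 j)
        · have := hsupp j u hu
          linarith
        · have := le_supp_sub hLc hσ.le hσb hu
          linarith
        · exact le_supp_sub (hK'cls (φ j)).cpt hσ2.le hb hu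
      rw [integral_add (int_FF hmu (hK'cls (φ j)).cpt (mem_int hσ2 hb)) (integrable_const _),
        integral_const, smul_eq_mul] at h2
      have h3 := FF_le_EE hmu (hK'cls (φ j)).cpt (mem_int hσ2 hb)
      rw [hK'E] at h3
      have h4 : FF mu (K' (φ j)) ξ = ∫ u, Real.log (supp (K' (φ j)) u - ⟪ξ, u⟫) ∂mu := rfl
      linarith
    have h2 : Tendsto (fun j => w (φ j) + mu.real univ * (r j / (σ / 2))) atTop
        (𝓝 (sInf (EE mu '' 𝒜) + mu.real univ * (0 / (σ / 2)))) :=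
      (hwlim.comp hφ.tendsto_atTop).add ((hr.div_const _).const_mul _)
    rw [zero_div, mul_zero, add_zero] at h2
    exact ge_of_tendsto h2 h1
  obtain ⟨s, hs, hsv, hslog⟩ := hnorm L hLcls
  refine ⟨s • L, hLcls.smul hs, hsv, fun K₁ hK₁ hv₁ => ?_⟩
  rw [EE_smul hmu hLc ⟨0, hLi⟩ hs]
  have h1 := csInf_le hbdd ⟨K₁, ⟨hK₁, hv₁⟩, rfl⟩
  have h2 : mu.real univ * Real.log s ≤ 0 := mul_nonpos_of_nonneg_of_nonpos hμ (hslog hLv)
  linarith

/-- Minimality without normalisation of the volume. -/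
theorem min_ineq (hmu : ∀ᵐ u ∂mu, ‖u‖ = 1) {M : ℕ} (hM : Module.finrank ℝ E = M + 1) {Sg : Set E}
    {K : Set E} (h : ∀ K', Cls Sg K' → lam.real K' = 1 → EE mu K ≤ EE mu K')
    {K' : Set E} (hK' : Cls Sg K') :
    EE mu K + mu.real univ / ((M : ℝ) + 1) * Real.log (lam.real K') ≤ EE mu K' := by
  have hV : 0 < lam.real K' := by
    rw [measureReal_def, ENNReal.toReal_pos_iff]
    exact ⟨(isOpen_interior.measure_pos lam hK'.int).trans_le (measure_mono interior_subset),
      hK'.cpt.measure_lt_top⟩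
  set s : ℝ := Real.exp (-(Real.log (lam.real K')) / ((M : ℝ) + 1)) with hs
  have hs0 : 0 < s := Real.exp_pos _
  have h1 : lam.real (s • K') = 1 := by
    rw [vol_smul lam K' hs0, hM, hs, ← Real.exp_nat_mul]
    push_cast
    rw [mul_div_cancel₀ _ (by positivity : (M : ℝ) + 1 ≠ 0), Real.exp_neg, Real.exp_log hV,
      inv_mul_cancel₀ hV.ne']
  have h2 := h _ (hK'.smul hs0) h1
  rw [EE_smul hmu hK'.cpt hK'.int hs0, hs, Real.log_exp] at h2
  have h3 : mu.real univ * (-(Real.log (lam.real K')) / ((M : ℝ) + 1)) =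
      -(mu.real univ / ((M : ℝ) + 1) * Real.log (lam.real K')) := by ring
  rw [h3] at h2
  linarith

end Pool.Agent.Lib.MP_abca01_gt.Ess
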