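import Pool.Agent.Lib.MP_abca01_gt.Defs

/-!
# Essential subspaces, 2: the simplex of maximal volume in a convex body
-/

set_option autoImplicit false

open MeasureTheory Set Metric
open scoped RealInnerProductSpace Pointwise

namespace Pool.Agent.Lib.MP_abca01_gt.Ess

/-- A compact set with nonempty interior is contained in a parallelepiped spanned by vectors
`v i` (with coordinates in `[-1, 1]`), where `x0` and `x0 + v i` are points of the set. -/
theorem exists_simplex (E : Type) [NormedAddCommGroup E] [InnerProductSpace ℝ E]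
    [FiniteDimensional ℝ E] (N : ℕ) (hN : Module.finrank ℝ E = N) (K : Set E) (hK : IsCompact K)
    (hi : (interior K).Nonempty) :
    ∃ x0 ∈ K, ∃ v : Fin N → E, LinearIndependent ℝ v ∧ (∀ i, x0 + v i ∈ K) ∧
      ∀ x ∈ K, ∃ β : Fin N → ℝ, (∀ i, |β i| ≤ 1) ∧ x = x0 + ∑ i, β i • v i := by
  let b : OrthonormalBasis (Fin N) ℝ E := (stdOrthonormalBasis ℝ E).reindex (finCongr hN)
  let e := b.toBasis
  let f : E × (Fin N → E) → ℝ := fun p => |e.det (fun i => p.2 i - p.1)|
  have hf : Continuous f := by
    apply Continuous.abs
    simp only [Module.Basis.det_apply]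
    apply Continuous.matrix_det
    apply continuous_matrix
    intro i j
    simp only [Module.Basis.toMatrix_apply, e, OrthonormalBasis.coe_toBasis_repr_apply,
      OrthonormalBasis.repr_apply_apply]
    fun_prop
  have hcpt : IsCompact (K ×ˢ (Set.pi univ fun _ : Fin N => K)) :=
    hK.prod (isCompact_univ_pi fun _ => hK)
  obtain ⟨c, hc⟩ := hi
  obtain ⟨ρ, hρ, hball⟩ := Metric.isOpen_iff.1 isOpen_interior c hc
  have hball' : ball c ρ ⊆ K := hball.trans interior_subset
  have hin : ((c, fun i => c + (ρ / 2) • e i) : E × (Fin N → E)) ∈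
      K ×ˢ (Set.pi univ fun _ : Fin N => K) := by
    refine ⟨hball' (mem_ball_self hρ), fun i _ => hball' ?_⟩
    rw [mem_ball, dist_eq_norm]
    simp only [add_sub_cancel_left, norm_smul, e, OrthonormalBasis.coe_toBasis]
    rw [b.norm_eq_one, mul_one, Real.norm_eq_abs, abs_of_pos (by linarith)]
    linarith
  obtain ⟨⟨x0, y⟩, hp, hmax⟩ := hcpt.exists_isMaxOn ⟨_, hin⟩ hf.continuousOn
  have hx0 : x0 ∈ K := hp.1
  have hy : ∀ i, y i ∈ K := fun i => hp.2 i (mem_univ i)
  let v : Fin N → E := fun i => y i - x0
  have hpos : 0 < |e.det v| := by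
    have h1 : f (c, fun i => c + (ρ / 2) • e i) ≤ f (x0, y) := hmax hin
    have h2 : f (c, fun i => c + (ρ / 2) • e i) = (ρ / 2) ^ N := by
      simp only [f, add_sub_cancel_left]
      have h3 : e.det (fun i => (ρ / 2) • e i) = (ρ / 2) ^ N := by
        have h4 := e.det.toMultilinearMap.map_smul_univ (fun _ => ρ / 2) e
        simp only [Finset.prod_const, Finset.card_univ, Fintype.card_fin, smul_eq_mul] at h4
        rw [show e.det.toMultilinearMap e = 1 from e.det_self, mul_one] at h4
        exact h4
      rw [h3, abs_of_pos (by positivity)]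
    rw [h2] at h1
    exact lt_of_lt_of_le (by positivity) h1
  have hne : e.det v ≠ 0 := abs_pos.1 hpos
  obtain ⟨hli, hsp⟩ := (e.is_basis_iff_det (v := v)).2 (isUnit_iff_ne_zero.2 hne)
  refine ⟨x0, hx0, v, hli, fun i => ?_, fun x hx => ?_⟩
  · have : x0 + v i = y i := add_sub_cancel _ _
    rw [this]
    exact hy i
  · let B := Module.Basis.mk hli hsp.ge
    refine ⟨fun i => B.coord i (x - x0), fun i => ?_, ?_⟩
    · have h1 := congrArg (fun g => g (x - x0)) (e.det_smul_mk_coord_eq_det_update hli hsp.ge i)
      simp only [LinearMap.smul_apply, smul_eq_mul, MultilinearMap.toLinearMap_apply] at h1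
      have h2 : ((x0, Function.update y i x) : E × (Fin N → E)) ∈
          K ×ˢ (Set.pi univ fun _ : Fin N => K) := by
        refine ⟨hx0, fun j _ => ?_⟩
        by_cases hj : j = i
        · subst hj
          simpa using hx
        · simpa [Function.update_of_ne hj] using hy j
      have h3 : f (x0, Function.update y i x) ≤ f (x0, y) := hmax h2
      have h4 : (fun j => Function.update y i x j - x0) = Function.update v i (x - x0) := by
        ext1 j
        by_cases hj : j = i
        · subst hj
          simp
        · simp [Function.update_of_ne hj, v]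
      simp only [f, h4] at h3
      have h5 : |e.det v * B.coord i (x - x0)| ≤ |e.det v| := by
        rw [h1]
        exact h3
      rw [abs_mul] at h5
      exact (mul_le_iff_le_one_right hpos).1 h5
    · have h1 := B.sum_repr (x - x0)
      have h2 : ∀ i, B i = v i := fun i => Module.Basis.mk_apply hli hsp.ge i
      simp only [h2] at h1
      simp only [Module.Basis.coord_apply]
      rw [h1]
      abel

end Pool.Agent.Lib.MP_abca01_gt.Ess
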