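import Pool.Agent.Lib.MP_abca01_gt.Spec

/-!
# MP_abca01_gt: one-sided volume estimate
-/

set_option autoImplicit false

open MeasureTheory Set Metric Filter Topology
open scoped RealInnerProductSpace Pointwise

namespace Pool.Agent.Lib.MP_abca01_gt

namespace VolDerivaux

variable {E : Type} [NormedAddCommGroup E] [InnerProductSpace ℝ E]

/-- Parameters. -/
def C (K ω : Set E) (t : ℝ) : Set (ℝ × E × E) :=
  (Icc (0 : ℝ) 1 ×ˢ (K ×ˢ ω)) ∩ {p | (1 - t) * supp K p.2.2 ≤ ⟪p.2.1, p.2.2⟫}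

/-- The star-shaped set. -/
def D (K ω : Set E) (t : ℝ) : Set E := (fun p : ℝ × E × E => p.1 • p.2.1) '' C K ω t

theorem isClosed_cond {K : Set E} (hK : IsCompact K) (h0 : (0 : E) ∈ K) (t : ℝ) :
    IsClosed {p : ℝ × E × E | (1 - t) * supp K p.2.2 ≤ ⟪p.2.1, p.2.2⟫} := by
  have hc := continuous_supp hK ⟨0, h0⟩
  apply isClosed_le
  · exact continuous_const.mul (hc.comp (continuous_snd.comp continuous_snd))
  · exact (continuous_fst.comp continuous_snd).inner (continuous_snd.comp continuous_snd)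

theorem isCompact_C {K ω : Set E} (hK : IsCompact K) (h0 : (0 : E) ∈ K) (hω : IsCompact ω)
    (t : ℝ) : IsCompact (C K ω t) :=
  (isCompact_Icc.prod (hK.prod hω)).inter_right (isClosed_cond hK h0 t)

theorem continuous_f : Continuous (fun p : ℝ × E × E => p.1 • p.2.1) :=
  continuous_fst.smul (continuous_fst.comp continuous_snd)

theorem isCompact_D {K ω : Set E} (hK : IsCompact K) (h0 : (0 : E) ∈ K) (hω : IsCompact ω)
    (t : ℝ) : IsCompact (D K ω t) :=
  (isCompact_C hK h0 hω t).image continuous_f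

theorem D_subset {K ω : Set E} (hK : Convex ℝ K) (h0 : (0 : E) ∈ K) (t : ℝ) : D K ω t ⊆ K := by
  rintro x ⟨⟨s, y, u⟩, ⟨⟨hs, hy, hu⟩, h⟩, rfl⟩
  exact hK.smul_mem_of_zero_mem h0 hy hs

theorem C_mono {K ω : Set E} (hK : IsCompact K) (h0 : (0 : E) ∈ K) {t t' : ℝ} (h : t ≤ t') :
    C K ω t ⊆ C K ω t' := by
  rintro ⟨s, y, u⟩ ⟨hm, hc⟩
  refine ⟨hm, ?_⟩
  simp only [mem_ofPred_eq] at hc ⊢
  have := supp_nonneg hK h0 u
  nlinarith

theorem D_mono {K ω : Set E} (hK : IsCompact K) (h0 : (0 : E) ∈ K) {t t' : ℝ} (h : t ≤ t') :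
    D K ω t ⊆ D K ω t' := image_mono (C_mono hK h0 h)

theorem smul_D_subset {K ω : Set E} {t r : ℝ} (hr0 : 0 ≤ r) (hr1 : r ≤ 1) :
    r • D K ω t ⊆ D K ω t := by
  rintro x ⟨z, ⟨⟨s, y, u⟩, ⟨⟨hs, hy, hu⟩, h⟩, rfl⟩, rfl⟩
  simp only at hs hy hu h
  refine ⟨⟨r * s, y, u⟩, ⟨⟨⟨mul_nonneg hr0 hs.1, ?_⟩, hy, hu⟩, h⟩, ?_⟩
  · have := hs.1
    have := hs.2
    simp only
    nlinarith
  · simp only [mul_smul]

theorem iInter_D_subset {K ω : Set E} (hK : IsCompact K) (h0 : (0 : E) ∈ K) (hω : IsCompact ω) :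
    (⋂ k : ℕ, D K ω (1 / ((k : ℝ) + 1))) ⊆ segs K ω := by
  intro x hx
  rw [mem_iInter] at hx
  have hanti : ∀ k : ℕ, (1 : ℝ) / (((k + 1 : ℕ) : ℝ) + 1) ≤ 1 / ((k : ℝ) + 1) := by
    intro k
    apply one_div_le_one_div_of_le
    · positivity
    · push_cast; linarith
  have hne : (⋂ k : ℕ, C K ω (1 / ((k : ℝ) + 1)) ∩ {p | p.1 • p.2.1 = x}).Nonempty := by
    apply IsCompact.nonempty_iInter_of_sequence_nonempty_isCompact_isClosed
    · intro k
      exact inter_subset_inter_left _ (C_mono hK h0 (hanti k))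
    · intro k
      obtain ⟨p, hp, hpx⟩ := hx k
      exact ⟨p, hp, hpx⟩
    · exact (isCompact_C hK h0 hω _).inter_right
        (isClosed_singleton.preimage continuous_f)
    · intro k
      exact (isCompact_C hK h0 hω _).isClosed.inter (isClosed_singleton.preimage continuous_f)
  obtain ⟨⟨s, y, u⟩, hp⟩ := hne
  rw [mem_iInter] at hp
  have h1 : ⟨s, y, u⟩ ∈ C K ω (1 / (((0 : ℕ) : ℝ) + 1)) := (hp 0).1
  have hxs : s • y = x := (hp 0).2
  obtain ⟨⟨hs, hy, hu⟩, -⟩ := h1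
  simp only at hs hy hu
  refine ⟨u, hu, y, hy, ?_, s, hs, hxs.symm⟩
  have hlim : Tendsto (fun k : ℕ => (1 - 1 / ((k : ℝ) + 1)) * supp K u) atTop
      (𝓝 ((1 - 0) * supp K u)) :=
    (tendsto_const_nhds.sub tendsto_one_div_add_atTop_nhds_zero_nat).mul_const _
  have hle : (1 - 0) * supp K u ≤ ⟪y, u⟫ := by
    apply le_of_tendsto hlim
    exact Eventually.of_forall fun k => (hp k).1.2
  intro z hz
  have := le_supp hK hz u
  linarith

end VolDerivaux

open VolDerivaux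

theorem stmtVolDeriv : StmtVolDeriv := by
  intro E _ _ _ _ _ lam _ K ω hK hKc h0 hω hωs ε hε
  have hKfin : lam K ≠ ⊤ := hK.measure_lt_top.ne
  have hDfin : ∀ t, lam (D K ω t) ≠ ⊤ := fun t => (isCompact_D hK h0 hω t).measure_lt_top.ne
  have hanti : Antitone fun k : ℕ => D K ω (1 / ((k : ℝ) + 1)) := by
    intro a b hab
    apply D_mono hK h0
    apply one_div_le_one_div_of_le
    · positivity
    · have : (a : ℝ) ≤ b := by exact_mod_cast hab
      linarith
  have htend : Tendsto (fun k : ℕ => lam (D K ω (1 / ((k : ℝ) + 1)))) atTop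
      (𝓝 (lam (⋂ k : ℕ, D K ω (1 / ((k : ℝ) + 1))))) := by
    apply tendsto_measure_iInter_atTop
    · intro k
      exact (isCompact_D hK h0 hω _).measurableSet.nullMeasurableSet
    · exact hanti
    · exact ⟨0, hDfin _⟩
  have hsegfin : lam (segs K ω) ≠ ⊤ := measure_ne_top_of_subset (segs_subset hKc h0) hKfin
  have hlt : lam (⋂ k : ℕ, D K ω (1 / ((k : ℝ) + 1))) < lam (segs K ω) + ENNReal.ofReal ε := by
    apply lt_of_le_of_lt (measure_mono (iInter_D_subset hK h0 hω))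
    apply ENNReal.lt_add_right hsegfin
    simpa using hε
  obtain ⟨k, hk⟩ := (htend.eventually (gt_mem_nhds hlt)).exists
  refine ⟨min (1 / ((k : ℝ) + 1)) (1 / 2), ?_, ?_, ?_⟩
  · apply lt_min
    · positivity
    · norm_num
  · exact lt_of_le_of_lt (min_le_right _ _) (by norm_num)
  intro t ht0 ht1
  have ht2 : t ≤ 1 / ((k : ℝ) + 1) := ht1.trans (min_le_left _ _)
  have ht3 : t ≤ 1 / 2 := ht1.trans (min_le_right _ _)
  have hDt : lam.real (D K ω t) ≤ lam.real (segs K ω) + ε := by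
    have h1 : lam (D K ω t) ≤ lam (segs K ω) + ENNReal.ofReal ε :=
      (measure_mono (D_mono hK h0 ht2)).trans hk.le
    have h2 := ENNReal.toReal_mono (by simp [hsegfin]) h1
    rw [ENNReal.toReal_add hsegfin (by simp), ENNReal.toReal_ofReal hε.le] at h2
    exact h2
  have hcutK : cut K ω t ⊆ K := fun x hx => hx.1
  have hsub : K \ cut K ω t ⊆ D K ω t \ ((1 - t) • D K ω t) := by
    rintro x ⟨hxK, hxc⟩
    have : ∃ u ∈ ω, (1 - t) * supp K u < ⟪x, u⟫ := by
      by_contra hcon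
      push Not at hcon
      exact hxc ⟨hxK, hcon⟩
    obtain ⟨u, hu, hux⟩ := this
    refine ⟨⟨⟨1, x, u⟩, ⟨⟨⟨by norm_num, le_rfl⟩, hxK, hu⟩, hux.le⟩, by simp⟩, ?_⟩
    rintro ⟨z, hz, rfl⟩
    have hzK := D_subset hKc h0 t hz
    have := le_supp hK hzK u
    simp only [real_inner_smul_left] at hux
    have h4 : (1 - t) * ⟪z, u⟫ ≤ (1 - t) * supp K u :=
      mul_le_mul_of_nonneg_left this (by linarith)
    linarith
  have hsm : (1 - t) • D K ω t ⊆ D K ω t := smul_D_subset (by linarith) (by linarith)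
  have hmeas : MeasurableSet ((1 - t) • D K ω t) :=
    ((isCompact_D hK h0 hω t).smul (1 - t)).measurableSet
  have h1 : lam.real (D K ω t \ ((1 - t) • D K ω t)) =
      lam.real (D K ω t) - (1 - t) ^ Module.finrank ℝ E * lam.real (D K ω t) := by
    rw [measureReal_sdiff hsm hmeas (hDfin t)]
    congr 1
    rw [measureReal_def, Measure.addHaar_smul, ENNReal.toReal_mul, ENNReal.toReal_ofReal
      (abs_nonneg _), abs_of_nonneg (pow_nonneg (by linarith) _), measureReal_def]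
  have h2 : lam.real K ≤ lam.real (cut K ω t) + lam.real (K \ cut K ω t) := by
    have : K = cut K ω t ∪ (K \ cut K ω t) := (union_sdiff_cancel hcutK).symm
    calc lam.real K = lam.real (cut K ω t ∪ (K \ cut K ω t)) := by rw [← this]
      _ ≤ _ := measureReal_union_le _ _
  have h3 : lam.real (K \ cut K ω t) ≤ lam.real (D K ω t \ ((1 - t) • D K ω t)) :=
    measureReal_mono hsub (measure_ne_top_of_subset sdiff_subset (hDfin t))
  have h4 : 0 ≤ 1 - (1 - t) ^ Module.finrank ℝ E := by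
    have := pow_le_one₀ (n := Module.finrank ℝ E) (show 0 ≤ 1 - t by linarith) (by linarith)
    linarith
  calc lam.real K - lam.real (cut K ω t) ≤ lam.real (K \ cut K ω t) := by linarith
    _ ≤ (1 - (1 - t) ^ Module.finrank ℝ E) * lam.real (D K ω t) := by linarith
    _ ≤ _ := mul_le_mul_of_nonneg_left hDt h4

end Pool.Agent.Lib.MP_abca01_gt
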