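import Pool.Agent.Lib.MP_abca01_gt.EMin
import Pool.Agent.Lib.MP_abca01_gt.VolDeriv

/-!
# Essential subspaces, 10: the variation of a minimiser
-/

set_option autoImplicit false

open MeasureTheory Set Metric Filter Topology
open scoped RealInnerProductSpace Pointwise

namespace Pool.Agent.Lib.MP_abca01_gt.Ess

open Variationaux

/-! ### Uniqueness of the best point -/

theorem log_mid {a b D : ℝ} (ha : 0 < a) (hb : 0 < b) (haD : a ≤ D) (hbD : b ≤ D) :
    (Real.log a + Real.log b) / 2 + (a - b) ^ 2 / (16 * D ^ 2) ≤ Real.log ((a + b) / 2) := by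
  have hD : 0 < D := lt_of_lt_of_le ha haD
  set x : ℝ := (a - b) ^ 2 / (4 * D ^ 2) with hx
  have hx0 : 0 ≤ x := by positivity
  have hx1 : x ≤ 1 := by
    rw [hx, div_le_one (by positivity)]
    have h1 : |a - b| ≤ D := by
      rw [abs_le]
      constructor <;> linarith
    have h2 : (a - b) ^ 2 ≤ D ^ 2 := by
      rw [← sq_abs]
      exact pow_le_pow_left₀ (abs_nonneg _) h1 2
    nlinarith [sq_nonneg D]
  have h1 : x / 2 ≤ Real.log (1 + x) := by
    have h2 := Real.one_sub_inv_le_log_of_pos (show 0 < 1 + x by linarith)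
    have h3 : x / 2 ≤ 1 - (1 + x)⁻¹ := by
      have h4 : 1 - (1 + x)⁻¹ = x / (1 + x) := by
        field_simp
        ring
      rw [h4]
      exact div_le_div_of_nonneg_left hx0 (by linarith) (by linarith)
    linarith
  have h2 : Real.log (1 + x) + (Real.log a + Real.log b) ≤ 2 * Real.log ((a + b) / 2) := by
    rw [← Real.log_mul ha.ne' hb.ne', ← Real.log_mul (by positivity) (by positivity)]
    have h3 : 2 * Real.log ((a + b) / 2) = Real.log (((a + b) / 2) ^ 2) := by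
      rw [Real.log_pow]
      norm_num
    rw [h3]
    apply Real.log_le_log (by positivity)
    have h4 : a * b ≤ D ^ 2 := by nlinarith
    have h5 : (1 + x) * (a * b) = a * b + (a - b) ^ 2 * (a * b) / (4 * D ^ 2) := by
      rw [hx]
      ring
    have h6 : (a - b) ^ 2 * (a * b) / (4 * D ^ 2) ≤ (a - b) ^ 2 / 4 := by
      rw [div_le_div_iff₀ (by positivity) (by norm_num)]
      have h7 := mul_le_mul_of_nonneg_left h4 (sq_nonneg (a - b))
      nlinarith
    rw [h5]
    nlinarith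
  have h3 : (a - b) ^ 2 / (16 * D ^ 2) = x / 4 := by
    rw [hx]
    ring
  rw [h3]
  linarith

variable {E : Type} [NormedAddCommGroup E] [InnerProductSpace ℝ E] [FiniteDimensional ℝ E]
  [MeasurableSpace E] [BorelSpace E] (lam mu : Measure E) [lam.IsAddHaarMeasure]
  [IsFiniteMeasure mu]

omit [FiniteDimensional ℝ E] in
theorem int_sq (hmu : ∀ᵐ u ∂mu, ‖u‖ = 1) (x : E) : Integrable (fun u => ⟪x, u⟫ ^ 2) mu := by
  refine Integrable.mono' (integrable_const (‖x‖ ^ 2)) ?_ ?_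
  · have : Continuous fun u : E => ⟪x, u⟫ ^ 2 := by fun_prop
    exact this.aestronglyMeasurable
  · filter_upwards [hmu] with u hu
    rw [Real.norm_eq_abs, abs_of_nonneg (sq_nonneg _), ← sq_abs]
    have := abs_real_inner_le_norm x u
    rw [hu, mul_one] at this
    exact pow_le_pow_left₀ (abs_nonneg _) this 2

omit [FiniteDimensional ℝ E] in
theorem quad_ineq (hmu : ∀ᵐ u ∂mu, ‖u‖ = 1) {K : Set E} (hK : IsCompact K) (hc : Convex ℝ K)
    {D : ℝ} (hD : ∀ x ∈ K, ∀ y ∈ K, ‖x - y‖ ≤ D) {ξ η : E} (hξ : ξ ∈ interior K)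
    (hη : η ∈ interior K) :
    (∫ u, ⟪ξ - η, u⟫ ^ 2 ∂mu) / (16 * D ^ 2) ≤ EE mu K - (FF mu K ξ + FF mu K η) / 2 := by
  have hne : K.Nonempty := ⟨ξ, interior_subset hξ⟩
  have hmid : (1 / 2 : ℝ) • ξ + (1 / 2 : ℝ) • η ∈ interior K :=
    hc.interior hξ hη (by norm_num) (by norm_num) (by norm_num)
  have h1 := FF_le_EE hmu hK hmid
  obtain ⟨ρ, hρ, hb⟩ := exists_ball hξ
  obtain ⟨ρ', hρ', hb'⟩ := exists_ball hη
  have hI1 : Integrable (fun u => (Real.log (supp K u - ⟪ξ, u⟫) +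
      Real.log (supp K u - ⟪η, u⟫)) / 2) mu :=
    ((int_FF hmu hK hξ).add (int_FF hmu hK hη)).div_const 2
  have hI2 : Integrable (fun u => ⟪ξ - η, u⟫ ^ 2 / (16 * D ^ 2)) mu :=
    (int_sq mu hmu _).div_const _
  have h2 : ∫ u, (((Real.log (supp K u - ⟪ξ, u⟫) + Real.log (supp K u - ⟪η, u⟫)) / 2) +
      ⟪ξ - η, u⟫ ^ 2 / (16 * D ^ 2)) ∂mu ≤ FF mu K ((1 / 2 : ℝ) • ξ + (1 / 2 : ℝ) • η) := by
    apply integral_mono_ae
    · exact hI1.add hI2
    · exact int_FF hmu hK hmid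
    · filter_upwards [hmu] with u hu
      have h3 := lt_of_lt_of_le hρ (le_supp_sub hK hρ.le hb hu)
      have h4 := lt_of_lt_of_le hρ' (le_supp_sub hK hρ'.le hb' hu)
      have h5 := supp_sub_le' hne (fun x hx => hD x hx ξ (interior_subset hξ)) hu
      have h6 := supp_sub_le' hne (fun x hx => hD x hx η (interior_subset hη)) hu
      have h7 := log_mid h3 h4 h5 h6
      have h8 : (supp K u - ⟪ξ, u⟫ - (supp K u - ⟪η, u⟫)) ^ 2 = ⟪ξ - η, u⟫ ^ 2 := by
        rw [inner_sub_left]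
        ring
      have h9 : (supp K u - ⟪ξ, u⟫ + (supp K u - ⟪η, u⟫)) / 2 =
          supp K u - ⟪(1 / 2 : ℝ) • ξ + (1 / 2 : ℝ) • η, u⟫ := by
        rw [inner_add_left, real_inner_smul_left, real_inner_smul_left]
        ring
      rw [h8, h9] at h7
      exact h7
  rw [integral_add hI1 hI2, integral_div, integral_div,
    integral_add (int_FF hmu hK hξ) (int_FF hmu hK hη)] at h2
  have h3 : FF mu K ξ = ∫ u, Real.log (supp K u - ⟪ξ, u⟫) ∂mu := rfl
  have h4 : FF mu K η = ∫ u, Real.log (supp K u - ⟪η, u⟫) ∂mu := rfl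
  rw [h3, h4]
  linarith

theorem exists_quad (hmu : ∀ᵐ u ∂mu, ‖u‖ = 1) (hpos : ∀ x : E, x ≠ 0 → mu {u | ⟪x, u⟫ ≠ 0} ≠ 0) :
    ∃ l : ℝ, 0 < l ∧ ∀ x : E, l * ‖x‖ ^ 2 ≤ ∫ u, ⟪x, u⟫ ^ 2 ∂mu := by
  have hp : ∀ x : E, x ≠ 0 → 0 < ∫ u, ⟪x, u⟫ ^ 2 ∂mu := by
    intro x hx
    rw [integral_pos_iff_support_of_nonneg (fun u => sq_nonneg _) (int_sq mu hmu x)]
    rw [pos_iff_ne_zero]
    have h1 : Function.support (fun u : E => ⟪x, u⟫ ^ 2) = {u | ⟪x, u⟫ ≠ 0} := by
      ext u
      simp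
    rw [h1]
    exact hpos x hx
  have hcont : Continuous fun x : E => ∫ u, ⟪x, u⟫ ^ 2 ∂mu := by
    rw [continuous_iff_continuousAt]
    intro x0
    apply continuousAt_of_dominated (bound := fun _ => (‖x0‖ + 1) ^ 2)
    · exact Eventually.of_forall fun x => (int_sq mu hmu x).aestronglyMeasurable
    · filter_upwards [ball_mem_nhds x0 one_pos] with x hx
      filter_upwards [hmu] with u hu
      rw [Real.norm_eq_abs, abs_of_nonneg (sq_nonneg _), ← sq_abs]
      have h1 := abs_real_inner_le_norm x u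
      rw [hu, mul_one] at h1
      rw [mem_ball, dist_eq_norm] at hx
      have h2 : ‖x‖ ≤ ‖x0‖ + ‖x - x0‖ := by
        have := norm_add_le x0 (x - x0)
        rwa [add_sub_cancel] at this
      exact pow_le_pow_left₀ (abs_nonneg _) (by linarith) 2
    · exact integrable_const _
    · exact Eventually.of_forall fun u => by fun_prop
  rcases subsingleton_or_nontrivial E with hE | hE
  · refine ⟨1, one_pos, fun x => ?_⟩
    rw [Subsingleton.elim x 0]
    simp
  · obtain ⟨x0, hx0, hmin⟩ := (isCompact_sphere (0 : E) 1).exists_isMinOn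
      (NormedSpace.sphere_nonempty.2 zero_le_one) hcont.continuousOn
    refine ⟨∫ u, ⟪x0, u⟫ ^ 2 ∂mu, hp x0 (ne_of_mem_sphere hx0 one_ne_zero), fun x => ?_⟩
    rcases eq_or_ne x 0 with rfl | hx
    · simp
    · have hxn : 0 < ‖x‖ := norm_pos_iff.2 hx
      have h1 : ‖x‖⁻¹ • x ∈ sphere (0 : E) 1 := by
        rw [mem_sphere_zero_iff_norm, norm_smul, norm_inv, norm_norm, inv_mul_cancel₀ hxn.ne']
      have h2 : ∫ u, ⟪x0, u⟫ ^ 2 ∂mu ≤ ∫ u, ⟪‖x‖⁻¹ • x, u⟫ ^ 2 ∂mu := hmin h1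
      have h3 : ∫ u, ⟪‖x‖⁻¹ • x, u⟫ ^ 2 ∂mu = (‖x‖ ^ 2)⁻¹ * ∫ u, ⟪x, u⟫ ^ 2 ∂mu := by
        rw [← integral_const_mul]
        congr 1
        ext u
        rw [real_inner_smul_left, mul_pow, inv_pow]
      rw [h3] at h2
      calc (∫ u, ⟪x0, u⟫ ^ 2 ∂mu) * ‖x‖ ^ 2
          ≤ (‖x‖ ^ 2)⁻¹ * (∫ u, ⟪x, u⟫ ^ 2 ∂mu) * ‖x‖ ^ 2 :=
            mul_le_mul_of_nonneg_right h2 (sq_nonneg _)
        _ = ∫ u, ⟪x, u⟫ ^ 2 ∂mu := by field_simp

/-- There is a point of `K` to which all almost optimal points are close. -/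
theorem exists_star (hmu : ∀ᵐ u ∂mu, ‖u‖ = 1) (hpos : ∀ x : E, x ≠ 0 → mu {u | ⟪x, u⟫ ≠ 0} ≠ 0)
    {K : Set E} (hK : IsCompact K) (hc : Convex ℝ K) (hi : (interior K).Nonempty) :
    ∃ ξ₀ ∈ K, ∃ C : ℝ, 0 ≤ C ∧ ∀ ξ ∈ interior K, ‖ξ - ξ₀‖ ^ 2 ≤ C * (EE mu K - FF mu K ξ) := by
  obtain ⟨D, hD1, hD⟩ := exists_diam hK
  obtain ⟨l, hl, hql⟩ := exists_quad mu hmu hpos
  have hDpos : 0 < D := by linarith
  choose x hx hxE using fun k : ℕ => exists_FF (mu := mu) hi
    (show (0 : ℝ) < 1 / ((k : ℝ) + 1) by positivity)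
  obtain ⟨ξ₀, hξ₀, φ, hφ, hlim⟩ := hK.tendsto_subseq fun k => interior_subset (hx k)
  refine ⟨ξ₀, hξ₀, 8 * D ^ 2 / l, by positivity, fun ξ hξ => ?_⟩
  have h1 : ∀ k, ‖ξ - x (φ k)‖ ^ 2 ≤
      8 * D ^ 2 / l * ((EE mu K - FF mu K ξ) + 1 / (((φ k : ℕ) : ℝ) + 1)) := by
    intro k
    have h2 := quad_ineq mu hmu hK hc hD hξ (hx (φ k))
    have h3 := hql (ξ - x (φ k))
    rw [div_le_iff₀ (by positivity)] at h2
    have h4 := hxE (φ k)
    have h5 : (EE mu K - (FF mu K ξ + FF mu K (x (φ k))) / 2) * (16 * D ^ 2) ≤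
        8 * D ^ 2 * ((EE mu K - FF mu K ξ) + 1 / (((φ k : ℕ) : ℝ) + 1)) := by
      have h6 : (EE mu K - (FF mu K ξ + FF mu K (x (φ k))) / 2) * (16 * D ^ 2) =
          8 * D ^ 2 * ((EE mu K - FF mu K ξ) + (EE mu K - FF mu K (x (φ k)))) := by ring
      rw [h6]
      apply mul_le_mul_of_nonneg_left _ (by positivity)
      linarith
    have h6 : 8 * D ^ 2 / l * ((EE mu K - FF mu K ξ) + 1 / (((φ k : ℕ) : ℝ) + 1)) =
        (8 * D ^ 2 * ((EE mu K - FF mu K ξ) + 1 / (((φ k : ℕ) : ℝ) + 1))) / l := by ring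
    rw [h6, le_div_iff₀ hl]
    linarith
  have h2 : Tendsto (fun k => ‖ξ - x (φ k)‖ ^ 2) atTop (𝓝 (‖ξ - ξ₀‖ ^ 2)) :=
    ((tendsto_const_nhds.sub hlim).norm).pow 2
  have h3 : Tendsto (fun k => 8 * D ^ 2 / l * ((EE mu K - FF mu K ξ) +
      1 / (((φ k : ℕ) : ℝ) + 1))) atTop (𝓝 (8 * D ^ 2 / l * ((EE mu K - FF mu K ξ) + 0))) :=
    (tendsto_const_nhds.add (tendsto_one_div_add_atTop_nhds_zero_nat.comp
      hφ.tendsto_atTop)).const_mul _
  rw [add_zero] at h3
  exact le_of_tendsto_of_tendsto' h2 h3 h1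

/-! ### The variation -/

omit [FiniteDimensional ℝ E] [MeasurableSpace E] [BorelSpace E] in
theorem cls_cut {Sg K ω : Set E} (hK : Cls Sg K) (h0 : (0 : E) ∈ K) (hω : ω ⊆ Sg) {t : ℝ}
    (ht0 : 0 ≤ t) (ht1 : t < 1) : Cls Sg (cut K ω t) := by
  have hsub : (1 - t) • K ⊆ cut K ω t := smul_subset_cut hK.cpt hK.cvx h0 ht0 ht1.le
  have hcutK : cut K ω t ⊆ K := fun x hx => hx.1
  have hne : (cut K ω t).Nonempty := ⟨0, hsub ⟨0, h0, by simp⟩⟩
  refine ⟨isCompact_cut hK.cpt t, convex_cut hK.cvx t, ?_, ?_⟩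
  · have h1 : ((1 - t) • interior K).Nonempty := hK.int.smul_set
    rw [← smul_interior (by linarith : (1 : ℝ) - t ≠ 0)] at h1
    exact h1.mono (interior_mono hsub)
  · intro x hx
    refine ⟨hK.cut x fun u hu => (hx u hu).trans (supp_mono hne hK.cpt hcutK u), fun u hu => ?_⟩
    exact (hx u (hω hu)).trans (supp_le hne fun y hy => hy.2 u hu)

theorem FF_cut (hmu : ∀ᵐ u ∂mu, ‖u‖ = 1) {K ω : Set E} (hK : IsCompact K)
    (hω : MeasurableSet ω) {t η : ℝ} (ht : 0 < t) (hη : 0 < η) {ξ : E}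
    (hξ : ξ ∈ interior (cut K ω t)) :
    FF mu (cut K ω t) ξ ≤
      FF mu K ξ - t * (η / (η + ‖ξ‖)) * mu.real (ω ∩ {u | η ≤ supp K u}) := by
  have hcutK : cut K ω t ⊆ K := fun x hx => hx.1
  have hξK : ξ ∈ interior K := interior_mono hcutK hξ
  have hcc : IsCompact (cut K ω t) := isCompact_cut hK t
  have hne : (cut K ω t).Nonempty := ⟨ξ, interior_subset hξ⟩
  have hneK : K.Nonempty := ⟨ξ, interior_subset hξK⟩
  have hms : MeasurableSet (ω ∩ {u | η ≤ supp K u}) :=
    hω.inter (isClosed_le continuous_const (continuous_supp hK hneK)).measurableSet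
  set q : ℝ := t * (η / (η + ‖ξ‖)) with hq
  have hden : 0 < η + ‖ξ‖ := by positivity
  have hint : Integrable (fun u => (ω ∩ {u | η ≤ supp K u}).indicator (1 : E → ℝ) u) mu :=
    (integrable_indicator_iff hms).2 (integrable_const (1 : ℝ)).integrableOn
  have hI : Integrable (fun u => Real.log (supp K u - ⟪ξ, u⟫) -
      q * (ω ∩ {u | η ≤ supp K u}).indicator (1 : E → ℝ) u) mu :=
    (int_FF hmu hK hξK).sub (hint.const_mul q)
  have h1 : FF mu (cut K ω t) ξ ≤ ∫ u, (Real.log (supp K u - ⟪ξ, u⟫) -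
      q * (ω ∩ {u | η ≤ supp K u}).indicator (1 : E → ℝ) u) ∂mu := by
    apply integral_mono_ae (int_FF hmu hcc hξ) hI
    obtain ⟨ρ, hρ, hb⟩ := exists_ball hξ
    filter_upwards [hmu] with u hu
    have h2 : 0 < supp (cut K ω t) u - ⟪ξ, u⟫ := lt_of_lt_of_le hρ (le_supp_sub hcc hρ.le hb hu)
    have h3 : supp (cut K ω t) u ≤ supp K u := supp_mono hne hK hcutK u
    by_cases huω : u ∈ ω ∩ {u | η ≤ supp K u}
    · rw [indicator_of_mem huω]
      obtain ⟨hu1, hu2⟩ := huω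
      have hu2' : η ≤ supp K u := hu2
      have h4 : supp (cut K ω t) u ≤ (1 - t) * supp K u := supp_le hne fun y hy => hy.2 u hu1
      have h5 : 0 < supp K u - ⟪ξ, u⟫ := by linarith
      have h6 : supp (cut K ω t) u - ⟪ξ, u⟫ ≤
          (supp K u - ⟪ξ, u⟫) * (1 - t * (supp K u / (supp K u - ⟪ξ, u⟫))) := by
        have h7 : (supp K u - ⟪ξ, u⟫) * (1 - t * (supp K u / (supp K u - ⟪ξ, u⟫))) =
            (1 - t) * supp K u - ⟪ξ, u⟫ := by
          field_simp
          ring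
        rw [h7]
        linarith
      have h7 : 0 < 1 - t * (supp K u / (supp K u - ⟪ξ, u⟫)) := by
        have h8 := lt_of_lt_of_le h2 h6
        exact (pos_iff_pos_of_mul_pos h8).1 h5
      have h8 := Real.log_le_log h2 h6
      rw [Real.log_mul h5.ne' h7.ne'] at h8
      have h9 := Real.log_le_sub_one_of_pos h7
      have h10 : η / (η + ‖ξ‖) ≤ supp K u / (supp K u - ⟪ξ, u⟫) := by
        rw [div_le_div_iff₀ hden h5]
        have h11 : -⟪ξ, u⟫ ≤ ‖ξ‖ := by
          have := abs_real_inner_le_norm ξ u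
          rw [hu, mul_one] at this
          linarith [(abs_le.1 this).1]
        have h12 : η * -⟪ξ, u⟫ ≤ supp K u * ‖ξ‖ := by
          calc η * -⟪ξ, u⟫ ≤ η * ‖ξ‖ := mul_le_mul_of_nonneg_left h11 hη.le
            _ ≤ supp K u * ‖ξ‖ := mul_le_mul_of_nonneg_right hu2' (norm_nonneg _)
        linarith
      have h11 := mul_le_mul_of_nonneg_left h10 ht.le
      simp only [Pi.one_apply, mul_one]
      linarith
    · rw [indicator_of_notMem huω, mul_zero, sub_zero]
      exact Real.log_le_log h2 (by linarith)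
  rw [integral_sub (int_FF hmu hK hξK) (hint.const_mul q), integral_const_mul,
    integral_indicator_one hms] at h1
  exact h1

theorem var_ineq (hVD : StmtVolDeriv) (hmu : ∀ᵐ u ∂mu, ‖u‖ = 1) {M : ℕ}
    (hM : Module.finrank ℝ E = M + 1) {Sg : Set E} (hSg : Sg ⊆ sphere (0 : E) 1) {K : Set E}
    (hK : Cls Sg K) (h0 : (0 : E) ∈ K) (hV : lam.real K = 1)
    (hmin : ∀ K', Cls Sg K' →
      EE mu K + mu.real univ / ((M : ℝ) + 1) * Real.log (lam.real K') ≤ EE mu K')
    {C : ℝ} (hC : 0 ≤ C) (hstar : ∀ ξ ∈ interior K, ‖ξ‖ ^ 2 ≤ C * (EE mu K - FF mu K ξ))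
    {ω : Set E} (hω : IsCompact ω) (hωS : ω ⊆ Sg) {η : ℝ} (hη : 0 < η) :
    mu.real (ω ∩ {u | η ≤ supp K u}) ≤ mu.real univ * lam.real (segs K ω) := by
  have hμ : 0 ≤ mu.real univ := measureReal_nonneg
  have hM1 : (0 : ℝ) < (M : ℝ) + 1 := by positivity
  set S : ℝ := lam.real (segs K ω) with hS
  have hS0 : 0 ≤ S := measureReal_nonneg
  set m : ℝ := mu.real (ω ∩ {u | η ≤ supp K u}) with hm
  have hm0 : 0 ≤ m := measureReal_nonneg
  apply le_of_forall_pos_lt_add
  intro ε' hε'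
  -- choose `ε`
  obtain ⟨ε, hε, hεε⟩ : ∃ ε : ℝ, 0 < ε ∧ mu.real univ * ε < ε' := by
    refine ⟨ε' / (mu.real univ + 1), by positivity, ?_⟩
    rw [mul_div_assoc', div_lt_iff₀ (by positivity)]
    nlinarith
  obtain ⟨t₁, ht₁0, ht₁1, hvol⟩ := hVD E lam K ω hK.cpt hK.cvx h0 hω (hωS.trans hSg) ε hε
  set b : ℝ → ℝ := fun t => Real.sqrt (C * (t ^ 2 - mu.real univ * Real.log (1 - t))) with hb
  have key : ∀ t : ℝ, 0 < t → t ≤ t₁ →
      η / (η + b t) * m ≤ mu.real univ * (S + ε) / (1 - t) ^ (M + 1) + t := by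
    intro t ht htt
    have ht1 : t < 1 := lt_of_le_of_lt htt ht₁1
    have h1t : 0 < 1 - t := by linarith
    have hcls := cls_cut hK h0 hωS ht.le ht1
    have hsub : (1 - t) • K ⊆ cut K ω t := smul_subset_cut hK.cpt hK.cvx h0 ht.le ht1.le
    have hvlow : (1 - t) ^ (M + 1) ≤ lam.real (cut K ω t) := by
      have h1 : lam.real ((1 - t) • K) ≤ lam.real (cut K ω t) :=
        measureReal_mono hsub hcls.cpt.measure_lt_top.ne
      rw [vol_smul lam K h1t, hM, hV, mul_one] at h1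
      exact h1
    have hvpos : 0 < lam.real (cut K ω t) := lt_of_lt_of_le (by positivity) hvlow
    have hv := hvol t ht htt
    rw [hV, hM] at hv
    -- `- log vol`
    have hlog1 : -Real.log (lam.real (cut K ω t)) ≤
        ((M : ℝ) + 1) * t * (S + ε) / (1 - t) ^ (M + 1) := by
      have h1 := Real.one_sub_inv_le_log_of_pos hvpos
      have h2 : (lam.real (cut K ω t))⁻¹ - 1 = (1 - lam.real (cut K ω t)) / lam.real (cut K ω t) := by
        field_simp
      have h3 : 1 - (1 - t) ^ (M + 1) ≤ ((M : ℝ) + 1) * t := by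
        have h4 := one_add_mul_le_pow (show (-2 : ℝ) ≤ -t by linarith) (M + 1)
        push_cast at h4
        have h5 : (1 : ℝ) + -t = 1 - t := by ring
        rw [h5] at h4
        linarith
      have h4 : 1 - lam.real (cut K ω t) ≤ ((M : ℝ) + 1) * t * (S + ε) :=
        hv.trans (mul_le_mul_of_nonneg_right h3 (by positivity))
      have h5 : (1 - lam.real (cut K ω t)) / lam.real (cut K ω t) ≤
          ((M : ℝ) + 1) * t * (S + ε) / (1 - t) ^ (M + 1) := by
        apply div_le_div₀ (by positivity) h4 (by positivity) hvlow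
      linarith
    have hlog2 : -Real.log (lam.real (cut K ω t)) ≤ -(((M : ℝ) + 1) * Real.log (1 - t)) := by
      have h1 := Real.log_le_log (by positivity) hvlow
      rw [Real.log_pow] at h1
      push_cast at h1
      linarith
    have hmint := hmin _ hcls
    obtain ⟨ξ, hξ, hξE⟩ := exists_FF (mu := mu) hcls.int (show (0 : ℝ) < t ^ 2 by positivity)
    have hF := FF_cut mu hmu hK.cpt hω.measurableSet ht hη hξ
    have hξK : ξ ∈ interior K := interior_mono (fun x hx => hx.1) hξ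
    have hFE := FF_le_EE hmu hK.cpt hξK
    have hξ0 : 0 ≤ t * (η / (η + ‖ξ‖)) * m := by positivity
    -- the norm of `ξ`
    have hξb : ‖ξ‖ ≤ b t := by
      apply Real.le_sqrt_of_sq_le
      refine (hstar ξ hξK).trans (mul_le_mul_of_nonneg_left ?_ hC)
      have h1 : EE mu K - FF mu K ξ ≤
          t ^ 2 - mu.real univ / ((M : ℝ) + 1) * Real.log (lam.real (cut K ω t)) := by linarith
      have h2 : mu.real univ / ((M : ℝ) + 1) * -Real.log (lam.real (cut K ω t)) ≤
          mu.real univ / ((M : ℝ) + 1) * -(((M : ℝ) + 1) * Real.log (1 - t)) :=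
        mul_le_mul_of_nonneg_left hlog2 (by positivity)
      have h3 : mu.real univ / ((M : ℝ) + 1) * -(((M : ℝ) + 1) * Real.log (1 - t)) =
          -(mu.real univ * Real.log (1 - t)) := by field_simp
      rw [h3] at h2
      linarith
    have hq : η / (η + b t) ≤ η / (η + ‖ξ‖) := by
      apply div_le_div_of_nonneg_left hη.le (by positivity)
      linarith
    have h1 : t * (η / (η + ‖ξ‖)) * m ≤
        mu.real univ / ((M : ℝ) + 1) * -Real.log (lam.real (cut K ω t)) + t ^ 2 := by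
      linarith
    have h2 : mu.real univ / ((M : ℝ) + 1) * -Real.log (lam.real (cut K ω t)) ≤
        mu.real univ / ((M : ℝ) + 1) * (((M : ℝ) + 1) * t * (S + ε) / (1 - t) ^ (M + 1)) :=
      mul_le_mul_of_nonneg_left hlog1 (by positivity)
    have h3 : mu.real univ / ((M : ℝ) + 1) * (((M : ℝ) + 1) * t * (S + ε) / (1 - t) ^ (M + 1)) =
        t * (mu.real univ * (S + ε) / (1 - t) ^ (M + 1)) := by
      field_simp
    rw [h3] at h2
    have h4 : t * (η / (η + ‖ξ‖) * m) ≤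
        t * (mu.real univ * (S + ε) / (1 - t) ^ (M + 1) + t) := by
      calc t * (η / (η + ‖ξ‖) * m) = t * (η / (η + ‖ξ‖)) * m := by ring
        _ ≤ t * (mu.real univ * (S + ε) / (1 - t) ^ (M + 1)) + t ^ 2 := by linarith
        _ = _ := by ring
    have h5 := le_of_mul_le_mul_left h4 ht
    exact (mul_le_mul_of_nonneg_right hq hm0).trans h5
  -- the limit
  have hbc : ContinuousAt b 0 := by
    apply ContinuousAt.sqrt
    apply ContinuousAt.mul continuousAt_const
    apply ContinuousAt.sub (by fun_prop)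
    apply ContinuousAt.mul continuousAt_const
    apply ContinuousAt.log (by fun_prop)
    norm_num
  have hb0 : b 0 = 0 := by simp [hb]
  have hl1 : Tendsto (fun t => η / (η + b t) * m) (𝓝[>] 0) (𝓝 m) := by
    have h1 : ContinuousAt (fun t => η / (η + b t) * m) 0 := by
      apply ContinuousAt.mul _ continuousAt_const
      apply ContinuousAt.div continuousAt_const (continuousAt_const.add hbc)
      change η + b 0 ≠ 0
      rw [hb0, add_zero]
      exact hη.ne'
    have h2 := h1.tendsto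
    simp only [hb0, add_zero, div_self hη.ne', one_mul] at h2
    exact h2.mono_left nhdsWithin_le_nhds
  have hl2 : Tendsto (fun t : ℝ => mu.real univ * (S + ε) / (1 - t) ^ (M + 1) + t) (𝓝[>] 0)
      (𝓝 (mu.real univ * (S + ε))) := by
    have h1 : ContinuousAt (fun t : ℝ => mu.real univ * (S + ε) / (1 - t) ^ (M + 1) + t) 0 := by
      apply ContinuousAt.add _ continuousAt_id
      apply ContinuousAt.div continuousAt_const (by fun_prop)
      norm_num
    have h2 := h1.tendsto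
    simp only [sub_zero, one_pow, div_one, add_zero] at h2
    exact h2.mono_left nhdsWithin_le_nhds
  have hfin : m ≤ mu.real univ * (S + ε) := by
    apply le_of_tendsto_of_tendsto hl1 hl2
    filter_upwards [Ioc_mem_nhdsGT ht₁0] with t ht
    exact key t ht.1 ht.2
  rw [mul_add] at hfin
  linarith

/-- The support function does not vanish almost everywhere. -/
theorem null_zero (hmu : ∀ᵐ u ∂mu, ‖u‖ = 1) {K : Set E} (hK : IsCompact K)
    (hi : (interior K).Nonempty) (h0 : (0 : E) ∈ K) {C : ℝ} (hC : 0 ≤ C)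
    (hstar : ∀ ξ ∈ interior K, ‖ξ‖ ^ 2 ≤ C * (EE mu K - FF mu K ξ)) :
    mu {u | supp K u = 0} = 0 := by
  have hne : K.Nonempty := ⟨0, h0⟩
  by_contra hcon
  have hms : MeasurableSet {u | supp K u = 0} :=
    (isClosed_eq (continuous_supp hK hne) continuous_const).measurableSet
  set m : ℝ := mu.real {u | supp K u = 0} with hm
  have hmpos : 0 < m := by
    rw [hm, measureReal_def, ENNReal.toReal_pos_iff]
    exact ⟨pos_iff_ne_zero.2 hcon, measure_lt_top _ _⟩
  obtain ⟨D, hD1, hD⟩ := exists_diam hK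
  have hlogD : 0 ≤ Real.log D := Real.log_nonneg hD1
  have hμ : 0 ≤ mu.real univ := measureReal_nonneg
  -- an upper bound for `FF`
  have hup : ∀ ξ ∈ interior K, ξ ≠ 0 ∧
      FF mu K ξ ≤ m * Real.log ‖ξ‖ + mu.real univ * Real.log D := by
    intro ξ hξ
    obtain ⟨ρ, hρ, hb⟩ := exists_ball hξ
    have hexu : ∃ u : E, ‖u‖ = 1 ∧ supp K u = 0 := by
      by_contra hcon'
      push Not at hcon'
      apply hcon
      have h1 : ∀ᵐ u ∂mu, ¬ (supp K u = 0) := by
        filter_upwards [hmu] with u hu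
        exact hcon' u hu
      rw [ae_iff] at h1
      simpa using h1
    obtain ⟨u0, hu0, hs0⟩ := hexu
    have h2 := le_supp_sub hK hρ.le hb hu0
    have hξ0 : ξ ≠ 0 := by
      rintro rfl
      rw [hs0, inner_zero_left] at h2
      linarith
    refine ⟨hξ0, ?_⟩
    have hint : Integrable (fun u => {u | supp K u = 0}.indicator (1 : E → ℝ) u) mu :=
      (integrable_indicator_iff hms).2 (integrable_const (1 : ℝ)).integrableOn
    have hI : Integrable (fun u => {u | supp K u = 0}.indicator (1 : E → ℝ) u * Real.log ‖ξ‖ +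
        Real.log D) mu := (hint.mul_const _).add (integrable_const _)
    have h3 : FF mu K ξ ≤ ∫ u, ({u | supp K u = 0}.indicator (1 : E → ℝ) u * Real.log ‖ξ‖ +
        Real.log D) ∂mu := by
      apply integral_mono_ae (int_FF hmu hK hξ) hI
      filter_upwards [hmu] with u hu
      have h4 := lt_of_lt_of_le hρ (le_supp_sub hK hρ.le hb hu)
      by_cases hu' : u ∈ {u | supp K u = 0}
      · rw [indicator_of_mem hu']
        have hu'' : supp K u = 0 := hu'
        simp only [Pi.one_apply, one_mul]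
        have h5 : supp K u - ⟪ξ, u⟫ ≤ ‖ξ‖ := by
          have := abs_real_inner_le_norm ξ u
          rw [hu, mul_one] at this
          rw [hu'']
          linarith [(abs_le.1 this).1]
        have h6 := Real.log_le_log h4 h5
        linarith
      · rw [indicator_of_notMem hu', zero_mul, zero_add]
        exact Real.log_le_log h4
          (supp_sub_le' hne (fun x hx => hD x hx ξ (interior_subset hξ)) hu)
    rw [integral_add (hint.mul_const _) (integrable_const _), integral_mul_const,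
      integral_indicator_one hms, integral_const, smul_eq_mul] at h3
    exact h3
  -- almost optimal points
  set A : ℝ := EE mu K - 1 - mu.real univ * Real.log D with hA
  obtain ⟨ε, hε, hε1, hεs⟩ : ∃ ε : ℝ, 0 < ε ∧ ε ≤ 1 ∧
      Real.sqrt (C * ε) < Real.exp (A / m) := by
    have h1 : Tendsto (fun ε : ℝ => Real.sqrt (C * ε)) (𝓝[>] 0) (𝓝 0) := by
      have h2 : ContinuousAt (fun ε : ℝ => Real.sqrt (C * ε)) 0 := by fun_prop
      have h3 := h2.tendsto
      simp only [mul_zero, Real.sqrt_zero] at h3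
      exact h3.mono_left nhdsWithin_le_nhds
    have h2 := h1.eventually (gt_mem_nhds (Real.exp_pos (A / m)))
    have h3 : ∀ᶠ ε in 𝓝[>] (0 : ℝ), ε ∈ Ioc (0 : ℝ) 1 := Ioc_mem_nhdsGT one_pos
    obtain ⟨ε, h4, h5⟩ := (h2.and h3).exists
    exact ⟨ε, h5.1, h5.2, h4⟩
  obtain ⟨ξ, hξ, hξE⟩ := exists_FF (mu := mu) hi hε
  obtain ⟨hξ0, hξF⟩ := hup ξ hξ
  have h1 : ‖ξ‖ ≤ Real.sqrt (C * ε) := by
    apply Real.le_sqrt_of_sq_le
    exact (hstar ξ hξ).trans (mul_le_mul_of_nonneg_left (by linarith) hC)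
  have h2 : Real.log ‖ξ‖ < A / m := by
    rw [Real.log_lt_iff_lt_exp (norm_pos_iff.2 hξ0)]
    exact lt_of_le_of_lt h1 hεs
  have h3 : m * Real.log ‖ξ‖ < A := by
    calc m * Real.log ‖ξ‖ < m * (A / m) := mul_lt_mul_of_pos_left h2 hmpos
      _ = A := by field_simp
  rw [hA] at h3
  linarith

end Pool.Agent.Lib.MP_abca01_gt.Ess
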