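import Pool.Agent.Lib.MP_abca01_gt.Spec

/-!
# MP_abca01_gt: elementary facts on the truncated cone and the disc
-/

set_option autoImplicit false

open MeasureTheory Set Metric Filter Topology
open scoped RealInnerProductSpace Pointwise

namespace Pool.Agent.Lib.MP_abca01_gt

namespace QGeomaux

variable {E : Type} [NormedAddCommGroup E] [InnerProductSpace ℝ E]

theorem ht_add (v x y : E) : ht v (x + y) = ht v x + ht v y := inner_add_left _ _ _

theorem ht_smul (v x : E) (a : ℝ) : ht v (a • x) = a * ht v x := real_inner_smul_left _ _ _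

theorem ht_zero (v : E) : ht v 0 = 0 := inner_zero_left _

theorem hor_nonneg (v x : E) : 0 ≤ hor v x := norm_nonneg _

theorem hor_add_le (v x y : E) : hor v (x + y) ≤ hor v x + hor v y := by
  unfold hor
  have : x + y - ⟪x + y, v⟫ • v = (x - ⟪x, v⟫ • v) + (y - ⟪y, v⟫ • v) := by
    rw [inner_add_left, add_smul]; abel
  rw [this]
  exact norm_add_le _ _

theorem hor_smul (v x : E) (a : ℝ) : hor v (a • x) = |a| * hor v x := by
  unfold hor
  have : a • x - ⟪a • x, v⟫ • v = a • (x - ⟪x, v⟫ • v) := by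
    rw [real_inner_smul_left, smul_sub, smul_smul]
  rw [this, norm_smul, Real.norm_eq_abs]

theorem hor_zero (v : E) : hor v 0 = 0 := by simp [hor]

theorem hor_self {v : E} (hv : ‖v‖ = 1) : hor v v = 0 := by
  unfold hor
  rw [real_inner_self_eq_norm_sq, hv]
  simp

theorem ht_self {v : E} (hv : ‖v‖ = 1) : ht v v = 1 := by
  unfold ht
  rw [real_inner_self_eq_norm_sq, hv]
  simp

theorem continuous_ht (v : E) : Continuous (ht v) := continuous_id.inner continuous_const

theorem continuous_hor (v : E) : Continuous (hor v) :=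
  (continuous_id.sub ((continuous_id.inner continuous_const).smul continuous_const)).norm

/-- The orthogonal part. -/
noncomputable def P (v x : E) : E := x - ⟪x, v⟫ • v

theorem inner_P_left {v : E} (hv : ‖v‖ = 1) (x : E) : ⟪P v x, v⟫ = 0 := by
  unfold P
  rw [inner_sub_left, real_inner_smul_left, real_inner_self_eq_norm_sq, hv]
  ring

theorem inner_eq {v : E} (hv : ‖v‖ = 1) (x u : E) :
    ⟪x, u⟫ = ht v x * ht v u + ⟪P v x, P v u⟫ := by
  have h1 : ⟪P v x, P v u⟫ = ⟪P v x, u⟫ := by
    conv_lhs => rw [P.eq_1 v u, inner_sub_right, real_inner_smul_right, inner_P_left hv]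
    ring
  rw [h1]
  unfold P ht
  rw [inner_sub_left, real_inner_smul_left, real_inner_comm u v]
  ring

theorem abs_inner_P_le (v x u : E) : |⟪P v x, P v u⟫| ≤ hor v x * hor v u :=
  abs_real_inner_le_norm _ _

theorem norm_sq_eq {v : E} (hv : ‖v‖ = 1) (x : E) : ‖x‖ ^ 2 = ht v x ^ 2 + hor v x ^ 2 := by
  rw [← real_inner_self_eq_norm_sq, inner_eq hv x x, real_inner_self_eq_norm_sq]
  unfold hor P
  ring

theorem ht_nonneg_of_mem {v : E} {R : ℝ} (hR : 0 < R) {x : E} (hx : x ∈ QQ v R) :
    0 ≤ ht v x := by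
  have h1 := hx.1
  have h2 := hor_nonneg v x
  by_contra hcon
  push Not at hcon
  nlinarith

theorem isCompact_QQ [FiniteDimensional ℝ E] {v : E} (hv : ‖v‖ = 1) {R : ℝ} (hR : 0 < R) :
    IsCompact (QQ v R) := by
  apply Metric.isCompact_of_isClosed_isBounded
  · apply (isClosed_le (continuous_hor v) (continuous_const.mul (continuous_ht v))).inter
    exact isClosed_le (continuous_ht v) continuous_const
  · rw [isBounded_iff_forall_norm_le]
    refine ⟨1 + 2 * R, fun x hx => ?_⟩
    have h0 := ht_nonneg_of_mem hR hx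
    have h1 := hx.1
    have h2 := hx.2
    have h3 := norm_sq_eq hv x
    have h4 := hor_nonneg v x
    have h5 : hor v x ≤ 2 * R := by nlinarith
    apply le_of_sq_le_sq (b := 1 + 2 * R) _ (by positivity)
    nlinarith

theorem convex_QQ (v : E) (R : ℝ) : Convex ℝ (QQ v R) := by
  intro x hx y hy a b ha hb hab
  have h1 := hor_add_le v (a • x) (b • y)
  rw [hor_smul, hor_smul, abs_of_nonneg ha, abs_of_nonneg hb] at h1
  have h2 : ht v (a • x + b • y) = a * ht v x + b * ht v y := by
    rw [ht_add, ht_smul, ht_smul]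
  have h3 := mul_le_mul_of_nonneg_left hx.1 ha
  have h4 := mul_le_mul_of_nonneg_left hy.1 hb
  have h5 := mul_le_mul_of_nonneg_left hx.2 ha
  have h6 := mul_le_mul_of_nonneg_left hy.2 hb
  constructor
  · rw [h2]
    nlinarith
  · rw [h2]
    linarith

theorem ball_subset_QQ {v : E} (hv : ‖v‖ = 1) {R : ℝ} (hR : 0 < R) :
    ball ((1 / 2 : ℝ) • v) (min (1 / 8) (R / 8)) ⊆ QQ v R := by
  intro x hx
  rw [mem_ball, dist_eq_norm] at hx
  set z := x - (1 / 2 : ℝ) • v with hz
  have hxz : x = (1 / 2 : ℝ) • v + z := by rw [hz]; abel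
  have h3 := norm_sq_eq hv z
  have h4 := hor_nonneg v z
  have h1 : ‖z‖ < 1 / 8 := lt_of_lt_of_le hx (min_le_left _ _)
  have h2 : ‖z‖ < R / 8 := lt_of_lt_of_le hx (min_le_right _ _)
  have hnz := norm_nonneg z
  have h5 : hor v z ≤ ‖z‖ := by
    apply le_of_sq_le_sq _ hnz
    nlinarith [sq_nonneg (ht v z)]
  have h6 : |ht v z| ≤ ‖z‖ := by
    unfold ht
    have := abs_real_inner_le_norm z v
    rwa [hv, mul_one] at this
  rw [abs_le] at h6
  have h7 : ht v x = 1 / 2 + ht v z := by
    rw [hxz, ht_add, ht_smul, ht_self hv, mul_one]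
  have h8 : hor v x ≤ hor v z := by
    have := hor_add_le v ((1 / 2 : ℝ) • v) z
    rw [hor_smul, hor_self hv, mul_zero, zero_add, ← hxz] at this
    exact this
  constructor
  · rw [h7]
    nlinarith
  · rw [h7]
    linarith

end QGeomaux

open QGeomaux

theorem stmtQGeom : StmtQGeom := by
  intro E _ _ _ _ _ lam _ v R hv hR
  have hcpt := isCompact_QQ hv hR
  refine ⟨⟨hcpt, convex_QQ v R, ?_⟩, ⟨?_, ?_, ?_⟩, ?_, ?_, ?_, ?_⟩
  · constructor
    · rw [hor_zero, ht_zero]; simp
    · rw [ht_zero]; norm_num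
  · rw [measureReal_def, ENNReal.toReal_pos_iff]
    refine ⟨?_, hcpt.measure_lt_top⟩
    exact lt_of_lt_of_le (measure_ball_pos lam _ (lt_min (by norm_num) (by positivity)))
      (measure_mono (ball_subset_QQ hv hR))
  · rintro x ⟨h1, h2⟩
    constructor
    · rw [h1]; nlinarith
    · rw [h1]; norm_num
  · refine ⟨(1 / 2 : ℝ) • v, ?_, ?_⟩
    · rw [ht_smul, ht_self hv, mul_one]
    · rw [hor_smul, hor_self hv, mul_zero]
      positivity
  · intro x hx u hu
    have h0 := ht_nonneg_of_mem hR hx
    have h1 := hx.1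
    have h2 := hx.2
    have h3 := hor_nonneg v u
    have h4 := (abs_le.mp (abs_inner_P_le v x u)).2
    have h5 : hor v x * hor v u ≤ 2 * R * ht v x * hor v u :=
      mul_le_mul_of_nonneg_right h1 h3
    have h6 : 0 ≤ ht v u + 2 * R * hor v u := by nlinarith
    have h7 : ht v x * (ht v u + 2 * R * hor v u) ≤ 1 * (ht v u + 2 * R * hor v u) :=
      mul_le_mul_of_nonneg_right h2 h6
    rw [inner_eq hv x u]
    nlinarith
  · intro u
    set a : ℝ := 3 / 4 * R * ‖P v u‖⁻¹ with ha
    have ha0 : 0 ≤ a := by positivity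
    have hP : hor v u = ‖P v u‖ := rfl
    have haP : a * ‖P v u‖ ≤ 3 / 4 * R := by
      rcases eq_or_ne (‖P v u‖) 0 with h | h
      · rw [h, mul_zero]; positivity
      · rw [ha]
        field_simp
        rfl
    have haP2 : a * ‖P v u‖ ^ 2 = 3 / 4 * R * ‖P v u‖ := by
      rcases eq_or_ne (‖P v u‖) 0 with h | h
      · rw [h]; ring
      · rw [ha]
        field_simp
    have hPv : ht v (P v u) = 0 := inner_P_left hv u
    have hPP : hor v (P v u) = ‖P v u‖ := by
      unfold hor
      rw [inner_P_left hv]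
      simp
    refine ⟨(1 / 2 : ℝ) • v + a • P v u, ⟨?_, ?_⟩, ?_⟩
    · rw [ht_add, ht_smul, ht_smul, ht_self hv, hPv]; ring
    · have := hor_add_le v ((1 / 2 : ℝ) • v) (a • P v u)
      rw [hor_smul, hor_self hv, mul_zero, zero_add, hor_smul, abs_of_nonneg ha0, hPP] at this
      linarith
    · rw [inner_add_left, real_inner_smul_left, real_inner_smul_left, real_inner_comm u v]
      have h1 : ⟪P v u, u⟫ = ‖P v u‖ ^ 2 := by
        rw [inner_eq hv (P v u) u, hPv, zero_mul, zero_add]
        have : P v (P v u) = P v u := by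
          conv_lhs => rw [P.eq_1 v (P v u), inner_P_left hv]
          simp
        rw [this, real_inner_self_eq_norm_sq]
      rw [h1, haP2, hP]
      rfl
  · intro x hx hx1 u
    have h1 := hx.1
    rw [hx1, mul_one] at h1
    have h3 := hor_nonneg v u
    have h4 := (abs_le.mp (abs_inner_P_le v x u)).1
    have h5 : hor v x * hor v u ≤ 2 * R * hor v u := mul_le_mul_of_nonneg_right h1 h3
    rw [inner_eq hv x u, hx1]
    linarith
  · intro u hu hle
    have h3 := hor_nonneg v u
    have h4 := norm_sq_eq hv u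
    rw [hu] at h4
    rcases le_or_gt (1 / 2) (ht v u) with h | h
    · exact (min_le_left _ _).trans (by nlinarith)
    rcases le_or_gt (1 / 2) (hor v u) with h' | h'
    · exact (min_le_right _ _).trans (by nlinarith)
    · apply (min_le_left _ _).trans
      have h5 : hor v u ^ 2 < 1 / 4 := by nlinarith
      have h6 : 3 / 4 < ht v u ^ 2 := by nlinarith
      have h7 : ht v u < -(1 / 2) := by nlinarith
      have h8 : 1 / 2 < R * hor v u := by linarith
      nlinarith

end Pool.Agent.Lib.MP_abca01_gt
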