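import Pool.Agent.Lib.MP_abca01_gt.ExistsMin
import Pool.Agent.Lib.MP_abca01_gt.QGeom

/-!
# MP_abca01_gt: the constraint of the minimisation problem is inactive
-/

set_option autoImplicit false

open MeasureTheory Set Metric Filter Topology
open scoped RealInnerProductSpace Pointwise

namespace Pool.Agent.Lib.MP_abca01_gt

namespace Energyaux

open Variationaux QGeomaux

variable {E : Type} [NormedAddCommGroup E] [InnerProductSpace ℝ E]

theorem real_smul [FiniteDimensional ℝ E] [MeasurableSpace E] [BorelSpace E]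
    (lam : Measure E) [lam.IsAddHaarMeasure] {b : ℝ} (hb : 0 ≤ b) (K : Set E) :
    lam.real (b • K) = b ^ Module.finrank ℝ E * lam.real K := by
  rw [measureReal_def, Measure.addHaar_smul, ENNReal.toReal_mul,
    ENNReal.toReal_ofReal (abs_nonneg _), abs_of_nonneg (pow_nonneg hb _), measureReal_def]

/-- The functional is invariant under dilations. -/
theorem Phi_smul [FiniteDimensional ℝ E] [MeasurableSpace E] [BorelSpace E]
    (lam mu : Measure E) [lam.IsAddHaarMeasure] [IsFiniteMeasure mu]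
    (hn : 0 < Module.finrank ℝ E) {K : Set E} (hK : IsCompact K) (hne : K.Nonempty)
    (hv : 0 < lam.real K) {c : ℝ} (hc : 0 < c) (hae : ∀ᵐ u ∂mu, ‖u‖ = 1 ∧ c ≤ supp K u)
    {b : ℝ} (hb : 0 < b) : Phi lam mu (b • K) = Phi lam mu K := by
  unfold Phi
  have h1 : ∫ u, Real.log (supp (b • K) u) ∂mu =
      ∫ u, (Real.log b + Real.log (supp K u)) ∂mu := by
    apply integral_congr_ae
    filter_upwards [hae] with u hu
    rw [supp_smul hb.le, Real.log_mul hb.ne' (lt_of_lt_of_le hc hu.2).ne']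
  have hn' : (0 : ℝ) < Module.finrank ℝ E := by exact_mod_cast hn
  rw [h1, integral_add (integrable_const _) (integrable_log_supp hK hne hc hae), integral_const,
    smul_eq_mul, real_smul lam hb.le, Real.log_mul (pow_pos hb _).ne' hv.ne', Real.log_pow]
  field_simp
  ring

theorem log_sub_le {a b d : ℝ} (ha : 0 < a) (hb : 0 < b) (h : a ≤ (1 + d) * b) :
    Real.log a - Real.log b ≤ d := by
  have h1 : Real.log a - Real.log b ≤ a / b - 1 := by
    rw [← Real.log_div ha.ne' hb.ne']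
    exact Real.log_le_sub_one_of_pos (div_pos ha hb)
  have h2 : a / b ≤ 1 + d := by
    rw [div_le_iff₀ hb]
    exact h
  linarith

theorem log_sub_le_four {a b : ℝ} (ha : 0 < a) (hb : 0 < b) (h : a ≤ 4 * b) :
    Real.log a - Real.log b ≤ 3 / 2 := by
  have h1 : Real.log a ≤ Real.log (4 * b) := Real.log_le_log ha h
  rw [Real.log_mul (by norm_num) hb.ne'] at h1
  have h2 : Real.log 4 = 2 * Real.log 2 := by
    rw [show (4 : ℝ) = 2 ^ 2 by norm_num, Real.log_pow]
    norm_num
  have h3 := Real.log_two_lt_d9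
  linarith

end Energyaux

open Energyaux Variationaux QGeomaux

theorem stmtEnergy (h1 : StmtExistsMin) (h2 : StmtQGeom) (h3 : StmtBall) : StmtEnergy := by
  intro E _ _ _ _ _ lam mu _ _ v R hv hR hmu hsph hcone hcap
  obtain ⟨⟨hQcpt, hQcvx, hQ0⟩, ⟨hQv, hDQ, hDne⟩, hQ3, hQ4, hQ5, hQ6⟩ := h2 E lam v R hv hR
  have hMpos : 0 < mu.real univ := by
    rw [measureReal_def, ENNReal.toReal_pos_iff]
    refine ⟨?_, measure_lt_top _ _⟩
    rw [pos_iff_ne_zero]
    simpa using hmu
  have hn : 0 < Module.finrank ℝ E := by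
    haveI : Nontrivial E := ⟨v, 0, by
      intro h
      rw [h, norm_zero] at hv
      exact zero_ne_one hv⟩
    exact Module.finrank_pos
  set n : ℕ := Module.finrank ℝ E with hndef
  have hn' : (0 : ℝ) < n := by exact_mod_cast hn
  set M : ℝ := mu.real univ with hMdef
  set Q : Set E := QQ v R with hQdef
  set D : Set E := DD v R with hDdef
  set c : ℝ := 1 / 4 * min (1 / 2) (R / 2) with hcdef
  have hc : 0 < c := by
    have : (0 : ℝ) < min (1 / 2) (R / 2) := lt_min (by norm_num) (by positivity)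
    positivity
  -- the almost sure conditions
  have hae : ∀ᵐ u ∂mu, ‖u‖ = 1 ∧ -(R * hor v u) ≤ ht v u := by
    have e1 : ∀ᵐ u ∂mu, u ∈ sphere (0 : E) 1 := hsph
    have e2 : ∀ᵐ u ∂mu, ¬ ht v u < -(R * hor v u) := by
      rw [ae_iff]
      simpa using hcone
    filter_upwards [e1, e2] with u hu1 hu2
    exact ⟨by simpa using hu1, not_lt.mp hu2⟩
  have hquarter : ∀ u : E, -(R * hor v u) ≤ ht v u →
      ∃ x ∈ D, 1 / 4 * (ht v u + 2 * R * hor v u) ≤ ⟪x, u⟫ := by
    intro u hu
    obtain ⟨x, hx, hxu⟩ := hQ4 u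
    exact ⟨x, hx, by rw [hxu]; linarith⟩
  have haeD : ∀ᵐ u ∂mu, ‖u‖ = 1 ∧ ∃ x ∈ D, c ≤ ⟪x, u⟫ := by
    filter_upwards [hae] with u hu
    obtain ⟨x, hx, hxu⟩ := hquarter u hu.2
    refine ⟨hu.1, x, hx, ?_⟩
    have := hQ6 u hu.1 hu.2
    rw [hcdef]
    linarith
  obtain ⟨K₀, hK₀, hK₀v, hK₀min⟩ := h1 E lam mu D Q c hQcpt hQcvx hQ0 hQv hDQ hDne hc hmu haeD
  have haeK : ∀ K : Set E, Adm D Q K → ∀ᵐ u ∂mu, ‖u‖ = 1 ∧ c ≤ supp K u := by
    intro K hK
    filter_upwards [haeD] with u hu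
    obtain ⟨hu1, x, hx, hxu⟩ := hu
    exact ⟨hu1, hxu.trans (le_supp hK.cpt (hK.low hx) u)⟩
  -- normalisation of the height
  obtain ⟨y, hy, -, hymax⟩ := exists_supp hK₀.cpt ⟨0, hK₀.zero⟩ v
  set a : ℝ := ht v y with hadef
  have ha1 : a ≤ 1 := (hK₀.up hy).2
  have ha2 : 1 / 2 ≤ a := by
    obtain ⟨d, hd⟩ := hDne
    have h4 := hymax d (hK₀.low hd)
    have h5 : ht v d = 1 / 2 := hd.1
    rw [← h5]
    exact h4
  have ha0 : 0 < a := by linarith
  set K : Set E := a⁻¹ • K₀ with hKdef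
  have hK₀K : K₀ ⊆ K := by
    intro z hz
    refine ⟨a • z, hK₀.cvx.smul_mem_of_zero_mem hK₀.zero hz ⟨ha0.le, ha1⟩, ?_⟩
    simp only [smul_smul, inv_mul_cancel₀ ha0.ne', one_smul]
  have hKQ : K ⊆ Q := by
    rintro _ ⟨z, hz, rfl⟩
    have h4 := (hK₀.up hz).1
    have h5 : ht v z ≤ a := hymax z hz
    constructor
    · simp only [hor_smul, ht_smul]
      rw [abs_of_pos (inv_pos.mpr ha0)]
      have := mul_le_mul_of_nonneg_left h4 (inv_pos.mpr ha0).le
      linarith
    · simp only [ht_smul]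
      rw [inv_mul_le_iff₀ ha0]
      linarith
  have hKadm : Adm D Q K :=
    ⟨hK₀.cpt.smul a⁻¹, hK₀.cvx.smul a⁻¹, ⟨0, hK₀.zero, by simp⟩, hK₀.low.trans hK₀K, hKQ⟩
  have hKv : 0 < lam.real K := lt_of_lt_of_le hK₀v
    (measureReal_mono hK₀K hKadm.cpt.measure_lt_top.ne)
  have hPhi : Phi lam mu K = Phi lam mu K₀ :=
    Phi_smul lam mu hn hK₀.cpt ⟨0, hK₀.zero⟩ hK₀v hc (haeK K₀ hK₀) (inv_pos.mpr ha0)
  have hKmin : ∀ K' : Set E, Adm D Q K' → 0 < lam.real K' → Phi lam mu K ≤ Phi lam mu K' := by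
    intro K' hK' hK'v
    rw [hPhi]
    exact hK₀min K' hK' hK'v
  have hyK : a⁻¹ • y ∈ K := smul_mem_smul_set hy
  have hyht : ht v (a⁻¹ • y) = 1 := by
    rw [ht_smul, ← hadef, inv_mul_cancel₀ ha0.ne']
  refine ⟨K, hKadm, hKv, ?_, hKmin⟩
  apply h3 E lam v R K hv hR hKadm.cpt hKadm.cvx hKQ
  -- the energy comparison
  have hQadm : Adm D Q Q := ⟨hQcpt, hQcvx, hQ0, hDQ, Subset.rfl⟩
  have hcomp := hKmin Q hQadm hQv
  have hIQ : Integrable (fun u => Real.log (supp Q u)) mu :=
    integrable_log_supp hQcpt ⟨0, hQ0⟩ hc (haeK Q hQadm)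
  have hIK : Integrable (fun u => Real.log (supp K u)) mu :=
    integrable_log_supp hKadm.cpt ⟨0, hKadm.zero⟩ hc (haeK K hKadm)
  set δ : ℝ := 1 / (8 * n * 30 ^ n) with hδdef
  have hδ0 : 0 < δ := by positivity
  set m : ℝ := 2 + 32 * n * 30 ^ n with hmdef
  have hmδ : (m - 2) * δ = 4 := by
    rw [hmdef, hδdef]
    field_simp
    ring
  set A : Set E := {u | ht v u < m * R * hor v u} with hAdef
  have hAm : MeasurableSet A :=
    measurableSet_lt (continuous_ht v).measurable
      (continuous_const.mul (continuous_hor v)).measurable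
  have hIA : Integrable (A.indicator fun _ => (3 / 2 : ℝ)) mu := (integrable_const _).indicator hAm
  have hdiff : ∫ u, (Real.log (supp Q u) - Real.log (supp K u)) ∂mu ≤
      ∫ u, (δ + A.indicator (fun _ => (3 / 2 : ℝ)) u) ∂mu := by
    apply integral_mono_ae (hIQ.sub hIK) ((integrable_const _).add hIA)
    filter_upwards [hae, haeK Q hQadm, haeK K hKadm] with u hu huQ huK
    have hQpos : 0 < supp Q u := lt_of_lt_of_le hc huQ.2
    have hKpos : 0 < supp K u := lt_of_lt_of_le hc huK.2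
    have hw : 0 ≤ R * hor v u := mul_nonneg hR.le (hor_nonneg v u)
    have hQle : supp Q u ≤ ht v u + 2 * R * hor v u :=
      supp_le ⟨0, hQ0⟩ fun x hx => hQ3 x hx u hu.2
    show Real.log (supp Q u) - Real.log (supp K u) ≤ δ + A.indicator (fun _ => (3 / 2 : ℝ)) u
    by_cases huA : u ∈ A
    · rw [indicator_of_mem huA]
      obtain ⟨x, hx, hxu⟩ := hquarter u hu.2
      have h4 := le_supp hKadm.cpt (hKadm.low hx) u
      have h5 := log_sub_le_four hQpos hKpos (by linarith)
      linarith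
    · rw [indicator_of_notMem huA, add_zero]
      have huA' : m * R * hor v u ≤ ht v u := not_lt.mp huA
      have h4 := hQ5 _ (hKQ hyK) hyht u
      have h5 := le_supp hKadm.cpt hyK u
      apply log_sub_le hQpos hKpos
      have h6 : 4 * (R * hor v u) ≤ δ * (ht v u - 2 * R * hor v u) := by
        have h7 : (m - 2) * (R * hor v u) ≤ ht v u - 2 * R * hor v u := by linarith
        have h8 := mul_le_mul_of_nonneg_left h7 hδ0.le
        have h9 : δ * ((m - 2) * (R * hor v u)) = (m - 2) * δ * (R * hor v u) := by ring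
        rw [h9, hmδ] at h8
        exact h8
      have h10 : (1 + δ) * (ht v u - 2 * R * hor v u) ≤ (1 + δ) * supp K u :=
        mul_le_mul_of_nonneg_left (by linarith) (by linarith)
      linarith
  rw [integral_sub hIQ hIK, integral_add (integrable_const _) hIA, integral_const,
    integral_indicator hAm, setIntegral_const, smul_eq_mul, smul_eq_mul] at hdiff
  unfold Phi at hcomp
  have hM' : mu.real univ = M := rfl
  have hn'' : (Module.finrank ℝ E : ℝ) = n := rfl
  rw [hM'] at hdiff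
  rw [hM', hn''] at hcomp
  have hcap' : mu.real A ≤ δ * M := hcap
  have e1 : M / n * (Real.log (lam.real Q) - Real.log (lam.real K)) ≤ M * (5 / 2 * δ) := by
    have : M / n * (Real.log (lam.real Q) - Real.log (lam.real K)) =
      M / n * Real.log (lam.real Q) - M / n * Real.log (lam.real K) := by ring
    linarith
  have e2 : Real.log (lam.real Q) - Real.log (lam.real K) ≤ 5 / 2 * (n * δ) := by
    have h4 : n / M * (M / n * (Real.log (lam.real Q) - Real.log (lam.real K))) ≤
        n / M * (M * (5 / 2 * δ)) := mul_le_mul_of_nonneg_left e1 (by positivity)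
    have h5 : n / M * (M / n * (Real.log (lam.real Q) - Real.log (lam.real K))) =
        Real.log (lam.real Q) - Real.log (lam.real K) := by field_simp
    have h6 : n / M * (M * (5 / 2 * δ)) = 5 / 2 * (n * δ) := by field_simp
    rw [h5, h6] at h4
    exact h4
  have e3 : (n : ℝ) * δ = 1 / (8 * 30 ^ n) := by
    rw [hδdef]
    field_simp
  set x : ℝ := 5 / 2 * (1 / (8 * 30 ^ n)) with hxdef
  rw [e3] at e2
  have e4 : Real.log (lam.real Q) ≤ Real.log (lam.real K) + x := by linarith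
  have e5 : lam.real Q ≤ lam.real K * Real.exp x := by
    have := Real.exp_le_exp.mpr e4
    rwa [Real.exp_log hQv, Real.exp_add, Real.exp_log hKv] at this
  have e6 : lam.real Q * Real.exp (-x) ≤ lam.real K := by
    have h4 := mul_le_mul_of_nonneg_right e5 (Real.exp_pos (-x)).le
    rw [mul_assoc, ← Real.exp_add] at h4
    simpa using h4
  have e7 : 1 - x ≤ Real.exp (-x) := by
    have := Real.add_one_le_exp (-x)
    linarith
  have e8 : 1 - 1 / (2 * 30 ^ n) < 1 - x := by
    have h4 : x = 5 / 16 * (1 / 30 ^ n) := by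
      rw [hxdef]; field_simp; norm_num
    have h5 : (1 : ℝ) / (2 * 30 ^ n) = 1 / 2 * (1 / 30 ^ n) := by field_simp
    have h6 : (0 : ℝ) < 1 / 30 ^ n := by positivity
    rw [h4, h5]
    linarith
  calc (1 - 1 / (2 * 30 ^ n)) * lam.real Q < (1 - x) * lam.real Q :=
        mul_lt_mul_of_pos_right e8 hQv
    _ ≤ Real.exp (-x) * lam.real Q := mul_le_mul_of_nonneg_right e7 hQv.le
    _ = lam.real Q * Real.exp (-x) := mul_comm _ _
    _ ≤ lam.real K := e6

end Pool.Agent.Lib.MP_abca01_gt
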