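import Pool.Agent.Lib.MP_abca01_gt.QGeom

/-!
# MP_abca01_gt: the theorem for closed hemispheres
-/

set_option autoImplicit false

open MeasureTheory Set Metric Filter Topology
open scoped RealInnerProductSpace Pointwise

namespace Pool.Agent.Lib.MP_abca01_gt

open QGeomaux

theorem stmtHemi (h1 : StmtCap) : StmtHemi := by
  intro E _ _ _ _ _ lam mu _ _ v hv hmu hsph hneg heq
  set m : ℝ := 2 + 32 * Module.finrank ℝ E * 30 ^ Module.finrank ℝ E with hmdef
  have hm : 0 < m := by positivity
  set A : ℕ → Set E := fun k => {u | ht v u < m * (1 / ((k : ℝ) + 1)) * hor v u} with hAdef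
  have hAm : ∀ k, MeasurableSet (A k) := fun k =>
    measurableSet_lt (continuous_ht v).measurable
      (continuous_const.mul (continuous_hor v)).measurable
  have hanti : Antitone A := by
    intro a b hab u hu
    have h2 : (1 : ℝ) / ((b : ℝ) + 1) ≤ 1 / ((a : ℝ) + 1) := by
      apply one_div_le_one_div_of_le
      · positivity
      · have : (a : ℝ) ≤ b := by exact_mod_cast hab
        linarith
    have h3 : m * (1 / ((b : ℝ) + 1)) * hor v u ≤ m * (1 / ((a : ℝ) + 1)) * hor v u :=
      mul_le_mul_of_nonneg_right (mul_le_mul_of_nonneg_left h2 hm.le) (hor_nonneg v u)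
    exact lt_of_lt_of_le hu h3
  have htend : Tendsto (fun k => mu (A k)) atTop (𝓝 (mu (⋂ k, A k))) :=
    tendsto_measure_iInter_atTop (fun k => (hAm k).nullMeasurableSet) hanti
      ⟨0, measure_ne_top _ _⟩
  have hsub : (⋂ k, A k) ⊆ {u : E | ⟪u, v⟫ = 0} ∪ {u | ⟪u, v⟫ < 0} := by
    intro u hu
    rw [mem_iInter] at hu
    by_contra hcon
    rw [mem_union, not_or] at hcon
    have hne : ⟪u, v⟫ ≠ 0 := hcon.1
    have hge : ¬ ⟪u, v⟫ < 0 := hcon.2
    have hpos : 0 < ht v u := lt_of_le_of_ne (not_lt.mp hge) hne.symm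
    have hlim : Tendsto (fun k : ℕ => m * (1 / ((k : ℝ) + 1)) * hor v u) atTop (𝓝 0) := by
      have := ((tendsto_one_div_add_atTop_nhds_zero_nat (𝕜 := ℝ)).const_mul m).mul_const (hor v u)
      simpa using this
    obtain ⟨k, hk⟩ := (hlim.eventually (gt_mem_nhds hpos)).exists
    have h2 : ht v u < m * (1 / ((k : ℝ) + 1)) * hor v u := hu k
    linarith
  have hle : mu (⋂ k, A k) ≤ mu {u : E | ⟪u, v⟫ = 0} := by
    refine (measure_mono hsub).trans ((measure_union_le _ _).trans ?_)
    rw [hneg, add_zero]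
  have hlt : mu (⋂ k, A k) < ENNReal.ofReal
      (1 / (8 * Module.finrank ℝ E * 30 ^ Module.finrank ℝ E) * mu.real univ) := by
    apply lt_of_le_of_lt hle
    rw [ENNReal.lt_ofReal_iff_toReal_lt (measure_ne_top _ _)]
    exact heq
  obtain ⟨k, hk⟩ := (htend.eventually (gt_mem_nhds hlt)).exists
  apply h1 E lam mu v (1 / ((k : ℝ) + 1)) hv (by positivity) hmu hsph
  · apply measure_mono_null _ hneg
    intro u hu
    have h2 : ht v u < -(1 / ((k : ℝ) + 1) * hor v u) := hu
    have h3 : 0 ≤ 1 / ((k : ℝ) + 1) * hor v u := mul_nonneg (by positivity) (hor_nonneg v u)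
    show ht v u < 0
    linarith
  · rw [ENNReal.lt_ofReal_iff_toReal_lt (measure_ne_top _ _)] at hk
    exact hk.le

end Pool.Agent.Lib.MP_abca01_gt
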