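import Pool.Agent.Lib.MP_abca01_gt.Spec

/-!
# MP_abca01_gt: almost every radial direction has at most one normal
-/

set_option autoImplicit false

open MeasureTheory Set Metric Filter Topology
open scoped RealInnerProductSpace Pointwise

namespace Pool.Agent.Lib.MP_abca01_gt

namespace Overlapaux

variable {E : Type} [NormedAddCommGroup E] [InnerProductSpace ℝ E]

/-- The points with a ball of radius `δ` inside `K`. -/
def A (K : Set E) (δ : ℝ) : Set E := {x | closedBall x δ ⊆ K}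

theorem gauge_step {K : Set E} (hK : Convex ℝ K) {δ : ℝ} (hδ : 0 < δ) {x z : E}
    (hx : x ∈ A K δ) (hz : x + z ∈ K) : gauge K (x + z) ≤ gauge K x + ‖z‖ / δ := by
  rcases eq_or_ne z 0 with rfl | hz0
  · simp
  have hznorm : 0 < ‖z‖ := norm_pos_iff.mpr hz0
  have hxK : x ∈ K := hx (mem_closedBall_self hδ.le)
  rcases le_or_gt ‖z‖ δ with hle | hgt
  · set s : ℝ := ‖z‖ / δ with hs
    have hs0 : 0 < s := div_pos hznorm hδ
    have hs1 : s ≤ 1 := (div_le_one hδ).mpr hle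
    have hw : x + s⁻¹ • z ∈ K := by
      apply hx
      rw [mem_closedBall, dist_eq_norm, add_sub_cancel_left, norm_smul, norm_inv,
        Real.norm_of_nonneg hs0.le, hs]
      rw [inv_div, div_mul_cancel₀ _ hznorm.ne']
    have hne : ({r ∈ Set.Ioi (0 : ℝ) | x ∈ r • K}).Nonempty :=
      ⟨1, by simp, by rwa [one_smul]⟩
    have hlow : gauge K (x + z) - s ≤ gauge K x := by
      rw [gauge_def (s := K) (x := x)]
      apply le_csInf hne
      rintro r ⟨hr, hxr⟩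
      have hr' : (0 : ℝ) < r := hr
      have hmem : x + z ∈ ((1 - s) * r + s) • K := by
        rw [hK.add_smul (mul_nonneg (by linarith) hr'.le) hs0.le]
        refine ⟨(1 - s) • x, ?_, s • (x + s⁻¹ • z), smul_mem_smul_set hw, ?_⟩
        · rw [mul_smul]
          exact smul_mem_smul_set hxr
        · simp only [smul_add, smul_smul]
          rw [mul_inv_cancel₀ hs0.ne', one_smul, ← add_assoc, ← add_smul]
          simp
      have h1 : gauge K (x + z) ≤ (1 - s) * r + s :=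
        gauge_le_of_mem (by nlinarith) hmem
      nlinarith
    linarith
  · have h1 : gauge K (x + z) ≤ 1 := gauge_le_one_of_mem hz
    have h2 : 1 ≤ ‖z‖ / δ := (one_le_div hδ).mpr hgt.le
    have h3 := gauge_nonneg (s := K) x
    linarith

theorem lipschitzOn_gauge {K : Set E} (hK : Convex ℝ K) {δ : ℝ} (hδ : 0 < δ) :
    LipschitzOnWith (Real.toNNReal (1 / δ)) (gauge K) (A K δ) := by
  apply LipschitzOnWith.of_dist_le_mul
  intro x hx y hy
  rw [Real.coe_toNNReal _ (by positivity), Real.dist_eq, dist_eq_norm]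
  have hyK : y ∈ K := hy (mem_closedBall_self hδ.le)
  have hxK : x ∈ K := hx (mem_closedBall_self hδ.le)
  have h1 := gauge_step hK hδ (x := x) (z := y - x) hx (by simpa using hyK)
  have h2 := gauge_step hK hδ (x := y) (z := x - y) hy (by simpa using hxK)
  rw [add_sub_cancel] at h1 h2
  rw [norm_sub_rev] at h1
  rw [abs_le]
  constructor
  · have : ‖x - y‖ / δ = 1 / δ * ‖x - y‖ := by ring
    linarith
  · have : ‖x - y‖ / δ = 1 / δ * ‖x - y‖ := by ring
    linarith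

omit [InnerProductSpace ℝ E] in
theorem exists_A_mem_nhds {K : Set E} {x : E} (hx : x ∈ interior K) :
    ∃ k : ℕ, A K (1 / ((k : ℝ) + 1)) ∈ 𝓝 x := by
  obtain ⟨ε, hε, hball⟩ := Metric.isOpen_iff.mp isOpen_interior x hx
  obtain ⟨k, hk⟩ := exists_nat_one_div_lt (show 0 < ε / 2 by positivity)
  refine ⟨k, ?_⟩
  apply mem_of_superset (ball_mem_nhds x (show 0 < ε / 2 by positivity))
  intro y hy z hz
  apply interior_subset
  apply hball
  rw [mem_ball] at hy ⊢
  rw [mem_closedBall] at hz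
  calc dist z x ≤ dist z y + dist y x := dist_triangle _ _ _
    _ < ε / 2 + ε / 2 := by linarith
    _ = ε := by ring

theorem ae_differentiable [FiniteDimensional ℝ E] [MeasurableSpace E] [BorelSpace E]
    (lam : Measure E) [lam.IsAddHaarMeasure] {K : Set E} (hK : Convex ℝ K) :
    ∀ᵐ x ∂lam, x ∈ interior K → DifferentiableAt ℝ (gauge K) x := by
  have h : ∀ k : ℕ, ∀ᵐ x ∂lam, x ∈ A K (1 / ((k : ℝ) + 1)) →
      DifferentiableWithinAt ℝ (gauge K) (A K (1 / ((k : ℝ) + 1))) x := by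
    intro k
    have hδ : (0 : ℝ) < 1 / ((k : ℝ) + 1) := by positivity
    exact (lipschitzOn_gauge hK hδ).ae_differentiableWithinAt_of_mem_of_real
  rw [← ae_all_iff] at h
  filter_upwards [h] with x hx hxi
  obtain ⟨k, hk⟩ := exists_A_mem_nhds hxi
  exact (hx k (mem_of_mem_nhds hk)).differentiableAt hk

theorem fderiv_gauge {K : Set E} (h0 : (0 : E) ∈ K) {x : E}
    (hxi : x ∈ interior K) {u y : E} {s : ℝ} (hu : ‖u‖ = 1) (hy : y ∈ K)
    (hmax : ∀ z ∈ K, ⟪z, u⟫ ≤ ⟪y, u⟫) (hs : s ∈ Icc (0 : ℝ) 1) (hx : x = s • y)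
    (hd : DifferentiableAt ℝ (gauge K) x) :
    0 < ⟪y, u⟫ ∧ fderiv ℝ (gauge K) x = ⟪y, u⟫⁻¹ • innerSL ℝ u := by
  set h : ℝ := ⟪y, u⟫ with hh
  have hh0 : 0 ≤ h := by
    have := hmax 0 h0
    simpa using this
  have hpos : 0 < h := by
    obtain ⟨ε, hε, hball⟩ := Metric.isOpen_iff.mp isOpen_interior x hxi
    have hmem : x + (ε / 2) • u ∈ K := by
      apply interior_subset
      apply hball
      rw [mem_ball, dist_eq_norm, add_sub_cancel_left, norm_smul, hu, mul_one,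
        Real.norm_of_nonneg (by positivity)]
      linarith
    have h1 := hmax _ hmem
    rw [inner_add_left, real_inner_smul_left, real_inner_self_eq_norm_sq, hu, hx,
      real_inner_smul_left, ← hh] at h1
    have := hs.1
    have := hs.2
    nlinarith
  refine ⟨hpos, ?_⟩
  have hlow : ∀ z ∈ K, h⁻¹ * ⟪z, u⟫ ≤ gauge K z := by
    intro z hz
    have hne : ({r ∈ Set.Ioi (0 : ℝ) | z ∈ r • K}).Nonempty :=
      ⟨1, by simp, by rwa [one_smul]⟩
    rw [gauge_def]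
    apply le_csInf hne
    rintro r ⟨hr, w, hw, rfl⟩
    have hr' : (0 : ℝ) < r := hr
    simp only [real_inner_smul_left]
    have h1 := hmax w hw
    rw [inv_mul_le_iff₀ hpos]
    nlinarith
  have hgx : gauge K x = h⁻¹ * ⟪x, u⟫ := by
    apply le_antisymm
    · have h1 : gauge K x ≤ s := gauge_le_of_mem hs.1 (hx ▸ smul_mem_smul_set hy)
      have h2 : h⁻¹ * ⟪x, u⟫ = s := by
        rw [hx, real_inner_smul_left, ← hh]
        field_simp
      linarith
    · exact hlow x (interior_subset hxi)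
  have hmin : IsLocalMin (fun z => gauge K z - (h⁻¹ • innerSL ℝ u) z) x := by
    have hK : K ∈ 𝓝 x := mem_interior_iff_mem_nhds.mp hxi
    filter_upwards [hK] with z hz
    have h1 : (h⁻¹ • innerSL ℝ u) x = h⁻¹ * ⟪x, u⟫ := by
      simp [real_inner_comm]
    have h2 : (h⁻¹ • innerSL ℝ u) z = h⁻¹ * ⟪z, u⟫ := by
      simp [real_inner_comm]
    rw [h1, h2, hgx]
    have := hlow z hz
    linarith
  have hfd : HasFDerivAt (fun z => gauge K z - (h⁻¹ • innerSL ℝ u) z)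
      (fderiv ℝ (gauge K) x - h⁻¹ • innerSL ℝ u) x :=
    hd.hasFDerivAt.sub (h⁻¹ • innerSL ℝ u).hasFDerivAt
  have := hmin.hasFDerivAt_eq_zero hfd
  exact sub_eq_zero.mp this

theorem normal_unique {K : Set E} (h0 : (0 : E) ∈ K) {x : E}
    (hxi : x ∈ interior K) (hd : DifferentiableAt ℝ (gauge K) x)
    {u₁ y₁ : E} {s₁ : ℝ} (hu₁ : ‖u₁‖ = 1) (hy₁ : y₁ ∈ K)
    (hmax₁ : ∀ z ∈ K, ⟪z, u₁⟫ ≤ ⟪y₁, u₁⟫) (hs₁ : s₁ ∈ Icc (0 : ℝ) 1) (hx₁ : x = s₁ • y₁)
    {u₂ y₂ : E} {s₂ : ℝ} (hu₂ : ‖u₂‖ = 1) (hy₂ : y₂ ∈ K)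
    (hmax₂ : ∀ z ∈ K, ⟪z, u₂⟫ ≤ ⟪y₂, u₂⟫) (hs₂ : s₂ ∈ Icc (0 : ℝ) 1) (hx₂ : x = s₂ • y₂) :
    u₁ = u₂ := by
  obtain ⟨p1, e1⟩ := fderiv_gauge h0 hxi hu₁ hy₁ hmax₁ hs₁ hx₁ hd
  obtain ⟨p2, e2⟩ := fderiv_gauge h0 hxi hu₂ hy₂ hmax₂ hs₂ hx₂ hd
  rw [e1] at e2
  have hn := congrArg norm e2
  rw [norm_smul, norm_smul, innerSL_apply_norm, innerSL_apply_norm, hu₁, hu₂, mul_one, mul_one,
    Real.norm_of_nonneg (inv_nonneg.mpr p1.le), Real.norm_of_nonneg (inv_nonneg.mpr p2.le)] at hn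
  rw [hn] at e2
  have h3 : innerSL ℝ u₁ = innerSL ℝ u₂ :=
    smul_right_injective _ (inv_ne_zero p2.ne') e2
  apply ext_inner_right ℝ
  intro w
  have := congrArg (fun f => f w) h3
  simpa using this

end Overlapaux

open Overlapaux

theorem stmtOverlap : StmtOverlap := by
  intro E _ _ _ _ _ lam _ K ω₁ ω₂ hK hKc h0 hω₁ hω₂ hdisj
  have hae := ae_differentiable lam hKc
  have hfr : lam (frontier K) = 0 := hKc.addHaar_frontier lam
  have hsub : segs K ω₁ ∩ segs K ω₂ ⊆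
      frontier K ∪ {x | ¬ (x ∈ interior K → DifferentiableAt ℝ (gauge K) x)} := by
    rintro x ⟨⟨u₁, hu₁, y₁, hy₁, hmax₁, s₁, hs₁, hx₁⟩, ⟨u₂, hu₂, y₂, hy₂, hmax₂, s₂, hs₂, hx₂⟩⟩
    have hxK : x ∈ K := by
      rw [hx₁]
      exact hKc.smul_mem_of_zero_mem h0 hy₁ hs₁
    by_cases hxi : x ∈ interior K
    · right
      intro hcon
      have hd := hcon hxi
      have hn1 : ‖u₁‖ = 1 := by simpa using hω₁ hu₁
      have hn2 : ‖u₂‖ = 1 := by simpa using hω₂ hu₂
      have := normal_unique h0 hxi hd hn1 hy₁ hmax₁ hs₁ hx₁ hn2 hy₂ hmax₂ hs₂ hx₂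
      subst this
      exact Set.disjoint_left.mp hdisj hu₁ hu₂
    · left
      exact ⟨subset_closure hxK, hxi⟩
  apply measure_mono_null hsub
  rw [measure_union_null_iff]
  exact ⟨hfr, hae⟩

end Pool.Agent.Lib.MP_abca01_gt
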