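import Pool.Agent.Lib.MP_abca01_gt.Spec

/-!
# MP_abca01_gt: the variation of a minimiser
-/

set_option autoImplicit false

open MeasureTheory Set Metric Filter Topology
open scoped RealInnerProductSpace Pointwise

namespace Pool.Agent.Lib.MP_abca01_gt

namespace Variationaux

variable {E : Type} [NormedAddCommGroup E] [InnerProductSpace ℝ E]

theorem isCompact_cut {K ω : Set E} (hK : IsCompact K) (t : ℝ) : IsCompact (cut K ω t) := by
  have : cut K ω t = K ∩ ⋂ u ∈ ω, {x | ⟪x, u⟫ ≤ (1 - t) * supp K u} := by
    ext x
    simp [cut]
  rw [this]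
  apply hK.inter_right
  apply isClosed_biInter
  intro u _
  exact isClosed_le (continuous_id.inner continuous_const) continuous_const

theorem convex_cut {K ω : Set E} (hK : Convex ℝ K) (t : ℝ) : Convex ℝ (cut K ω t) := by
  intro x hx y hy a b ha hb hab
  refine ⟨hK hx.1 hy.1 ha hb hab, fun u hu => ?_⟩
  rw [inner_add_left, real_inner_smul_left, real_inner_smul_left]
  have h1 := mul_le_mul_of_nonneg_left (hx.2 u hu) ha
  have h2 := mul_le_mul_of_nonneg_left (hy.2 u hu) hb
  have h3 : a * ((1 - t) * supp K u) + b * ((1 - t) * supp K u) = (1 - t) * supp K u := by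
    rw [← add_mul, hab, one_mul]
  linarith

theorem smul_subset_cut {K ω : Set E} (hKc : IsCompact K) (hK : Convex ℝ K) (h0 : (0 : E) ∈ K)
    {t : ℝ} (ht0 : 0 ≤ t) (ht1 : t ≤ 1) : (1 - t) • K ⊆ cut K ω t := by
  rintro x ⟨z, hz, rfl⟩
  refine ⟨hK.smul_mem_of_zero_mem h0 hz ⟨by linarith, by linarith⟩, fun u _ => ?_⟩
  simp only [real_inner_smul_left]
  exact mul_le_mul_of_nonneg_left (le_supp hKc hz u) (by linarith)

theorem integrable_log_supp [FiniteDimensional ℝ E] [MeasurableSpace E] [BorelSpace E]
    {mu : Measure E} [IsFiniteMeasure mu] {K : Set E} (hK : IsCompact K) (hne : K.Nonempty)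
    {c : ℝ} (hc : 0 < c) (h : ∀ᵐ u ∂mu, ‖u‖ = 1 ∧ c ≤ supp K u) :
    Integrable (fun u => Real.log (supp K u)) mu := by
  obtain ⟨r, hr⟩ := hK.isBounded.exists_norm_le
  apply Integrable.of_bound (C := |Real.log c| + |Real.log r|)
  · exact ((continuous_supp hK hne).measurable.log).aestronglyMeasurable
  · filter_upwards [h] with u hu
    have h1 := supp_le_norm hne hr u
    rw [hu.1, mul_one] at h1
    have hpos : 0 < supp K u := lt_of_lt_of_le hc hu.2
    have h2 : Real.log c ≤ Real.log (supp K u) := Real.log_le_log hc hu.2
    have h3 : Real.log (supp K u) ≤ Real.log r := Real.log_le_log hpos h1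
    rw [Real.norm_eq_abs, abs_le]
    constructor
    · have := neg_abs_le (Real.log c)
      have := abs_nonneg (Real.log r)
      linarith
    · have := le_abs_self (Real.log r)
      have := abs_nonneg (Real.log c)
      linarith

/-- A function nonnegative on the right of a zero has nonnegative derivative there. -/
theorem deriv_nonneg_of_right {φ : ℝ → ℝ} {d δ : ℝ} (hδ : 0 < δ) (h0 : φ 0 = 0)
    (h : HasDerivAt φ d 0) (hnn : ∀ t, 0 < t → t ≤ δ → 0 ≤ φ t) : 0 ≤ d := by
  have h1 := h.tendsto_slope_zero_right
  apply ge_of_tendsto h1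
  have : Ioc (0 : ℝ) δ ∈ 𝓝[>] (0 : ℝ) := Ioc_mem_nhdsGT hδ
  filter_upwards [this] with t ht
  rw [zero_add, h0, sub_zero, smul_eq_mul]
  exact mul_nonneg (inv_nonneg.mpr ht.1.le) (hnn t ht.1 ht.2)

end Variationaux

open Variationaux

theorem stmtVariation (h1 : StmtVolDeriv) : StmtVariation := by
  intro E _ _ _ _ _ lam mu _ _ K t₀ c hK hKc h0 hV ht₀ ht₀1 hc hmu hae hmin ω hω hωs
  have hne : K.Nonempty := ⟨0, h0⟩
  -- the dimension is positive
  have hMpos : 0 < mu.real univ := by
    rw [measureReal_def, ENNReal.toReal_pos_iff]
    refine ⟨?_, measure_lt_top _ _⟩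
    rw [pos_iff_ne_zero]
    simpa using hmu
  have hn : 0 < Module.finrank ℝ E := by
    haveI : (ae mu).NeBot := ae_neBot.mpr hmu
    obtain ⟨u, hu⟩ := hae.exists
    haveI : Nontrivial E := ⟨u, 0, by
      intro h
      rw [h, norm_zero] at hu
      exact zero_ne_one hu.1⟩
    exact Module.finrank_pos
  set n : ℕ := Module.finrank ℝ E with hndef
  have hn' : (0 : ℝ) < n := by exact_mod_cast hn
  set M : ℝ := mu.real univ with hMdef
  set V : ℝ := lam.real K with hVdef
  set S : ℝ := lam.real (segs K ω) with hSdef
  set p : ℝ := n * mu.real ω / M with hpdef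
  -- main inequality for small t
  have key : ∀ ε : ℝ, 0 < ε → V * p ≤ n * (S + ε) := by
    intro ε hε
    obtain ⟨t₁, ht₁0, ht₁1, hvol⟩ := h1 E lam K ω hK hKc h0 hω hωs ε hε
    have hstep : ∀ t : ℝ, 0 < t → t ≤ min t₀ t₁ →
        0 ≤ (1 - (1 - t) ^ n) * (S + ε) - V * (1 - Real.exp (p * Real.log (1 - t))) := by
      intro t ht htm
      have htt₀ : t ≤ t₀ := htm.trans (min_le_left _ _)
      have htt₁ : t ≤ t₁ := htm.trans (min_le_right _ _)
      have ht1 : t < 1 := lt_of_le_of_lt htt₀ ht₀1
      have hsub : (1 - t) • K ⊆ cut K ω t := smul_subset_cut hK hKc h0 ht.le ht1.le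
      have hcutK : cut K ω t ⊆ K := fun x hx => hx.1
      have hcutc : IsCompact (cut K ω t) := isCompact_cut hK t
      have hmin' := hmin t ht htt₀ (cut K ω t) hcutc (convex_cut hKc t) hsub hcutK
      have h0c : (0 : E) ∈ cut K ω t := hsub ⟨0, h0, by simp⟩
      have hnec : (cut K ω t).Nonempty := ⟨0, h0c⟩
      -- volume positive
      have hV' : 0 < lam.real (cut K ω t) := by
        have h2 : lam.real ((1 - t) • K) ≤ lam.real (cut K ω t) :=
          measureReal_mono hsub hcutc.measure_lt_top.ne
        have h3 : lam.real ((1 - t) • K) = (1 - t) ^ n * V := by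
          rw [measureReal_def, Measure.addHaar_smul, ENNReal.toReal_mul,
            ENNReal.toReal_ofReal (abs_nonneg _), abs_of_nonneg (pow_nonneg (by linarith) _)]
          rfl
        have h4 : 0 < (1 - t) ^ n * V := mul_pos (pow_pos (by linarith) _) hV
        linarith
      have hae' : ∀ᵐ u ∂mu, ‖u‖ = 1 ∧ (1 - t) * c ≤ supp (cut K ω t) u := by
        filter_upwards [hae] with u hu
        refine ⟨hu.1, ?_⟩
        have h2 := supp_mono (hne.smul_set (a := 1 - t)) hcutc hsub u
        rw [supp_smul (by linarith)] at h2
        have h3 := mul_le_mul_of_nonneg_left hu.2 (show 0 ≤ 1 - t by linarith)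
        linarith
      have hI1 : Integrable (fun u => Real.log (supp K u)) mu :=
        integrable_log_supp hK hne hc hae
      have hI2 : Integrable (fun u => Real.log (supp (cut K ω t) u)) mu :=
        integrable_log_supp hcutc hnec (mul_pos (by linarith) hc) hae'
      have hI3 : Integrable (ω.indicator fun _ => Real.log (1 - t)) mu :=
        (integrable_const _).indicator hω.measurableSet
      have hint : ∫ u, Real.log (supp (cut K ω t) u) ∂mu ≤
          ∫ u, Real.log (supp K u) ∂mu + mu.real ω * Real.log (1 - t) := by
        have h2 : ∫ u, Real.log (supp (cut K ω t) u) ∂mu ≤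
            ∫ u, (Real.log (supp K u) + ω.indicator (fun _ => Real.log (1 - t)) u) ∂mu := by
          apply integral_mono_ae hI2 (hI1.add hI3)
          filter_upwards [hae, hae'] with u hu hu'
          have hpos' : 0 < supp (cut K ω t) u :=
            lt_of_lt_of_le (mul_pos (by linarith) hc) hu'.2
          have hpos : 0 < supp K u := lt_of_lt_of_le hc hu.2
          by_cases huω : u ∈ ω
          · show Real.log (supp (cut K ω t) u) ≤
              Real.log (supp K u) + ω.indicator (fun _ => Real.log (1 - t)) u
            rw [indicator_of_mem huω, ← Real.log_mul hpos.ne' (by linarith)]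
            apply Real.log_le_log hpos'
            apply supp_le hnec
            intro x hx
            have := hx.2 u huω
            linarith
          · show Real.log (supp (cut K ω t) u) ≤
              Real.log (supp K u) + ω.indicator (fun _ => Real.log (1 - t)) u
            rw [indicator_of_notMem huω, add_zero]
            exact Real.log_le_log hpos' (supp_mono hnec hK hcutK u)
        rw [integral_add hI1 hI3, integral_indicator hω.measurableSet, setIntegral_const,
          smul_eq_mul] at h2
        exact h2
      have hlog : Real.log (lam.real (cut K ω t)) ≤ Real.log V + p * Real.log (1 - t) := by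
        unfold Phi at hmin'
        have h2 : M / n * (Real.log (lam.real (cut K ω t)) - Real.log V) ≤
            mu.real ω * Real.log (1 - t) := by
          have : M / n * (Real.log (lam.real (cut K ω t)) - Real.log V) =
            M / n * Real.log (lam.real (cut K ω t)) - M / n * Real.log V := by ring
          linarith
        have h3 : Real.log (lam.real (cut K ω t)) - Real.log V =
            n / M * (M / n * (Real.log (lam.real (cut K ω t)) - Real.log V)) := by
          field_simp
        have h4 : n / M * (M / n * (Real.log (lam.real (cut K ω t)) - Real.log V)) ≤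
            n / M * (mu.real ω * Real.log (1 - t)) :=
          mul_le_mul_of_nonneg_left h2 (by positivity)
        have h5 : n / M * (mu.real ω * Real.log (1 - t)) = p * Real.log (1 - t) := by
          rw [hpdef]; ring
        linarith
      have hVle : lam.real (cut K ω t) ≤ V * Real.exp (p * Real.log (1 - t)) := by
        have h2 := Real.exp_le_exp.mpr hlog
        rw [Real.exp_log hV', Real.exp_add, Real.exp_log hV] at h2
        exact h2
      have hv := hvol t ht htt₁
      linarith
    -- derivative at zero
    have hd : HasDerivAt (fun t : ℝ => (1 - (1 - t) ^ n) * (S + ε) -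
        V * (1 - Real.exp (p * Real.log (1 - t)))) (n * (S + ε) - V * p) 0 := by
      have e1 : HasDerivAt (fun t : ℝ => 1 - t) (-1) 0 := by
        simpa using (hasDerivAt_id (0 : ℝ)).const_sub 1
      have e2 : HasDerivAt (fun t : ℝ => (1 - t) ^ n) (-(n : ℝ)) 0 := by
        have := e1.fun_pow n
        simpa using this
      have e3 : HasDerivAt (fun t : ℝ => (1 - (1 - t) ^ n) * (S + ε)) (n * (S + ε)) 0 := by
        have := (e2.const_sub 1).mul_const (S + ε)
        simpa using this
      have e4 : HasDerivAt (fun t : ℝ => Real.log (1 - t)) (-1) 0 := by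
        have := e1.log (by norm_num)
        simpa using this
      have e5 : HasDerivAt (fun t : ℝ => Real.exp (p * Real.log (1 - t))) (-p) 0 := by
        have := (e4.const_mul p).exp
        simpa using this
      have e6 : HasDerivAt (fun t : ℝ => V * (1 - Real.exp (p * Real.log (1 - t)))) (V * p) 0 := by
        have := (e5.const_sub 1).const_mul V
        simpa using this
      exact e3.sub e6
    have := deriv_nonneg_of_right (lt_min ht₀ ht₁0) (by simp) hd hstep
    linarith
  have hfin : V * p ≤ n * S := by
    apply le_of_forall_pos_le_add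
    intro ε hε
    have := key (ε / n) (by positivity)
    have h2 : n * (S + ε / n) = n * S + ε := by field_simp
    linarith
  have h5 : V * p = n / M * (mu.real ω * V) := by rw [hpdef]; ring
  have h6 : n * S = n / M * (M * S) := by field_simp
  rw [h5, h6] at hfin
  exact le_of_mul_le_mul_left hfin (by positivity)

end Pool.Agent.Lib.MP_abca01_gt
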