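import Pool.Agent.Lib.MP_abca01_gt.Plane

/-!
# MP_abca01_gt: discretisation of a measure on the closed upper half circle
-/

set_option autoImplicit false

open MeasureTheory Set Metric Filter Topology
open scoped RealInnerProductSpace Pointwise

namespace Pool.Agent.Lib.MP_abca01_gt

namespace PApproxaux

variable {E : Type} [NormedAddCommGroup E] [InnerProductSpace ℝ E]

theorem decomp [FiniteDimensional ℝ E] {e v : E} (hF : Frame e v) (u : E) :
    u = ⟪u, e⟫ • e + ⟪u, v⟫ • v := by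
  have hve : ⟪v, e⟫ = 0 := by rw [real_inner_comm]; exact hF.orth
  have hon : Orthonormal ℝ ![e, v] := by
    constructor
    · intro i
      fin_cases i
      · exact hF.e_norm
      · exact hF.v_norm
    · intro i j hij
      fin_cases i <;> fin_cases j
      · exact absurd rfl hij
      · exact hF.orth
      · exact hve
      · exact absurd rfl hij
  have hspan : Submodule.span ℝ (Set.range ![e, v]) = ⊤ :=
    hon.linearIndependent.span_eq_top_of_card_eq_finrank' (by
      rw [Fintype.card_fin, hF.dim])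
  let b : OrthonormalBasis (Fin 2) ℝ E := OrthonormalBasis.mk hon hspan.ge
  have hb : ⇑b = ![e, v] := OrthonormalBasis.coe_mk hon hspan.ge
  have h := b.sum_repr' u
  rw [Fin.sum_univ_two, hb] at h
  simp only [Matrix.cons_val_zero, Matrix.cons_val_one] at h
  rw [real_inner_comm, real_inner_comm u v] at h
  exact h.symm

theorem norm_sq [FiniteDimensional ℝ E] {e v : E} (hF : Frame e v) (u : E) :
    ‖u‖ ^ 2 = ⟪u, e⟫ ^ 2 + ⟪u, v⟫ ^ 2 := by
  have h := decomp hF u
  have h1 : ⟪u, u⟫ = ⟪u, ⟪u, e⟫ • e + ⟪u, v⟫ • v⟫ := by rw [← h]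
  rw [inner_add_right, inner_smul_right, inner_smul_right, real_inner_self_eq_norm_sq] at h1
  rw [h1]; ring

theorem inner_nrm {e v : E} (hF : Frame e v) (s t : ℝ) :
    ⟪nrm e v s, nrm e v t⟫ = (1 + s * t) / (√(1 + s ^ 2) * √(1 + t ^ 2)) := by
  have hve : ⟪v, e⟫ = 0 := by rw [real_inner_comm]; exact hF.orth
  have h1 : ⟪v - s • e, v - t • e⟫ = 1 + s * t := by
    rw [inner_sub_left, inner_sub_right, inner_sub_right, inner_smul_left, inner_smul_left,
      inner_smul_right, inner_smul_right, hve, hF.orth, real_inner_self_eq_norm_sq,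
      real_inner_self_eq_norm_sq, hF.e_norm, hF.v_norm]
    simp
  unfold nrm
  rw [inner_smul_left, inner_smul_right, h1]
  simp only [RCLike.conj_to_real]
  rw [div_eq_mul_inv, mul_inv]
  ring

theorem norm_nrm {e v : E} (hF : Frame e v) (s : ℝ) : ‖nrm e v s‖ = 1 := by
  have h1 := inner_nrm hF s s
  rw [real_inner_self_eq_norm_sq, Real.mul_self_sqrt (by positivity)] at h1
  have h2 : (1 + s * s) / (1 + s ^ 2) = 1 := by
    rw [← sq]; exact div_self (by positivity)
  rw [h2] at h1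
  have h3 : 0 ≤ ‖nrm e v s‖ := norm_nonneg _
  nlinarith

theorem norm_sub_nrm {e v : E} (hF : Frame e v) {s t : ℝ} (h : 0 ≤ 1 + s * t) :
    ‖nrm e v s - nrm e v t‖ ^ 2 ≤ 2 * (s - t) ^ 2 / ((1 + s ^ 2) * (1 + t ^ 2)) := by
  rw [norm_sub_sq_real, norm_nrm hF, norm_nrm hF, inner_nrm hF]
  set A := √(1 + s ^ 2) with hA
  set B := √(1 + t ^ 2) with hB
  have hA0 : 0 < A := Real.sqrt_pos.2 (by positivity)
  have hB0 : 0 < B := Real.sqrt_pos.2 (by positivity)
  have hA2 : A ^ 2 = 1 + s ^ 2 := Real.sq_sqrt (by positivity)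
  have hB2 : B ^ 2 = 1 + t ^ 2 := Real.sq_sqrt (by positivity)
  set q := (1 + s * t) / (A * B) with hq
  have hq0 : 0 ≤ q := by positivity
  have hq2 : 1 - q ^ 2 = (s - t) ^ 2 / ((1 + s ^ 2) * (1 + t ^ 2)) := by
    rw [hq, div_pow, mul_pow, hA2, hB2, eq_div_iff (by positivity), sub_mul, one_mul,
      div_mul_cancel₀ _ (by positivity)]
    ring
  have hq1 : q ≤ 1 := by
    have : 0 ≤ 1 - q ^ 2 := by rw [hq2]; positivity
    nlinarith
  rw [mul_div_assoc, ← hq2]
  nlinarith

theorem eq_nrm [FiniteDimensional ℝ E] {e v : E} (hF : Frame e v) {u : E} (hu : ‖u‖ = 1)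
    (hY : 0 < ⟪u, v⟫) : u = nrm e v (-⟪u, e⟫ / ⟪u, v⟫) := by
  have h1 := norm_sq hF u
  rw [hu, one_pow] at h1
  have h2 : √(1 + (-⟪u, e⟫ / ⟪u, v⟫) ^ 2) = ⟪u, v⟫⁻¹ := by
    have : 1 + (-⟪u, e⟫ / ⟪u, v⟫) ^ 2 = (⟪u, v⟫⁻¹) ^ 2 := by
      field_simp
      linarith
    rw [this, Real.sqrt_sq (by positivity)]
  unfold nrm
  rw [h2, inv_inv, smul_sub, smul_smul]
  have h3 : ⟪u, v⟫ * (-⟪u, e⟫ / ⟪u, v⟫) = -⟪u, e⟫ := by field_simp
  rw [h3, neg_smul, sub_neg_eq_add, add_comm]
  exact decomp hF u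

/-- The index of the slope interval. -/
noncomputable def idx (n : ℕ) (s : ℝ) : ℕ :=
  (min (2 * (n : ℤ) ^ 2) (⌈(n : ℝ) * s⌉ + (n : ℤ) ^ 2)).toNat

/-- The slopes. -/
noncomputable def sg (n : ℕ) (i : ℕ) : ℝ := ((i : ℝ) - (n : ℝ) ^ 2) / n

theorem idx_lt (n : ℕ) (s : ℝ) : idx n s < 2 * n ^ 2 + 1 := by
  unfold idx
  have h : min (2 * (n : ℤ) ^ 2) (⌈(n : ℝ) * s⌉ + (n : ℤ) ^ 2) ≤ ((2 * n ^ 2 : ℕ) : ℤ) := by
    push_cast
    exact min_le_left _ _
  have := Int.toNat_le_toNat h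
  rw [Int.toNat_natCast] at this
  omega

theorem idx_spec {n : ℕ} (hn : 1 ≤ n) (s : ℝ) : |s - sg n (idx n s)| ≤ 1 / n ∨
    (s ≤ -n ∧ sg n (idx n s) = -n) ∨ ((n : ℝ) ≤ s ∧ sg n (idx n s) = n) := by
  have hn' : (0 : ℝ) < n := by exact_mod_cast hn
  have hc1 := Int.le_ceil ((n : ℝ) * s)
  have hc2 := Int.ceil_lt_add_one ((n : ℝ) * s)
  set c := ⌈(n : ℝ) * s⌉ with hc
  unfold sg idx
  rw [← hc]
  rcases lt_or_ge (c + (n : ℤ) ^ 2) 0 with h | h
  · right; left
    have e1 : min (2 * (n : ℤ) ^ 2) (c + (n : ℤ) ^ 2) ≤ 0 := (min_le_right _ _).trans h.le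
    rw [Int.toNat_of_nonpos e1]
    have e2 : (c : ℝ) + (n : ℝ) ^ 2 < 0 := by exact_mod_cast h
    constructor
    · have : (n : ℝ) * s ≤ n * (-n) := by nlinarith
      exact le_of_mul_le_mul_left this hn'
    · push_cast
      field_simp
      ring
  · rcases le_or_gt (c + (n : ℤ) ^ 2) (2 * (n : ℤ) ^ 2) with h2 | h2
    · left
      rw [min_eq_right h2]
      have e1 : (((c + (n : ℤ) ^ 2).toNat : ℕ) : ℝ) = c + (n : ℝ) ^ 2 := by
        have : (((c + (n : ℤ) ^ 2).toNat : ℕ) : ℤ) = c + (n : ℤ) ^ 2 := Int.toNat_of_nonneg h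
        exact_mod_cast this
      rw [e1, add_sub_cancel_right]
      have e2 : s ≤ c / n := by
        rw [le_div_iff₀ hn']; linarith
      have e3 : (c : ℝ) / n ≤ s + 1 / n := by
        rw [div_le_iff₀ hn', add_mul, div_mul_cancel₀ _ hn'.ne']; linarith
      rw [abs_le]
      constructor <;> linarith
    · right; right
      rw [min_eq_left h2.le]
      have e1 : (((2 * (n : ℤ) ^ 2).toNat : ℕ) : ℝ) = 2 * (n : ℝ) ^ 2 := by
        have : (((2 * (n : ℤ) ^ 2).toNat : ℕ) : ℤ) = 2 * (n : ℤ) ^ 2 :=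
          Int.toNat_of_nonneg (by positivity)
        exact_mod_cast this
      rw [e1]
      have e2 : (n : ℤ) ^ 2 + 1 ≤ c := by omega
      have e3 : (n : ℝ) ^ 2 + 1 ≤ c := by exact_mod_cast e2
      constructor
      · have : (n : ℝ) * n ≤ n * s := by nlinarith
        exact le_of_mul_le_mul_left this hn'
      · field_simp
        ring

theorem measurable_idx (n : ℕ) : Measurable (idx n) := by
  unfold idx
  have h1 : Measurable fun s : ℝ => ⌈(n : ℝ) * s⌉ := (measurable_const_mul _).ceil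
  exact (measurable_from_top (f := fun z : ℤ => (min (2 * (n : ℤ) ^ 2) (z + (n : ℤ) ^ 2)).toNat)).comp
    h1

theorem nrm_close {e v : E} (hF : Frame e v) {n : ℕ} (hn : 1 ≤ n) (s : ℝ) :
    ‖nrm e v s - nrm e v (sg n (idx n s))‖ ≤ 2 / n := by
  have hn' : (1 : ℝ) ≤ n := by exact_mod_cast hn
  set t := sg n (idx n s) with ht
  have key : ‖nrm e v s - nrm e v t‖ ^ 2 ≤ (2 / (n : ℝ)) ^ 2 := by
    rcases idx_spec hn s with h | ⟨h, h'⟩ | ⟨h, h'⟩
    · rw [← ht] at h
      have h1 : 1 / (n : ℝ) ≤ 1 := by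
        rw [div_le_one (by linarith)]; exact hn'
      have h2 := abs_le.1 h
      have h2' : (s - t) ^ 2 ≤ 1 := by nlinarith
      have h3 : 0 ≤ 1 + s * t := by nlinarith [sq_nonneg (s + t)]
      refine (norm_sub_nrm hF h3).trans ?_
      have h4 : (s - t) ^ 2 ≤ (1 / (n : ℝ)) ^ 2 := by
        rw [← sq_abs]
        exact pow_le_pow_left₀ (abs_nonneg _) h 2
      have h5 : 1 ≤ (1 + s ^ 2) * (1 + t ^ 2) := by nlinarith [sq_nonneg s, sq_nonneg t, sq_nonneg (s * t)]
      calc 2 * (s - t) ^ 2 / ((1 + s ^ 2) * (1 + t ^ 2)) ≤ 2 * (s - t) ^ 2 :=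
            div_le_self (by positivity) h5
        _ ≤ 2 * (1 / (n : ℝ)) ^ 2 := by linarith
        _ ≤ (2 / (n : ℝ)) ^ 2 := by
            rw [div_pow, div_pow]
            have : (0 : ℝ) < (n : ℝ) ^ 2 := by positivity
            rw [← mul_div_assoc]
            gcongr
            norm_num
    · rw [← ht] at h'
      have h3 : 0 ≤ 1 + s * t := by rw [h']; nlinarith
      refine (norm_sub_nrm hF h3).trans ?_
      rw [div_le_iff₀ (by positivity), h']
      have h4 : (s - -(n : ℝ)) ^ 2 ≤ s ^ 2 := by nlinarith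
      have h5 : (2 / (n : ℝ)) ^ 2 * ((1 + s ^ 2) * (1 + (-(n : ℝ)) ^ 2)) =
          4 * (1 + s ^ 2) * (1 + (n : ℝ) ^ 2) / (n : ℝ) ^ 2 := by ring
      rw [h5, le_div_iff₀ (by positivity)]
      have h6 : (0 : ℝ) ≤ (n : ℝ) ^ 2 := by positivity
      nlinarith [mul_le_mul_of_nonneg_right h4 h6, mul_nonneg (sq_nonneg s) h6]
    · rw [← ht] at h'
      have h3 : 0 ≤ 1 + s * t := by rw [h']; nlinarith
      refine (norm_sub_nrm hF h3).trans ?_
      rw [div_le_iff₀ (by positivity), h']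
      have h4 : (s - (n : ℝ)) ^ 2 ≤ s ^ 2 := by nlinarith
      have h5 : (2 / (n : ℝ)) ^ 2 * ((1 + s ^ 2) * (1 + (n : ℝ) ^ 2)) =
          4 * (1 + s ^ 2) * (1 + (n : ℝ) ^ 2) / (n : ℝ) ^ 2 := by ring
      rw [h5, le_div_iff₀ (by positivity)]
      have h6 : (0 : ℝ) ≤ (n : ℝ) ^ 2 := by positivity
      nlinarith [mul_le_mul_of_nonneg_right h4 h6, mul_nonneg (sq_nonneg s) h6]
  exact (pow_le_pow_iff_left₀ (norm_nonneg _) (by positivity) two_ne_zero).1 key

end PApproxaux

open PApproxaux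

theorem stmtApprox : StmtApprox := by
  intro E _ _ _ _ _ mu _ e v hF hsph hneg η hη
  -- slopes
  set sl : E → ℝ := fun u => -⟪u, e⟫ / ⟪u, v⟫ with hsl
  have mX : Measurable fun u : E => ⟪u, e⟫ := (continuous_id.inner continuous_const).measurable
  have mY : Measurable fun u : E => ⟪u, v⟫ := (continuous_id.inner continuous_const).measurable
  have msl : Measurable sl := mX.neg.div mY
  have mU : MeasurableSet {u : E | 0 < ⟪u, v⟫} := measurableSet_lt measurable_const mY
  -- the tail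
  obtain ⟨k, hk⟩ : ∃ k : ℕ, mu.real {u | 0 < ⟪u, v⟫ ∧ (k : ℝ) < |sl u|} ≤ η := by
    have hA : Tendsto (fun k : ℕ => mu {u | 0 < ⟪u, v⟫ ∧ (k : ℝ) < |sl u|}) atTop
        (𝓝 (mu (⋂ k : ℕ, {u | 0 < ⟪u, v⟫ ∧ (k : ℝ) < |sl u|}))) := by
      apply tendsto_measure_iInter_atTop
      · intro k
        exact (mU.inter (measurableSet_lt measurable_const msl.abs)).nullMeasurableSet
      · intro i j hij u hu
        exact ⟨hu.1, lt_of_le_of_lt (by exact_mod_cast hij) hu.2⟩
      · exact ⟨0, measure_ne_top _ _⟩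
    have hemp : (⋂ k : ℕ, {u : E | 0 < ⟪u, v⟫ ∧ (k : ℝ) < |sl u|}) = ∅ := by
      ext u
      simp only [mem_iInter, mem_ofPred_eq, mem_empty_iff_false, iff_false, not_forall]
      obtain ⟨k, hk⟩ := exists_nat_ge |sl u|
      exact ⟨k, fun h => absurd h.2 (not_lt.2 hk)⟩
    rw [hemp, measure_empty] at hA
    have hev := hA.eventually (gt_mem_nhds (show (0 : ENNReal) < ENNReal.ofReal η by
      rwa [ENNReal.ofReal_pos]))
    obtain ⟨k, hk⟩ := hev.exists
    refine ⟨k, ?_⟩
    have := ENNReal.toReal_mono ENNReal.ofReal_ne_top hk.le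
    rwa [ENNReal.toReal_ofReal hη.le] at this
  refine ⟨k + 1, by positivity, fun ε hε => ?_⟩
  obtain ⟨n, hn⟩ := exists_nat_ge (max ((k : ℝ) + 2) (2 / ε))
  have hnk : (k : ℝ) + 2 ≤ n := (le_max_left _ _).trans hn
  have hnε : 2 / ε ≤ n := (le_max_right _ _).trans hn
  have hn1' : (1 : ℝ) ≤ n := by
    have : (0 : ℝ) ≤ k := Nat.cast_nonneg k
    linarith
  have hn1 : 1 ≤ n := by exact_mod_cast hn1'
  have hn0 : (0 : ℝ) < n := by linarith
  set U : ℕ → Set E := fun i => {u | 0 < ⟪u, v⟫ ∧ idx n (sl u) = i} with hU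
  have mUi : ∀ i, MeasurableSet (U i) := fun i =>
    mU.inter (((measurable_idx n).comp msl) (measurableSet_singleton i))
  have hdisj : ∀ F : Finset ℕ, Set.PairwiseDisjoint (↑F) U := by
    intro F i _ j _ hij
    refine Set.disjoint_left.2 fun u hu hu' => hij ?_
    exact hu.2.symm.trans hu'.2
  have hsum : ∀ F : Finset ℕ, ∑ i ∈ F, mu.real (U i) = mu.real (⋃ i ∈ F, U i) := fun F =>
    (measureReal_biUnion_finset (hdisj F) (fun i _ => mUi i)).symm
  refine ⟨2 * n ^ 2 + 1, sg n, fun i => mu.real (U i), fun _ _ => measureReal_nonneg, ?_, ?_,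
    ?_, ?_⟩
  · intro i j hij _
    unfold sg
    have : (i : ℝ) < j := by exact_mod_cast hij
    gcongr
  · rw [hsum]
    congr 1
    ext u
    simp only [mem_iUnion, Finset.mem_range, exists_prop, mem_ofPred_eq, hU]
    constructor
    · rintro ⟨i, _, h, _⟩; exact h
    · intro h; exact ⟨_, idx_lt n _, h, rfl⟩
  · rw [hsum]
    refine (measureReal_mono ?_).trans hk
    intro u hu
    simp only [mem_iUnion, Finset.mem_filter, Finset.mem_range, exists_prop, hU,
      mem_ofPred_eq] at hu ⊢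
    obtain ⟨i, ⟨_, hS⟩, hY, hi⟩ := hu
    refine ⟨hY, ?_⟩
    rw [← hi] at hS
    rcases idx_spec hn1 (sl u) with h | ⟨h, _⟩ | ⟨h, _⟩
    · have h1 : 1 / (n : ℝ) ≤ 1 := by
        rw [div_le_one hn0]; exact hn1'
      have h2 : |sg n (idx n (sl u))| ≤ |sl u| + |sl u - sg n (idx n (sl u))| := by
        have := abs_sub_abs_le_abs_sub (sg n (idx n (sl u))) (sl u)
        rw [abs_sub_comm] at this
        linarith
      linarith
    · rw [lt_abs]; right; linarith
    · rw [lt_abs]; left; linarith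
  · intro ω hω hωs
    have hcov : ω ⊆ (⋃ i ∈ Finset.range (2 * n ^ 2 + 1), ω ∩ U i) ∪ (ω ∩ {e}) ∪ (ω ∩ {-e}) ∪
        {u | ⟪u, v⟫ < 0} := by
      intro u hu
      rcases lt_trichotomy ⟪u, v⟫ 0 with h | h | h
      · exact Or.inr h
      · left
        have hu1 : ‖u‖ = 1 := by simpa using hωs hu
        have h1 := norm_sq hF u
        rw [h, hu1] at h1
        have h2 : (⟪u, e⟫ - 1) * (⟪u, e⟫ + 1) = 0 := by nlinarith
        have h3 := decomp hF u
        rw [h, zero_smul, add_zero] at h3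
        rcases mul_eq_zero.1 h2 with h4 | h4
        · left; right
          refine ⟨hu, ?_⟩
          have h5 : ⟪u, e⟫ = 1 := by linarith
          rw [h5, one_smul] at h3
          exact h3
        · right
          refine ⟨hu, ?_⟩
          have h5 : ⟪u, e⟫ = -1 := by linarith
          rw [h5, neg_one_smul] at h3
          exact h3
      · left; left; left
        simp only [mem_iUnion, Finset.mem_range, exists_prop]
        exact ⟨_, idx_lt n (sl u), hu, h, rfl⟩
    have h0 : mu.real {u : E | ⟪u, v⟫ < 0} = 0 := by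
      rw [measureReal_def, hneg, ENNReal.toReal_zero]
    have s1 : mu.real (ω ∩ {e}) ≤ ω.indicator (fun _ => mu.real {e}) e := by
      by_cases he : e ∈ ω
      · rw [indicator_of_mem he]
        exact measureReal_mono inter_subset_right
      · have : ω ∩ {e} = ∅ := by
          ext x
          simp only [mem_inter_iff, mem_singleton_iff, mem_empty_iff_false, iff_false, not_and]
          rintro hx rfl
          exact he hx
        rw [this, indicator_of_notMem he, measureReal_empty]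
    have s2 : mu.real (ω ∩ {-e}) ≤ ω.indicator (fun _ => mu.real {-e}) (-e) := by
      by_cases he : -e ∈ ω
      · rw [indicator_of_mem he]
        exact measureReal_mono inter_subset_right
      · have : ω ∩ {-e} = ∅ := by
          ext x
          simp only [mem_inter_iff, mem_singleton_iff, mem_empty_iff_false, iff_false, not_and]
          rintro hx rfl
          exact he hx
        rw [this, indicator_of_notMem he, measureReal_empty]
    have s3 : mu.real (⋃ i ∈ Finset.range (2 * n ^ 2 + 1), ω ∩ U i) ≤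
        ∑ i ∈ Finset.range (2 * n ^ 2 + 1),
          (cthickening ε ω).indicator (fun _ => mu.real (U i)) (nrm e v (sg n i)) := by
      refine (measureReal_biUnion_finset_le _ _).trans (Finset.sum_le_sum fun i _ => ?_)
      rcases (ω ∩ U i).eq_empty_or_nonempty with hemp | ⟨u, hu, huY, hui⟩
      · rw [hemp, measureReal_empty]
        exact indicator_nonneg (fun _ _ => measureReal_nonneg) _
      · have hmem : nrm e v (sg n i) ∈ cthickening ε ω := by
          refine mem_cthickening_of_dist_le _ u _ _ hu ?_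
          have hu1 : ‖u‖ = 1 := by simpa using hωs hu
          have h1 := nrm_close hF hn1 (sl u)
          rw [hui, ← eq_nrm hF hu1 huY, norm_sub_rev] at h1
          rw [dist_eq_norm]
          refine h1.trans ?_
          rw [div_le_iff₀ hn0]
          rw [div_le_iff₀ hε] at hnε
          linarith
        rw [indicator_of_mem hmem]
        exact measureReal_mono inter_subset_right
    calc mu.real ω ≤ mu.real ((⋃ i ∈ Finset.range (2 * n ^ 2 + 1), ω ∩ U i) ∪ (ω ∩ {e}) ∪
          (ω ∩ {-e}) ∪ {u | ⟪u, v⟫ < 0}) := measureReal_mono hcov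
      _ ≤ mu.real ((⋃ i ∈ Finset.range (2 * n ^ 2 + 1), ω ∩ U i) ∪ (ω ∩ {e}) ∪
          (ω ∩ {-e})) + mu.real {u | ⟪u, v⟫ < 0} := measureReal_union_le _ _
      _ ≤ mu.real ((⋃ i ∈ Finset.range (2 * n ^ 2 + 1), ω ∩ U i) ∪ (ω ∩ {e})) +
          mu.real (ω ∩ {-e}) + mu.real {u | ⟪u, v⟫ < 0} := by
          gcongr; exact measureReal_union_le _ _
      _ ≤ mu.real (⋃ i ∈ Finset.range (2 * n ^ 2 + 1), ω ∩ U i) + mu.real (ω ∩ {e}) +
          mu.real (ω ∩ {-e}) + mu.real {u | ⟪u, v⟫ < 0} := by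
          gcongr; exact measureReal_union_le _ _
      _ ≤ _ := by rw [h0]; linarith

end Pool.Agent.Lib.MP_abca01_gt
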