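import Pool.Agent.Lib.MP_abca01_gt.Plane
import Pool.Agent.Lib.MP_abca01_gt.ExistsMin
import Pool.Agent.Lib.MP_abca01_gt.Borel

/-!
# MP_abca01_gt: limits of approximate solutions
-/

set_option autoImplicit false

open MeasureTheory Set Metric Filter Topology
open scoped RealInnerProductSpace Pointwise

namespace Pool.Agent.Lib.MP_abca01_gt

namespace PClosureaux

open ExistsMinaux

variable {E : Type} [NormedAddCommGroup E] [InnerProductSpace ℝ E]

/-- A slightly shrunk copy of `L` is contained in every close convex set. -/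
theorem mem_of_shrink [FiniteDimensional ℝ E] {L K : Set E} {p : E} {ρ r : ℝ} (hρ : 0 < ρ)
    (hr : 0 ≤ r) (hrρ : r ≤ ρ) (hball : closedBall p ρ ⊆ L) (hK : IsCompact K)
    (hKc : Convex ℝ K) (h : ∀ x ∈ L, ∃ y ∈ K, ‖x - y‖ ≤ r) {y : E} (hy : y ∈ L) :
    (1 - r / ρ) • y + (r / ρ) • p ∈ K := by
  by_contra hx
  obtain ⟨f, u, hf1, hf2⟩ := geometric_hahn_banach_closed_point hKc hK.isClosed hx
  set w : E := (InnerProductSpace.toDual ℝ E).symm f with hw
  have hfw : ∀ z, f z = ⟪w, z⟫ := fun z => (InnerProductSpace.toDual_symm_apply).symm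
  -- points of `L`
  have hL : ∀ z ∈ L, f z ≤ u + ‖w‖ * r := by
    intro z hz
    obtain ⟨k, hk, hzk⟩ := h z hz
    have h1 := hf1 k hk
    have h2 : f z = f k + ⟪w, z - k⟫ := by rw [hfw z, hfw k, inner_sub_right]; ring
    have h3 : ⟪w, z - k⟫ ≤ ‖w‖ * ‖z - k‖ := real_inner_le_norm _ _
    have h4 : ‖w‖ * ‖z - k‖ ≤ ‖w‖ * r := mul_le_mul_of_nonneg_left hzk (norm_nonneg _)
    linarith
  have hp : f p + ρ * ‖w‖ ≤ u + ‖w‖ * r := by
    rcases eq_or_ne w 0 with h0 | h0
    · have := hL p (hball (mem_closedBall_self hρ.le))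
      rw [h0, norm_zero, mul_zero, zero_mul, add_zero, add_zero]
      rw [h0, norm_zero, zero_mul, add_zero] at this
      exact this
    · have hn : 0 < ‖w‖ := norm_pos_iff.2 h0
      have h1 := hL (p + (ρ / ‖w‖) • w) (hball (by
        rw [mem_closedBall, dist_eq_norm, add_sub_cancel_left, norm_smul, Real.norm_of_nonneg
          (by positivity), div_mul_cancel₀ _ hn.ne']))
      have h2 : f (p + (ρ / ‖w‖) • w) = f p + ρ * ‖w‖ := by
        rw [map_add, map_smul, smul_eq_mul, hfw w, real_inner_self_eq_norm_sq]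
        field_simp
      rwa [h2] at h1
  have hy' := hL y hy
  rw [map_add, map_smul, map_smul, smul_eq_mul, smul_eq_mul] at hf2
  have ht0 : 0 ≤ r / ρ := by positivity
  have ht1 : 0 ≤ 1 - r / ρ := by
    have : r / ρ ≤ 1 := (div_le_one hρ).2 hrρ
    linarith
  have e1 := mul_le_mul_of_nonneg_left hy' ht1
  have e2 := mul_le_mul_of_nonneg_left hp ht0
  have e3 : r / ρ * (ρ * ‖w‖) = r * ‖w‖ := by field_simp
  nlinarith

/-- Volume of the limit. -/
theorem volume_limit [FiniteDimensional ℝ E] [MeasurableSpace E] [BorelSpace E]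
    (lam : Measure E) [lam.IsAddHaarMeasure] {L : Set E} {K : ℕ → Set E} {r : ℕ → ℝ} {M : ℝ}
    (hLc : IsCompact L) (hL : Convex ℝ L) (hK : ∀ j, IsCompact (K j)) (hKc : ∀ j, Convex ℝ (K j))
    (hM : ∀ j, lam.real (K j) ≤ M) (hr : Tendsto r atTop (𝓝 0)) (hr0 : ∀ j, 0 ≤ r j)
    (h : ∀ j, ∀ x ∈ L, ∃ y ∈ K j, ‖x - y‖ ≤ r j) : lam.real L ≤ M := by
  rcases (interior L).eq_empty_or_nonempty with he | ⟨p, hp⟩
  · have h0 : lam L = 0 := by
      have h1 : L ⊆ frontier L := by
        intro x hx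
        rw [hLc.isClosed.frontier_eq, he]
        simpa using hx
      exact measure_mono_null h1 (hL.addHaar_frontier lam)
    have h1 : lam.real L = 0 := by rw [measureReal_def, h0, ENNReal.toReal_zero]
    rw [h1]
    exact le_trans measureReal_nonneg (hM 0)
  · obtain ⟨ρ, hρ, hball⟩ := Metric.isOpen_iff.1 isOpen_interior p hp
    have hball' : closedBall p (ρ / 2) ⊆ L :=
      (closedBall_subset_ball (by linarith)).trans (hball.trans interior_subset)
    have hρ' : 0 < ρ / 2 := by linarith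
    have hlim : Tendsto (fun j => (1 - r j / (ρ / 2)) ^ Module.finrank ℝ E * lam.real L) atTop
        (𝓝 (lam.real L)) := by
      have h1 : Tendsto (fun j => (1 - r j / (ρ / 2)) ^ Module.finrank ℝ E * lam.real L) atTop
          (𝓝 ((1 - 0 / (ρ / 2)) ^ Module.finrank ℝ E * lam.real L)) :=
        (((hr.div_const (ρ / 2)).const_sub 1).pow _).mul_const _
      simpa using h1
    refine le_of_tendsto hlim ?_
    have hev : ∀ᶠ j in atTop, r j < ρ / 2 := hr.eventually (gt_mem_nhds hρ')
    filter_upwards [hev] with j hj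
    have ht1 : 0 ≤ 1 - r j / (ρ / 2) := by
      have : r j / (ρ / 2) ≤ 1 := (div_le_one hρ').2 hj.le
      linarith
    have hsub : AffineMap.homothety p (1 - r j / (ρ / 2)) '' L ⊆ K j := by
      rintro _ ⟨y, hy, rfl⟩
      have h1 := mem_of_shrink hρ' (hr0 j) hj.le hball' (hK j) (hKc j) (h j) hy
      have h2 : AffineMap.homothety p (1 - r j / (ρ / 2)) y =
          (1 - r j / (ρ / 2)) • y + (r j / (ρ / 2)) • p := by
        rw [AffineMap.homothety_apply, vsub_eq_sub, vadd_eq_add, smul_sub]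
        module
      rwa [h2]
    have h1 := measureReal_mono (μ := lam) hsub (hK j).measure_lt_top.ne
    have h2 : lam.real (AffineMap.homothety p (1 - r j / (ρ / 2)) '' L) =
        (1 - r j / (ρ / 2)) ^ Module.finrank ℝ E * lam.real L := by
      rw [measureReal_def, Measure.addHaar_image_homothety, ENNReal.toReal_mul,
        ENNReal.toReal_ofReal (abs_nonneg _), abs_of_nonneg (pow_nonneg ht1 _), measureReal_def]
    rw [← h2]
    exact h1.trans (hM j)

end PClosureaux

open PClosureaux ExistsMinaux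

theorem stmtClosure : StmtClosure := by
  intro E _ _ _ _ _ lam mu _ _ Q M K hQ hK hmu
  obtain ⟨φ, L, r, hφ, hLc, -, hLQ, hr, hr0, h1, h2⟩ := exists_limit hQ K (fun j => (hK j).1)
    (fun j => ⟨0, (hK j).2.2.1⟩) (fun j => (hK j).2.2.2.1)
  have hLconv : Convex ℝ L :=
    convex_limit hLc.isClosed (K := fun j => K (φ j)) (fun j => (hK _).2.1) hr h1 h2
  have h0L : (0 : E) ∈ L := mem_of_approx hLc.isClosed hr fun j => h1 j 0 (hK _).2.2.1
  refine ⟨L, hLc, hLconv, h0L, ?_, ?_⟩
  · exact volume_limit lam hLc hLconv (K := fun j => K (φ j)) (fun j => (hK _).1)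
      (fun j => (hK _).2.1) (fun j => (hK _).2.2.2.2) hr hr0 h2
  · intro ω hω hωs
    have hseg : IsCompact (segs L ω) := Borelaux.isCompact_segs hLc hω
    -- the thickened inequality
    have key : ∀ η : ℝ, 0 < η → mu.real ω ≤ lam.real (cthickening η (segs L ω)) := by
      intro η hη
      by_contra hcon
      have hno : ∀ j, ∃ x ∈ segs (K (φ j))
          (cthickening (1 / ((φ j : ℝ) + 1)) ω ∩ sphere (0 : E) 1),
          x ∉ cthickening η (segs L ω) := by
        intro j
        by_contra hall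
        push Not at hall
        apply hcon
        refine (hmu (φ j) ω hω hωs).trans ?_
        exact measureReal_mono hall hseg.cthickening.measure_lt_top.ne
      choose x hx hxn using hno
      have hx' : ∀ j, ∃ q : ℝ × E × E, q.2.2 ∈ cthickening (1 / ((φ j : ℝ) + 1)) ω ∩
          sphere (0 : E) 1 ∧ q.2.1 ∈ K (φ j) ∧ (∀ z ∈ K (φ j), ⟪z, q.2.2⟫ ≤ ⟪q.2.1, q.2.2⟫) ∧
          q.1 ∈ Icc (0 : ℝ) 1 ∧ x j = q.1 • q.2.1 := by
        intro j
        obtain ⟨u, hu, y, hy, hmax, s, hs, hxe⟩ := hx j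
        exact ⟨(s, y, u), hu, hy, hmax, hs, hxe⟩
      choose q hqu hqy hqm hqs hqx using hx'
      have hcomp : IsCompact (Icc (0 : ℝ) 1 ×ˢ (Q ×ˢ sphere (0 : E) 1)) :=
        isCompact_Icc.prod (hQ.prod (isCompact_sphere 0 1))
      obtain ⟨⟨s, y, u⟩, hlimm, ψ, hψ, hlim⟩ := hcomp.tendsto_subseq (x := q) fun j =>
        ⟨hqs j, (hK _).2.2.2.1 (hqy j), (hqu j).2⟩
      have hs : Tendsto (fun j => (q (ψ j)).1) atTop (𝓝 s) :=
        (continuous_fst.tendsto _).comp hlim
      have hy : Tendsto (fun j => (q (ψ j)).2.1) atTop (𝓝 y) :=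
        ((continuous_fst.comp continuous_snd).tendsto _).comp hlim
      have hu : Tendsto (fun j => (q (ψ j)).2.2) atTop (𝓝 u) :=
        ((continuous_snd.comp continuous_snd).tendsto _).comp hlim
      have hrψ : Tendsto (fun j => r (ψ j)) atTop (𝓝 0) := hr.comp hψ.tendsto_atTop
      -- `u ∈ ω`
      have huω : u ∈ ω := by
        have hs' : Tendsto (fun j => ‖u - (q (ψ j)).2.2‖ + 1 / ((φ (ψ j) : ℝ) + 1)) atTop
            (𝓝 0) := by
          have e1 : Tendsto (fun j => ‖u - (q (ψ j)).2.2‖) atTop (𝓝 0) := by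
            have := (tendsto_const_nhds (x := u)).sub hu
            simpa using this.norm
          have e2 : Tendsto (fun j : ℕ => 1 / ((φ (ψ j) : ℝ) + 1)) atTop (𝓝 0) :=
            (tendsto_one_div_add_atTop_nhds_zero_nat (𝕜 := ℝ)).comp
              (hφ.tendsto_atTop.comp hψ.tendsto_atTop)
          simpa using e1.add e2
        refine mem_of_approx hω.isClosed hs' fun j => ?_
        have e1 := (hqu (ψ j)).1
        rw [hω.cthickening_eq_biUnion_closedBall (by positivity)] at e1
        obtain ⟨w, hw, hw'⟩ := mem_iUnion₂.1 e1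
        refine ⟨w, hw, ?_⟩
        rw [mem_closedBall, dist_eq_norm] at hw'
        calc ‖u - w‖ = ‖(u - (q (ψ j)).2.2) + ((q (ψ j)).2.2 - w)‖ := by congr 1; abel
          _ ≤ ‖u - (q (ψ j)).2.2‖ + ‖(q (ψ j)).2.2 - w‖ := norm_add_le _ _
          _ ≤ _ := by linarith
      -- `y ∈ L`
      have hyL : y ∈ L := by
        have hs' : Tendsto (fun j => ‖y - (q (ψ j)).2.1‖ + r (ψ j)) atTop (𝓝 0) := by
          have e1 : Tendsto (fun j => ‖y - (q (ψ j)).2.1‖) atTop (𝓝 0) := by
            have := (tendsto_const_nhds (x := y)).sub hy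
            simpa using this.norm
          simpa using e1.add hrψ
        refine mem_of_approx hLc.isClosed hs' fun j => ?_
        obtain ⟨w, hw, hw'⟩ := h1 (ψ j) _ (hqy (ψ j))
        refine ⟨w, hw, ?_⟩
        calc ‖y - w‖ = ‖(y - (q (ψ j)).2.1) + ((q (ψ j)).2.1 - w)‖ := by congr 1; abel
          _ ≤ ‖y - (q (ψ j)).2.1‖ + ‖(q (ψ j)).2.1 - w‖ := norm_add_le _ _
          _ ≤ _ := by linarith
      -- maximality
      have hmax : ∀ z ∈ L, ⟪z, u⟫ ≤ ⟪y, u⟫ := by
        intro z hz
        have hz' : ∀ j, ∃ w ∈ K (φ (ψ j)), ‖z - w‖ ≤ r (ψ j) := fun j => h2 (ψ j) z hz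
        choose w hw hw' using hz'
        have hwlim : Tendsto w atTop (𝓝 z) := by
          rw [tendsto_iff_norm_sub_tendsto_zero]
          refine squeeze_zero (fun _ => norm_nonneg _) (fun j => ?_) hrψ
          rw [norm_sub_rev]
          exact hw' j
        exact le_of_tendsto_of_tendsto' (hwlim.inner hu) (hy.inner hu)
          fun j => hqm (ψ j) _ (hw j)
      have hsI : s ∈ Icc (0 : ℝ) 1 := hlimm.1
      have hmem : s • y ∈ segs L ω := ⟨u, huω, y, hyL, hmax, s, hsI, rfl⟩
      have hxlim : Tendsto (fun j => x (ψ j)) atTop (𝓝 (s • y)) := by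
        have : (fun j => x (ψ j)) = fun j => (q (ψ j)).1 • (q (ψ j)).2.1 :=
          funext fun j => hqx (ψ j)
        rw [this]
        exact hs.smul hy
      rw [Metric.tendsto_atTop] at hxlim
      obtain ⟨N, hN⟩ := hxlim η hη
      exact hxn (ψ N) (mem_cthickening_of_dist_le _ _ _ _ hmem (hN N le_rfl).le)
    -- let the thickness tend to zero
    have hlim : Tendsto (fun η : ℝ => lam.real (cthickening η (segs L ω))) (𝓝[>] 0)
        (𝓝 (lam.real (segs L ω))) := by
      have e1 := (tendsto_measure_cthickening_of_isCompact (μ := lam) hseg).mono_left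
        (nhdsWithin_le_nhds (s := Ioi (0 : ℝ)))
      exact (ENNReal.tendsto_toReal hseg.measure_lt_top.ne).comp e1
    refine ge_of_tendsto hlim ?_
    filter_upwards [self_mem_nhdsWithin] with η hη
    exact key η hη

end Pool.Agent.Lib.MP_abca01_gt
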