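import Pool.Agent.Lib.MP_abca01_gt.Plane
import Pool.Agent.Lib.MP_abca01_gt.Cap

/-!
# MP_abca01_gt, plane: the equality case, sufficiency
-/

set_option autoImplicit false

open MeasureTheory Set Metric
open scoped RealInnerProductSpace Pointwise

namespace Pool.Agent.Lib.MP_abca01_gt

namespace PEqualityaux

variable {E : Type} [NormedAddCommGroup E] [InnerProductSpace ℝ E]

/-- Coordinates in the frame. -/
theorem decomp [FiniteDimensional ℝ E] {e v : E} (h : Frame e v) (u : E) :
    u = ⟪u, e⟫ • e + ⟪u, v⟫ • v := by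
  have ho : Orthonormal ℝ ![e, v] := by
    constructor
    · intro i
      fin_cases i
      · exact h.e_norm
      · exact h.v_norm
    · intro i j hij
      fin_cases i <;> fin_cases j
      · exact absurd rfl hij
      · exact h.orth
      · exact (real_inner_comm _ _).trans h.orth
      · exact absurd rfl hij
  have hcard : Fintype.card (Fin 2) = Module.finrank ℝ E := by
    rw [h.dim, Fintype.card_fin]
  let b := (basisOfOrthonormalOfCardEqFinrank ho hcard).toOrthonormalBasis (by
    rw [coe_basisOfOrthonormalOfCardEqFinrank]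
    exact ho)
  have hb : (b : Fin 2 → E) = ![e, v] := by
    rw [Module.Basis.coe_toOrthonormalBasis, coe_basisOfOrthonormalOfCardEqFinrank]
  have h1 := b.sum_repr' u
  rw [Fin.sum_univ_two, hb] at h1
  simp only [Matrix.cons_val_zero, Matrix.cons_val_one] at h1
  rw [real_inner_comm u e, real_inner_comm u v] at h1
  exact h1.symm

/-- The norm in the frame. -/
theorem norm_sq [FiniteDimensional ℝ E] {e v : E} (h : Frame e v) (u : E) :
    ‖u‖ ^ 2 = ⟪u, e⟫ ^ 2 + ⟪u, v⟫ ^ 2 := by
  have h1 : ⟪u, u⟫ = ⟪u, ⟪u, e⟫ • e + ⟪u, v⟫ • v⟫ := by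
    rw [← decomp h u]
  rw [inner_add_right, real_inner_smul_right, real_inner_smul_right,
    real_inner_self_eq_norm_sq] at h1
  rw [h1]
  ring

/-- The unit vectors orthogonal to `v`. -/
theorem eq_of_orth [FiniteDimensional ℝ E] {e v : E} (h : Frame e v) {u : E} (hu : ‖u‖ = 1)
    (h0 : ⟪u, v⟫ = 0) : u = e ∨ u = -e := by
  have h1 := norm_sq h u
  rw [hu, h0] at h1
  have h2 : (⟪u, e⟫ - 1) * (⟪u, e⟫ + 1) = 0 := by nlinarith
  have h3 := decomp h u
  rw [h0, zero_smul, add_zero] at h3
  rcases mul_eq_zero.1 h2 with h4 | h4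
  · left
    rw [h3, show (⟪u, e⟫ : ℝ) = 1 by linarith, one_smul]
  · right
    rw [h3, show (⟪u, e⟫ : ℝ) = -1 by linarith, neg_one_smul]

theorem frame_neg {e v : E} (h : Frame e v) : Frame (-e) v where
  e_norm := by rw [norm_neg, h.e_norm]
  v_norm := h.v_norm
  orth := by rw [inner_neg_left, h.orth, neg_zero]
  dim := h.dim

/-- The degenerate case. -/
theorem degenerate [FiniteDimensional ℝ E] [MeasurableSpace E] [BorelSpace E] (h4 : StmtHemi)
    (lam mu : Measure E) [lam.IsAddHaarMeasure] [IsFiniteMeasure mu] (e v : E) (h : Frame e v)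
    (hmu : mu ≠ 0) (hs : mu (sphere (0 : E) 1)ᶜ = 0) (hneg : mu {u | ⟪u, v⟫ < 0} = 0)
    (hpos : mu {u | 0 < ⟪u, v⟫} = 0) (hb : mu {-e} = 0) :
    ∃ K : Set E, IsCompact K ∧ Convex ℝ K ∧ (interior K).Nonempty ∧ (0 : E) ∈ K ∧
      ∀ ω : Set E, MeasurableSet ω → ω ⊆ sphere (0 : E) 1 → lam (segs K ω) = mu ω := by
  have hnull : mu (((sphere (0 : E) 1)ᶜ ∪ {u | ⟪u, v⟫ < 0}) ∪ ({u | 0 < ⟪u, v⟫} ∪ {-e})) = 0 := by
    rw [measure_union_null_iff, measure_union_null_iff, measure_union_null_iff]
    exact ⟨⟨hs, hneg⟩, hpos, hb⟩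
  have hsub : ∀ u : E, ⟪u, e⟫ ≤ 0 →
      u ∈ ((sphere (0 : E) 1)ᶜ ∪ {u | ⟪u, v⟫ < 0}) ∪ ({u | 0 < ⟪u, v⟫} ∪ {-e}) := by
    intro u hu
    by_contra hcon
    simp only [mem_union, mem_compl_iff, mem_ofPred_eq, mem_singleton_iff, not_or, not_not,
      not_lt, mem_sphere_zero_iff_norm] at hcon
    obtain ⟨⟨h5, h6⟩, h7, h8⟩ := hcon
    rcases eq_of_orth h h5 (le_antisymm h7 h6) with h9 | h9
    · rw [h9, real_inner_self_eq_norm_sq, h.e_norm] at hu
      norm_num at hu
    · exact h8 h9
  apply h4 E lam mu e h.e_norm hmu hs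
  · exact measure_mono_null (fun u hu => hsub u (le_of_lt hu)) hnull
  · have h0 : mu {u : E | ⟪u, e⟫ = 0} = 0 :=
      measure_mono_null (fun u hu => hsub u (le_of_eq hu)) hnull
    rw [measureReal_def, h0, ENNReal.toReal_zero, h.dim]
    have hM : 0 < mu.real univ := by
      rw [measureReal_def, ENNReal.toReal_pos_iff]
      exact ⟨by rw [pos_iff_ne_zero]; simpa using hmu, measure_lt_top _ _⟩
    positivity

end PEqualityaux

open PEqualityaux

theorem stmtEquality (h1 : StmtTri) (h2 : StmtPoly) (h3 : StmtBorel) (h4 : StmtHemi) :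
    StmtEquality := by
  intro E _ _ _ _ _ lam mu _ _ e v w h hmu hs hneg heq hw
  have hM : 0 < mu.real univ := by
    rw [measureReal_def, ENNReal.toReal_pos_iff]
    exact ⟨by rw [pos_iff_ne_zero]; simpa using hmu, measure_lt_top _ _⟩
  rcases (measureReal_nonneg : 0 ≤ mu.real {e}).eq_or_lt with ha | ha
  · -- `a = 0`
    have hc0 : mu {u | 0 < ⟪u, v⟫} = 0 := by
      rw [← ha, zero_mul, Real.sqrt_zero, mul_zero] at heq
      exact (measureReal_eq_zero_iff).1 heq.symm
    have ha0 : mu {e} = 0 := (measureReal_eq_zero_iff).1 ha.symm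
    exact degenerate h4 lam mu (-e) v (frame_neg h) hmu hs hneg hc0 (by rwa [neg_neg])
  rcases (measureReal_nonneg : 0 ≤ mu.real {-e}).eq_or_lt with hb | hb
  · have hc0 : mu {u | 0 < ⟪u, v⟫} = 0 := by
      rw [← hb, mul_zero, Real.sqrt_zero, mul_zero] at heq
      exact (measureReal_eq_zero_iff).1 heq.symm
    have hb0 : mu {-e} = 0 := (measureReal_eq_zero_iff).1 hb.symm
    exact degenerate h4 lam mu e v h hmu hs hneg hc0 hb0
  set a : ℝ := mu.real {e} with hadef
  set b : ℝ := mu.real {-e} with hbdef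
  set c : ℝ := mu.real {u | 0 < ⟪u, v⟫} with hcdef
  have hc : 0 < c := by
    rw [← heq]
    have := Real.sqrt_pos.2 (mul_pos ha hb)
    positivity
  -- the point `w`
  have hwle : c ≤ mu.real {w} := by
    have h5 : mu {u | 0 < ⟪u, v⟫} ≤ mu {w} := by
      have h6 : {u : E | 0 < ⟪u, v⟫} ⊆ ({u : E | 0 < ⟪u, v⟫} \ {w}) ∪ {w} := by
        intro u hu
        by_cases h7 : u = w
        · exact Or.inr h7
        · exact Or.inl ⟨hu, h7⟩
      calc mu {u | 0 < ⟪u, v⟫} ≤ mu (({u : E | 0 < ⟪u, v⟫} \ {w}) ∪ {w}) := measure_mono h6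
        _ ≤ mu ({u : E | 0 < ⟪u, v⟫} \ {w}) + mu {w} := measure_union_le _ _
        _ = mu {w} := by rw [hw, zero_add]
    exact ENNReal.toReal_mono (measure_ne_top _ _) h5
  have hwv : 0 < ⟪w, v⟫ := by
    by_contra hcon
    have h6 : {u : E | 0 < ⟪u, v⟫} ⊆ {u : E | 0 < ⟪u, v⟫} \ {w} := by
      intro u hu
      refine ⟨hu, ?_⟩
      rintro rfl
      exact hcon hu
    have h7 : mu {u | 0 < ⟪u, v⟫} = 0 := measure_mono_null h6 hw
    rw [hcdef, measureReal_def, h7, ENNReal.toReal_zero] at hc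
    exact lt_irrefl _ hc
  have hw1 : ‖w‖ = 1 := by
    by_contra hcon
    have h6 : ({w} : Set E) ⊆ (sphere (0 : E) 1)ᶜ := by
      rintro u rfl
      simpa using hcon
    have h7 : mu {w} = 0 := measure_mono_null h6 hs
    rw [measureReal_def, h7, ENNReal.toReal_zero] at hwle
    exact absurd hwle (not_le.2 hc)
  set s : ℝ := -⟪w, e⟫ / ⟪w, v⟫ with hsdef
  have hnrm : nrm e v s = w := by
    have h6 : 1 + s ^ 2 = (1 / ⟪w, v⟫) ^ 2 := by
      have h7 := norm_sq h w
      rw [hw1] at h7
      rw [hsdef]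
      field_simp
      linarith
    have h8 : √(1 + s ^ 2) = 1 / ⟪w, v⟫ := by
      rw [h6, Real.sqrt_sq (by positivity)]
    unfold nrm
    rw [h8, one_div, inv_inv, smul_sub, smul_smul]
    have h9 : ⟪w, v⟫ * s = -⟪w, e⟫ := by
      rw [hsdef]
      field_simp
    rw [h9, neg_smul, sub_neg_eq_add, add_comm]
    exact (decomp h w).symm
  -- the polygon
  obtain ⟨κ₀, hκ, htri⟩ := h1 E lam e v h
  set t : ℝ := √(b / a) with htdef
  have ht : 0 < t := Real.sqrt_pos.2 (div_pos hb ha)
  have ht2 : t ^ 2 = b / a := Real.sq_sqrt (div_pos hb ha).le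
  have hct : c = 2 * a * t := by
    rw [← heq, htdef]
    have h5 : a * b = a ^ 2 * (b / a) := by field_simp
    rw [h5, Real.sqrt_mul (sq_nonneg a), Real.sqrt_sq ha.le]
    ring
  set y0 : ℝ := s + c / κ₀ / (1 + t) with hy0
  set y1 : ℝ := y0 - s * (1 + t) with hy1
  have h1t : 0 < 1 + t := by linarith
  have hh : y0 - s * 1 = c / κ₀ / (1 + t) := by
    rw [hy0]
    ring
  have hhpos : 0 < c / κ₀ / (1 + t) := by positivity
  have hquot : c / κ₀ / (c / κ₀ / (1 + t)) = 1 + t := by
    field_simp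
  set x : ℕ → ℝ := fun i => if i = 0 then 1 else -t with hx
  set y : ℕ → ℝ := fun i => if i = 0 then y0 else y1 with hy
  have hx0 : x 0 = 1 := by simp [hx]
  have hx1 : x 1 = -t := by simp [hx]
  have hyy0 : y 0 = y0 := by simp [hy]
  have hyy1 : y 1 = y1 := by simp [hy]
  set B : ℝ := ‖pt e v (x 0) (y 0)‖ + ‖pt e v (x 1) (y 1)‖ +
    ‖pt e v (x 0) (y 0 - a / κ₀ / x 0)‖ + ‖pt e v (x 1) (y 1 + b / κ₀ / x 1)‖ with hB
  have hB0 := norm_nonneg (pt e v (x 0) (y 0))
  have hB1 := norm_nonneg (pt e v (x 1) (y 1))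
  have hB2 := norm_nonneg (pt e v (x 0) (y 0 - a / κ₀ / x 0))
  have hB3 := norm_nonneg (pt e v (x 1) (y 1 + b / κ₀ / x 1))
  obtain ⟨K, hKc, hKv, hK0, -, hKvol, hKseg⟩ := h2 E lam e v κ₀ h hκ htri 1 (fun _ => s)
    (fun _ => c / κ₀) x y (a / κ₀) (b / κ₀) B (by positivity) (by positivity)
    (fun i _ => by positivity) (fun i j hij hj => by omega)
    (fun i hi => by
      have hi0 : i = 0 := by omega
      subst hi0
      rw [hx0, hyy0, hh]
      exact hhpos)
    (fun i hi => by
      have hi0 : i = 0 := by omega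
      subst hi0
      rw [zero_add, hx0, hyy0, hx1, hyy1, hh, hquot]
      constructor
      · ring
      · rw [hy1])
    (by rw [hx0]; norm_num) (by rw [hx1]; linarith)
    (by
      rw [hx0, hx1, hyy0, hyy1, hy1]
      have h5 : b / κ₀ / (-t) ^ 2 = a / κ₀ := by
        rw [neg_sq, ht2]
        field_simp
      rw [h5]
      apply le_of_eq
      have h6 : y0 / 1 - (y0 - s * (1 + t)) / -t = (1 + t) / t * (y0 - s * 1) := by
        field_simp
        ring
      rw [h6, hh, hct]
      field_simp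
      ring)
    (fun i hi => by
      rcases Nat.le_one_iff_eq_zero_or_eq_one.1 hi with rfl | rfl
      · rw [hB]; linarith
      · rw [hB]; linarith)
    (by rw [hB]; linarith) (by rw [hB]; linarith)
  have hKfin : lam K ≠ ⊤ := hKc.measure_lt_top.ne
  rw [Finset.sum_range_one] at hKvol
  have hsum : κ₀ * (a / κ₀ + b / κ₀ + c / κ₀) = a + b + c := by
    field_simp
  rw [hsum] at hKvol
  -- the measure
  have hew : e ≠ w := by
    rintro rfl
    rw [h.orth] at hwv
    exact lt_irrefl _ hwv
  have hnew : -e ≠ w := by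
    rintro rfl
    rw [inner_neg_left, h.orth, neg_zero] at hwv
    exact lt_irrefl _ hwv
  have hee : e ≠ -e := by
    intro h5
    have h6 : ⟪e, e⟫ = ⟪-e, e⟫ := by rw [← h5]
    rw [inner_neg_left, real_inner_self_eq_norm_sq, h.e_norm] at h6
    norm_num at h6
  have hYm : MeasurableSet {u : E | 0 < ⟪u, v⟫} :=
    measurableSet_lt measurable_const (continuous_id.inner continuous_const).measurable
  have htot : a + b + c ≤ mu.real univ := by
    have hd1 : Disjoint ({e} : Set E) {-e} := by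
      rw [disjoint_singleton]
      exact hee
    have hd2 : Disjoint (({e} : Set E) ∪ {-e}) {u : E | 0 < ⟪u, v⟫} := by
      rw [disjoint_union_left, disjoint_singleton_left, disjoint_singleton_left]
      constructor
      · intro h5
        have h6 : 0 < ⟪e, v⟫ := h5
        rw [h.orth] at h6
        exact lt_irrefl _ h6
      · intro h5
        have h6 : 0 < ⟪-e, v⟫ := h5
        rw [inner_neg_left, h.orth, neg_zero] at h6
        exact lt_irrefl _ h6
    have h5 := measureReal_union (μ := mu) hd1 (measurableSet_singleton (-e))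
    have h6 := measureReal_union (μ := mu) hd2 hYm
    rw [hadef, hbdef, hcdef, ← h5, ← h6]
    exact measureReal_mono (subset_univ _) (measure_ne_top _ _)
  have hwle2 : mu.real {w} ≤ c :=
    measureReal_mono (singleton_subset_iff.2 hwv) (measure_ne_top _ _)
  have hone : ∀ (ω : Set E) (p : E) (q : ℝ), mu.real {p} ≤ q →
      mu.real (ω ∩ {p}) ≤ ω.indicator (fun _ => q) p := by
    intro ω p q hpq
    by_cases h5 : p ∈ ω
    · rw [indicator_of_mem h5]
      exact (measureReal_mono inter_subset_right (measure_ne_top _ _)).trans hpq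
    · rw [indicator_of_notMem h5]
      have h6 : ω ∩ {p} = ∅ := by
        ext u
        simp only [mem_inter_iff, mem_singleton_iff, mem_empty_iff_false, iff_false, not_and]
        rintro h7 rfl
        exact h5 h7
      rw [h6, measureReal_empty]
  have hbound : ∀ ω : Set E, ω ⊆ sphere (0 : E) 1 → mu.real ω ≤ lam.real (segs K ω) := by
    intro ω hω
    have h5 : ω ⊆ (({u : E | 0 < ⟪u, v⟫} \ {w}) ∪ {u : E | ⟪u, v⟫ < 0}) ∪
        ((ω ∩ {w}) ∪ ((ω ∩ {e}) ∪ (ω ∩ {-e}))) := by
      intro u hu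
      have hu1 : ‖u‖ = 1 := by simpa using hω hu
      rcases lt_trichotomy ⟪u, v⟫ 0 with h6 | h6 | h6
      · exact Or.inl (Or.inr h6)
      · right
        right
        rcases eq_of_orth h hu1 h6 with h7 | h7
        · exact Or.inl ⟨hu, h7⟩
        · exact Or.inr ⟨hu, h7⟩
      · by_cases h7 : u = w
        · exact Or.inr (Or.inl ⟨hu, h7⟩)
        · exact Or.inl (Or.inl ⟨h6, h7⟩)
    have hnull : mu.real (({u : E | 0 < ⟪u, v⟫} \ {w}) ∪ {u : E | ⟪u, v⟫ < 0}) = 0 := by
      rw [measureReal_eq_zero_iff, measure_union_null_iff]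
      exact ⟨hw, hneg⟩
    have h6 : mu.real ω ≤ mu.real (ω ∩ {w}) + (mu.real (ω ∩ {e}) + mu.real (ω ∩ {-e})) := by
      refine (measureReal_mono h5 (measure_ne_top _ _)).trans ?_
      refine (measureReal_union_le _ _).trans ?_
      rw [hnull, zero_add]
      refine (measureReal_union_le _ _).trans ?_
      exact add_le_add_right (measureReal_union_le _ _) _
    have h7 := hone ω w c hwle2
    have h8 := hone ω e a le_rfl
    have h9 := hone ω (-e) b le_rfl
    have h10 := hKseg ω
    rw [Finset.sum_range_one, hnrm] at h10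
    have h11 : κ₀ * (ω.indicator (fun _ => c / κ₀) w + ω.indicator (fun _ => a / κ₀) e +
        ω.indicator (fun _ => b / κ₀) (-e)) =
        ω.indicator (fun _ => c) w + ω.indicator (fun _ => a) e +
        ω.indicator (fun _ => b) (-e) := by
      have h12 : ∀ (p : E) (q : ℝ), κ₀ * ω.indicator (fun _ => q / κ₀) p =
          ω.indicator (fun _ => q) p := by
        intro p q
        by_cases h13 : p ∈ ω
        · rw [indicator_of_mem h13, indicator_of_mem h13]
          field_simp
        · rw [indicator_of_notMem h13, indicator_of_notMem h13, mul_zero]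
      rw [mul_add, mul_add, h12, h12, h12]
    rw [h11] at h10
    linarith
  have hsph : mu.real (sphere (0 : E) 1) = mu.real univ := by
    have h5 : mu univ ≤ mu (sphere (0 : E) 1) := by
      rw [← union_compl_self (sphere (0 : E) 1)]
      refine (measure_union_le _ _).trans ?_
      rw [hs, add_zero]
    rw [measureReal_def, measureReal_def, le_antisymm (measure_mono (subset_univ _)) h5]
  have hsegle : ∀ ω : Set E, lam.real (segs K ω) ≤ lam.real K := fun ω =>
    measureReal_mono (segs_subset hKv hK0) hKfin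
  have hKle : lam.real K ≤ mu.real univ := hKvol.trans htot
  have hKeq : lam.real K = mu.real univ := by
    refine le_antisymm hKle ?_
    rw [← hsph]
    exact (hbound _ (Subset.refl _)).trans (hsegle _)
  have hKpos : 0 < lam.real K := by
    rw [hKeq]
    exact hM
  have hbor := h3 E lam mu K hKc hKv hK0 hKpos hmu hs (fun ω _ hω => by
    rw [hKeq, mul_comm]
    exact mul_le_mul_of_nonneg_left (hbound ω hω) hM.le)
  refine ⟨K, hKc, hKv, Capaux.interior_nonempty lam hKv hKpos, hK0, ?_⟩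
  intro ω hω hωs
  have h5 := hbor ω hω hωs
  rw [hKeq, mul_comm] at h5
  have h6 : lam.real (segs K ω) = mu.real ω := mul_right_cancel₀ hM.ne' h5
  have h7 : lam (segs K ω) ≠ ⊤ := measure_ne_top_of_subset (segs_subset hKv hK0) hKfin
  rw [measureReal_def, measureReal_def] at h6
  exact (ENNReal.toReal_eq_toReal_iff' h7 (measure_ne_top _ _)).mp h6

end Pool.Agent.Lib.MP_abca01_gt
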