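import Pool.Agent.Lib.MP_abca01_gt.Plane

/-!
# The plane: necessity (MP_abca01_gt, second theorem)
-/

set_option autoImplicit false

open MeasureTheory Set Metric
open scoped RealInnerProductSpace Pointwise

namespace Pool.Agent.Lib.MP_abca01_gt

namespace PNecaux

section basic

variable {E : Type} [NormedAddCommGroup E] [InnerProductSpace ℝ E]

theorem decomp {e v : E} (h : Frame e v) (z : E) : z = ⟪z, e⟫ • e + ⟪z, v⟫ • v := by
  have hpos : 0 < Module.finrank ℝ E := by rw [h.dim]; norm_num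
  have hfd : FiniteDimensional ℝ E := Module.finite_of_finrank_pos hpos
  have hee : ⟪e, e⟫ = 1 := by rw [real_inner_self_eq_norm_sq, h.e_norm, one_pow]
  have hvv : ⟪v, v⟫ = 1 := by rw [real_inner_self_eq_norm_sq, h.v_norm, one_pow]
  have hve : ⟪v, e⟫ = 0 := by rw [real_inner_comm]; exact h.orth
  have hon : Orthonormal ℝ ![e, v] := by
    rw [orthonormal_iff_ite]
    intro i j
    fin_cases i <;> fin_cases j <;> simp [hee, hvv, hve, h.orth, h.e_norm, h.v_norm]
  have hsp : ⊤ ≤ Submodule.span ℝ (Set.range ![e, v]) := by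
    rw [hon.linearIndependent.span_eq_top_of_card_eq_finrank (by simp [h.dim])]
  have h1 := (OrthonormalBasis.mk hon hsp).sum_repr' z
  rw [Fin.sum_univ_two] at h1
  simp only [OrthonormalBasis.coe_mk, Matrix.cons_val_zero, Matrix.cons_val_one] at h1
  rw [real_inner_comm z e, real_inner_comm z v] at h1
  exact h1.symm

theorem inner_eq {e v : E} (h : Frame e v) (x u : E) :
    ⟪x, u⟫ = ⟪x, e⟫ * ⟪u, e⟫ + ⟪x, v⟫ * ⟪u, v⟫ := by
  conv_lhs => rw [decomp h u]
  rw [inner_add_right, real_inner_smul_right, real_inner_smul_right]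
  ring

theorem X_comb (e A B : E) (α β : ℝ) : ⟪α • A + β • B, e⟫ = α * ⟪A, e⟫ + β * ⟪B, e⟫ := by
  rw [inner_add_left, real_inner_smul_left, real_inner_smul_left]

/-- Coordinates in the basis `A`, `B`. -/
theorem cone {e v : E} (h : Frame e v) {A B : E} (hD : dt e v A B ≠ 0) (z : E) :
    z = (dt e v z B / dt e v A B) • A + (dt e v A z / dt e v A B) • B := by
  rw [decomp h (_ • A + _ • B), X_comb, X_comb]
  conv_lhs => rw [decomp h z]
  have e1 : ⟪z, e⟫ = dt e v z B / dt e v A B * ⟪A, e⟫ + dt e v A z / dt e v A B * ⟪B, e⟫ := by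
    field_simp
    unfold dt
    ring
  have e2 : ⟪z, v⟫ = dt e v z B / dt e v A B * ⟪A, v⟫ + dt e v A z / dt e v A B * ⟪B, v⟫ := by
    field_simp
    unfold dt
    ring
  rw [← e1, ← e2]

theorem tri_subset {K : Set E} (hK : Convex ℝ K) (h0 : (0 : E) ∈ K) {A B : E} (hA : A ∈ K)
    (hB : B ∈ K) : tri A B ⊆ K := by
  rintro x ⟨α, β, hα, hβ, hs, rfl⟩
  have h1 := hK.sum_mem (t := Finset.univ) (w := ![α, β, 1 - α - β]) (z := ![A, B, 0])
    (by intro i _; fin_cases i <;> simp <;> linarith)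
    (by simp [Fin.sum_univ_three])
    (by intro i _; fin_cases i <;> simp <;> assumption)
  simpa [Fin.sum_univ_three] using h1

theorem isCompact_tri (A B : E) : IsCompact (tri A B) := by
  have h1 : IsCompact {p : ℝ × ℝ | 0 ≤ p.1 ∧ 0 ≤ p.2 ∧ p.1 + p.2 ≤ 1} := by
    refine IsCompact.of_isClosed_subset (isCompact_Icc.prod isCompact_Icc :
      IsCompact (Icc (0 : ℝ) 1 ×ˢ Icc (0 : ℝ) 1)) ?_ ?_
    · refine (isClosed_le continuous_const continuous_fst).inter
        ((isClosed_le continuous_const continuous_snd).inter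
          (isClosed_le (continuous_fst.add continuous_snd) continuous_const))
    · rintro ⟨a, b⟩ ⟨ha, hb, hab⟩
      simp only at ha hb hab
      exact ⟨⟨ha, by linarith⟩, ⟨hb, by linarith⟩⟩
  have h2 : tri A B = (fun p : ℝ × ℝ => p.1 • A + p.2 • B) ''
      {p : ℝ × ℝ | 0 ≤ p.1 ∧ 0 ≤ p.2 ∧ p.1 + p.2 ≤ 1} := by
    ext x
    constructor
    · rintro ⟨α, β, hα, hβ, hs, rfl⟩
      exact ⟨(α, β), ⟨hα, hβ, hs⟩, rfl⟩
    · rintro ⟨⟨α, β⟩, ⟨hα, hβ, hs⟩, rfl⟩
      exact ⟨α, β, hα, hβ, hs, rfl⟩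
  rw [h2]
  exact h1.image ((continuous_fst.smul continuous_const).add
    (continuous_snd.smul continuous_const))

end basic

section meas

variable {E : Type} [NormedAddCommGroup E] [InnerProductSpace ℝ E] [FiniteDimensional ℝ E]
  [MeasurableSpace E] [BorelSpace E] (lam : Measure E) [lam.IsAddHaarMeasure]

theorem null_span {e v : E} (h : Frame e v) (A : E) :
    lam (Submodule.span ℝ {A} : Set E) = 0 := by
  apply Measure.addHaar_submodule
  intro htop
  have h1 := finrank_span_le_card (R := ℝ) ({A} : Set E)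
  rw [htop, finrank_top, h.dim] at h1
  simp at h1

theorem null_line {e v : E} (h : Frame e v) : lam {x | ⟪x, e⟫ = 0} = 0 := by
  refine measure_mono_null ?_ (null_span lam h v)
  intro x hx
  rw [decomp h x]
  rw [mem_setOf_eq] at hx
  rw [hx, zero_smul, zero_add]
  exact Submodule.smul_mem _ _ (Submodule.mem_span_singleton_self v)

theorem tri_sub_union {A B : E} {S : Set E}
    (hS : ∀ α β : ℝ, 0 < α → 0 < β → α + β ≤ 1 → α • A + β • B ∈ S) :
    tri A B ⊆ S ∪ ((Submodule.span ℝ {A} : Set E) ∪ (Submodule.span ℝ {B} : Set E)) := by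
  rintro x ⟨α, β, hα, hβ, hs, rfl⟩
  rcases hα.eq_or_lt with h0 | h0
  · right; right
    rw [← h0, zero_smul, zero_add]
    exact Submodule.smul_mem _ _ (Submodule.mem_span_singleton_self B)
  · rcases hβ.eq_or_lt with h1 | h1
    · right; left
      rw [← h1, zero_smul, add_zero]
      exact Submodule.smul_mem _ _ (Submodule.mem_span_singleton_self A)
    · left
      exact hS α β h0 h1 hs

theorem tri_le {e v : E} (h : Frame e v) {A B : E} {S : Set E}
    (hS : ∀ α β : ℝ, 0 < α → 0 < β → α + β ≤ 1 → α • A + β • B ∈ S) :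
    lam (tri A B) ≤ lam S := by
  have h1 : lam ((Submodule.span ℝ {A} : Set E) ∪ (Submodule.span ℝ {B} : Set E)) = 0 :=
    measure_union_null (null_span lam h A) (null_span lam h B)
  refine (measure_mono (tri_sub_union hS)).trans ((measure_union_le _ _).trans ?_)
  rw [h1, add_zero]

theorem tri_two_le {e v : E} (h : Frame e v) {A z B : E} {S : Set E}
    (hS : ∀ α β : ℝ, 0 < α → 0 < β → α + β ≤ 1 → α • A + β • z ∈ S)
    (hS' : ∀ α β : ℝ, 0 < α → 0 < β → α + β ≤ 1 → α • z + β • B ∈ S)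
    (hcap : tri A z ∩ tri z B ⊆ (Submodule.span ℝ {z} : Set E)) :
    lam (tri A z) + lam (tri z B) ≤ lam S := by
  have h1 : AEDisjoint lam (tri A z) (tri z B) := measure_mono_null hcap (null_span lam h z)
  rw [← measure_union₀ (isCompact_tri z B).measurableSet.nullMeasurableSet h1]
  have h2 : tri A z ∪ tri z B ⊆ S ∪ ((Submodule.span ℝ {A} : Set E) ∪
      ((Submodule.span ℝ {z} : Set E) ∪ (Submodule.span ℝ {B} : Set E))) := by
    rintro x (hx | hx)
    · rcases tri_sub_union hS hx with h3 | h3 | h3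
      · exact Or.inl h3
      · exact Or.inr (Or.inl h3)
      · exact Or.inr (Or.inr (Or.inl h3))
    · rcases tri_sub_union hS' hx with h3 | h3 | h3
      · exact Or.inl h3
      · exact Or.inr (Or.inr (Or.inl h3))
      · exact Or.inr (Or.inr (Or.inr h3))
  have h3 : lam ((Submodule.span ℝ {A} : Set E) ∪
      ((Submodule.span ℝ {z} : Set E) ∪ (Submodule.span ℝ {B} : Set E))) = 0 :=
    measure_union_null (null_span lam h A)
      (measure_union_null (null_span lam h z) (null_span lam h B))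
  refine (measure_mono h2).trans ((measure_union_le _ _).trans ?_)
  rw [h3, add_zero]

end meas

/-- The extreme points of the face in the direction `e`. -/
theorem face {E : Type} [NormedAddCommGroup E] [InnerProductSpace ℝ E] {K : Set E}
    (hK : IsCompact K) (h0 : (0 : E) ∈ K) (e v : E) :
    ∃ A ∈ K, (∀ z ∈ K, ⟪z, e⟫ ≤ ⟪A, e⟫) ∧ ∀ z ∈ K, ⟪z, e⟫ = ⟪A, e⟫ → ⟪z, v⟫ ≤ ⟪A, v⟫ := by
  obtain ⟨y, hy, -, hymax⟩ := exists_supp hK ⟨0, h0⟩ e
  have hcl : IsClosed {z : E | ⟪z, e⟫ = ⟪y, e⟫} :=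
    isClosed_eq (continuous_id.inner continuous_const) continuous_const
  have hF : IsCompact (K ∩ {z : E | ⟪z, e⟫ = ⟪y, e⟫}) := hK.inter_right hcl
  obtain ⟨A, hA, -, hAmax⟩ := exists_supp hF ⟨y, hy, rfl⟩ v
  refine ⟨A, hA.1, fun z hz => ?_, fun z hz hze => ?_⟩
  · rw [hA.2]
    exact hymax z hz
  · refine hAmax z ⟨hz, ?_⟩
    rw [mem_setOf_eq, hze]
    exact hA.2

/-- The part of the volume which belongs to the normal `e` is in the triangle of the two
extreme points of the face. -/
theorem segs_face {E : Type} [NormedAddCommGroup E] [InnerProductSpace ℝ E] {K : Set E}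
    {e v : E} (h : Frame e v) {A A' : E} (hA : A ∈ K) (hA' : A' ∈ K)
    (h1 : ∀ z ∈ K, ⟪z, e⟫ ≤ ⟪A, e⟫) (h2 : ∀ z ∈ K, ⟪z, e⟫ = ⟪A, e⟫ → ⟪z, v⟫ ≤ ⟪A, v⟫)
    (h1' : ⟪A', e⟫ = ⟪A, e⟫) (h2' : ∀ z ∈ K, ⟪z, e⟫ = ⟪A, e⟫ → ⟪A', v⟫ ≤ ⟪z, v⟫) :
    segs K {e} ⊆ tri A' A := by
  rintro x ⟨u, hu, y, hy, hmax, s, ⟨hs0, hs1⟩, rfl⟩
  rw [mem_singleton_iff] at hu
  subst hu
  have hye : ⟪y, u⟫ = ⟪A, u⟫ := le_antisymm (h1 y hy) (hmax A hA)
  have hy1 := h2 y hy hye
  have hy2 := h2' y hy hye
  -- the point is a convex combination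
  obtain ⟨t, ht0, ht1, ht⟩ : ∃ t : ℝ, 0 ≤ t ∧ t ≤ 1 ∧
      ⟪y, v⟫ = (1 - t) * ⟪A', v⟫ + t * ⟪A, v⟫ := by
    rcases eq_or_lt_of_le (hy2.trans hy1) with h3 | h3
    · exact ⟨0, le_rfl, zero_le_one, by linarith⟩
    · have hpos : 0 < ⟪A, v⟫ - ⟪A', v⟫ := by linarith
      refine ⟨(⟪y, v⟫ - ⟪A', v⟫) / (⟪A, v⟫ - ⟪A', v⟫), div_nonneg (by linarith) hpos.le,
        (div_le_one hpos).2 (by linarith), ?_⟩
      field_simp
      ring
  have hyc : y = (1 - t) • A' + t • A := by
    rw [decomp h ((1 - t) • A' + t • A), X_comb, X_comb, h1', ← ht]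
    conv_lhs => rw [decomp h y, hye]
    congr 2
    ring
  refine ⟨s * (1 - t), s * t, mul_nonneg hs0 (by linarith), mul_nonneg hs0 ht0, ?_, ?_⟩
  · have : s * (1 - t) + s * t = s := by ring
    rw [this]
    exact hs1
  · rw [hyc, smul_add, smul_smul, smul_smul]

end PNecaux

open PNecaux

theorem stmtNec (h1 : StmtTri) (h2 : StmtUpper) : StmtNec := by
  intro E _ _ _ _ _ lam mu _ _ e v K hF hsph hneg hK hKc h0 hvol
  obtain ⟨κ₀, hκ, htri⟩ := h1 E lam e v hF
  set a : ℝ := mu.real {e} with ha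
  set b : ℝ := mu.real {-e} with hb
  set c : ℝ := mu.real {u | 0 < ⟪u, v⟫} with hc
  have ha0 : 0 ≤ a := measureReal_nonneg
  have hb0 : 0 ≤ b := measureReal_nonneg
  have hc0 : 0 ≤ c := measureReal_nonneg
  have hfin : lam K ≠ ⊤ := hK.measure_lt_top.ne
  have hsegfin : ∀ ω : Set E, lam (segs K ω) ≠ ⊤ := fun ω =>
    ((measure_mono (segs_subset hKc h0)).trans_lt hK.measure_lt_top).ne
  have hposm : MeasurableSet {u : E | 0 < ⟪u, v⟫} :=
    (isOpen_lt continuous_const (continuous_id.inner continuous_const)).measurableSet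
  have hsphm : MeasurableSet (sphere (0 : E) 1) := isClosed_sphere.measurableSet
  -- if the upper part has mass zero
  by_cases hab : a * b = 0
  · rcases hc0.eq_or_lt with h | h
    · right
      refine ⟨by rw [hab, Real.sqrt_zero, mul_zero, ← h], 0, ?_⟩
      have h3 : mu {u | 0 < ⟪u, v⟫} = 0 := by
        have h4 : mu.real {u | 0 < ⟪u, v⟫} = 0 := h.symm
        rwa [measureReal_eq_zero_iff] at h4
      exact measure_mono_null diff_subset h3
    · left
      rw [hab, Real.sqrt_zero, mul_zero]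
      exact h
  have ha1 : 0 < a := lt_of_le_of_ne ha0 fun h => hab (by rw [← h, zero_mul])
  have hb1 : 0 < b := lt_of_le_of_ne hb0 fun h => hab (by rw [← h, mul_zero])
  -- the measures as volumes
  have hesph : e ∈ sphere (0 : E) 1 := by rw [mem_sphere_zero_iff_norm]; exact hF.e_norm
  have hnesph : -e ∈ sphere (0 : E) 1 := by
    rw [mem_sphere_zero_iff_norm, norm_neg]; exact hF.e_norm
  have hvr : ∀ ω : Set E, MeasurableSet ω → ω ⊆ sphere (0 : E) 1 →
      lam.real (segs K ω) = mu.real ω := by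
    intro ω h3 h4
    unfold Measure.real
    rw [hvol ω h3 h4]
  have hva : lam.real (segs K {e}) = a :=
    hvr _ (measurableSet_singleton e) (singleton_subset_iff.2 hesph)
  have hvb : lam.real (segs K {-e}) = b :=
    hvr _ (measurableSet_singleton (-e)) (singleton_subset_iff.2 hnesph)
  have hvc : lam.real (segs K (sphere (0 : E) 1 ∩ {u | 0 < ⟪u, v⟫})) = c := by
    rw [hvr _ (hsphm.inter hposm) inter_subset_left, hc]
    unfold Measure.real
    congr 1
    apply le_antisymm (measure_mono inter_subset_right)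
    have h3 : {u : E | 0 < ⟪u, v⟫} ⊆ (sphere (0 : E) 1 ∩ {u | 0 < ⟪u, v⟫}) ∪
        (sphere (0 : E) 1)ᶜ := by
      intro u hu
      by_cases h4 : u ∈ sphere (0 : E) 1
      · exact Or.inl ⟨h4, hu⟩
      · exact Or.inr h4
    refine (measure_mono h3).trans ((measure_union_le _ _).trans ?_)
    rw [hsph, add_zero]
  set S : Set E := segs K (sphere (0 : E) 1 ∩ {u | 0 < ⟪u, v⟫}) with hS
  -- the extreme points
  have hFn : Frame (-e) v := ⟨by rw [norm_neg]; exact hF.e_norm, hF.v_norm,
    by rw [inner_neg_left, hF.orth, neg_zero], hF.dim⟩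
  have hFv : Frame e (-v) := ⟨hF.e_norm, by rw [norm_neg]; exact hF.v_norm,
    by rw [inner_neg_right, hF.orth, neg_zero], hF.dim⟩
  obtain ⟨A, hAK, hAe, hAv⟩ := face hK h0 e v
  obtain ⟨A', hA'K, hA'e, hA'v⟩ := face hK h0 e (-v)
  obtain ⟨B, hBK, hBe, hBv⟩ := face hK h0 (-e) v
  obtain ⟨B', hB'K, hB'e, hB'v⟩ := face hK h0 (-e) (-v)
  simp only [inner_neg_right, neg_le_neg_iff, neg_inj] at hA'v hBe hBv hB'e hB'v
  have hAA : ⟪A', e⟫ = ⟪A, e⟫ := le_antisymm (hAe A' hA'K) (hA'e A hAK)
  have hBB : ⟪B', e⟫ = ⟪B, e⟫ := le_antisymm (hB'e B hBK) (hBe B' hB'K)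
  have hAA2 : ⟪A', v⟫ ≤ ⟪A, v⟫ := hA'v A hAK hAA.symm
  have hBB2 : ⟪B', v⟫ ≤ ⟪B, v⟫ := hB'v B hBK hBB.symm
  have hr0 : 0 ≤ ⟪A, e⟫ := by simpa using hAe 0 h0
  have hl0 : ⟪B, e⟫ ≤ 0 := by simpa using hBe 0 h0
  -- bounds for `a`, `b`
  have hsega : segs K {e} ⊆ tri A' A :=
    segs_face hF hAK hA'K hAe hAv hAA (fun z hz h3 => hA'v z hz (by rw [h3, hAA]))
  have hsegb : segs K {-e} ⊆ tri B' B := by
    refine segs_face hFn hBK hB'K (fun z hz => ?_) (fun z hz h3 => ?_) ?_ (fun z hz h3 => ?_)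
    · rw [inner_neg_right, inner_neg_right]
      exact neg_le_neg (hBe z hz)
    · rw [inner_neg_right, inner_neg_right, neg_inj] at h3
      exact hBv z hz h3
    · rw [inner_neg_right, inner_neg_right, hBB]
    · rw [inner_neg_right, inner_neg_right, neg_inj] at h3
      exact hB'v z hz (by rw [h3, hBB])
  have htrifin : ∀ P Q : E, lam (tri P Q) ≠ ⊤ := fun P Q =>
    (isCompact_tri P Q).measure_lt_top.ne
  have hale : a ≤ κ₀ * (⟪A, e⟫ * (⟪A, v⟫ - ⟪A', v⟫)) := by
    have h3 : dt e v A' A = ⟪A, e⟫ * (⟪A, v⟫ - ⟪A', v⟫) := by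
      unfold dt
      rw [hAA]
      ring
    have h4 : 0 ≤ ⟪A, e⟫ * (⟪A, v⟫ - ⟪A', v⟫) := mul_nonneg hr0 (by linarith)
    rw [← hva, ← abs_of_nonneg h4, ← h3, ← htri]
    exact measureReal_mono hsega (htrifin _ _)
  have hble : b ≤ κ₀ * (-⟪B, e⟫ * (⟪B, v⟫ - ⟪B', v⟫)) := by
    have h3 : dt e v B' B = -(-⟪B, e⟫ * (⟪B, v⟫ - ⟪B', v⟫)) := by
      unfold dt
      rw [hBB]
      ring
    have h4 : 0 ≤ -⟪B, e⟫ * (⟪B, v⟫ - ⟪B', v⟫) := mul_nonneg (by linarith) (by linarith)
    rw [← hvb, ← abs_of_nonneg h4, ← abs_neg (-⟪B, e⟫ * _), ← h3, ← htri]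
    exact measureReal_mono hsegb (htrifin _ _)
  set r : ℝ := ⟪A, e⟫ with hr
  set l : ℝ := -⟪B, e⟫ with hl
  have hr1 : 0 < r := by
    rcases hr0.eq_or_lt with h3 | h3
    · rw [← h3, zero_mul, mul_zero] at hale
      linarith
    · exact h3
  have hl1 : 0 < l := by
    rcases (show 0 ≤ l by linarith).eq_or_lt with h3 | h3
    · rw [← h3, zero_mul, mul_zero] at hble
      linarith
    · exact h3
  -- the lower side
  have hlow : 0 ≤ r * ⟪B', v⟫ + l * ⟪A', v⟫ := by
    by_contra hcon
    push Not at hcon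
    have hdt : dt e (-v) A' B' = -(r * ⟪B', v⟫ + l * ⟪A', v⟫) := by
      unfold dt
      rw [hAA, hBB, inner_neg_right, inner_neg_right]
      ring
    have hup := h2 E e (-v) K A' B' hFv hK hKc h0 hA'K hB'K
      (fun z hz => ⟨by rw [hBB]; exact hBe z hz, by rw [hAA]; exact hAe z hz⟩)
      (fun z hz h3 => by
        rw [inner_neg_right, inner_neg_right]
        exact neg_le_neg (hA'v z hz h3))
      (fun z hz h3 => by
        rw [inner_neg_right, inner_neg_right]
        exact neg_le_neg (hB'v z hz h3))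
      (by rw [hAA]; exact hr1) (by rw [hBB]; linarith) (by rw [hdt]; linarith)
    have hle := tri_le lam hF (A := A') (B := B')
      (S := segs K (sphere (0 : E) 1 ∩ {u | 0 < ⟪u, -v⟫})) (fun α β hα hβ hs =>
        hup α β hα hβ (tri_subset hKc h0 hA'K hB'K ⟨α, β, hα.le, hβ.le, hs, rfl⟩))
    have hmeas : MeasurableSet {u : E | 0 < ⟪u, -v⟫} :=
      (isOpen_lt continuous_const (continuous_id.inner continuous_const)).measurableSet
    have hzero : lam (segs K (sphere (0 : E) 1 ∩ {u | 0 < ⟪u, -v⟫})) = 0 := by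
      rw [hvol _ (hsphm.inter hmeas) inter_subset_left]
      refine measure_mono_null ?_ hneg
      rintro u ⟨-, hu⟩
      rw [mem_setOf_eq, inner_neg_right] at hu
      rw [mem_setOf_eq]
      linarith
    rw [hzero] at hle
    have h3 : lam.real (tri A' B') = 0 := by
      unfold Measure.real
      rw [le_antisymm hle zero_le', ENNReal.toReal_zero]
    have h4 := htri A' B'
    rw [h3] at h4
    have hdt2 : dt e v A' B' = r * ⟪B', v⟫ + l * ⟪A', v⟫ := by
      unfold dt
      rw [hAA, hBB]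
      ring
    rw [hdt2] at h4
    have h5 : 0 < κ₀ * |r * ⟪B', v⟫ + l * ⟪A', v⟫| := mul_pos hκ (abs_pos.2 hcon.ne)
    linarith
  -- the upper side
  have hDeq : dt e v A B = r * ⟪B, v⟫ + l * ⟪A, v⟫ := by
    unfold dt
    ring
  have hamgm : 2 * √(a * b) ≤ r / l * b + l / r * a := by
    have h3 : √(a * b) = √(r / l * b) * √(l / r * a) := by
      rw [← Real.sqrt_mul (by positivity)]
      congr 1
      field_simp
    rw [h3]
    have h4 := Real.sq_sqrt (show 0 ≤ r / l * b by positivity)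
    have h5 := Real.sq_sqrt (show 0 ≤ l / r * a by positivity)
    nlinarith [sq_nonneg (√(r / l * b) - √(l / r * a))]
  have hDge : r / l * b + l / r * a ≤ κ₀ * dt e v A B := by
    have h3 : r / l * b ≤ κ₀ * (r * (⟪B, v⟫ - ⟪B', v⟫)) := by
      rw [div_mul_eq_mul_div, div_le_iff₀ hl1]
      have := mul_le_mul_of_nonneg_left hble hr1.le
      linarith
    have h4 : l / r * a ≤ κ₀ * (l * (⟪A, v⟫ - ⟪A', v⟫)) := by
      rw [div_mul_eq_mul_div, div_le_iff₀ hr1]
      have := mul_le_mul_of_nonneg_left hale hl1.le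
      linarith
    have h5 := mul_nonneg hκ.le hlow
    rw [hDeq]
    linarith
  have hDpos : 0 < dt e v A B := by
    have h3 : 0 < r / l * b + l / r * a := by positivity
    have h4 : 0 < κ₀ * dt e v A B := by linarith
    exact (mul_pos_iff_of_pos_left hκ).1 h4
  have hup := h2 E e v K A B hF hK hKc h0 hAK hBK (fun z hz => ⟨hBe z hz, hAe z hz⟩) hAv hBv
    hr1 (by linarith) hDpos
  have hcge : κ₀ * dt e v A B ≤ c := by
    have h3 := tri_le lam hF (A := A) (B := B) (S := S) (fun α β hα hβ hs =>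
        hup α β hα hβ (tri_subset hKc h0 hAK hBK ⟨α, β, hα.le, hβ.le, hs, rfl⟩))
    have h4 : lam.real (tri A B) ≤ lam.real S := ENNReal.toReal_mono (hsegfin _) h3
    rw [htri, abs_of_pos hDpos, hvc] at h4
    exact h4
  rcases (hamgm.trans (hDge.trans hcge)).lt_or_eq with h3 | heq
  · exact Or.inl h3
  right
  refine ⟨heq, ?_⟩
  have hcD : c = κ₀ * dt e v A B := by linarith
  -- the linear functional is at most one on `K`
  have hphi : ∀ z ∈ K, dt e v A z + dt e v z B ≤ dt e v A B := by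
    intro z hz
    by_contra hcon
    push Not at hcon
    have hz1 := hAe z hz
    have hz2 := hBe z hz
    -- the sign of the two determinants
    have hk : dt e v A z + dt e v z B = (r + l) * ⟪z, v⟫ - ⟪z, e⟫ * (⟪A, v⟫ - ⟪B, v⟫) := by
      unfold dt
      ring
    have hrl : 0 < r + l := by linarith
    have hd1 : 0 < dt e v A z := by
      have e1 : (r + l) * dt e v A z
          = r * (dt e v A z + dt e v z B - dt e v A B) + (r - ⟪z, e⟫) * dt e v A B := by
        unfold dt
        ring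
      have e2 : 0 < (r + l) * dt e v A z := by
        rw [e1]
        have := mul_nonneg (show 0 ≤ r - ⟪z, e⟫ by linarith) hDpos.le
        have := mul_pos hr1 (show 0 < dt e v A z + dt e v z B - dt e v A B by linarith)
        linarith
      exact (mul_pos_iff_of_pos_left hrl).1 e2
    have hd2 : 0 < dt e v z B := by
      have e1 : (r + l) * dt e v z B
          = l * (dt e v A z + dt e v z B - dt e v A B) + (⟪z, e⟫ + l) * dt e v A B := by
        unfold dt
        ring
      have e2 : 0 < (r + l) * dt e v z B := by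
        rw [e1]
        have := mul_nonneg (show 0 ≤ ⟪z, e⟫ + l by linarith) hDpos.le
        have := mul_pos hl1 (show 0 < dt e v A z + dt e v z B - dt e v A B by linarith)
        linarith
      exact (mul_pos_iff_of_pos_left hrl).1 e2
    have hzc := cone hF hDpos.ne' z
    set α₀ : ℝ := dt e v z B / dt e v A B with hα₀
    set β₀ : ℝ := dt e v A z / dt e v A B with hβ₀
    have hα₀p : 0 < α₀ := div_pos hd2 hDpos
    have hβ₀p : 0 < β₀ := div_pos hd1 hDpos
    have hle := tri_two_le lam hF (A := A) (z := z) (B := B) (S := S)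
      (fun α β hα hβ hs => by
        have e1 : α • A + β • z = (α + β * α₀) • A + (β * β₀) • B := by
          conv_lhs => rw [hzc]
          rw [smul_add, smul_smul, smul_smul, add_smul, add_assoc]
        have e2 : α • A + β • z ∈ K :=
          tri_subset hKc h0 hAK hz ⟨α, β, hα.le, hβ.le, hs, rfl⟩
        rw [e1] at e2 ⊢
        exact hup _ _ (by positivity) (by positivity) e2)
      (fun α β hα hβ hs => by
        have e1 : α • z + β • B = (α * α₀) • A + (α * β₀ + β) • B := by
          conv_lhs => rw [hzc]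
          rw [smul_add, smul_smul, smul_smul, add_smul, add_assoc]
        have e2 : α • z + β • B ∈ K :=
          tri_subset hKc h0 hz hBK ⟨α, β, hα.le, hβ.le, hs, rfl⟩
        rw [e1] at e2 ⊢
        exact hup _ _ (by positivity) (by positivity) e2)
      (by
        rintro x ⟨⟨α, β, hα, hβ, -, rfl⟩, ⟨α', β', hα', hβ', -, hx⟩⟩
        have e1 : dt e v (α • A + β • z) z = α * dt e v A z := by
          unfold dt
          rw [X_comb, X_comb]
          ring
        have e2 : dt e v (α' • z + β' • B) z = -(β' * dt e v z B) := by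
          unfold dt
          rw [X_comb, X_comb]
          ring
        rw [hx, e2] at e1
        have e3 : α * dt e v A z = 0 := by
          have e4 := mul_nonneg hα hd1.le
          have e5 := mul_nonneg hβ' hd2.le
          linarith
        have e6 : α = 0 := by
          rcases mul_eq_zero.1 e3 with h | h
          · exact h
          · exact absurd h hd1.ne'
        rw [e6, zero_smul, zero_add]
        exact Submodule.smul_mem _ _ (Submodule.mem_span_singleton_self z))
    have hle2 : lam.real (tri A z) + lam.real (tri z B) ≤ lam.real S := by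
      unfold Measure.real
      rw [← ENNReal.toReal_add (htrifin _ _) (htrifin _ _)]
      exact ENNReal.toReal_mono (hsegfin _) hle
    rw [htri, htri, abs_of_pos hd1, abs_of_pos hd2, hvc, hcD] at hle2
    have := mul_lt_mul_of_pos_left hcon hκ
    linarith
  -- the common normal
  let w0 : E := (r + l) • v - (⟪A, v⟫ - ⟪B, v⟫) • e
  have hvv : ⟪v, v⟫ = 1 := by rw [real_inner_self_eq_norm_sq, hF.v_norm, one_pow]
  have hev : ⟪e, v⟫ = 0 := hF.orth
  have hw0v : ⟪w0, v⟫ = r + l := by
    simp only [w0]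
    rw [inner_sub_left, real_inner_smul_left, real_inner_smul_left, hvv, hev]
    ring
  have hw0 : ∀ z : E, ⟪z, w0⟫ = dt e v A z + dt e v z B := by
    intro z
    simp only [w0]
    rw [inner_sub_right, real_inner_smul_right, real_inner_smul_right]
    unfold dt
    ring
  have hw0ne : w0 ≠ 0 := by
    intro h
    rw [h, inner_zero_left] at hw0v
    linarith
  have hnw : 0 < ‖w0‖ := norm_pos_iff.2 hw0ne
  set w : E := ‖w0‖⁻¹ • w0 with hw
  have hwn : ‖w‖ = 1 := by
    rw [hw, norm_smul, norm_inv, norm_norm, inv_mul_cancel₀ hnw.ne']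
  have hwv : 0 < ⟪w, v⟫ := by
    rw [hw, real_inner_smul_left, hw0v]
    positivity
  have hwz : ∀ z : E, ⟪z, w⟫ = ‖w0‖⁻¹ * (dt e v A z + dt e v z B) := by
    intro z
    rw [hw, real_inner_smul_right, hw0]
  refine ⟨w, ?_⟩
  have hsub : tri A B ⊆ segs K {w} := by
    rintro x ⟨α, β, hα, hβ, hs, rfl⟩
    rcases (add_nonneg hα hβ).eq_or_lt with h3 | h3
    · have e1 : α = 0 := by linarith
      have e2 : β = 0 := by linarith
      refine ⟨w, rfl, A, hAK, fun z hz => ?_, 0, ⟨le_rfl, zero_le_one⟩, ?_⟩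
      · rw [hwz, hwz]
        refine mul_le_mul_of_nonneg_left ?_ (by positivity)
        have : dt e v A A + dt e v A B = dt e v A B := by
          unfold dt
          ring
        rw [this]
        exact hphi z hz
      · rw [e1, e2]
        simp
    · set s : ℝ := α + β with hsdef
      refine ⟨w, rfl, (α / s) • A + (β / s) • B, ?_, fun z hz => ?_, s, ⟨h3.le, hs⟩, ?_⟩
      · refine tri_subset hKc h0 hAK hBK ⟨α / s, β / s, by positivity, by positivity, ?_, rfl⟩
        rw [← add_div, ← hsdef, div_self h3.ne']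
      · rw [hwz, hwz]
        refine mul_le_mul_of_nonneg_left ?_ (by positivity)
        have e1 : dt e v A ((α / s) • A + (β / s) • B) + dt e v ((α / s) • A + (β / s) • B) B
            = (α / s + β / s) * dt e v A B := by
          unfold dt
          simp only [X_comb]
          ring
        have e2 : α / s + β / s = 1 := by
          rw [← add_div, ← hsdef, div_self h3.ne']
        rw [e1, e2, one_mul]
        exact hphi z hz
      · rw [smul_add, smul_smul, smul_smul, mul_div_cancel₀ _ h3.ne', mul_div_cancel₀ _ h3.ne']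
  have hmw : c ≤ mu.real {w} := by
    rw [← hvr {w} (measurableSet_singleton w)
      (singleton_subset_iff.2 (by rw [mem_sphere_zero_iff_norm]; exact hwn)), hcD,
      ← abs_of_pos hDpos, ← htri]
    exact measureReal_mono hsub (hsegfin _)
  have hdiff : mu.real ({u | 0 < ⟪u, v⟫} \ {w}) = mu.real {u | 0 < ⟪u, v⟫} - mu.real {w} :=
    measureReal_diff (singleton_subset_iff.2 hwv) (measurableSet_singleton w)
  have h3 : mu.real ({u | 0 < ⟪u, v⟫} \ {w}) = 0 := by
    apply le_antisymm _ measureReal_nonneg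
    rw [hdiff]
    linarith
  rwa [measureReal_eq_zero_iff] at h3

end Pool.Agent.Lib.MP_abca01_gt
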