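import Pool.Agent.Lib.MP_abca01_gt.Plane
import Pool.Agent.Lib.MP_abca01_gt.Borel

/-!
# MP_abca01_gt: the polygon (StmtPoly)
-/

set_option autoImplicit false

open MeasureTheory Set Metric Filter Topology
open scoped RealInnerProductSpace Pointwise

namespace Pool.Agent.Lib.MP_abca01_gt

namespace PPolyaux

variable {E : Type} [NormedAddCommGroup E] [InnerProductSpace ℝ E]

theorem inner_ee {e v : E} (h : Frame e v) : ⟪e, e⟫ = 1 := by
  rw [real_inner_self_eq_norm_sq, h.e_norm]; norm_num

theorem inner_vv {e v : E} (h : Frame e v) : ⟪v, v⟫ = 1 := by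
  rw [real_inner_self_eq_norm_sq, h.v_norm]; norm_num

theorem inner_ve {e v : E} (h : Frame e v) : ⟪v, e⟫ = 0 := by
  rw [real_inner_comm]; exact h.orth

theorem X_pt {e v : E} (h : Frame e v) (x y : ℝ) : ⟪pt e v x y, e⟫ = x := by
  unfold pt
  rw [inner_add_left, real_inner_smul_left, real_inner_smul_left, inner_ee h, inner_ve h]
  ring

theorem Y_pt {e v : E} (h : Frame e v) (x y : ℝ) : ⟪pt e v x y, v⟫ = y := by
  unfold pt
  rw [inner_add_left, real_inner_smul_left, real_inner_smul_left, inner_vv h, h.orth]
  ring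

theorem orthonormal_frame {e v : E} (h : Frame e v) : Orthonormal ℝ ![e, v] := by
  rw [orthonormal_iff_ite]
  intro i j
  fin_cases i <;> fin_cases j <;>
    simp [inner_ve h, h.orth, h.e_norm, h.v_norm]

theorem eq_pt {e v : E} (h : Frame e v) (z : E) : z = pt e v ⟪z, e⟫ ⟪z, v⟫ := by
  have ho := orthonormal_frame h
  haveI : FiniteDimensional ℝ E := FiniteDimensional.of_finrank_pos (by rw [h.dim]; norm_num)
  have hc : Fintype.card (Fin 2) = Module.finrank ℝ E := by rw [h.dim]; simp
  let b := basisOfOrthonormalOfCardEqFinrank ho hc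
  have hb : (b : Fin 2 → E) = ![e, v] := coe_basisOfOrthonormalOfCardEqFinrank ho hc
  have ho' : Orthonormal ℝ b := by rw [hb]; exact ho
  have h1 := (b.toOrthonormalBasis ho').sum_repr' z
  rw [Fin.sum_univ_two] at h1
  simp only [Module.Basis.coe_toOrthonormalBasis, hb] at h1
  simp only [Matrix.cons_val_zero, Matrix.cons_val_one] at h1
  unfold pt
  rw [real_inner_comm z e, real_inner_comm z v] at h1
  exact h1.symm

theorem ext_XY {e v : E} (h : Frame e v) {z w : E} (h1 : ⟪z, e⟫ = ⟪w, e⟫)
    (h2 : ⟪z, v⟫ = ⟪w, v⟫) : z = w := by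
  rw [eq_pt h z, eq_pt h w, h1, h2]

theorem dt_comb (e v A B : E) (α β : ℝ) :
    dt e v A (α • A + β • B) = β * dt e v A B := by
  unfold dt
  simp only [inner_add_left, real_inner_smul_left]
  ring

theorem isCompact_tri (A B : E) : IsCompact (tri A B) := by
  have h1 : IsCompact {p : ℝ × ℝ | 0 ≤ p.1 ∧ 0 ≤ p.2 ∧ p.1 + p.2 ≤ 1} := by
    apply Metric.isCompact_of_isClosed_isBounded
    · apply (isClosed_le continuous_const continuous_fst).inter
      apply (isClosed_le continuous_const continuous_snd).inter
      exact isClosed_le (continuous_fst.add continuous_snd) continuous_const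
    · have hb : Bornology.IsBounded (Icc (0 : ℝ) 1 ×ˢ Icc (0 : ℝ) 1) :=
        (isCompact_Icc.prod isCompact_Icc).isBounded
      apply hb.subset
      rintro ⟨a, b⟩ ⟨h1, h2, h3⟩
      simp only at h1 h2 h3
      exact ⟨⟨h1, by linarith⟩, ⟨h2, by linarith⟩⟩
  have h2 : tri A B = (fun p : ℝ × ℝ => p.1 • A + p.2 • B) ''
      {p : ℝ × ℝ | 0 ≤ p.1 ∧ 0 ≤ p.2 ∧ p.1 + p.2 ≤ 1} := by
    ext x
    constructor
    · rintro ⟨α, β, h1, h2, h3, rfl⟩
      exact ⟨(α, β), ⟨h1, h2, h3⟩, rfl⟩
    · rintro ⟨⟨α, β⟩, ⟨h1, h2, h3⟩, rfl⟩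
      exact ⟨α, β, h1, h2, h3, rfl⟩
  rw [h2]
  exact h1.image ((continuous_fst.smul continuous_const).add
    (continuous_snd.smul continuous_const))

/-- The line through `P ≠ 0` is a null set. -/
theorem null_line [FiniteDimensional ℝ E] [MeasurableSpace E] [BorelSpace E]
    (lam : Measure E) [lam.IsAddHaarMeasure] {e v : E} (h : Frame e v) {P : E} (hP : P ≠ 0) :
    lam {z | dt e v P z = 0} = 0 := by
  let f : E →ₗ[ℝ] ℝ :=
    { toFun := fun z => dt e v P z
      map_add' := fun z w => by
        unfold dt
        simp only [inner_add_left]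
        ring
      map_smul' := fun c z => by
        unfold dt
        simp only [real_inner_smul_left, RingHom.id_apply, smul_eq_mul]
        ring }
  have h1 : {z | dt e v P z = 0} = (LinearMap.ker f : Set E) := by
    ext z
    simp [f]
  rw [h1]
  apply Measure.addHaar_submodule
  intro htop
  have h2 : pt e v (-⟪P, v⟫) ⟪P, e⟫ ∈ LinearMap.ker f := by rw [htop]; trivial
  have h3 : dt e v P (pt e v (-⟪P, v⟫) ⟪P, e⟫) = 0 := by simpa [f] using h2
  unfold dt at h3
  rw [X_pt h, Y_pt h] at h3
  have h4 : ⟪P, e⟫ = 0 := by nlinarith [sq_nonneg ⟪P, e⟫, sq_nonneg ⟪P, v⟫]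
  have h5 : ⟪P, v⟫ = 0 := by nlinarith [sq_nonneg ⟪P, e⟫, sq_nonneg ⟪P, v⟫]
  apply hP
  rw [eq_pt h P, h4, h5]
  simp [pt]

theorem nrm_X {e v : E} (h : Frame e v) (s : ℝ) :
    ⟪nrm e v s, e⟫ = -((√(1 + s ^ 2))⁻¹ * s) := by
  unfold nrm
  rw [real_inner_smul_left, inner_sub_left, real_inner_smul_left, inner_ee h, inner_ve h]
  ring

theorem nrm_Y {e v : E} (h : Frame e v) (s : ℝ) : ⟪nrm e v s, v⟫ = (√(1 + s ^ 2))⁻¹ := by
  unfold nrm
  rw [real_inner_smul_left, inner_sub_left, real_inner_smul_left, inner_vv h, h.orth]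
  ring

theorem sqrt_pos' (s : ℝ) : 0 < √(1 + s ^ 2) := Real.sqrt_pos.mpr (by positivity)

theorem nrm_norm {e v : E} (h : Frame e v) (s : ℝ) : ‖nrm e v s‖ = 1 := by
  have h1 : ‖nrm e v s‖ ^ 2 = 1 := by
    rw [← real_inner_self_eq_norm_sq]
    conv_lhs => rw [nrm, real_inner_smul_right, inner_sub_right, real_inner_smul_right]
    rw [← nrm, nrm_X h, nrm_Y h]
    have h2 := sqrt_pos' s
    have h3 : √(1 + s ^ 2) ^ 2 = 1 + s ^ 2 := Real.sq_sqrt (by positivity)
    field_simp
    nlinarith
  nlinarith [norm_nonneg (nrm e v s)]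

theorem inner_nrm {e v : E} (s : ℝ) (z : E) :
    ⟪z, nrm e v s⟫ = (√(1 + s ^ 2))⁻¹ * (⟪z, v⟫ - s * ⟪z, e⟫) := by
  unfold nrm
  rw [real_inner_smul_right, inner_sub_right, real_inner_smul_right]

theorem nrm_inj {e v : E} (h : Frame e v) {s t : ℝ} (hst : nrm e v s = nrm e v t) : s = t := by
  have h1 := nrm_X h s
  have h2 := nrm_X h t
  have h3 := nrm_Y h s
  have h4 := nrm_Y h t
  rw [hst] at h1 h3
  rw [h1] at h2
  rw [h3] at h4
  rw [h4] at h2
  have h5 : (0 : ℝ) < (√(1 + t ^ 2))⁻¹ := inv_pos.mpr (sqrt_pos' t)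
  have h6 : (√(1 + t ^ 2))⁻¹ * s = (√(1 + t ^ 2))⁻¹ * t := by linarith
  exact mul_left_cancel₀ h5.ne' h6

/-- A triangle over an edge lies in the cone of the edge. -/
theorem tri_subset_segs {K : Set E} (hK : Convex ℝ K) {A B u : E} (hA : A ∈ K) (hB : B ∈ K)
    (hAB : ⟪A, u⟫ = ⟪B, u⟫) (hmax : ∀ z ∈ K, ⟪z, u⟫ ≤ ⟪A, u⟫) : tri A B ⊆ segs K {u} := by
  rintro x ⟨α, β, hα, hβ, hαβ, rfl⟩
  rcases (add_nonneg hα hβ).eq_or_lt with h0 | hpos
  · have h1 : α = 0 := by linarith
    have h2 : β = 0 := by linarith
    refine ⟨u, rfl, A, hA, hmax, 0, ⟨le_rfl, zero_le_one⟩, ?_⟩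
    rw [h1, h2]; simp
  · refine ⟨u, rfl, (α / (α + β)) • A + (β / (α + β)) • B, ?_, ?_, α + β, ⟨hpos.le, hαβ⟩, ?_⟩
    · apply hK hA hB (by positivity) (by positivity)
      field_simp
    · intro z hz
      rw [inner_add_left, real_inner_smul_left, real_inner_smul_left, ← hAB]
      have h1 : α / (α + β) * ⟪A, u⟫ + β / (α + β) * ⟪A, u⟫ = ⟪A, u⟫ := by
        field_simp
      rw [h1]
      exact hmax z hz
    · rw [smul_add, smul_smul, smul_smul, mul_div_cancel₀ _ hpos.ne', mul_div_cancel₀ _ hpos.ne']

/-- A convex combination lies in the triangle. -/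
theorem mem_tri_of {e v : E} (h : Frame e v) {A B z : E} {D : ℝ} (hD : dt e v A B = D)
    (hDpos : 0 < D) (h1 : 0 ≤ dt e v A z) (h2 : 0 ≤ dt e v z B) {p q c : ℝ}
    (hc : 0 < c) (hA : p * ⟪A, e⟫ + q * ⟪A, v⟫ = c) (hB : p * ⟪B, e⟫ + q * ⟪B, v⟫ = c)
    (hz : p * ⟪z, e⟫ + q * ⟪z, v⟫ ≤ c) : z ∈ tri A B := by
  have hz' : z = (dt e v z B / D) • A + (dt e v A z / D) • B := by
    apply ext_XY h
    · rw [inner_add_left, real_inner_smul_left, real_inner_smul_left]
      rw [← hD] at hDpos ⊢
      have := hDpos.ne'
      field_simp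
      unfold dt
      ring
    · rw [inner_add_left, real_inner_smul_left, real_inner_smul_left]
      rw [← hD] at hDpos ⊢
      have := hDpos.ne'
      field_simp
      unfold dt
      ring
  refine ⟨dt e v z B / D, dt e v A z / D, by positivity, by positivity, ?_, hz'⟩
  rw [hz', inner_add_left, inner_add_left, real_inner_smul_left, real_inner_smul_left,
    real_inner_smul_left, real_inner_smul_left] at hz
  have h3 : (dt e v z B / D + dt e v A z / D) * c ≤ 1 * c := by
    calc (dt e v z B / D + dt e v A z / D) * c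
        = dt e v z B / D * (p * ⟪A, e⟫ + q * ⟪A, v⟫) +
          dt e v A z / D * (p * ⟪B, e⟫ + q * ⟪B, v⟫) := by rw [hA, hB]; ring
      _ = p * (dt e v z B / D * ⟪A, e⟫ + dt e v A z / D * ⟪B, e⟫) +
          q * (dt e v z B / D * ⟪A, v⟫ + dt e v A z / D * ⟪B, v⟫) := by ring
      _ ≤ 1 * c := by linarith
  exact le_of_mul_le_mul_right h3 hc

/-! ### The sequences -/

section seq

variable {N : ℕ} {σ m x y : ℕ → ℝ}

/-- `g i` increases along the chain up to `i` and decreases after `i`. -/
theorem g_le (hm : ∀ i < N, 0 ≤ m i) (hσ : ∀ i j, i < j → j < N → σ i < σ j)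
    (hh : ∀ i < N, 0 < y i - σ i * x i)
    (hrec : ∀ i < N, x (i + 1) = x i - m i / (y i - σ i * x i) ∧
      y (i + 1) = y i - σ i * (m i / (y i - σ i * x i)))
    {i j : ℕ} (hi : i < N) (hj : j ≤ N) : y j - σ i * x j ≤ y i - σ i * x i := by
  have hl : ∀ k < N, 0 ≤ m k / (y k - σ k * x k) := fun k hk =>
    div_nonneg (hm k hk) (hh k hk).le
  have hstep : ∀ k < N, y (k + 1) - σ i * x (k + 1) =
      y k - σ i * x k + (σ i - σ k) * (m k / (y k - σ k * x k)) := by
    intro k hk
    rw [(hrec k hk).1, (hrec k hk).2]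
    ring
  rcases le_or_gt j i with hji | hij
  · -- below i
    have key : ∀ d k, k + d = i → y k - σ i * x k ≤ y i - σ i * x i := by
      intro d
      induction d with
      | zero => intro k hk; rw [show k = i by omega]
      | succ d ih =>
        intro k hk
        have h1 := ih (k + 1) (by omega)
        have h2 := hstep k (by omega)
        have h3 : 0 ≤ (σ i - σ k) * (m k / (y k - σ k * x k)) := by
          apply mul_nonneg _ (hl k (by omega))
          rcases Nat.lt_or_ge k i with h | h
          · have := hσ k i h hi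
            linarith
          · rw [show k = i by omega]; linarith
        linarith
    exact key (i - j) j (by omega)
  · -- above i
    have key : ∀ d, i + d ≤ N → y (i + d) - σ i * x (i + d) ≤ y i - σ i * x i := by
      intro d
      induction d with
      | zero => intro _; simp
      | succ d ih =>
        intro hd
        have h1 := ih (by omega)
        have h2 := hstep (i + d) (by omega)
        have h3 : (σ i - σ (i + d)) * (m (i + d) / (y (i + d) - σ (i + d) * x (i + d))) ≤ 0 := by
          apply mul_nonpos_of_nonpos_of_nonneg _ (hl (i + d) (by omega))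
          rcases Nat.eq_zero_or_pos d with h | h
          · subst h; simp
          · have := hσ i (i + d) (by omega) (by omega)
            linarith
        have h4 : i + (d + 1) = i + d + 1 := by ring
        rw [h4, h2]
        linarith
    have := key (j - i) (by omega)
    rwa [show i + (j - i) = j by omega] at this

theorem x_anti (hm : ∀ i < N, 0 ≤ m i) (hh : ∀ i < N, 0 < y i - σ i * x i)
    (hrec : ∀ i < N, x (i + 1) = x i - m i / (y i - σ i * x i) ∧
      y (i + 1) = y i - σ i * (m i / (y i - σ i * x i)))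
    {i j : ℕ} (hij : i ≤ j) (hj : j ≤ N) : x j ≤ x i := by
  induction j, hij using Nat.le_induction with
  | base => exact le_rfl
  | succ k hk ih =>
    have h1 := ih (by omega)
    have h2 := (hrec k (by omega)).1
    have h3 : 0 ≤ m k / (y k - σ k * x k) := div_nonneg (hm k (by omega)) (hh k (by omega)).le
    linarith

/-- Every vertex is above the chord from the first to the last one. -/
theorem above_chord (hm : ∀ i < N, 0 ≤ m i) (hσ : ∀ i j, i < j → j < N → σ i < σ j)
    (hh : ∀ i < N, 0 < y i - σ i * x i)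
    (hrec : ∀ i < N, x (i + 1) = x i - m i / (y i - σ i * x i) ∧
      y (i + 1) = y i - σ i * (m i / (y i - σ i * x i))) (hx : x N < x 0)
    {j : ℕ} (hj : j ≤ N) :
    ∃ t : ℝ, 0 ≤ t ∧ t ≤ 1 ∧ x j = t * x 0 + (1 - t) * x N ∧
      t * y 0 + (1 - t) * y N ≤ y j := by
  have h1 : x j ≤ x 0 := x_anti hm hh hrec (Nat.zero_le _) hj
  have h2 : x N ≤ x j := x_anti hm hh hrec hj le_rfl
  rcases hj.eq_or_lt with rfl | hjN
  · exact ⟨0, le_rfl, zero_le_one, by ring, by linarith⟩
  refine ⟨(x j - x N) / (x 0 - x N), div_nonneg (by linarith) (by linarith), ?_, ?_, ?_⟩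
  · rw [div_le_one (by linarith)]; linarith
  · have : x 0 - x N ≠ 0 := by linarith
    field_simp
    ring
  · set t := (x j - x N) / (x 0 - x N) with ht
    have ht0 : 0 ≤ t := div_nonneg (by linarith) (by linarith)
    have ht1 : t ≤ 1 := by rw [ht, div_le_one (by linarith)]; linarith
    have hxj : x j = t * x 0 + (1 - t) * x N := by
      have : x 0 - x N ≠ 0 := by linarith
      rw [ht]
      field_simp
      ring
    have e1 := g_le hm hσ hh hrec hjN (Nat.zero_le N)
    have e2 := g_le hm hσ hh hrec hjN (le_refl N)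
    have e3 := mul_le_mul_of_nonneg_left e1 ht0
    have e4 := mul_le_mul_of_nonneg_left e2 (show 0 ≤ 1 - t by linarith)
    have e5 : σ j * x j = σ j * (t * x 0 + (1 - t) * x N) := by rw [← hxj]
    nlinarith

end seq

/-- Discrete intermediate value. -/
theorem exists_switch {f : ℕ → ℝ} {N : ℕ} (h0 : 0 < f 0) (hN : ¬ 0 < f N) :
    ∃ i < N, 0 < f i ∧ ¬ 0 < f (i + 1) := by
  induction N with
  | zero => exact absurd h0 hN
  | succ n ih =>
    by_cases h : 0 < f n
    · exact ⟨n, Nat.lt_succ_self n, h, hN⟩
    · obtain ⟨i, hi, h1, h2⟩ := ih h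
      exact ⟨i, hi.trans (Nat.lt_succ_self n), h1, h2⟩

theorem dt_pt {e v : E} (h : Frame e v) (x y x' y' : ℝ) :
    dt e v (pt e v x y) (pt e v x' y') = x * y' - x' * y := by
  unfold dt
  rw [X_pt h, Y_pt h, X_pt h, Y_pt h]

theorem dt_anti (e v A B : E) : dt e v A B = -dt e v B A := by
  unfold dt; ring

/-- Finite families of distinct unit normals: the cone measures add up. -/
theorem sum_le_segs [FiniteDimensional ℝ E] [MeasurableSpace E] [BorelSpace E]
    (h1 : StmtOverlap) (lam : Measure E) [lam.IsAddHaarMeasure] {K : Set E} (hK : IsCompact K)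
    (hKc : Convex ℝ K) (h0 : (0 : E) ∈ K) {n : ℕ} (u : ℕ → E) (hu : ∀ i < n, ‖u i‖ = 1)
    (hinj : ∀ i < n, ∀ j < n, u i = u j → i = j) (M : ℕ → ℝ)
    (hM : ∀ i < n, M i ≤ lam.real (segs K {u i})) (ω : Set E) :
    ∑ i ∈ Finset.range n, ω.indicator (fun _ => M i) (u i) ≤ lam.real (segs K ω) := by
  classical
  set F : Finset ℕ := (Finset.range n).filter (fun i => u i ∈ ω) with hF
  have hFm : ∀ i, i ∈ F ↔ i < n ∧ u i ∈ ω := by
    intro i; simp [hF]
  have e1 : ∑ i ∈ Finset.range n, ω.indicator (fun _ => M i) (u i) = ∑ i ∈ F, M i := by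
    rw [hF, Finset.sum_filter]
    apply Finset.sum_congr rfl
    intro i _
    by_cases h : u i ∈ ω
    · rw [indicator_of_mem h, if_pos h]
    · rw [indicator_of_notMem h, if_neg h]
  have hcomp : ∀ i, IsCompact (segs K {u i}) := fun i =>
    Borelaux.isCompact_segs hK isCompact_singleton
  have hfin : ∀ ω' : Set E, lam (segs K ω') ≠ ⊤ := fun ω' =>
    measure_ne_top_of_subset (segs_subset hKc h0) hK.measure_lt_top.ne
  have e2 : lam (⋃ i ∈ F, segs K {u i}) = ∑ i ∈ F, lam (segs K {u i}) := by
    apply measure_biUnion_finset₀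
    · intro i hi j hj hij
      have hi' := (hFm i).1 hi
      have hj' := (hFm j).1 hj
      apply h1 E lam K {u i} {u j} hK hKc h0
      · rintro _ rfl
        simpa using hu i hi'.1
      · rintro _ rfl
        simpa using hu j hj'.1
      · rw [Set.disjoint_singleton]
        exact fun h => hij (hinj i hi'.1 j hj'.1 h)
    · intro i _
      exact (hcomp i).measurableSet.nullMeasurableSet
  have e3 : (⋃ i ∈ F, segs K {u i}) ⊆ segs K ω := by
    intro z hz
    simp only [mem_iUnion] at hz
    obtain ⟨i, hi, hz⟩ := hz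
    apply segs_mono _ hz
    rintro _ rfl
    exact ((hFm i).1 hi).2
  have e4 : lam.real (⋃ i ∈ F, segs K {u i}) = ∑ i ∈ F, lam.real (segs K {u i}) := by
    rw [measureReal_def, e2, ENNReal.toReal_sum fun i _ => hfin _]
    rfl
  rw [e1]
  calc ∑ i ∈ F, M i ≤ ∑ i ∈ F, lam.real (segs K {u i}) :=
        Finset.sum_le_sum fun i hi => hM i ((hFm i).1 hi).1
    _ = lam.real (⋃ i ∈ F, segs K {u i}) := e4.symm
    _ ≤ lam.real (segs K ω) := measureReal_mono e3 (hfin ω)

end PPolyaux

open PPolyaux

theorem stmtPoly (h1 : StmtOverlap) : StmtPoly := by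
  intro E _ _ _ _ _ lam _ e v κ₀ hF hκ htri N σ m x y a b B ha hb hm hσ hh hrec hx0 hxN hFc
    hB hBR hBW
  have hN : 0 < N := by
    rcases Nat.eq_zero_or_pos N with h | h
    · subst h; linarith
    · exact h
  set P : ℕ → E := fun i => pt e v (x i) (y i) with hP
  set rR : ℝ := y 0 - a / x 0 with hrR
  set rW : ℝ := y N + b / x N with hrW
  set R : E := pt e v (x 0) rR with hR
  set W : E := pt e v (x N) rW with hW
  have ea : a = x 0 * (y 0 - rR) := by
    rw [hrR, sub_sub_cancel, mul_div_cancel₀ _ hx0.ne']
  have eb : b = x N * (rW - y N) := by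
    rw [hrW, add_sub_cancel_left, mul_div_cancel₀ _ hxN.ne]
  have hrR' : rR ≤ y 0 := by
    have : 0 ≤ a / x 0 := div_nonneg ha hx0.le
    rw [hrR]; linarith
  have hrW' : rW ≤ y N := by
    have : b / x N ≤ 0 := div_nonpos_of_nonneg_of_nonpos hb hxN.le
    rw [hrW]; linarith
  have hdet : 0 ≤ x 0 * rW - x N * rR := by
    have e1 : x 0 * rW - x N * rR =
        (-(x 0 * x N)) * (y 0 / x 0 - y N / x N - (a / x 0 ^ 2 + b / x N ^ 2)) := by
      rw [hrW, hrR]
      have h2 := hx0.ne'
      have h3 := hxN.ne
      field_simp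
      ring
    rw [e1]
    apply mul_nonneg
    · nlinarith
    · linarith
  set Vx : Set E := {0, R, W} ∪ P '' (Set.Iic N) with hVx
  set K : Set E := convexHull ℝ Vx with hK
  have hfin : Vx.Finite := (by simp : ({0, R, W} : Set E).Finite).union
    ((Set.finite_Iic N).image P)
  have hKc : IsCompact K := hfin.isCompact_convexHull (𝕜 := ℝ)
  have hKcv : Convex ℝ K := convex_convexHull ℝ Vx
  have hsub : Vx ⊆ K := subset_convexHull ℝ Vx
  have h0K : (0 : E) ∈ K := hsub (by simp [hVx])
  have hRK : R ∈ K := hsub (by simp [hVx])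
  have hWK : W ∈ K := hsub (by simp [hVx])
  have hPK : ∀ i ≤ N, P i ∈ K := fun i hi => hsub (Or.inr ⟨i, hi, rfl⟩)
  have hcases : ∀ z ∈ Vx, z = 0 ∨ z = R ∨ z = W ∨ ∃ i ≤ N, z = P i := by
    rintro z (hz | ⟨i, hi, rfl⟩)
    · simp only [mem_insert_iff, mem_singleton_iff] at hz
      rcases hz with h | h | h
      · exact Or.inl h
      · exact Or.inr (Or.inl h)
      · exact Or.inr (Or.inr (Or.inl h))
    · exact Or.inr (Or.inr (Or.inr ⟨i, hi, rfl⟩))
  have hull : ∀ (p q c : ℝ), (0 ≤ c) → (p * x 0 + q * rR ≤ c) → (p * x N + q * rW ≤ c) →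
      (∀ i ≤ N, p * x i + q * y i ≤ c) → ∀ z ∈ K, p * ⟪z, e⟫ + q * ⟪z, v⟫ ≤ c := by
    intro p q c hc1 hc2 hc3 hc4 z hz
    have hconv : Convex ℝ {z : E | p * ⟪z, e⟫ + q * ⟪z, v⟫ ≤ c} := by
      intro u hu w hw s t hs ht hst
      simp only [mem_ofPred_eq] at hu hw ⊢
      rw [inner_add_left, inner_add_left, real_inner_smul_left, real_inner_smul_left,
        real_inner_smul_left, real_inner_smul_left]
      have e1 := mul_le_mul_of_nonneg_left hu hs
      have e2 := mul_le_mul_of_nonneg_left hw ht
      have e3 : s * c + t * c = c := by rw [← add_mul, hst, one_mul]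
      linarith
    have hV : Vx ⊆ {z : E | p * ⟪z, e⟫ + q * ⟪z, v⟫ ≤ c} := by
      intro z hz
      show p * ⟪z, e⟫ + q * ⟪z, v⟫ ≤ c
      rcases hcases z hz with h | h | h | ⟨i, hi, h⟩
      · rw [h, inner_zero_left, inner_zero_left]; simpa using hc1
      · rw [h, hR, X_pt hF, Y_pt hF]; exact hc2
      · rw [h, hW, X_pt hF, Y_pt hF]; exact hc3
      · rw [h, hP, X_pt hF, Y_pt hF]; exact hc4 i hi
    exact convexHull_min hV hconv hz
  have hxi : ∀ i ≤ N, x i ≤ x 0 := fun i hi => x_anti hm hh hrec (Nat.zero_le _) hi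
  have hxi' : ∀ i ≤ N, x N ≤ x i := fun i hi => x_anti hm hh hrec hi le_rfl
  have hK1 : ∀ z ∈ K, ⟪z, e⟫ ≤ x 0 := by
    intro z hz
    have := hull 1 0 (x 0) hx0.le (by linarith) (by linarith)
      (fun i hi => by linarith [hxi i hi]) z hz
    linarith
  have hK2 : ∀ z ∈ K, x N ≤ ⟪z, e⟫ := by
    intro z hz
    have := hull (-1) 0 (-x N) (by linarith) (by linarith) (by linarith)
      (fun i hi => by linarith [hxi' i hi]) z hz
    linarith
  have hK3 : ∀ i < N, ∀ z ∈ K, ⟪z, v⟫ - σ i * ⟪z, e⟫ ≤ y i - σ i * x i := by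
    intro i hi z hz
    have g0 := g_le hm hσ hh hrec hi (Nat.zero_le N)
    have gN := g_le hm hσ hh hrec hi (le_refl N)
    have := hull (-σ i) 1 (y i - σ i * x i) (hh i hi).le (by linarith) (by linarith)
      (fun j hj => by linarith [g_le hm hσ hh hrec hi hj]) z hz
    linarith
  have hK4 : ∀ z ∈ K, 0 ≤ dt e v R z := by
    intro z hz
    have := hull rR (-x 0) 0 le_rfl (by linarith) (by linarith) (by
      intro i hi
      obtain ⟨t, ht0, ht1, htx, hty⟩ := above_chord hm hσ hh hrec (by linarith) hi
      have e1 : x 0 * (t * y 0 + (1 - t) * y N) ≤ x 0 * y i :=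
        mul_le_mul_of_nonneg_left hty hx0.le
      have e2 : t * (x 0 * (rR - y 0)) ≤ 0 :=
        mul_nonpos_of_nonneg_of_nonpos ht0 (mul_nonpos_of_nonneg_of_nonpos hx0.le (by linarith))
      have e3 : (1 - t) * (rR * x N - x 0 * y N) ≤ 0 := by
        apply mul_nonpos_of_nonneg_of_nonpos (by linarith)
        have : x 0 * rW ≤ x 0 * y N := mul_le_mul_of_nonneg_left hrW' hx0.le
        linarith
      rw [htx]
      nlinarith) z hz
    unfold dt
    rw [hR, X_pt hF, Y_pt hF]
    linarith
  have hK5 : ∀ z ∈ K, 0 ≤ dt e v z W := by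
    intro z hz
    have := hull (-rW) (x N) 0 le_rfl (by linarith) (by linarith) (by
      intro i hi
      obtain ⟨t, ht0, ht1, htx, hty⟩ := above_chord hm hσ hh hrec (by linarith) hi
      have e1 : x N * y i ≤ x N * (t * y 0 + (1 - t) * y N) :=
        mul_le_mul_of_nonpos_left hty hxN.le
      have e2 : (1 - t) * (x N * (y N - rW)) ≤ 0 :=
        mul_nonpos_of_nonneg_of_nonpos (by linarith)
          (mul_nonpos_of_nonpos_of_nonneg hxN.le (by linarith))
      have e3 : t * (-(rW * x 0) + x N * y 0) ≤ 0 := by
        apply mul_nonpos_of_nonneg_of_nonpos ht0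
        have : x N * y 0 ≤ x N * rR := mul_le_mul_of_nonpos_left hrR' hxN.le
        linarith
      rw [htx]
      nlinarith) z hz
    unfold dt
    rw [hW, X_pt hF, Y_pt hF]
    linarith
  have hPP : ∀ i < N, dt e v (P i) (P (i + 1)) = m i := by
    intro i hi
    simp only [hP]
    rw [dt_pt hF, (hrec i hi).1, (hrec i hi).2]
    have e1 : m i / (y i - σ i * x i) * (y i - σ i * x i) = m i :=
      div_mul_cancel₀ _ (hh i hi).ne'
    linear_combination e1
  have hRP : dt e v R (P 0) = a := by
    simp only [hP, hR]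
    rw [dt_pt hF, ea]; ring
  have hPW : dt e v (P N) W = b := by
    simp only [hP, hW]
    rw [dt_pt hF, eb]; ring
  have hgi : ∀ i < N, y (i + 1) - σ i * x (i + 1) = y i - σ i * x i := by
    intro i hi
    rw [(hrec i hi).1, (hrec i hi).2]
    ring
  refine ⟨K, hKc, hKcv, h0K, ?_, ?_, ?_⟩
  · -- norm bound
    intro z hz
    have hsubB : Vx ⊆ closedBall (0 : E) B := by
      intro w hw
      rw [mem_closedBall, dist_zero_right]
      rcases hcases w hw with h | h | h | ⟨i, hi, h⟩
      · rw [h, norm_zero]; exact (norm_nonneg _).trans hBR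
      · rw [h]; exact hBR
      · rw [h]; exact hBW
      · rw [h]; exact hB i hi
    have := convexHull_min hsubB (convex_closedBall 0 B) hz
    rwa [mem_closedBall, dist_zero_right] at this
  · -- volume
    set S : Set E := (tri R (P 0) ∪ tri (P N) W) ∪
      ⋃ i ∈ Finset.range N, tri (P i) (P (i + 1)) with hS
    set Nul : Set E := ⋃ i ∈ Finset.range (N + 1), {z | dt e v (P i) z = 0} with hNul
    have hNul0 : lam Nul = 0 := by
      rw [hNul]
      refine le_antisymm ((measure_biUnion_finset_le _ _).trans ?_) zero_le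
      rw [Finset.sum_eq_zero]
      intro i hi
      apply null_line lam hF
      intro hcon
      have hi' : i ≤ N := by
        have := Finset.mem_range.1 hi
        omega
      have ex : x i = 0 := by
        rw [← X_pt hF (x i) (y i)]
        have : pt e v (x i) (y i) = 0 := hcon
        rw [this, inner_zero_left]
      have ey : y i = 0 := by
        rw [← Y_pt hF (x i) (y i)]
        have : pt e v (x i) (y i) = 0 := hcon
        rw [this, inner_zero_left]
      rcases hi'.eq_or_lt with h | h
      · rw [h] at ex; linarith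
      · have := hh i h
        rw [ex, ey] at this
        simp at this
    have hcover : K ⊆ S ∪ Nul := by
      intro z hz
      by_cases hzN : z ∈ Nul
      · exact Or.inr hzN
      left
      have hne : ∀ i ≤ N, dt e v (P i) z ≠ 0 := by
        intro i hi hcon
        apply hzN
        rw [hNul]
        simp only [mem_iUnion]
        exact ⟨i, Finset.mem_range.2 (by omega), hcon⟩
      by_cases c0 : 0 < dt e v (P 0) z
      · by_cases cN : 0 < dt e v (P N) z
        · -- beyond the last vertex
          left; right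
          have hbpos : 0 < b := by
            rcases hb.eq_or_lt with h | h
            · exfalso
              have eW : W = P N := by
                simp only [hW, hP, hrW, ← h]
                simp
              have := hK5 z hz
              rw [eW, dt_anti] at this
              linarith
            · exact h
          exact mem_tri_of hF hPW hbpos cN.le (hK5 z hz) (p := -1) (q := 0) (c := -x N)
            (by linarith) (by simp only [hP]; rw [X_pt hF]; ring)
            (by rw [hW, X_pt hF]; ring) (by linarith [hK2 z hz])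
        · obtain ⟨i, hi, hi1, hi2⟩ := exists_switch (f := fun i => dt e v (P i) z) c0 cN
          have hi3 : dt e v (P (i + 1)) z < 0 :=
            lt_of_le_of_ne (not_lt.mp hi2) (hne (i + 1) (by omega))
          have hmpos : 0 < m i := by
            rcases (hm i hi).eq_or_lt with h | h
            · exfalso
              have eP : P (i + 1) = P i := by
                simp only [hP]
                rw [(hrec i hi).1, (hrec i hi).2, ← h]
                simp
              rw [eP] at hi3
              linarith
            · exact h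
          right
          simp only [mem_iUnion]
          refine ⟨i, Finset.mem_range.2 hi, ?_⟩
          refine mem_tri_of hF (hPP i hi) hmpos hi1.le ?_ (p := -σ i) (q := 1)
            (c := y i - σ i * x i) (hh i hi) ?_ ?_ ?_
          · rw [dt_anti]; linarith
          · simp only [hP]; rw [X_pt hF, Y_pt hF]; ring
          · simp only [hP]; rw [X_pt hF, Y_pt hF, ← hgi i hi]; ring
          · linarith [hK3 i hi z hz]
      · -- before the first vertex
        left; left
        have c0' : dt e v (P 0) z < 0 :=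
          lt_of_le_of_ne (not_lt.mp c0) (hne 0 (Nat.zero_le _))
        have hapos : 0 < a := by
          rcases ha.eq_or_lt with h | h
          · exfalso
            have eR : R = P 0 := by
              simp only [hR, hP, hrR, ← h]
              simp
            have := hK4 z hz
            rw [eR] at this
            linarith
          · exact h
        exact mem_tri_of hF hRP hapos (hK4 z hz) (by rw [dt_anti]; linarith) (p := 1) (q := 0)
          (c := x 0) hx0 (by rw [hR, X_pt hF]; ring)
          (by simp only [hP]; rw [X_pt hF]; ring) (by linarith [hK1 z hz])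
    have hSfin : lam S < ⊤ := by
      apply IsCompact.measure_lt_top
      apply ((isCompact_tri _ _).union (isCompact_tri _ _)).union
      exact (Finset.range N).isCompact_biUnion fun i _ => isCompact_tri _ _
    have e1 : lam K ≤ lam S := by
      calc lam K ≤ lam (S ∪ Nul) := measure_mono hcover
        _ ≤ lam S + lam Nul := measure_union_le _ _
        _ = lam S := by rw [hNul0, add_zero]
    have e2 : lam.real K ≤ lam.real S := ENNReal.toReal_mono hSfin.ne e1
    have e3 : lam.real S ≤ (lam.real (tri R (P 0)) + lam.real (tri (P N) W)) +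
        ∑ i ∈ Finset.range N, lam.real (tri (P i) (P (i + 1))) := by
      refine (measureReal_union_le _ _).trans ?_
      apply add_le_add (measureReal_union_le _ _)
      exact measureReal_biUnion_finset_le _ _
    have e4 : ∑ i ∈ Finset.range N, lam.real (tri (P i) (P (i + 1))) =
        κ₀ * ∑ i ∈ Finset.range N, m i := by
      rw [Finset.mul_sum]
      apply Finset.sum_congr rfl
      intro i hi
      have hi' := Finset.mem_range.1 hi
      rw [htri, hPP i hi', abs_of_nonneg (hm i hi')]
    rw [htri, htri, hRP, hPW, abs_of_nonneg ha, abs_of_nonneg hb, e4] at e3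
    linarith
  · -- the cone measures
    intro ω
    set u : ℕ → E := fun i => if i < N then nrm e v (σ i) else if i = N then e else -e with hu
    have hu1 : ∀ i < N, u i = nrm e v (σ i) := fun i hi => by simp only [hu, hi, if_true]
    have hu2 : u N = e := by simp only [hu, lt_irrefl, if_false, if_true]
    have hu3 : u (N + 1) = -e := by
      simp only [hu]
      rw [if_neg (by omega), if_neg (by omega)]
    set MM : ℕ → ℝ := fun i => if i < N then κ₀ * m i else if i = N then κ₀ * a else κ₀ * b
      with hMM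
    have hM1 : ∀ i < N, MM i = κ₀ * m i := fun i hi => by simp only [hMM, hi, if_true]
    have hM2 : MM N = κ₀ * a := by simp only [hMM, lt_irrefl, if_false, if_true]
    have hM3 : MM (N + 1) = κ₀ * b := by
      simp only [hMM]
      rw [if_neg (by omega), if_neg (by omega)]
    have hee : e ≠ -e := by
      intro hcon
      have h2 : ⟪e, e⟫ = ⟪-e, e⟫ := by rw [← hcon]
      rw [inner_neg_left, inner_ee hF] at h2
      norm_num at h2
    have hnY : ∀ s, 0 < ⟪nrm e v s, v⟫ := fun s => by
      rw [nrm_Y hF]; exact inv_pos.mpr (sqrt_pos' s)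
    have hne1 : ∀ s, nrm e v s ≠ e := by
      intro s hcon
      have := hnY s
      rw [hcon, hF.orth] at this
      exact lt_irrefl _ this
    have hne2 : ∀ s, nrm e v s ≠ -e := by
      intro s hcon
      have := hnY s
      rw [hcon, inner_neg_left, hF.orth, neg_zero] at this
      exact lt_irrefl _ this
    have hfin' : ∀ ω' : Set E, lam (segs K ω') ≠ ⊤ := fun ω' =>
      measure_ne_top_of_subset (segs_subset hKcv h0K) hKc.measure_lt_top.ne
    have hmain := sum_le_segs h1 lam hKc hKcv h0K (n := N + 2) u
      (by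
        intro i hi
        rcases Nat.lt_or_ge i N with h | h
        · rw [hu1 i h]; exact nrm_norm hF _
        · rcases h.eq_or_lt with h' | h'
          · rw [← h', hu2]; exact hF.e_norm
          · rw [show i = N + 1 by omega, hu3, norm_neg]; exact hF.e_norm)
      (by
        have hlt : ∀ i j, i < j → j < N + 2 → u i ≠ u j := by
          intro i j hij hj hcon
          rcases Nat.lt_or_ge j N with h | h
          · rw [hu1 i (by omega), hu1 j h] at hcon
            have := nrm_inj hF hcon
            have h3 := hσ i j hij h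
            linarith
          · rcases h.eq_or_lt with h' | h'
            · rw [← h', hu2, hu1 i (by omega)] at hcon
              exact hne1 _ hcon
            · rw [show j = N + 1 by omega, hu3] at hcon
              rcases Nat.lt_or_ge i N with h4 | h4
              · rw [hu1 i h4] at hcon
                exact hne2 _ hcon
              · rw [show i = N by omega, hu2] at hcon
                exact hee hcon
        intro i hi j hj hij
        rcases lt_trichotomy i j with h | h | h
        · exact absurd hij (hlt i j h hj)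
        · exact h
        · exact absurd hij.symm (hlt j i h hi))
      MM
      (by
        intro i hi
        rcases Nat.lt_or_ge i N with h | h
        · rw [hu1 i h, hM1 i h]
          have e1 : κ₀ * m i = lam.real (tri (P i) (P (i + 1))) := by
            rw [htri, hPP i h, abs_of_nonneg (hm i h)]
          rw [e1]
          apply measureReal_mono _ (hfin' _)
          apply tri_subset_segs hKcv (hPK i h.le) (hPK (i + 1) h)
          · rw [inner_nrm, inner_nrm]
            simp only [hP]
            rw [X_pt hF, Y_pt hF, X_pt hF, Y_pt hF, hgi i h]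
          · intro z hz
            rw [inner_nrm, inner_nrm]
            simp only [hP]
            rw [X_pt hF, Y_pt hF]
            exact mul_le_mul_of_nonneg_left (hK3 i h z hz) (inv_pos.mpr (sqrt_pos' _)).le
        · rcases h.eq_or_lt with h' | h'
          · rw [← h', hu2, hM2]
            have e1 : κ₀ * a = lam.real (tri R (P 0)) := by
              rw [htri, hRP, abs_of_nonneg ha]
            rw [e1]
            apply measureReal_mono _ (hfin' _)
            apply tri_subset_segs hKcv hRK (hPK 0 (Nat.zero_le _))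
            · simp only [hP, hR]
              rw [X_pt hF, X_pt hF]
            · intro z hz
              rw [hR, X_pt hF]
              exact hK1 z hz
          · rw [show i = N + 1 by omega, hu3, hM3]
            have e1 : κ₀ * b = lam.real (tri (P N) W) := by
              rw [htri, hPW, abs_of_nonneg hb]
            rw [e1]
            apply measureReal_mono _ (hfin' _)
            apply tri_subset_segs hKcv (hPK N le_rfl) hWK
            · simp only [hP, hW]
              rw [inner_neg_right, inner_neg_right, X_pt hF, X_pt hF]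
            · intro z hz
              simp only [hP]
              rw [inner_neg_right, inner_neg_right, X_pt hF]
              linarith [hK2 z hz])
      ω
    rw [Finset.sum_range_succ, Finset.sum_range_succ, hu2, hu3, hM2, hM3] at hmain
    have e1 : ∑ i ∈ Finset.range N, ω.indicator (fun _ => MM i) (u i) =
        κ₀ * ∑ i ∈ Finset.range N, ω.indicator (fun _ => m i) (nrm e v (σ i)) := by
      rw [Finset.mul_sum]
      apply Finset.sum_congr rfl
      intro i hi
      have hi' := Finset.mem_range.1 hi
      rw [hu1 i hi', hM1 i hi']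
      by_cases h : nrm e v (σ i) ∈ ω
      · rw [indicator_of_mem h, indicator_of_mem h]
      · rw [indicator_of_notMem h, indicator_of_notMem h, mul_zero]
    have e2 : ∀ (c : ℝ) (z : E), ω.indicator (fun _ => κ₀ * c) z =
        κ₀ * ω.indicator (fun _ => c) z := by
      intro c z
      by_cases h : z ∈ ω
      · rw [indicator_of_mem h, indicator_of_mem h]
      · rw [indicator_of_notMem h, indicator_of_notMem h, mul_zero]
    rw [e1, e2, e2] at hmain
    linarith

end Pool.Agent.Lib.MP_abca01_gt
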