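import Pool.Agent.Lib.MP_abca01_gt.Plane

/-!
# Shooting
-/

set_option autoImplicit false

open MeasureTheory Set Metric
open scoped RealInnerProductSpace Pointwise

namespace Pool.Agent.Lib.MP_abca01_gt

namespace PShootaux

theorem exists_t {a b c : ℝ} (ha : 0 ≤ a) (hb : 0 ≤ b) (h : 2 * √(a * b) < c) :
    ∃ t : ℝ, 0 < t ∧ a * t + b / t < c := by
  have hc : 0 < c := lt_of_le_of_lt (by positivity) h
  rcases ha.eq_or_lt with ha0 | ha0
  · refine ⟨b / c + 1, by positivity, ?_⟩
    rw [← ha0, zero_mul, zero_add, div_lt_iff₀ (by positivity)]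
    have : c * (b / c + 1) = b + c := by field_simp
    rw [this]
    linarith
  rcases hb.eq_or_lt with hb0 | hb0
  · refine ⟨c / (a + 1), by positivity, ?_⟩
    rw [← hb0, zero_div, add_zero, ← mul_div_assoc, div_lt_iff₀ (by positivity)]
    nlinarith
  · have hsa : 0 < √a := Real.sqrt_pos.2 ha0
    have hsb : 0 < √b := Real.sqrt_pos.2 hb0
    have ea : √a * √a = a := Real.mul_self_sqrt ha
    have eb : √b * √b = b := Real.mul_self_sqrt hb
    refine ⟨√b / √a, by positivity, ?_⟩
    have h1 : a * (√b / √a) = √a * √b := by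
      rw [← mul_div_assoc, div_eq_iff hsa.ne']
      calc a * √b = (√a * √a) * √b := by rw [ea]
        _ = √a * √b * √a := by ring
    have h2 : b / (√b / √a) = √a * √b := by
      rw [div_div_eq_mul_div, div_eq_iff hsb.ne']
      calc b * √a = (√b * √b) * √a := by rw [eb]
        _ = √a * √b * √b := by ring
    rw [h1, h2]
    rw [Real.sqrt_mul ha] at h
    linarith

/-- Continuity of the final inequality. -/
theorem exists_eps {a b ρ l : ℝ} (hl : 0 < l)
    (h : 0 < 1 / ρ + 1 / l - a / ρ ^ 2 - b / l ^ 2) :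
    ∃ ε : ℝ, 0 < ε ∧ ∀ l' y : ℝ, |l' - l| ≤ ε → |y - 1| ≤ ε →
      0 < 1 / ρ + y / l' - a / ρ ^ 2 - b / l' ^ 2 := by
  have hc : ContinuousAt (fun p : ℝ × ℝ => 1 / ρ + p.2 / p.1 - a / ρ ^ 2 - b / p.1 ^ 2) (l, 1) := by
    have h1 : ContinuousAt (fun p : ℝ × ℝ => p.2 / p.1) (l, 1) :=
      continuousAt_snd.div continuousAt_fst hl.ne'
    have h2 : ContinuousAt (fun p : ℝ × ℝ => b / p.1 ^ 2) (l, 1) :=
      continuousAt_const.div (continuousAt_fst.pow 2) (pow_ne_zero 2 hl.ne')
    exact ((continuousAt_const.add h1).sub continuousAt_const).sub h2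
  have hev := hc.eventually (lt_mem_nhds h)
  obtain ⟨ε, hε, hball⟩ := Metric.eventually_nhds_iff.1 hev
  refine ⟨ε / 2, by positivity, fun l' y h1 h2 => ?_⟩
  have := @hball (l', y) (by
    rw [Prod.dist_eq, max_lt_iff, Real.dist_eq, Real.dist_eq]
    exact ⟨by simp only; linarith, by simp only; linarith⟩)
  exact this

/-- One step of the recursion. -/
theorem step {δ q K M T D s m x y ρ l R : ℝ} (hδ : 0 < δ) (hm : 0 ≤ m) (hρ : 0 < ρ) (hl : 0 < l)
    (hK : K = 2 / ρ + 2 / l) (hy : |y - 1| ≤ 2 * δ * M + K * T)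
    (hyD : |y - 1| ≤ D) (hx : |x - (ρ - M)| ≤ 2 * q * M + 3 * T) (hxR : |x| ≤ R)
    (hq : D + δ * R ≤ q) (hq2 : q ≤ 1 / 2) (hD : D ≤ 1 / 2)
    (hneg : s < -δ → ρ / 2 ≤ x) (hpos : δ < s → x ≤ -(l / 2)) :
    0 < y - s * x ∧
      |(y - s * (m / (y - s * x))) - 1| ≤
        2 * δ * (M + m) + K * (T + if δ < |s| then m else 0) ∧
      |(x - m / (y - s * x)) - (ρ - (M + m))| ≤
        2 * q * (M + m) + 3 * (T + if δ < |s| then m else 0) := by
  have hD0 : 0 ≤ D := (abs_nonneg _).trans hyD
  have hR0 : 0 ≤ R := (abs_nonneg _).trans hxR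
  have hq0 : 0 ≤ q := le_trans (by positivity) hq
  have hK0 : 0 ≤ K := by rw [hK]; positivity
  have hy12 : 1 / 2 ≤ y := by
    have := (abs_le.1 hyD).1
    linarith
  by_cases hs : δ < |s|
  · rw [if_pos hs]
    -- common part: the bounds in the two large cases
    have key : ∀ P : ℝ, 0 < P → 2 / P ≤ K → 1 / 2 ≤ y - s * x → |s| * (P / 2) ≤ y - s * x →
        0 < y - s * x ∧
        |(y - s * (m / (y - s * x))) - 1| ≤ 2 * δ * (M + m) + K * (T + m) ∧
        |(x - m / (y - s * x)) - (ρ - (M + m))| ≤ 2 * q * (M + m) + 3 * (T + m) := by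
      intro P hP hPK h1 h2
      set h := y - s * x with hh
      have hpos' : 0 < h := by linarith
      have hmh0 : 0 ≤ m / h := by positivity
      have hmh : m / h ≤ 2 * m := by
        rw [div_le_iff₀ hpos']
        nlinarith
      have hsm : |s * (m / h)| ≤ K * m := by
        rw [abs_mul, abs_of_nonneg hmh0]
        have h3 : |s| * (m / h) ≤ 2 / P * m := by
          rw [← mul_div_assoc, div_le_iff₀ hpos']
          calc |s| * m = 2 / P * m * (|s| * (P / 2)) := by
                field_simp
            _ ≤ 2 / P * m * h := mul_le_mul_of_nonneg_left h2 (by positivity)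
        exact h3.trans (mul_le_mul_of_nonneg_right hPK hm)
      refine ⟨hpos', ?_, ?_⟩
      · have e : y - s * (m / h) - 1 = (y - 1) - s * (m / h) := by ring
        rw [e]
        have h4 := abs_sub (y - 1) (s * (m / h))
        have h5 : 0 ≤ δ * m := by positivity
        nlinarith
      · have e : x - m / h - (ρ - (M + m)) = (x - (ρ - M)) + (m - m / h) := by ring
        rw [e]
        have h4 := abs_add_le (x - (ρ - M)) (m - m / h)
        have h5 : |m - m / h| ≤ m := by
          rw [abs_le]
          constructor <;> linarith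
        have h6 : 0 ≤ q * m := by positivity
        nlinarith
    rcases lt_abs.1 hs with h | h
    · -- positive slope
      have hx' := hpos h
      have hs0 : 0 < s := hδ.trans h
      refine key l hl ?_ ?_ ?_
      · rw [hK]
        have : 0 < 2 / ρ := by positivity
        linarith
      · nlinarith
      · rw [abs_of_pos hs0]
        nlinarith
    · -- negative slope
      have h' : s < -δ := by linarith
      have hx' := hneg h'
      have hs0 : s < 0 := by linarith
      refine key ρ hρ ?_ ?_ ?_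
      · rw [hK]
        have : 0 < 2 / l := by positivity
        linarith
      · nlinarith
      · rw [abs_of_neg hs0]
        nlinarith
  · rw [if_neg hs]
    push Not at hs
    have hsx : |s * x| ≤ δ * R := by
      rw [abs_mul]
      exact mul_le_mul hs hxR (abs_nonneg _) hδ.le
    set h := y - s * x with hh
    have hh1 : |h - 1| ≤ q := by
      have e : h - 1 = (y - 1) - s * x := by rw [hh]; ring
      rw [e]
      have := abs_sub (y - 1) (s * x)
      linarith
    have hh2 : 1 / 2 ≤ h := by
      have := (abs_le.1 hh1).1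
      linarith
    have hpos' : 0 < h := by linarith
    have hmh0 : 0 ≤ m / h := by positivity
    have hmh : m / h ≤ 2 * m := by
      rw [div_le_iff₀ hpos']
      nlinarith
    refine ⟨hpos', ?_, ?_⟩
    · have e : y - s * (m / h) - 1 = (y - 1) - s * (m / h) := by ring
      rw [e]
      have h4 := abs_sub (y - 1) (s * (m / h))
      have h5 : |s * (m / h)| ≤ δ * (2 * m) := by
        rw [abs_mul, abs_of_nonneg hmh0]
        exact mul_le_mul hs hmh hmh0 hδ.le
      rw [add_zero]
      nlinarith
    · have e : x - m / h - (ρ - (M + m)) = (x - (ρ - M)) + (m - m / h) := by ring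
      rw [e]
      have h4 := abs_add_le (x - (ρ - M)) (m - m / h)
      have h5 : |m - m / h| ≤ 2 * q * m := by
        have e2 : m - m / h = m / h * (h - 1) := by
          field_simp
        rw [e2, abs_mul, abs_of_nonneg hmh0]
        calc m / h * |h - 1| ≤ (2 * m) * q := mul_le_mul hmh hh1 (abs_nonneg _) (by positivity)
          _ = 2 * q * m := by ring
      rw [add_zero]
      nlinarith

end PShootaux

open PShootaux

theorem stmtShoot : StmtShoot := by
  intro a b c ha hb hab
  have hc : 0 < c := lt_of_le_of_lt (by positivity) hab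
  obtain ⟨t, ht, htc⟩ := exists_t ha hb hab
  set ρ := c / (1 + t) with hρdef
  have hρ : 0 < ρ := by positivity
  set l := t * ρ with hldef
  have hl : 0 < l := by positivity
  have hρl : ρ + l = c := by
    rw [hldef, hρdef]
    field_simp
  have hG : 0 < 1 / ρ + 1 / l - a / ρ ^ 2 - b / l ^ 2 := by
    have e : 1 / ρ + 1 / l - a / ρ ^ 2 - b / l ^ 2 =
        (ρ + l - (a * t + b / t)) / (t * ρ ^ 2) := by
      rw [hldef]
      field_simp
      ring
    rw [e, hρl]
    have : 0 < c - (a * t + b / t) := by linarith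
    positivity
  obtain ⟨ε₀, hε₀, hGε⟩ := exists_eps hl hG
  set ε := min (min ε₀ (1 / 4)) (min (ρ / 4) (l / 4)) with hεdef
  have hε : 0 < ε := by
    rw [hεdef]
    positivity
  have hεε₀ : ε ≤ ε₀ := (min_le_left _ _).trans (min_le_left _ _)
  have hε4 : ε ≤ 1 / 4 := (min_le_left _ _).trans (min_le_right _ _)
  have hερ : ε ≤ ρ / 4 := (min_le_right _ _).trans (min_le_left _ _)
  have hεl : ε ≤ l / 4 := (min_le_right _ _).trans (min_le_right _ _)
  set K := 2 / ρ + 2 / l with hK
  have hK0 : 0 < K := by positivity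
  set B := 3 * c + K + ρ + 1 with hB
  have hB1 : 1 ≤ B := by linarith
  set A := (2 * c + 3) * B with hA
  have hA0 : 0 < A := by positivity
  have hA1 : 3 * B ≤ A := by
    rw [hA]
    nlinarith
  set τ := ε / A with hτ
  have hτ0 : 0 < τ := by positivity
  have hτA : τ * A = ε := by
    rw [hτ]
    field_simp
  have hτB : 3 * (τ * B) ≤ ε := by
    rw [← hτA]
    nlinarith
  set R := ρ + c + 1 with hR
  set D := τ * (2 * c + K) with hD
  set q := τ * B with hq
  have hDε : D ≤ ε := by
    have : τ * (2 * c + K) ≤ τ * B := mul_le_mul_of_nonneg_left (by linarith) hτ0.le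
    have h2 : 0 ≤ τ * B := by positivity
    linarith
  have hqeq : D + τ * R = q := by
    rw [hD, hR, hq, hB]
    ring
  have hq0 : 0 ≤ q := by positivity
  have hqε : q ≤ ε := by linarith
  have hE2 : 2 * q * c + 3 * τ ≤ ε := by
    rw [← hτA, hA, hq]
    have : τ * 1 ≤ τ * B := mul_le_mul_of_nonneg_left hB1 hτ0.le
    nlinarith
  have hτε : τ ≤ ε := by
    have : τ * 1 ≤ τ * B := mul_le_mul_of_nonneg_left hB1 hτ0.le
    linarith
  refine ⟨ρ, τ, τ, R + 2 + a / ρ + 2 * b / l, hρ, hτ0, hτ0, by positivity, ?_⟩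
  intro N σ m hm hσ hsum hTN
  -- the sequence
  let z : ℕ → ℝ × ℝ := fun i => Nat.rec (ρ, 1) (fun i p =>
    (p.1 - m i / (p.2 - σ i * p.1), p.2 - σ i * (m i / (p.2 - σ i * p.1)))) i
  have hz0 : z 0 = (ρ, 1) := rfl
  have hzs : ∀ i, z (i + 1) = ((z i).1 - m i / ((z i).2 - σ i * (z i).1),
    (z i).2 - σ i * (m i / ((z i).2 - σ i * (z i).1))) := fun i => rfl
  -- the sums
  set M : ℕ → ℝ := fun i => ∑ j ∈ Finset.range i, m j with hM
  set T : ℕ → ℝ := fun i => ∑ j ∈ Finset.range i, if τ < |σ j| then m j else 0 with hT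
  have hMs : ∀ i, M (i + 1) = M i + m i := fun i => Finset.sum_range_succ _ _
  have hTs : ∀ i, T (i + 1) = T i + if τ < |σ i| then m i else 0 :=
    fun i => Finset.sum_range_succ _ _
  have hTN' : T N ≤ τ := by
    rw [Finset.sum_filter] at hTN
    exact hTN
  have hMc : ∀ i ≤ N, M i ≤ c := by
    intro i hi
    rw [← hsum]
    refine Finset.sum_le_sum_of_subset_of_nonneg ?_ fun j hj _ => hm j (Finset.mem_range.1 hj)
    intro j hj
    rw [Finset.mem_range] at hj ⊢
    omega
  have hM0 : ∀ i ≤ N, 0 ≤ M i := fun i hi =>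
    Finset.sum_nonneg fun j hj => hm j (by
      rw [Finset.mem_range] at hj
      omega)
  have hterm : ∀ j < N, 0 ≤ (if τ < |σ j| then m j else 0) := by
    intro j hj
    split_ifs
    · exact hm j hj
    · exact le_rfl
  have hT0 : ∀ i ≤ N, 0 ≤ T i := fun i hi =>
    Finset.sum_nonneg fun j hj => hterm j (by
      rw [Finset.mem_range] at hj
      omega)
  have hTτ : ∀ i ≤ N, T i ≤ τ := by
    intro i hi
    refine le_trans ?_ hTN'
    refine Finset.sum_le_sum_of_subset_of_nonneg ?_ fun j hj _ => hterm j (Finset.mem_range.1 hj)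
    intro j hj
    rw [Finset.mem_range] at hj ⊢
    omega
  -- the bounds imply absolute bounds
  have habs : ∀ i ≤ N, |(z i).2 - 1| ≤ 2 * τ * M i + K * T i →
      |(z i).1 - (ρ - M i)| ≤ 2 * q * M i + 3 * T i →
      |(z i).2 - 1| ≤ D ∧ |(z i).1 - (ρ - M i)| ≤ ε ∧ |(z i).1| ≤ R := by
    intro i hi h1 h2
    have e1 := hMc i hi
    have e2 := hM0 i hi
    have e3 := hTτ i hi
    have e4 := hT0 i hi
    have e5 : 2 * τ * M i ≤ 2 * τ * c := mul_le_mul_of_nonneg_left e1 (by positivity)
    have e6 : K * T i ≤ K * τ := mul_le_mul_of_nonneg_left e3 hK0.le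
    have e7 : 2 * q * M i ≤ 2 * q * c := mul_le_mul_of_nonneg_left e1 (by positivity)
    have h3 : |(z i).1 - (ρ - M i)| ≤ ε := by linarith
    refine ⟨?_, h3, ?_⟩
    · rw [hD]
      linarith
    · have h4 := abs_le.1 h3
      rw [abs_le]
      constructor
      · linarith [h4.1]
      · linarith [h4.2]
  -- one step
  have hstep : ∀ i < N, |(z i).2 - 1| ≤ 2 * τ * M i + K * T i →
      |(z i).1 - (ρ - M i)| ≤ 2 * q * M i + 3 * T i →
      0 < (z i).2 - σ i * (z i).1 ∧ |(z (i + 1)).2 - 1| ≤ 2 * τ * M (i + 1) + K * T (i + 1) ∧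
      |(z (i + 1)).1 - (ρ - M (i + 1))| ≤ 2 * q * M (i + 1) + 3 * T (i + 1) := by
    intro i hi h1 h2
    obtain ⟨h3, h4, h5⟩ := habs i hi.le h1 h2
    have h4' := abs_le.1 h4
    rw [hMs, hTs, hzs]
    refine step (D := D) (R := R) hτ0 (hm i hi) hρ hl hK h1 h3 h2 h5 hqeq.le (by linarith)
      (by linarith) ?_ ?_
    · -- very negative slope
      intro hs
      have hMT : M i = T i := by
        refine Finset.sum_congr rfl fun j hj => ?_
        have hji : σ j < σ i := hσ j i (Finset.mem_range.1 hj) hi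
        rw [if_pos]
        rw [lt_abs]
        right
        linarith
      have := hTτ i hi.le
      linarith [h4'.1]
    · -- very positive slope
      intro hs
      have hcM : c - M i ≤ τ := by
        have e1 : c - M i = ∑ j ∈ Finset.Ico i N, m j := by
          rw [← hsum, Finset.sum_Ico_eq_sub _ hi.le]
        have e2 : ∑ j ∈ Finset.Ico i N, m j =
            ∑ j ∈ Finset.Ico i N, if τ < |σ j| then m j else 0 := by
          refine Finset.sum_congr rfl fun j hj => ?_
          rw [Finset.mem_Ico] at hj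
          have hji : σ i ≤ σ j := by
            rcases hj.1.eq_or_lt with h | h
            · rw [h]
            · exact (hσ i j h hj.2).le
          rw [if_pos]
          rw [lt_abs]
          left
          linarith
        have e3 : ∑ j ∈ Finset.Ico i N, (if τ < |σ j| then m j else 0) ≤ T N := by
          refine Finset.sum_le_sum_of_subset_of_nonneg ?_
            fun j hj _ => hterm j (Finset.mem_range.1 hj)
          intro j hj
          rw [Finset.mem_Ico] at hj
          exact Finset.mem_range.2 hj.2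
        rw [e1, e2]
        exact e3.trans hTN'
      linarith [h4'.2]
  -- induction
  have hall : ∀ i ≤ N, |(z i).2 - 1| ≤ 2 * τ * M i + K * T i ∧
      |(z i).1 - (ρ - M i)| ≤ 2 * q * M i + 3 * T i := by
    intro i
    induction i with
    | zero =>
      intro _
      simp [hz0, hM, hT]
    | succ i ih =>
      intro hi
      obtain ⟨h1, h2⟩ := ih (by omega)
      exact (hstep i (by omega) h1 h2).2
  -- the end
  have hMN : M N = c := hsum
  obtain ⟨hN1, hN2⟩ := hall N le_rfl
  obtain ⟨hN3, hN4, hN5⟩ := habs N le_rfl hN1 hN2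
  rw [hMN] at hN4
  have hN4' := abs_le.1 hN4
  have hxN : (z N).1 ≤ -(l / 2) := by linarith [hN4'.2]
  refine ⟨fun i => (z i).1, fun i => (z i).2, rfl, rfl, fun i hi => ?_, fun i hi => ?_, ?_, ?_,
    fun i hi => ?_, ?_, ?_⟩
  · exact (hstep i hi (hall i hi.le).1 (hall i hi.le).2).1
  · exact ⟨rfl, rfl⟩
  · show (z N).1 < 0
    linarith
  · show a / ρ ^ 2 + b / (z N).1 ^ 2 ≤ 1 / ρ - (z N).2 / (z N).1
    have h1 : |(-(z N).1) - l| ≤ ε₀ := by
      rw [abs_le]
      constructor
      · linarith [hN4'.2]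
      · linarith [hN4'.1]
    have h2 := hGε (-(z N).1) (z N).2 h1 (hN3.trans (hDε.trans hεε₀))
    rw [div_neg, neg_sq] at h2
    linarith
  · obtain ⟨h1, h2⟩ := hall i hi
    obtain ⟨h3, -, h5⟩ := habs i hi h1 h2
    have h6 : 0 ≤ a / ρ + 2 * b / l := by positivity
    have h3' := abs_le.1 h3
    have hR0 : 0 ≤ R := by positivity
    refine ⟨?_, ?_⟩
    · show |(z i).1| ≤ _
      linarith
    · show |(z i).2| ≤ _
      rw [abs_le]
      constructor
      · linarith [h3'.1]
      · linarith [h3'.2]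
  · show |1 - a / ρ| ≤ _
    have h6 : 0 ≤ a / ρ := by positivity
    have h7 : 0 ≤ 2 * b / l := by positivity
    have hR0 : 0 ≤ R := by positivity
    rw [abs_le]
    constructor <;> linarith
  · show |(z N).2 + b / (z N).1| ≤ _
    have h3' := abs_le.1 hN3
    have h6 : 0 ≤ a / ρ := by positivity
    have hR0 : 0 ≤ R := by positivity
    have h8 : -(2 * b / l) ≤ b / (z N).1 := by
      have e : b / (z N).1 = -(b / (-(z N).1)) := by
        rw [div_neg, neg_neg]
      rw [e, neg_le_neg_iff, div_le_div_iff₀ (by linarith) hl]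
      nlinarith
    have h9 : b / (z N).1 ≤ 0 := div_nonpos_of_nonneg_of_nonpos hb (by linarith)
    rw [abs_le]
    constructor
    · linarith [h3'.1]
    · linarith [h3'.2, (by positivity : 0 ≤ 2 * b / l)]

end Pool.Agent.Lib.MP_abca01_gt
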