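import Pool.Agent.Lib.MP_abca01_gt.Plane
import Pool.Agent.Lib.MP_abca01_gt.Borel
import Pool.Agent.Lib.MP_abca01_gt.Cap

/-!
# MP_abca01_gt: sufficiency of the strict inequality (plane)
-/

set_option autoImplicit false

open MeasureTheory Set Metric
open scoped RealInnerProductSpace Pointwise

namespace Pool.Agent.Lib.MP_abca01_gt

namespace PSuffaux

variable {E : Type} [NormedAddCommGroup E] [InnerProductSpace ℝ E]

theorem norm_nrm {e v : E} (h : Frame e v) (s : ℝ) : ‖nrm e v s‖ = 1 := by
  have hev : ⟪v, e⟫ = 0 := by rw [real_inner_comm]; exact h.orth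
  have h1 : ‖v - s • e‖ ^ 2 = 1 + s ^ 2 := by
    rw [norm_sub_sq_real, real_inner_smul_right, hev, norm_smul, h.e_norm, h.v_norm,
      Real.norm_eq_abs]
    have : |s| ^ 2 = s ^ 2 := sq_abs s
    nlinarith
  have h2 : ‖v - s • e‖ = √(1 + s ^ 2) := by
    rw [← h1, Real.sqrt_sq (norm_nonneg _)]
  have h3 : 0 < √(1 + s ^ 2) := Real.sqrt_pos.mpr (by positivity)
  rw [nrm, norm_smul, norm_inv, Real.norm_of_nonneg h3.le, h2]
  exact inv_mul_cancel₀ h3.ne'

theorem norm_pt_le {e v : E} (h : Frame e v) (x y : ℝ) : ‖pt e v x y‖ ≤ |x| + |y| := by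
  unfold pt
  refine (norm_add_le _ _).trans ?_
  rw [norm_smul, norm_smul, h.e_norm, h.v_norm, mul_one, mul_one, Real.norm_eq_abs,
    Real.norm_eq_abs]

theorem e_ne_neg {e v : E} (h : Frame e v) : e ≠ -e := by
  intro hcon
  have h1 : (2 : ℝ) • e = 0 := by
    rw [two_smul]
    nth_rewrite 2 [hcon]
    exact add_neg_cancel e
  have h2 : e = 0 := by
    rcases smul_eq_zero.mp h1 with h3 | h3
    · norm_num at h3
    · exact h3
  have h3 := h.e_norm
  rw [h2, norm_zero] at h3
  exact zero_ne_one h3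

theorem mass_le [MeasurableSpace E] [BorelSpace E] (mu : Measure E) [IsFiniteMeasure mu]
    {e v : E} (h : Frame e v) :
    mu.real {e} + mu.real {-e} + mu.real {u | 0 < ⟪u, v⟫} ≤ mu.real univ := by
  have hopen : MeasurableSet {u : E | 0 < ⟪u, v⟫} :=
    (isOpen_lt continuous_const (continuous_id.inner continuous_const)).measurableSet
  have hd1 : Disjoint ({e} : Set E) {-e} := by
    rw [Set.disjoint_singleton]
    exact e_ne_neg h
  have hd2 : Disjoint (({e} : Set E) ∪ {-e}) {u : E | 0 < ⟪u, v⟫} := by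
    rw [Set.disjoint_left]
    rintro u hu hu'
    have hu'' : 0 < ⟪u, v⟫ := hu'
    rcases hu with hu | hu
    · rw [mem_singleton_iff] at hu
      rw [hu, h.orth] at hu''
      exact lt_irrefl _ hu''
    · rw [mem_singleton_iff] at hu
      rw [hu, inner_neg_left, h.orth, neg_zero] at hu''
      exact lt_irrefl _ hu''
  rw [← measureReal_union hd1 (measurableSet_singleton _),
    ← measureReal_union hd2 hopen]
  exact measureReal_mono (subset_univ _)

end PSuffaux

open PSuffaux

theorem stmtSuff (h1 : StmtTri) (h2 : StmtPoly) (h3 : StmtShoot) (h4 : StmtClosure)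
    (h5 : StmtApprox) (h6 : StmtBorel) : StmtSuff := by
  intro E _ _ _ _ _ lam mu _ _ e v hF hmu hsph hneg hlt
  obtain ⟨κ, hκ, htri⟩ := h1 E lam e v hF
  have hmass := mass_le mu hF
  have ha : 0 ≤ mu.real {e} := measureReal_nonneg
  have hb : 0 ≤ mu.real {-e} := measureReal_nonneg
  set a : ℝ := mu.real {e} with hadef
  set b : ℝ := mu.real {-e} with hbdef
  set c : ℝ := mu.real {u | 0 < ⟪u, v⟫} with hcdef
  have hMpos : 0 < mu.real univ := by
    rw [measureReal_def, ENNReal.toReal_pos_iff]
    refine ⟨?_, measure_lt_top _ _⟩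
    rw [pos_iff_ne_zero]
    simpa using hmu
  have hsphM : mu.real (sphere (0 : E) 1) = mu.real univ := by
    have h3 : mu.real (sphere (0 : E) 1) + mu.real (sphere (0 : E) 1)ᶜ = mu.real univ :=
      measureReal_add_measureReal_compl isClosed_sphere.measurableSet
    have h4 : mu.real (sphere (0 : E) 1)ᶜ = 0 := by
      rw [measureReal_def, hsph, ENNReal.toReal_zero]
    linarith
  have hlt' : 2 * √(a / κ * (b / κ)) < c / κ := by
    have e1 : a / κ * (b / κ) = a * b / κ ^ 2 := by
      field_simp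
    rw [e1, Real.sqrt_div (mul_nonneg ha hb), Real.sqrt_sq hκ.le, ← mul_div_assoc]
    exact (div_lt_div_iff_of_pos_right hκ).mpr hlt
  obtain ⟨ρ, η, δ, C, hρ, hη, hδ, hC, hshoot⟩ :=
    h3 (a / κ) (b / κ) (c / κ) (div_nonneg ha hκ.le) (div_nonneg hb hκ.le) hlt'
  obtain ⟨S, hS, happ⟩ := h5 E mu e v hF hsph hneg (η * κ) (mul_pos hη hκ)
  obtain ⟨H, hH1, hHS⟩ : ∃ H : ℝ, 1 ≤ H ∧ S ≤ δ * H ^ 2 := by
    refine ⟨max 1 √(S / δ), le_max_left _ _, ?_⟩
    have e1 : √(S / δ) ^ 2 ≤ (max 1 √(S / δ)) ^ 2 :=
      pow_le_pow_left₀ (Real.sqrt_nonneg _) (le_max_right _ _) 2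
    rw [Real.sq_sqrt (div_pos hS hδ).le] at e1
    have e2 := mul_le_mul_of_nonneg_left e1 hδ.le
    rw [mul_div_cancel₀ _ hδ.ne'] at e2
    exact e2
  have hH : 0 < H := lt_of_lt_of_le one_pos hH1
  set B : ℝ := C / H + H * C with hBdef
  have hK : ∀ j : ℕ, ∃ K : Set E, (IsCompact K ∧ Convex ℝ K ∧ (0 : E) ∈ K ∧
      K ⊆ closedBall (0 : E) B ∧ lam.real K ≤ mu.real univ) ∧
      ∀ ω : Set E, IsCompact ω → ω ⊆ sphere (0 : E) 1 →
      mu.real ω ≤ lam.real (segs K (cthickening (1 / ((j : ℝ) + 1)) ω ∩ sphere (0 : E) 1)) := by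
    intro j
    have hε : (0 : ℝ) < 1 / ((j : ℝ) + 1) := by positivity
    obtain ⟨N, σ, m, hm, hσ, hsum, htail, hω⟩ := happ _ hε
    obtain ⟨x', y', hx0, hy0, hh, hrec, hxN, hineq, hbd, hbd0, hbdN⟩ :=
      hshoot N (fun i => σ i / H ^ 2) (fun i => m i / κ)
        (fun i hi => div_nonneg (hm i hi) hκ.le)
        (fun i j hij hj => (div_lt_div_iff_of_pos_right (by positivity)).mpr (hσ i j hij hj))
        (by rw [← Finset.sum_div, hsum])
        (by
          rw [← Finset.sum_div, div_le_iff₀ hκ]
          refine le_trans ?_ htail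
          apply Finset.sum_le_sum_of_subset_of_nonneg
          · intro i hi
            rw [Finset.mem_filter] at hi ⊢
            refine ⟨hi.1, ?_⟩
            have e1 := hi.2
            rw [abs_div, abs_of_pos (show (0 : ℝ) < H ^ 2 by positivity),
              lt_div_iff₀ (by positivity)] at e1
            exact lt_of_le_of_lt hHS e1
          · intro i hi _
            exact hm i (Finset.mem_range.mp (Finset.mem_filter.mp hi).1))
    have hhy : ∀ i, H * y' i - σ i * (x' i / H) = H * (y' i - σ i / H ^ 2 * x' i) := by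
      intro i
      field_simp
    obtain ⟨K, hKc, hKcv, hK0, hKB, hKv, hKω⟩ := h2 E lam e v κ hF hκ htri N σ
      (fun i => m i / κ) (fun i => x' i / H) (fun i => H * y' i) (a / κ) (b / κ) B
      (div_nonneg ha hκ.le) (div_nonneg hb hκ.le) (fun i hi => div_nonneg (hm i hi) hκ.le) hσ
      (by
        intro i hi
        show 0 < H * y' i - σ i * (x' i / H)
        rw [hhy]
        exact mul_pos hH (hh i hi))
      (by
        intro i hi
        show x' (i + 1) / H = x' i / H - m i / κ / (H * y' i - σ i * (x' i / H)) ∧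
          H * y' (i + 1) = H * y' i - σ i * (m i / κ / (H * y' i - σ i * (x' i / H)))
        rw [hhy]
        obtain ⟨e1, e2⟩ := hrec i hi
        have e3 := (hh i hi).ne'
        rw [e1, e2]
        set D : ℝ := y' i - σ i / H ^ 2 * x' i with hD
        constructor
        · field_simp
        · field_simp)
      (by
        show 0 < x' 0 / H
        rw [hx0]
        positivity)
      (by
        show x' N / H < 0
        exact div_neg_of_neg_of_pos hxN hH)
      (by
        show a / κ / (x' 0 / H) ^ 2 + b / κ / (x' N / H) ^ 2 ≤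
          H * y' 0 / (x' 0 / H) - H * y' N / (x' N / H)
        have e1 : x' 0 ≠ 0 := by rw [hx0]; exact hρ.ne'
        have e2 : x' N ≠ 0 := hxN.ne
        have e3 : a / κ / (x' 0 / H) ^ 2 + b / κ / (x' N / H) ^ 2 =
            H ^ 2 * (a / κ / x' 0 ^ 2 + b / κ / x' N ^ 2) := by
          field_simp
        have e4 : H * y' 0 / (x' 0 / H) - H * y' N / (x' N / H) =
            H ^ 2 * (y' 0 / x' 0 - y' N / x' N) := by
          field_simp
        rw [e3, e4]
        exact mul_le_mul_of_nonneg_left hineq (by positivity))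
      (by
        intro i hi
        refine (norm_pt_le hF _ _).trans ?_
        obtain ⟨e1, e2⟩ := hbd i hi
        rw [abs_div, abs_mul, abs_of_pos hH, hBdef]
        exact add_le_add ((div_le_div_iff_of_pos_right hH).mpr e1)
          (mul_le_mul_of_nonneg_left e2 hH.le))
      (by
        refine (norm_pt_le hF _ _).trans ?_
        obtain ⟨e1, e2⟩ := hbd 0 (Nat.zero_le N)
        have e3 : H * y' 0 - a / κ / (x' 0 / H) = H * (y' 0 - a / κ / x' 0) := by
          have e1 : x' 0 ≠ 0 := by rw [hx0]; exact hρ.ne'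
          field_simp
        show |x' 0 / H| + |H * y' 0 - a / κ / (x' 0 / H)| ≤ B
        rw [e3, abs_div, abs_mul, abs_of_pos hH, hBdef]
        exact add_le_add ((div_le_div_iff_of_pos_right hH).mpr e1)
          (mul_le_mul_of_nonneg_left hbd0 hH.le))
      (by
        refine (norm_pt_le hF _ _).trans ?_
        obtain ⟨e1, e2⟩ := hbd N le_rfl
        have e3 : H * y' N + b / κ / (x' N / H) = H * (y' N + b / κ / x' N) := by
          have e1 : x' N ≠ 0 := hxN.ne
          field_simp
        show |x' N / H| + |H * y' N + b / κ / (x' N / H)| ≤ B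
        rw [e3, abs_div, abs_mul, abs_of_pos hH, hBdef]
        exact add_le_add ((div_le_div_iff_of_pos_right hH).mpr e1)
          (mul_le_mul_of_nonneg_left hbdN hH.le))
    refine ⟨K, ⟨hKc, hKcv, hK0, ?_, ?_⟩, ?_⟩
    · intro z hz
      rw [mem_closedBall_zero_iff]
      exact hKB z hz
    · refine hKv.trans ?_
      rw [← Finset.sum_div, hsum]
      have e1 : κ * (a / κ + b / κ + c / κ) = a + b + c := by
        field_simp
      rw [e1]
      exact hmass
    · intro ω hωc hωs
      refine (hω ω hωc hωs).trans ?_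
      set ω' : Set E := cthickening (1 / ((j : ℝ) + 1)) ω ∩ sphere (0 : E) 1 with hω'def
      refine le_trans ?_ (hKω ω')
      have key : ∀ (T T' : Set E) (r : ℝ) (p : E), 0 ≤ r → (p ∈ T → p ∈ T') →
          T.indicator (fun _ => r) p ≤ κ * T'.indicator (fun _ => r / κ) p := by
        intro T T' r p hr hsub
        by_cases hp : p ∈ T
        · rw [indicator_of_mem hp, indicator_of_mem (hsub hp), mul_div_cancel₀ _ hκ.ne']
        · rw [indicator_of_notMem hp]
          apply mul_nonneg hκ.le
          apply indicator_nonneg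
          intro _ _
          exact div_nonneg hr hκ.le
      rw [mul_add, mul_add, Finset.mul_sum]
      refine add_le_add (add_le_add (Finset.sum_le_sum ?_) ?_) ?_
      · intro i hi
        apply key _ _ _ _ (hm i (Finset.mem_range.mp hi))
        intro hp
        exact ⟨hp, by rw [mem_sphere_zero_iff_norm]; exact norm_nrm hF _⟩
      · apply key _ _ _ _ ha
        intro hp
        exact ⟨self_subset_cthickening ω hp, hωs hp⟩
      · apply key _ _ _ _ hb
        intro hp
        exact ⟨self_subset_cthickening ω hp, hωs hp⟩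
  choose K hK1 hK2 using hK
  obtain ⟨L, hLc, hLcv, hL0, hLM, hLω⟩ := h4 E lam mu (closedBall (0 : E) B) (mu.real univ) K
    (isCompact_closedBall 0 B) hK1 hK2
  have hLfin : lam L ≠ ⊤ := hLc.measure_lt_top.ne
  have hseg : ∀ ω : Set E, lam.real (segs L ω) ≤ lam.real L := fun ω =>
    measureReal_mono (segs_subset hLcv hL0) hLfin
  have hLeq : lam.real L = mu.real univ := by
    apply le_antisymm hLM
    rw [← hsphM]
    exact (hLω _ (isCompact_sphere 0 1) subset_rfl).trans (hseg _)
  have hLpos : 0 < lam.real L := by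
    rw [hLeq]
    exact hMpos
  refine ⟨L, hLc, hLcv, Capaux.interior_nonempty lam hLcv hLpos, hL0, ?_⟩
  intro ω hω hωs
  have hbor := h6 E lam mu L hLc hLcv hL0 hLpos hmu hsph
    (by
      intro ω hωc hωs
      rw [hLeq, mul_comm]
      exact mul_le_mul_of_nonneg_left (hLω ω hωc hωs) hMpos.le) ω hω hωs
  rw [hLeq, mul_comm] at hbor
  have h5 : lam.real (segs L ω) = mu.real ω := mul_right_cancel₀ hMpos.ne' hbor
  have h7 : lam (segs L ω) ≠ ⊤ := measure_ne_top_of_subset (segs_subset hLcv hL0) hLfin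
  rw [measureReal_def, measureReal_def] at h5
  exact (ENNReal.toReal_eq_toReal_iff' h7 (measure_ne_top _ _)).mp h5

end Pool.Agent.Lib.MP_abca01_gt
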