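import Pool.Agent.Lib.MP_abca01_gt.Plane

/-! # Areas of triangles in a frame (MP_abca01_gt). -/

set_option autoImplicit false

open MeasureTheory Set Metric
open scoped RealInnerProductSpace Pointwise

namespace Pool.Agent.Lib.MP_abca01_gt

namespace PTriaux

variable {E : Type} [NormedAddCommGroup E] [InnerProductSpace ℝ E]

theorem inner_ee {e v : E} (h : Frame e v) : ⟪e, e⟫ = 1 := by
  rw [real_inner_self_eq_norm_sq, h.e_norm]; norm_num

theorem inner_vv {e v : E} (h : Frame e v) : ⟪v, v⟫ = 1 := by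
  rw [real_inner_self_eq_norm_sq, h.v_norm]; norm_num

theorem inner_ve {e v : E} (h : Frame e v) : ⟪v, e⟫ = 0 := by
  rw [real_inner_comm]; exact h.orth

theorem orthonormal_ev {e v : E} (h : Frame e v) : Orthonormal ℝ ![e, v] := by
  rw [orthonormal_iff_ite]
  intro i j
  fin_cases i <;> fin_cases j <;>
    simp [inner_ve h, h.orth, h.e_norm, h.v_norm]

/-- The orthonormal basis of a frame. -/
noncomputable def bas {e v : E} (h : Frame e v) : Module.Basis (Fin 2) ℝ E :=
  basisOfOrthonormalOfCardEqFinrank (orthonormal_ev h) (by simp [h.dim])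

theorem coe_bas {e v : E} (h : Frame e v) : ⇑(bas h) = ![e, v] :=
  coe_basisOfOrthonormalOfCardEqFinrank _ _

/-- The expansion of a vector in a frame. -/
theorem expand {e v : E} (h : Frame e v) (x : E) : x = ⟪x, e⟫ • e + ⟪x, v⟫ • v := by
  have hx : x = (bas h).repr x 0 • e + (bas h).repr x 1 • v := by
    conv_lhs => rw [← (bas h).sum_repr x]
    rw [Fin.sum_univ_two, coe_bas]
    simp
  have h0 : ⟪x, e⟫ = (bas h).repr x 0 := by
    conv_lhs => rw [hx]
    rw [inner_add_left, real_inner_smul_left, real_inner_smul_left, inner_ee h, inner_ve h]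
    ring
  have h1 : ⟪x, v⟫ = (bas h).repr x 1 := by
    conv_lhs => rw [hx]
    rw [inner_add_left, real_inner_smul_left, real_inner_smul_left, inner_vv h, h.orth]
    ring
  rw [h0, h1]; exact hx

theorem repr_zero {e v : E} (h : Frame e v) (x : E) : (bas h).repr x 0 = ⟪x, e⟫ := by
  have : (bas h).repr (⟪x, e⟫ • (bas h) 0 + ⟪x, v⟫ • (bas h) 1) 0 = ⟪x, e⟫ := by
    simp
  have h2 : ⟪x, e⟫ • (bas h) 0 + ⟪x, v⟫ • (bas h) 1 = x := by
    rw [coe_bas]; simpa using (expand h x).symm
  rwa [h2] at this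

theorem repr_one {e v : E} (h : Frame e v) (x : E) : (bas h).repr x 1 = ⟪x, v⟫ := by
  have : (bas h).repr (⟪x, e⟫ • (bas h) 0 + ⟪x, v⟫ • (bas h) 1) 1 = ⟪x, v⟫ := by
    simp
  have h2 : ⟪x, e⟫ • (bas h) 0 + ⟪x, v⟫ • (bas h) 1 = x := by
    rw [coe_bas]; simpa using (expand h x).symm
  rwa [h2] at this

/-- The linear map sending `e`, `v` to `A`, `B`. -/
noncomputable def lin (e v A B : E) : E →ₗ[ℝ] E where
  toFun x := ⟪x, e⟫ • A + ⟪x, v⟫ • B
  map_add' x y := by
    simp only [inner_add_left, add_smul]; abel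
  map_smul' r x := by
    simp only [real_inner_smul_left, RingHom.id_apply, smul_add, mul_smul]

theorem det_lin {e v : E} (h : Frame e v) (A B : E) :
    LinearMap.det (lin e v A B) = dt e v A B := by
  rw [← LinearMap.det_toMatrix (bas h), Matrix.det_fin_two]
  have hb0 : (bas h) 0 = e := by rw [coe_bas]; rfl
  have hb1 : (bas h) 1 = v := by rw [coe_bas]; rfl
  simp only [LinearMap.toMatrix_apply, hb0, hb1, repr_zero h, repr_one h]
  simp only [lin, LinearMap.coe_mk, AddHom.coe_mk, inner_ee h, inner_vv h, inner_ve h, h.orth,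
    one_smul, zero_smul, add_zero, zero_add]
  unfold dt
  ring

theorem tri_eq_image {e v : E} (h : Frame e v) (A B : E) :
    tri A B = (lin e v A B) '' tri e v := by
  ext x
  constructor
  · rintro ⟨α, β, hα, hβ, hs, rfl⟩
    refine ⟨α • e + β • v, ⟨α, β, hα, hβ, hs, rfl⟩, ?_⟩
    simp only [lin, LinearMap.coe_mk, AddHom.coe_mk, inner_add_left, real_inner_smul_left,
      inner_ee h, inner_vv h, inner_ve h, h.orth]
    simp
  · rintro ⟨y, ⟨α, β, hα, hβ, hs, rfl⟩, rfl⟩
    refine ⟨α, β, hα, hβ, hs, ?_⟩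
    simp only [lin, LinearMap.coe_mk, AddHom.coe_mk, inner_add_left, real_inner_smul_left,
      inner_ee h, inner_vv h, inner_ve h, h.orth]
    simp

theorem tri_subset {e v : E} (h : Frame e v) : tri e v ⊆ closedBall (0 : E) 2 := by
  rintro x ⟨α, β, hα, hβ, hs, rfl⟩
  rw [mem_closedBall_zero_iff]
  calc ‖α • e + β • v‖ ≤ ‖α • e‖ + ‖β • v‖ := norm_add_le _ _
    _ = α + β := by
      rw [norm_smul, norm_smul, h.e_norm, h.v_norm, Real.norm_of_nonneg hα,
        Real.norm_of_nonneg hβ]; ring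
    _ ≤ 2 := by linarith

theorem ball_subset_tri {e v : E} (h : Frame e v) :
    ball ((1 / 4 : ℝ) • (e + v)) (1 / 8) ⊆ tri e v := by
  intro x hx
  rw [mem_ball, dist_eq_norm] at hx
  have h1 : ⟪x - (1 / 4 : ℝ) • (e + v), e⟫ = ⟪x, e⟫ - 1 / 4 := by
    rw [inner_sub_left, real_inner_smul_left, inner_add_left, inner_ee h, inner_ve h]; ring
  have h2 : ⟪x - (1 / 4 : ℝ) • (e + v), v⟫ = ⟪x, v⟫ - 1 / 4 := by
    rw [inner_sub_left, real_inner_smul_left, inner_add_left, inner_vv h, h.orth]; ring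
  have h3 := abs_real_inner_le_norm (x - (1 / 4 : ℝ) • (e + v)) e
  have h4 := abs_real_inner_le_norm (x - (1 / 4 : ℝ) • (e + v)) v
  rw [h1, h.e_norm, mul_one] at h3
  rw [h2, h.v_norm, mul_one] at h4
  have h5 := abs_le.1 (h3.trans hx.le)
  have h6 := abs_le.1 (h4.trans hx.le)
  refine ⟨⟪x, e⟫, ⟪x, v⟫, by linarith [h5.1], by linarith [h6.1], by linarith [h5.2, h6.2],
    expand h x⟩

end PTriaux

theorem stmtTri : StmtTri := by
  intro E _ _ _ _ _ lam _ e v h
  refine ⟨lam.real (tri e v), ?_, ?_⟩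
  · rw [Measure.real, ENNReal.toReal_pos_iff]
    constructor
    · refine lt_of_lt_of_le ?_ (measure_mono (PTriaux.ball_subset_tri h))
      exact measure_ball_pos lam _ (by norm_num)
    · exact lt_of_le_of_lt (measure_mono (PTriaux.tri_subset h)) measure_closedBall_lt_top
  · intro A B
    rw [PTriaux.tri_eq_image h A B, Measure.real, Measure.addHaar_image_linearMap,
      PTriaux.det_lin h, ENNReal.toReal_mul, ENNReal.toReal_ofReal (abs_nonneg _), mul_comm,
      Measure.real]

end Pool.Agent.Lib.MP_abca01_gt
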