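import Pool.Agent.Lib.MP_abca01_gt.Plane

/-!
# Upper normals (module of the second theorem of MP_abca01_gt)
-/

set_option autoImplicit false

open MeasureTheory Set Metric Filter Topology
open scoped RealInnerProductSpace Pointwise

namespace Pool.Agent.Lib.MP_abca01_gt

namespace PUpperaux

variable {E : Type} [NormedAddCommGroup E] [InnerProductSpace ℝ E]

/-- The inner product in coordinates. -/
theorem inner_coord {e v : E} (hF : Frame e v) (x u : E) :
    ⟪x, u⟫ = ⟪x, e⟫ * ⟪u, e⟫ + ⟪x, v⟫ * ⟪u, v⟫ := by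
  have hon : Orthonormal ℝ ![e, v] := by
    rw [orthonormal_iff_ite]
    intro i j
    fin_cases i <;> fin_cases j
    · simp [hF.e_norm]
    · simp [hF.orth]
    · have : ⟪v, e⟫ = 0 := by rw [real_inner_comm]; exact hF.orth
      simp [this]
    · simp [hF.v_norm]
  have hcard : Fintype.card (Fin 2) = Module.finrank ℝ E := by
    rw [hF.dim, Fintype.card_fin]
  have hsp : ⊤ ≤ Submodule.span ℝ (Set.range ![e, v]) := by
    rw [hon.linearIndependent.span_eq_top_of_card_eq_finrank hcard]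
  have h := (OrthonormalBasis.mk hon hsp).sum_inner_mul_inner x u
  rw [OrthonormalBasis.coe_mk, Fin.sum_univ_two] at h
  simp only [Matrix.cons_val_zero, Matrix.cons_val_one] at h
  rw [← h, real_inner_comm u e, real_inner_comm u v]

/-- A supporting functional at the last point of a ray. -/
theorem exists_support [FiniteDimensional ℝ E] {K : Set E} (hK : IsCompact K)
    (hc : Convex ℝ K) (hKne : K.Nonempty) (y : E) (hy : ∀ t : ℝ, 1 < t → t • y ∉ K) :
    ∃ u ∈ sphere (0 : E) 1, ∀ x ∈ K, ⟪x, u⟫ ≤ ⟪y, u⟫ := by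
  have h1 : ∀ n : ℕ, ∃ u ∈ sphere (0 : E) 1, ∀ x ∈ K,
      ⟪x, u⟫ ≤ ⟪(1 + 1 / ((n : ℝ) + 1)) • y, u⟫ := by
    intro n
    have hn : (1 + 1 / ((n : ℝ) + 1)) • y ∉ K := by
      apply hy
      have : 0 < 1 / ((n : ℝ) + 1) := by positivity
      linarith
    obtain ⟨f, c, hf, hcf⟩ := geometric_hahn_banach_closed_point hc hK.isClosed hn
    set w : E := (InnerProductSpace.toDual ℝ E).symm f with hw
    have hfw : ∀ x, f x = ⟪w, x⟫ := fun x => by
      rw [hw, InnerProductSpace.toDual_symm_apply]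
    have hw0 : w ≠ 0 := by
      intro h0
      obtain ⟨x, hx⟩ := hKne
      have e1 := hf x hx
      have e2 := hcf
      rw [hfw, h0, inner_zero_left] at e1 e2
      linarith
    have hwn : 0 < ‖w‖ := norm_pos_iff.mpr hw0
    refine ⟨‖w‖⁻¹ • w, ?_, fun x hx => ?_⟩
    · rw [mem_sphere_zero_iff_norm, norm_smul, norm_inv, norm_norm, inv_mul_cancel₀ hwn.ne']
    · rw [real_inner_smul_right, real_inner_smul_right]
      apply mul_le_mul_of_nonneg_left _ (inv_nonneg.mpr hwn.le)
      rw [real_inner_comm, ← hfw, real_inner_comm, ← hfw]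
      exact ((hf x hx).trans hcf).le
  choose u hu hux using h1
  obtain ⟨a, ha, φ, hφ, hlim⟩ := (isCompact_sphere (0 : E) 1).tendsto_subseq hu
  refine ⟨a, ha, fun x hx => ?_⟩
  have l1 : Tendsto (fun n => ⟪x, u (φ n)⟫) atTop (𝓝 ⟪x, a⟫) :=
    (continuous_const.inner continuous_id).continuousAt.tendsto.comp hlim
  have l2 : Tendsto (fun n => (1 + 1 / (((φ n : ℕ) : ℝ) + 1)) • y) atTop (𝓝 y) := by
    have l3 : Tendsto (fun n : ℕ => (1 + 1 / ((n : ℝ) + 1))) atTop (𝓝 (1 + 0)) :=
      tendsto_const_nhds.add tendsto_one_div_add_atTop_nhds_zero_nat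
    have l4 := (l3.comp hφ.tendsto_atTop).smul_const y
    rw [add_zero, one_smul] at l4
    exact l4
  have l5 : Tendsto (fun n => ⟪(1 + 1 / (((φ n : ℕ) : ℝ) + 1)) • y, u (φ n)⟫) atTop
      (𝓝 ⟪y, a⟫) := l2.inner hlim
  exact le_of_tendsto_of_tendsto' l1 l5 (fun n => hux (φ n) x hx)

/-- The planar computation. `a1, a2`, `b1, b2`, `y1, y2` are the coordinates of the corners and of
the boundary point, `p, q` those of the normal. -/
theorem plane {a1 a2 b1 b2 y1 y2 p q α β : ℝ} (ha : 0 < a1) (hb : b1 < 0)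
    (hD : 0 < a1 * b2 - b1 * a2) (hα : 0 < α) (hβ : 0 < β) (hαβ : 1 ≤ α + β)
    (hy1 : y1 = α * a1 + β * b1) (hy2 : y2 = α * a2 + β * b2) (hpq : p ^ 2 + q ^ 2 = 1)
    (hA : a1 * p + a2 * q ≤ y1 * p + y2 * q) (hB : b1 * p + b2 * q ≤ y1 * p + y2 * q)
    (h0 : 0 ≤ y1 * p + y2 * q) (hle : y1 ≤ a1) (hge : b1 ≤ y1)
    (htA : y1 = a1 → y2 ≤ a2) (htB : y1 = b1 → y2 ≤ b2) : 0 < q := by
  -- `(a1 - b1) y2 - (a2 - b2) y1 = (α + β) D`
  have hφ : y2 * (a1 - b1) - y1 * (a2 - b2) = (α + β) * (a1 * b2 - b1 * a2) := by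
    rw [hy1, hy2]; ring
  have hφ1 : a1 * b2 - b1 * a2 ≤ y2 * (a1 - b1) - y1 * (a2 - b2) := by
    rw [hφ]
    have := mul_le_mul_of_nonneg_right hαβ hD.le
    linarith
  have hab : 0 < a1 - b1 := by linarith
  by_contra hq
  push Not at hq
  rcases hq.lt_or_eq with hq | hq
  · -- `q < 0`
    set L := (y1 - b1) / (a1 - b1) with hL
    have hL0 : 0 ≤ L := div_nonneg (by linarith) hab.le
    have hL1 : L ≤ 1 := (div_le_one hab).mpr (by linarith)
    have hLm : L * (a1 - b1) = y1 - b1 := div_mul_cancel₀ _ hab.ne'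
    set w2 := L * a2 + (1 - L) * b2 with hw2
    have hw1 : L * a1 + (1 - L) * b1 = y1 := by linarith
    -- `w2 ≤ y2`
    have e1 : w2 * (a1 - b1) - y1 * (a2 - b2) = a1 * b2 - b1 * a2 := by
      rw [← hw1, hw2]; ring
    have e2 : w2 ≤ y2 := by
      have : w2 * (a1 - b1) ≤ y2 * (a1 - b1) := by linarith
      exact le_of_mul_le_mul_right this hab
    have e3 : y1 * p + w2 * q ≤ y1 * p + y2 * q := by
      have h1 := mul_le_mul_of_nonneg_left hA hL0
      have h2 := mul_le_mul_of_nonneg_left hB (sub_nonneg.mpr hL1)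
      have h3 : y1 * p + w2 * q = L * (a1 * p + a2 * q) + (1 - L) * (b1 * p + b2 * q) := by
        rw [hw2]
        linear_combination (-p) * hw1
      rw [h3]
      linarith
    have e4 : w2 = y2 := by
      have h1 : w2 * q ≤ y2 * q := by linarith
      have h2 : y2 ≤ w2 := by
        by_contra h
        push Not at h
        have := mul_lt_mul_of_neg_right h hq
        linarith
      linarith
    have e5 : α + β = 1 := by
      have h1 : (α + β) * (a1 * b2 - b1 * a2) = 1 * (a1 * b2 - b1 * a2) := by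
        rw [← hφ, ← e4, e1, one_mul]
      exact mul_right_cancel₀ hD.ne' h1
    have e6 : y1 * p + y2 * q = α * (a1 * p + a2 * q) + β * (b1 * p + b2 * q) := by
      rw [hy1, hy2]; ring
    have e7 : a1 * p + a2 * q = y1 * p + y2 * q := by
      apply le_antisymm hA
      have h1 := mul_le_mul_of_nonneg_left hB hβ.le
      have h2 : α * (y1 * p + y2 * q) = (y1 * p + y2 * q) - β * (y1 * p + y2 * q) := by
        rw [show α = 1 - β by linarith]; ring
      exact le_of_mul_le_mul_left (by linarith) hα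
    have e8 : b1 * p + b2 * q = y1 * p + y2 * q := by
      apply le_antisymm hB
      have h1 := mul_le_mul_of_nonneg_left hA hα.le
      have h2 : β * (y1 * p + y2 * q) = (y1 * p + y2 * q) - α * (y1 * p + y2 * q) := by
        rw [show β = 1 - α by linarith]; ring
      exact le_of_mul_le_mul_left (by linarith) hβ
    have e9 : q * (a1 * b2 - b1 * a2) = (a1 - b1) * (y1 * p + y2 * q) := by
      have h1 : q * (a1 * b2 - b1 * a2) = a1 * (b1 * p + b2 * q) - b1 * (a1 * p + a2 * q) := by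
        ring
      rw [h1, e7, e8]; ring
    have e10 : 0 ≤ (a1 - b1) * (y1 * p + y2 * q) := mul_nonneg hab.le h0
    have e11 := mul_neg_of_neg_of_pos hq hD
    linarith
  · -- `q = 0`
    subst hq
    have hp : p = 1 ∨ p = -1 := by
      have : (p - 1) * (p + 1) = 0 := by linear_combination hpq
      rcases mul_eq_zero.mp this with h | h
      · left; linarith
      · right; linarith
    rcases hp with rfl | rfl
    · have h1 : y1 = a1 := by linarith
      have h2 : y2 ≤ a2 := htA h1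
      have h3 : a2 ≤ y2 := by
        rw [h1] at hφ1
        have : a2 * (a1 - b1) ≤ y2 * (a1 - b1) := by linarith
        exact le_of_mul_le_mul_right this hab
      have h4 : y2 = a2 := le_antisymm h2 h3
      have h5 : β * (a1 * b2 - b1 * a2) = 0 := by
        rw [h1] at hy1
        rw [h4] at hy2
        linear_combination a2 * hy1 - a1 * hy2
      exact (mul_pos hβ hD).ne' h5
    · have h1 : y1 = b1 := by linarith
      have h2 : y2 ≤ b2 := htB h1
      have h3 : b2 ≤ y2 := by
        rw [h1] at hφ1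
        have : b2 * (a1 - b1) ≤ y2 * (a1 - b1) := by linarith
        exact le_of_mul_le_mul_right this hab
      have h4 : y2 = b2 := le_antisymm h2 h3
      have h5 : α * (a1 * b2 - b1 * a2) = 0 := by
        rw [h1] at hy1
        rw [h4] at hy2
        linear_combination b1 * hy2 - b2 * hy1
      exact (mul_pos hα hD).ne' h5

end PUpperaux

open PUpperaux

/-- The part of `K` in the open cone spanned by the two top corners belongs to upper normals. -/
theorem stmtUpper : StmtUpper := by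
  intro E _ _ _ e v K A B hF hK hc h0K hA hB hX htA htB hA0 hB0 hD α β hα hβ hz
  unfold dt at hD
  set z := α • A + β • B with hzdef
  have hzX : ⟪z, e⟫ = α * ⟪A, e⟫ + β * ⟪B, e⟫ := by
    rw [hzdef, inner_add_left, real_inner_smul_left, real_inner_smul_left]
  have hzY : ⟪z, v⟫ = α * ⟪A, v⟫ + β * ⟪B, v⟫ := by
    rw [hzdef, inner_add_left, real_inner_smul_left, real_inner_smul_left]
  have hz0 : z ≠ 0 := by
    intro h
    rw [h, inner_zero_left] at hzX hzY
    have : β * (⟪A, e⟫ * ⟪B, v⟫ - ⟪B, e⟫ * ⟪A, v⟫) = 0 := by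
      linear_combination ⟪A, v⟫ * hzX - ⟪A, e⟫ * hzY
    exact (mul_pos hβ hD).ne' this
  have hzn : 0 < ‖z‖ := norm_pos_iff.mpr hz0
  obtain ⟨r, hr⟩ := hK.isBounded.exists_norm_le
  set S : Set ℝ := {t | t • z ∈ K} with hS
  have hScl : IsClosed S := hK.isClosed.preimage (continuous_id.smul continuous_const)
  have hSbd : BddAbove S := by
    refine ⟨r / ‖z‖, fun t ht => ?_⟩
    rw [le_div_iff₀ hzn]
    have h1 := hr _ ht
    rw [norm_smul, Real.norm_eq_abs] at h1
    exact (mul_le_mul_of_nonneg_right (le_abs_self t) hzn.le).trans h1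
  have h1S : (1 : ℝ) ∈ S := by
    show (1 : ℝ) • z ∈ K
    rw [one_smul]
    exact hz
  set T := sSup S with hT
  have hTS : T ∈ S := hScl.csSup_mem ⟨1, h1S⟩ hSbd
  have hT1 : 1 ≤ T := le_csSup hSbd h1S
  have hT0 : 0 < T := by linarith
  have hTmax : ∀ t, T < t → t • z ∉ K := fun t ht h => absurd (le_csSup hSbd h) (not_le.mpr ht)
  have hαβ : 1 ≤ T * α + T * β := by
    have h1 : (α + β)⁻¹ ∈ S := by
      show (α + β)⁻¹ • z ∈ K
      have h2 : (α + β)⁻¹ • z = (α / (α + β)) • A + (β / (α + β)) • B := by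
        rw [hzdef, smul_add, smul_smul, smul_smul, div_eq_inv_mul, div_eq_inv_mul]
      rw [h2]
      refine hc hA hB (by positivity) (by positivity) ?_
      field_simp
    have h3 := le_csSup hSbd h1
    have h4 : 0 < α + β := by positivity
    have h5 : (α + β)⁻¹ * (α + β) ≤ T * (α + β) := mul_le_mul_of_nonneg_right h3 h4.le
    rw [inv_mul_cancel₀ h4.ne'] at h5
    linarith
  obtain ⟨u, hu, hmax⟩ := exists_support hK hc ⟨0, h0K⟩ (T • z) (fun t ht => by
    rw [smul_smul]
    apply hTmax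
    have := mul_lt_mul_of_pos_right ht hT0
    linarith)
  have hupq : ⟪u, e⟫ ^ 2 + ⟪u, v⟫ ^ 2 = 1 := by
    have h1 := inner_coord hF u u
    rw [real_inner_self_eq_norm_sq, mem_sphere_zero_iff_norm.mp hu] at h1
    linarith
  have hyX : ⟪T • z, e⟫ = T * α * ⟪A, e⟫ + T * β * ⟪B, e⟫ := by
    rw [real_inner_smul_left, hzX]; ring
  have hyY : ⟪T • z, v⟫ = T * α * ⟪A, v⟫ + T * β * ⟪B, v⟫ := by
    rw [real_inner_smul_left, hzY]; ring
  have hyK : T • z ∈ K := hTS
  have hq : 0 < ⟪u, v⟫ := by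
    have hmA := hmax A hA
    have hmB := hmax B hB
    have hm0 := hmax 0 h0K
    rw [inner_coord hF A u, inner_coord hF (T • z) u] at hmA
    rw [inner_coord hF B u, inner_coord hF (T • z) u] at hmB
    rw [inner_zero_left, inner_coord hF (T • z) u] at hm0
    exact plane hA0 hB0 hD (mul_pos hT0 hα) (mul_pos hT0 hβ) hαβ hyX hyY hupq hmA hmB hm0
      (hX _ hyK).2 (hX _ hyK).1 (fun h => htA _ hyK h) (fun h => htB _ hyK h)
  refine ⟨u, ⟨hu, hq⟩, T • z, hyK, hmax, T⁻¹, ⟨by positivity, inv_le_one_of_one_le₀ hT1⟩, ?_⟩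
  rw [smul_smul, inv_mul_cancel₀ hT0.ne', one_smul]

end Pool.Agent.Lib.MP_abca01_gt
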