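import Pool.Agent.Lib.MP_abca01_gt.Spec

/-!
# The plane: statements of the modules (MP_abca01_gt, second theorem)

THEOREM (plane, closed half circle). Let `mu` be a nontrivial finite Borel measure on the unit circle with
`mu {⟪u, v⟫ < 0} = 0`, `e` a unit vector orthogonal to `v`, `a = mu {e}`, `b = mu {-e}`,
`c = mu {⟪u, v⟫ > 0}`. Then `mu` is the cone volume measure of a convex body containing `o` if and only if
`2 √(a b) < c`, or `2 √(a b) = c` and the restriction of `mu` to `{⟪u, v⟫ > 0}` sits at one point.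

Every `Stmt...` is proved in a file of its own, `theorem stmtXxx (h₁ : StmtA) ... : StmtXxx`,
where the hypotheses are those named under Uses. Notation: `X z = ⟪z, e⟫`, `Y z = ⟪z, v⟫`,
`det (A, B) = X A * Y B - X B * Y A = dt e v A B`.
-/

set_option autoImplicit false

open MeasureTheory Set Metric
open scoped RealInnerProductSpace Pointwise

namespace Pool.Agent.Lib.MP_abca01_gt

section

variable {E : Type} [NormedAddCommGroup E] [InnerProductSpace ℝ E]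

/-- `e`, `v` is an orthonormal basis of the plane `E`. -/
structure Frame (e v : E) : Prop where
  e_norm : ‖e‖ = 1
  v_norm : ‖v‖ = 1
  orth : ⟪e, v⟫ = 0
  dim : Module.finrank ℝ E = 2

/-- The determinant of `A`, `B` in the frame `e`, `v`. -/
noncomputable def dt (e v A B : E) : ℝ := ⟪A, e⟫ * ⟪B, v⟫ - ⟪B, e⟫ * ⟪A, v⟫

/-- The triangle `0, A, B`. -/
def tri (A B : E) : Set E :=
  {x | ∃ α β : ℝ, 0 ≤ α ∧ 0 ≤ β ∧ α + β ≤ 1 ∧ x = α • A + β • B}

/-- The point with coordinates `x`, `y`. -/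
def pt (e v : E) (x y : ℝ) : E := x • e + y • v

/-- The upper unit normal of the lines of slope `σ`. -/
noncomputable def nrm (e v : E) (σ : ℝ) : E := (√(1 + σ ^ 2))⁻¹ • (v - σ • e)

end

/-- **Tri.** Areas of triangles.
Uses: nothing.
Proof. `T x = ⟪x, e⟫ • A + ⟪x, v⟫ • B` is linear with determinant `dt e v A B` in the basis `e`, `v` (matrix with columns the coordinates of `A`, `B`) and
`tri A B = T '' tri e v`; `Measure.addHaar_image_continuousLinearMap`. `κ₀ = lam.real (tri e v) > 0` because `tri e v` contains the ball of radius `1/8`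
around `(e + v)/4` and is compact. -/
def StmtTri : Prop :=
  ∀ (E : Type) [NormedAddCommGroup E] [InnerProductSpace ℝ E] [FiniteDimensional ℝ E]
    [MeasurableSpace E] [BorelSpace E] (lam : Measure E) [lam.IsAddHaarMeasure] (e v : E),
    Frame e v → ∃ κ₀ : ℝ, 0 < κ₀ ∧ ∀ A B : E, lam.real (tri A B) = κ₀ * |dt e v A B|

/-- **Poly.** The polygon with upper chain `P i = pt (x i) (y i)`, `i ≤ N`, from right to left: the edge from `P i` to `P (i+1)` has slope `σ i` and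
spans with `0` a triangle of area `κ₀ m i`; the two vertical edges end at `R = pt (x 0) (y 0 - a / x 0)` and `W = pt (x N) (y N + b / x N)`.
Uses: StmtOverlap.
Proof. `N ≥ 1`. Put `ℓ i = m i / (y i - σ i x i) ≥ 0`, `g i z = Y z - σ i X z`, `h i = g i (P i) > 0`. `K = convexHull {0, R, W, P 0, ..., P N}` (finite set), so `K` is
compact, convex and contained in the closed ball of radius `B`. (1) `det (P i, P (i+1)) = ℓ i h i = m i`; `det (R, P 0) = a`, `det (P N, W) = b`;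
`det (R, W) ≥ 0` is the hypothesis on `a / x 0 ^ 2 + b / x N ^ 2` multiplied by `- x 0 x N > 0`. (2) `x` is decreasing; `g i (P (j+1)) - g i (P j) = (σ i - σ j) ℓ j`, so
`g i (P j) ≤ h i` for all `j ≤ N`, with equality for `j = i, i + 1`. (3) `det (R, P j) ≥ 0` and `det (P j, W) ≥ 0`: both hold for `j = 0` and `j = N` (`y 0 ≥ Y R`,
`y N ≥ Y W` and `det (R, W) ≥ 0`), and for `0 < j < N`, `x j = t x 0 + (1 - t) x N` and `y j ≥ t y 0 + (1 - t) y N` by (2) with `i = j`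
(the linear functional `g j` at `P 0` and `P N` is at most `g j (P j)`). Hence all `z ∈ K` satisfy `x N ≤ X z ≤ x 0`, `g i z ≤ h i`, `det (R, z) ≥ 0`,
`det (z, W) ≥ 0` (they hold at the vertices). (4) `lam.real K ≤ κ₀ (a + b + ∑ m)`: the lines `{z | det (P i, z) = 0}` (`P i ≠ 0`), `i ≤ N`, are null
(`Measure.addHaar_submodule`). Let `z ∈ K` be outside of them. If `det (P 0, z) < 0` then `z ∈ tri R (P 0)`: `a > 0` (if `a = 0` then `R = P 0`), `z = α R + β (P 0)` with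
`α = det (z, P 0)/a ≥ 0`, `β = det (R, z)/a ≥ 0`, `X z = (α + β) x 0 ≤ x 0`. If `det (P N, z) > 0` then `z ∈ tri (P N) W` similarly. Otherwise there is `i < N` with
`det (P i, z) > 0 > det (P (i+1), z)`; then `m i > 0` (if `m i = 0` then `P (i+1) = P i`), `z = α P i + β P (i+1)`, `α = det (z, P (i+1))/m i`,
`β = det (P i, z)/m i`, `g i z = (α + β) h i ≤ h i`, so `z ∈ tri (P i) (P (i+1))`. Areas by `htri`. (5) `tri (P i) (P (i+1)) ⊆ segs K {nrm e v (σ i)}`,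
`tri R (P 0) ⊆ segs K {e}`, `tri (P N) W ⊆ segs K {-e}` (`z = α A + β B = s • y`, `s = α + β`, `y` a point of the edge, which maximises the functional); the
normals `e`, `-e`, `nrm e v (σ i)` are distinct, so by Overlap the measures of these sets add up (`measure_biUnion_finset₀`; `segs K {u}` is compact). -/
def StmtPoly : Prop :=
  ∀ (E : Type) [NormedAddCommGroup E] [InnerProductSpace ℝ E] [FiniteDimensional ℝ E]
    [MeasurableSpace E] [BorelSpace E] (lam : Measure E) [lam.IsAddHaarMeasure] (e v : E)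
    (κ₀ : ℝ), Frame e v → 0 < κ₀ → (∀ A B : E, lam.real (tri A B) = κ₀ * |dt e v A B|) →
    ∀ (N : ℕ) (σ m x y : ℕ → ℝ) (a b B : ℝ), 0 ≤ a → 0 ≤ b → (∀ i < N, 0 ≤ m i) →
    (∀ i j, i < j → j < N → σ i < σ j) → (∀ i < N, 0 < y i - σ i * x i) →
    (∀ i < N, x (i + 1) = x i - m i / (y i - σ i * x i) ∧
      y (i + 1) = y i - σ i * (m i / (y i - σ i * x i))) →
    0 < x 0 → x N < 0 → a / x 0 ^ 2 + b / x N ^ 2 ≤ y 0 / x 0 - y N / x N →
    (∀ i ≤ N, ‖pt e v (x i) (y i)‖ ≤ B) → ‖pt e v (x 0) (y 0 - a / x 0)‖ ≤ B →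
    ‖pt e v (x N) (y N + b / x N)‖ ≤ B →
    ∃ K : Set E, IsCompact K ∧ Convex ℝ K ∧ (0 : E) ∈ K ∧ (∀ z ∈ K, ‖z‖ ≤ B) ∧
      lam.real K ≤ κ₀ * (a + b + ∑ i ∈ Finset.range N, m i) ∧
      ∀ ω : Set E, κ₀ * ((∑ i ∈ Finset.range N, ω.indicator (fun _ => m i) (nrm e v (σ i))) +
        ω.indicator (fun _ => a) e + ω.indicator (fun _ => b) (-e)) ≤ lam.real (segs K ω)

/-- **Shoot.** The upper chain from `(ρ, 1)`.
Uses: nothing.
Proof. (i) There is `t > 0` with `a t + b / t < c` (`t = √(b/a)` if `a, b > 0`; `t` small if `b = 0`; `t` large if `a = 0`). `ρ = c/(1+t)`, `l = c - ρ = t ρ`; then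
`G l 1 > 0` where `G l' y = 1/ρ + y/l' - a/ρ^2 - b/l'^2` (`G l 1 = (c - a t - b/t)/(ρ l)`). By continuity there is `ε ∈ (0, 1/4]`, `ε ≤ ρ/2`, `ε ≤ l/2`, with `G l' y > 0`
whenever `|l' - l| ≤ ε`, `|y - 1| ≤ ε`. Choose `δ, η > 0` so small that `D := 2 c δ + (2/ρ + 2/l) η ≤ ε`, `δ (ρ + c + 1) ≤ 1/4` and
`2 c (D + δ (ρ + c + 1)) + 3 η ≤ ε`. (ii) Define `x, y` by the recursion (`Nat.rec`). Let `M i = ∑ j < i, m j`, `T i = ∑ j < i, δ < |σ j|, m j ≤ η`. Induction on `i ≤ N`: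
`|y i - 1| ≤ 2 δ M i + (2/ρ + 2/l) T i`, `|x i - (ρ - M i)| ≤ 2 (D + δ (ρ + c + 1)) M i + 3 T i`, (so `|y i - 1| ≤ ε`, `|x i - (ρ - M i)| ≤ ε`, `|x i| ≤ ρ + c + 1`). Step, `h = y i - σ i x i`:
if `|σ i| ≤ δ`: `|h - 1| ≤ D + δ (ρ + c + 1) ≤ 1/2`, `|1/h - 1| ≤ 2 |h - 1|`, the increments are `-m/h` and `-σ m/h`, `|σ m/h| ≤ 2 δ m`. If `σ i < -δ`: all `j ≤ i` have `σ j < -δ`, so
`M (i+1) ≤ η`-part: `M i ≤ T i`, `M i = T i ≤ η ≤ ε`.. and `x i ≥ ρ - η - ε'` `> 0` is at least `ρ/2`(use `M i + |x i - (ρ - M i)| ≤ ε ≤ ρ/2`; choose `η` so that also `η + 3 η ≤ ρ/2`), `h ≥ y i ≥ 1/2` and `h ≥ |σ i| x i`, so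
`|m/h| ≤ 2 m`, `|-m/h + m| ≤ 3 m`, `|σ m/h| ≤ m/x i ≤ 2 m/ρ`. If `σ i > δ`: all `j ≥ i` have `σ j > δ`, so `c - M i ≤ η` and `x i ≤ ρ - c + η + ε ≤ -l/2`
(choose `ε, η` small enough), `h ≥ y i ≥ 1/2`, `h ≥ σ i |x i|`: the same bounds with `2 m/l`. (iii) At `i = N`: `M N = c`, `|x N + l| ≤ ε`, `|y N - 1| ≤ ε`. -/
def StmtShoot : Prop :=
  ∀ a b c : ℝ, 0 ≤ a → 0 ≤ b → 2 * √(a * b) < c →
    ∃ ρ η δ C : ℝ, 0 < ρ ∧ 0 < η ∧ 0 < δ ∧ 0 < C ∧
      ∀ (N : ℕ) (σ m : ℕ → ℝ), (∀ i < N, 0 ≤ m i) → (∀ i j, i < j → j < N → σ i < σ j) →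
      ∑ i ∈ Finset.range N, m i = c →
      ∑ i ∈ (Finset.range N).filter (fun i => δ < |σ i|), m i ≤ η →
      ∃ x y : ℕ → ℝ, x 0 = ρ ∧ y 0 = 1 ∧ (∀ i < N, 0 < y i - σ i * x i) ∧
        (∀ i < N, x (i + 1) = x i - m i / (y i - σ i * x i) ∧
          y (i + 1) = y i - σ i * (m i / (y i - σ i * x i))) ∧
        x N < 0 ∧ a / x 0 ^ 2 + b / x N ^ 2 ≤ y 0 / x 0 - y N / x N ∧
        (∀ i ≤ N, |x i| ≤ C ∧ |y i| ≤ C) ∧ |y 0 - a / x 0| ≤ C ∧ |y N + b / x N| ≤ C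

/-- **Closure.** Limits of approximate solutions. (`Sj ω` is the closed `1/(j+1)`-neighbourhood of `ω` in the sphere.)
Uses: nothing. (`ExistsMinaux.exists_limit`, `mem_of_approx`, `convex_limit` in `ExistsMin.lean` may be imported.)
Proof. By `ExistsMinaux.exists_limit` there are a subsequence `φ`, a compact `L ⊆ Q` and `r j → 0` such that every point of `K (φ j)` is within `r j` of a point of `L` and conversely. `L` is
convex and contains `0`. (1) `lam.real L ≤ M`: if `interior L` is empty then `lam L = 0` (`Convex.addHaar_frontier`). Otherwise let `closedBall p ρ ⊆ L`, `ρ > 0`; for `t_j = r j / ρ ≤ 1` every point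
`x = (1 - t_j) y + t_j p`, `y ∈ L`, is in `K (φ j)`: otherwise (`geometric_hahn_banach_closed_point`, or by the inner product) there is a unit `u` with `⟪x, u⟫ > supp (K (φ j)) u ≥ supp L u - r j`, whereas
`⟪x, u⟫ ≤ (1 - t_j) supp L u + t_j (supp L u - ρ) = supp L u - r j` (as `p + ρ u ∈ L`). So `(1 - t_j)^n lam.real L ≤ lam.real (K (φ j)) ≤ M`; let `j → ∞`. (2) Let `ω` be compact (and nonempty). For every
`η > 0`, `segs (K (φ j)) (Sj ω) ⊆ cthickening η (segs L ω)` for all large `j`: otherwise there are infinitely many `j` and `u_j ∈ Sj ω`, `y_j ∈ K (φ j)` maximising `⟪·, u_j⟫`, `s_j ∈ [0,1]` with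
`s_j y_j` at distance `≥ η` from `segs L ω`; along a subsequence `u_j → u ∈ ω`, `y_j → y ∈ L`, `s_j → s`, and `⟪z, u⟫ ≤ ⟪y, u⟫` for `z ∈ L` (`z` is a limit of `z_j ∈ K (φ j)`), so `s • y ∈ segs L ω`, a contradiction.
So `mu.real ω ≤ lam.real (cthickening η (segs L ω))` for every `η > 0` and `tendsto_measure_cthickening_of_isCompact` (`segs L ω` is compact: `Borelaux.isCompact_segs`) gives the claim. -/
def StmtClosure : Prop :=
  ∀ (E : Type) [NormedAddCommGroup E] [InnerProductSpace ℝ E] [FiniteDimensional ℝ E]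
    [MeasurableSpace E] [BorelSpace E] (lam mu : Measure E) [lam.IsAddHaarMeasure]
    [IsFiniteMeasure mu] (Q : Set E) (M : ℝ) (K : ℕ → Set E), IsCompact Q →
    (∀ j, IsCompact (K j) ∧ Convex ℝ (K j) ∧ (0 : E) ∈ K j ∧ K j ⊆ Q ∧ lam.real (K j) ≤ M) →
    (∀ j, ∀ ω : Set E, IsCompact ω → ω ⊆ sphere (0 : E) 1 →
      mu.real ω ≤ lam.real (segs (K j) (cthickening (1 / ((j : ℝ) + 1)) ω ∩ sphere (0 : E) 1))) →
    ∃ L : Set E, IsCompact L ∧ Convex ℝ L ∧ (0 : E) ∈ L ∧ lam.real L ≤ M ∧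
      ∀ ω : Set E, IsCompact ω → ω ⊆ sphere (0 : E) 1 → mu.real ω ≤ lam.real (segs L ω)

/-- **Approx.** Discretisation of a measure on the closed upper half circle.
Uses: nothing.
Proof. `sl u = -X u / Y u` for `Y u > 0`; a unit vector `u` with `Y u > 0` is `nrm e v (sl u)`. Choose `S ≥ 1` with `mu {Y > 0, |sl| > S - 1} ≤ η` (continuity from above). Given `ε` choose a natural `n ≥ S + 1`,
`n ≥ 2/ε`, let `φ s = max (-n) (min n (⌈n s⌉ / n))`, `N = 2 n² + 1`, `σ i = (i - n²)/n`, `m i = mu.real {u | Y u > 0, φ (sl u) = σ i}`. `φ` has values in `{σ i}`, so `∑ m i = mu.real {Y > 0}`. If `|φ s| > S` then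
`|s| > S - 1` (`|φ s - s| ≤ 1/n` if `|s| ≤ n`). `‖nrm e v s - nrm e v t‖ ^ 2 = 2 - 2 q ≤ 2 (1 - q ^ 2) = 2 (s - t)^2 / ((1 + s^2)(1 + t^2))` with `q = (1 + s t)/(√(1+s²) √(1+t²))`, if `s t ≥ -1`; so
`‖nrm e v s - nrm e v (φ s)‖ ≤ 2/n ≤ ε` (if `|s| > n`, `φ s = ±n` and `(|s| - n)^2/((1+s²)(1+n²)) ≤ 1/n²`). `{Y = 0} ∩ sphere = {e, -e}`. If `u ∈ ω`, `Y u > 0`, `φ (sl u) = σ i` then
`nrm e v (σ i) ∈ cthickening ε ω`. -/
def StmtApprox : Prop :=
  ∀ (E : Type) [NormedAddCommGroup E] [InnerProductSpace ℝ E] [FiniteDimensional ℝ E]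
    [MeasurableSpace E] [BorelSpace E] (mu : Measure E) [IsFiniteMeasure mu] (e v : E),
    Frame e v → mu (sphere (0 : E) 1)ᶜ = 0 → mu {u | ⟪u, v⟫ < 0} = 0 → ∀ η : ℝ, 0 < η →
    ∃ S : ℝ, 0 < S ∧ ∀ ε : ℝ, 0 < ε → ∃ (N : ℕ) (σ m : ℕ → ℝ), (∀ i < N, 0 ≤ m i) ∧
      (∀ i j, i < j → j < N → σ i < σ j) ∧
      ∑ i ∈ Finset.range N, m i = mu.real {u | 0 < ⟪u, v⟫} ∧
      ∑ i ∈ (Finset.range N).filter (fun i => S < |σ i|), m i ≤ η ∧
      ∀ ω : Set E, IsCompact ω → ω ⊆ sphere (0 : E) 1 → mu.real ω ≤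
        (∑ i ∈ Finset.range N, (cthickening ε ω).indicator (fun _ => m i) (nrm e v (σ i))) +
          ω.indicator (fun _ => mu.real {e}) e + ω.indicator (fun _ => mu.real {-e}) (-e)

/-- **Suff.** Sufficiency of the strict inequality.
Uses: StmtTri, StmtPoly, StmtShoot, StmtClosure, StmtApprox, StmtBorel.
Proof. `κ₀` from Tri; `a' = a/κ₀`, `b' = b/κ₀`, `c' = c/κ₀` satisfy `2 √(a' b') < c'`. Shoot gives `ρ, η, δ, C`; Approx with `η κ₀` gives `S`. Let `H ≥ 1` with `S ≤ δ H²`. For `j` take `N, σ, m` from Approx with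
`ε = 1/(j+1)`, and `x', y'` from Shoot with the slopes `σ i / H²` and the masses `m i / κ₀`. `x i = x' i / H`, `y i = H y' i` satisfy the hypotheses of Poly with the slopes `σ i`, the masses `m i / κ₀`, `a'`, `b'` and
`B = C/H + H C`. So there is `K j ⊆ closedBall 0 B`, `lam.real (K j) ≤ a + b + c = mu.real univ`, and for compact `ω ⊆ sphere` the last inequality of Poly with `cthickening (1/(j+1)) ω ∩ sphere` (`nrm e v s` is a unit vector; `e ∈ ω`
implies `e ∈ cthickening ∩ sphere`) and that of Approx give `mu.real ω ≤ lam.real (segs (K j) (...))`. By Closure there is `L` with `lam.real L ≤ |μ|`, `mu.real ω ≤ lam.real (segs L ω)` for compact `ω`. `lam.real L > 0` (take `ω = sphere`), so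
`mu.real ω * lam.real L ≤ |μ| * lam.real (segs L ω)` and Borel gives `|μ| lam.real (segs L ω) = mu.real ω lam.real L` for Borel `ω`; `ω = sphere`: `mu.real sphere = |μ| ≤ lam.real (segs L sphere) ≤ lam.real L ≤ |μ|`. -/
def StmtSuff : Prop :=
  ∀ (E : Type) [NormedAddCommGroup E] [InnerProductSpace ℝ E] [FiniteDimensional ℝ E]
    [MeasurableSpace E] [BorelSpace E] (lam mu : Measure E) [lam.IsAddHaarMeasure]
    [IsFiniteMeasure mu] (e v : E), Frame e v → mu ≠ 0 → mu (sphere (0 : E) 1)ᶜ = 0 →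
    mu {u | ⟪u, v⟫ < 0} = 0 →
    2 * √(mu.real {e} * mu.real {-e}) < mu.real {u | 0 < ⟪u, v⟫} →
    ∃ K : Set E, IsCompact K ∧ Convex ℝ K ∧ (interior K).Nonempty ∧ (0 : E) ∈ K ∧
      ∀ ω : Set E, MeasurableSet ω → ω ⊆ sphere (0 : E) 1 → lam (segs K ω) = mu ω

/-- **Equality.** The equality case, sufficiency.
Uses: StmtTri, StmtPoly, StmtBorel, StmtHemi.
Proof. Let `a = mu.real {e}` etc., `c = 2 √(a b)`. If `a b = 0` then `c = 0`, so `mu` is concentrated on `{e, -e}` and one of the two points is null, so `mu` is concentrated on `{u | ⟪u, e'⟫ > 0}` for `e' = e` or `e' = -e`; apply Hemi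
with `e'` for `v`. If `a, b > 0` then `c > 0`, `⟪w, v⟫ > 0`, `‖w‖ = 1`, `mu.real {w} = c`, `w = nrm e v s` with `s = -⟪w, e⟫/⟪w, v⟫`. Apply Poly with `N = 1`, `σ 0 = s`, `m 0 = c/κ₀`, `a/κ₀`, `b/κ₀`, `t = √(b/a)`, `x 0 = 1`, `x 1 = -t`,
`y 0 = s + (c/κ₀)/(1+t)`, `y 1 = y 0 - s (1 + t)`: the inequality is `a/κ₀ + b/(κ₀ t²) ≤ y 0 + y 1/t`, that is `2 a/κ₀ ≤ (c/κ₀)/t`, an equality. `mu` is `a δ_e + b δ_{-e} + c δ_w`, so for every `ω` `mu.real ω` is the sum of the indicators;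
conclude with Borel as in Suff. -/
def StmtEquality : Prop :=
  ∀ (E : Type) [NormedAddCommGroup E] [InnerProductSpace ℝ E] [FiniteDimensional ℝ E]
    [MeasurableSpace E] [BorelSpace E] (lam mu : Measure E) [lam.IsAddHaarMeasure]
    [IsFiniteMeasure mu] (e v w : E), Frame e v → mu ≠ 0 → mu (sphere (0 : E) 1)ᶜ = 0 →
    mu {u | ⟪u, v⟫ < 0} = 0 →
    2 * √(mu.real {e} * mu.real {-e}) = mu.real {u | 0 < ⟪u, v⟫} →
    mu ({u | 0 < ⟪u, v⟫} \ {w}) = 0 →
    ∃ K : Set E, IsCompact K ∧ Convex ℝ K ∧ (interior K).Nonempty ∧ (0 : E) ∈ K ∧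
      ∀ ω : Set E, MeasurableSet ω → ω ⊆ sphere (0 : E) 1 → lam (segs K ω) = mu ω

/-- **Upper.** The part of `K` in the open cone spanned by the two top corners belongs to upper normals.
Uses: nothing.
Proof. `A, B ∈ K`, `X A = r > 0` is the maximum and `X B < 0` the minimum of `X` on `K`, `A`, `B` are the highest points of `K` on these lines, `D = det (A, B) > 0`. Let `z = α A + β B ∈ K`, `α, β > 0`. Let `t ≥ 1` be maximal with
`y = t z ∈ K`; `y = α' A + β' B`, `α', β' > 0`, and `α' + β' ≥ 1` because `(α + β)⁻¹ z ∈ K` (a point of the segment `A B`). `y ∉ interior K`, so there is a unit `u` with `⟪x, u⟫ ≤ ⟪y, u⟫` on `K` (supporting hyperplane: separate the open convex set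
`interior K` from `y`, and `K ⊆ closure (interior K)`; if `interior K` is empty then `K` lies in a proper affine subspace, impossible as `0, A, B ∈ K`, `D ≠ 0`). Let `φ x = (det (A, x) + det (x, B))/D`, the linear functional with `φ A = φ B = 1`;
`φ x = (Y x (X A - X B) - X x (Y A - Y B))/D`, the coefficient of `Y x` is positive. Let `w` be the point of the segment `A B` with `X w = X y`. `φ y ≥ 1 = φ w`, so `Y y ≥ Y w`. Suppose `Y u < 0` (the coordinate `⟪u, v⟫`). Then `⟪w, u⟫ ≥ ⟪y, u⟫`, so equality, `y = w`,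
`α' + β' = 1`, so `⟪A, u⟫ = ⟪B, u⟫ = ⟪y, u⟫ =: h ≥ 0`, `⟪·, u⟫ = h φ`, whose `Y`-coefficient is `≥ 0`, a contradiction. Suppose `⟪u, v⟫ = 0`, `u = ±e`, say `u = e`: `X y = r`, so `Y y ≤ Y A`, and `φ y ≥ 1 = φ A` gives `Y y ≥ Y A`, so `y = A`, against `β' > 0`.
So `⟪u, v⟫ > 0` and `z = t⁻¹ • y ∈ segs K {u | ‖u‖ = 1, ⟪u, v⟫ > 0}`. -/
def StmtUpper : Prop :=
  ∀ (E : Type) [NormedAddCommGroup E] [InnerProductSpace ℝ E] [FiniteDimensional ℝ E]
    (e v : E) (K : Set E) (A B : E), Frame e v → IsCompact K → Convex ℝ K → (0 : E) ∈ K →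
    A ∈ K → B ∈ K → (∀ z ∈ K, ⟪B, e⟫ ≤ ⟪z, e⟫ ∧ ⟪z, e⟫ ≤ ⟪A, e⟫) →
    (∀ z ∈ K, ⟪z, e⟫ = ⟪A, e⟫ → ⟪z, v⟫ ≤ ⟪A, v⟫) → (∀ z ∈ K, ⟪z, e⟫ = ⟪B, e⟫ → ⟪z, v⟫ ≤ ⟪B, v⟫) →
    0 < ⟪A, e⟫ → ⟪B, e⟫ < 0 → 0 < dt e v A B →
    ∀ α β : ℝ, 0 < α → 0 < β → α • A + β • B ∈ K →
      α • A + β • B ∈ segs K (sphere (0 : E) 1 ∩ {u | 0 < ⟪u, v⟫})

/-- **Nec.** Necessity.
Uses: StmtTri, StmtUpper.
Proof. `a = lam.real (segs K {e})`, `b`, `c` likewise; `κ₀` from Tri. If `a = 0` or `b = 0` the claim is `c > 0` or `c = 0`, trivial (for `c = 0` any `w` works). Let `a, b > 0`, `r = supp K e`, `l = supp K (-e)`; `r > 0`, because `segs K {e} ⊆ {X = 0}` if `r = 0`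
(a null line), `l > 0` likewise. Let `F = {z ∈ K | X z = r}`, compact, nonempty; `A = (r, q)` its highest and `A' = (r, p)` its lowest point; `F' = {z ∈ K | X z = -l}`, highest point `B = (-l, q')`, lowest `B' = (-l, p')`. `segs K {e} ⊆ tri A' A`, so
`a ≤ κ₀ r (q - p)`; `b ≤ κ₀ l (q' - p')`. `r p' + l p ≥ 0`: otherwise `det (B', A') = -(l p + r p') > 0` and Upper for the reflected frame `(-e, -v)` (or `(e, -v)` with `A'`, `B'`) gives that `tri A' B'` minus two lines lies in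
`segs K (sphere ∩ {⟪u, v⟫ < 0})`, which has measure `mu {⟪u,v⟫ < 0} = 0`, but `lam.real (tri A' B') = κ₀ |det| > 0`. So `D = det (A, B) = r q' + l q ≥ (r/l) b/κ₀ + (l/r) a/κ₀ > 0`. By Upper `tri A B` minus two lines (`tri A 0`, `tri 0 B`) lies in
`segs K (sphere ∩ {⟪u, v⟫ > 0})`, so `c ≥ κ₀ D ≥ (r/l) b + (l/r) a ≥ 2 √(a b)`. Let `c = 2 √(a b)`; then `c = κ₀ D`. With `φ` as in Upper: `φ ≤ 1` on `K`. Otherwise `z ∈ K`, `φ z > 1`; let `w'` be the point of the segment `A B` with `X w' = X z`,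
`Y z > Y w'`; `det (A, z) = r Y z - X z q > r Y w' - X z q = det (A, w') ≥ 0`, `det (z, B) = X z q' + l Y z > det (w', B) ≥ 0`, so `z` is in the open cone of `A, B`, `tri A z ∪ tri z B ⊆ K` lies in the closed cone, so up to null sets in `segs K (sphere ∩ {⟪u, v⟫ > 0})`, and
`c ≥ κ₀ (det (A, z) + det (z, B)) = κ₀ D φ z > κ₀ D` (the two triangles meet in the line of `z`), a contradiction. Let `w` be the unit vector with `⟪·, w⟫ = const · φ`, `const > 0`; `⟪w, v⟫ > 0`. Every point of the segment `A B` maximises `⟪·, w⟫` on `K`, so `tri A B ⊆ segs K {w}`,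
`mu.real {w} = lam.real (segs K {w}) ≥ κ₀ D = c = mu.real {⟪u, v⟫ > 0}`, so `mu ({⟪u, v⟫ > 0} \ {w}) = 0`. -/
def StmtNec : Prop :=
  ∀ (E : Type) [NormedAddCommGroup E] [InnerProductSpace ℝ E] [FiniteDimensional ℝ E]
    [MeasurableSpace E] [BorelSpace E] (lam mu : Measure E) [lam.IsAddHaarMeasure]
    [IsFiniteMeasure mu] (e v : E) (K : Set E), Frame e v → mu (sphere (0 : E) 1)ᶜ = 0 →
    mu {u | ⟪u, v⟫ < 0} = 0 → IsCompact K → Convex ℝ K → (0 : E) ∈ K →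
    (∀ ω : Set E, MeasurableSet ω → ω ⊆ sphere (0 : E) 1 → lam (segs K ω) = mu ω) →
    2 * √(mu.real {e} * mu.real {-e}) < mu.real {u | 0 < ⟪u, v⟫} ∨
    (2 * √(mu.real {e} * mu.real {-e}) = mu.real {u | 0 < ⟪u, v⟫} ∧
      ∃ w : E, mu ({u | 0 < ⟪u, v⟫} \ {w}) = 0)

end Pool.Agent.Lib.MP_abca01_gt
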