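import Pool.Agent.Lib.MP_abca01_gt.Defs

/-!
# Statements of the modules (MP_abca01_gt)

THEOREM. There are `κ = 1/(8 n 30^n)` and `M = 2 + 32 n 30^n` such that every nontrivial finite Borel
measure `μ` on the unit sphere with `μ {ht < -R hor} = 0` and `μ {ht < M R hor} ≤ κ |μ|` for some unit
vector `v` and some `R > 0` is the cone volume measure of a convex body containing `o`; in
particular every measure concentrated on an open hemisphere.

Every `Stmt...` is proved in a file of its own, `theorem stmtXxx (h₁ : StmtA) ... : StmtXxx`,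
where the hypotheses are those named under Uses.
`lam` is a Haar (= Lebesgue) measure of the Euclidean space `E`, `n = finrank ℝ E`.
-/

set_option autoImplicit false

open MeasureTheory Set Metric
open scoped RealInnerProductSpace Pointwise

namespace Pool.Agent.Lib.MP_abca01_gt

/-- The body cut by the facets in the directions of `ω` moved towards the origin. -/
def cut {E : Type} [NormedAddCommGroup E] [InnerProductSpace ℝ E] (K ω : Set E) (t : ℝ) : Set E :=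
  {x | x ∈ K ∧ ∀ u ∈ ω, ⟪x, u⟫ ≤ (1 - t) * supp K u}

/-- **ExistsMin.** The functional has a minimiser in the class of admissible bodies.
Uses: nothing.
Proof. There is a unit vector, so `n ≥ 1`. Let `m` be the infimum of `Phi` over the admissible `K'` of positive volume (`Q` is one):
bounded below, because `log (supp K' u) ≥ log c` a.e. (`supp K' u ≥ ⟪x, u⟫ ≥ c`) and `lam K' ≤ lam Q`; also `supp K' u ≤ r`, `r` a bound of the
norms of `Q`, so `log (supp K' u)` is a bounded measurable function (`continuous_supp`). Take `K_j` with `Phi K_j → m`. The set of the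
`L : NonemptyCompacts E` with `L ⊆ Q` is compact (`TopologicalSpace.NonemptyCompacts.isCompact_subsets_of_isCompact`) in the Hausdorff
metric, so a subsequence converges to some `K`: with `δ_j = hausdorffDist K_j K → 0` every point of one is within `δ_j` (or `2 δ_j`) of a
point of the other. `K` is convex, contains `0` and `D`, is contained in `Q` (closedness). `|supp K_j u - supp K u| ≤ 2 δ_j` for `‖u‖ = 1`
(`supp_le_of_cthickening`), so `∫ log (supp K_j) → ∫ log (supp K)` (dominated convergence, or `|log a - log b| ≤ |a - b| / c`).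
`K_j ⊆ cthickening (2 δ_j) K` and `tendsto_measure_cthickening_of_isCompact` give `limsup lam K_j ≤ lam K`. As `Phi K_j` is bounded above,
`lam K_j` is bounded below by a positive number, so `lam K > 0` and `Phi K ≤ lim Phi K_j = m`. -/
def StmtExistsMin : Prop :=
  ∀ (E : Type) [NormedAddCommGroup E] [InnerProductSpace ℝ E] [FiniteDimensional ℝ E]
    [MeasurableSpace E] [BorelSpace E] (lam mu : Measure E) [lam.IsAddHaarMeasure]
    [IsFiniteMeasure mu] (D Q : Set E) (c : ℝ),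
    IsCompact Q → Convex ℝ Q → (0 : E) ∈ Q → 0 < lam.real Q → D ⊆ Q → D.Nonempty → 0 < c → mu ≠ 0 →
    (∀ᵐ u ∂mu, ‖u‖ = 1 ∧ ∃ x ∈ D, c ≤ ⟪x, u⟫) →
    ∃ K : Set E, Adm D Q K ∧ 0 < lam.real K ∧
      ∀ K' : Set E, Adm D Q K' → 0 < lam.real K' → Phi lam mu K ≤ Phi lam mu K'

/-- **VolDeriv.** One-sided volume estimate.
Uses: nothing.
Proof. `D_t = {s • y | y ∈ K, s ∈ [0,1], ∃ u ∈ ω, (1 - t) supp K u ≤ ⟪y, u⟫}` is compact (continuous image of a compact subset of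
`[0,1] × K × ω`; `supp K` is continuous), star-shaped (`(1 - t) D_t ⊆ D_t`), contained in `K`, decreasing as `t ↓ 0`, and `⋂_{t>0} D_t = segs K ω`
(compactness). So `lam D_t → lam (segs K ω)` (continuity from above, `tendsto_measure_iInter_atTop` along `t = 1/k`, and monotonicity in `t`).
`K \ cut K ω t ⊆ D_t \ (1 - t) • D_t`: a point of `K \ cut` has `⟪x, u⟫ > (1-t) supp K u` for some `u ∈ ω`, so `x ∈ D_t` (`s = 1`) and
`x ∉ (1 - t) • K`. Hence `lam K - lam (cut K ω t) ≤ lam D_t - (1-t)^n lam D_t` (`Measure.addHaar_smul`). `cut K ω t` is closed. -/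
def StmtVolDeriv : Prop :=
  ∀ (E : Type) [NormedAddCommGroup E] [InnerProductSpace ℝ E] [FiniteDimensional ℝ E]
    [MeasurableSpace E] [BorelSpace E] (lam : Measure E) [lam.IsAddHaarMeasure] (K ω : Set E),
    IsCompact K → Convex ℝ K → (0 : E) ∈ K → IsCompact ω → ω ⊆ sphere (0 : E) 1 → ∀ ε : ℝ, 0 < ε →
    ∃ t₁ : ℝ, 0 < t₁ ∧ t₁ < 1 ∧ ∀ t : ℝ, 0 < t → t ≤ t₁ →
      lam.real K - lam.real (cut K ω t) ≤
        (1 - (1 - t) ^ Module.finrank ℝ E) * (lam.real (segs K ω) + ε)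

/-- **Variation.** A local minimiser satisfies `V_K ≥ μ` (up to the factor).
Uses: StmtVolDeriv.
Proof. `n ≥ 1` since `mu ≠ 0` lives on unit vectors. Let `p = n mu(ω)/|μ|`. `K' = cut K ω t` is compact, convex, `(1 - t) • K ⊆ K' ⊆ K`, so
`lam K' ≥ (1-t)^n lam K > 0`. `supp K' u ≤ (1 - t) supp K u` for `u ∈ ω`, `supp K' u ≤ supp K u` always, `supp K' u ≥ (1 - t) c`. So
`∫ log supp K' ≤ ∫ log supp K + mu(ω) log (1 - t)` and `Phi K ≤ Phi K'` gives `(|μ|/n) log (lam K'/lam K) ≤ mu(ω) log (1 - t)`, i.e.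
`lam K' ≤ (1 - t)^p lam K` (`Real.rpow`), so by VolDeriv `lam K (1 - (1-t)^p) ≤ (1 - (1-t)^n) (lam (segs K ω) + ε)`. Divide by `t → 0+`:
`lam K p ≤ n (lam (segs K ω) + ε)`. Then `ε → 0`. -/
def StmtVariation : Prop :=
  ∀ (E : Type) [NormedAddCommGroup E] [InnerProductSpace ℝ E] [FiniteDimensional ℝ E]
    [MeasurableSpace E] [BorelSpace E] (lam mu : Measure E) [lam.IsAddHaarMeasure]
    [IsFiniteMeasure mu] (K : Set E) (t₀ c : ℝ),
    IsCompact K → Convex ℝ K → (0 : E) ∈ K → 0 < lam.real K → 0 < t₀ → t₀ < 1 → 0 < c → mu ≠ 0 →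
    (∀ᵐ u ∂mu, ‖u‖ = 1 ∧ c ≤ supp K u) →
    (∀ t : ℝ, 0 < t → t ≤ t₀ → ∀ K' : Set E, IsCompact K' → Convex ℝ K' → (1 - t) • K ⊆ K' →
      K' ⊆ K → Phi lam mu K ≤ Phi lam mu K') →
    ∀ ω : Set E, IsCompact ω → ω ⊆ sphere (0 : E) 1 →
      mu.real ω * lam.real K ≤ mu.real univ * lam.real (segs K ω)

/-- **Overlap.** Almost every radial direction has at most one normal.
Uses: nothing.
Proof. Let `g x = sInf {r | 0 ≤ r ∧ x ∈ r • K}` and `A δ = {x | closedBall x δ ⊆ K}` (`δ > 0`). For `x, x + z ∈ A δ`, `0 < ‖z‖ ≤ δ`, `s = ‖z‖/δ`: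
`x + z = (1 - s) x + s (x + z/s)`, so `g (x+z) ≤ (1-s) g x + s` and `g (x + z) - g x ≤ ‖z‖/δ`; for `‖z‖ > δ` use `0 ≤ g ≤ 1` on `K`. So `g` is
Lipschitz on `A δ`, by Rademacher (`LipschitzOnWith.extend_real`, `LipschitzWith.ae_differentiableAt`) it is differentiable at almost every
point of the interior of `A δ`, hence at almost every point of `interior K` (union over `δ = 1/k`; a point of `interior K` lies in the interior of
some `A δ`). Let `x ∈ interior K` be such a point, `x = s • y`, `y ∈ K`, `⟪z, u⟫ ≤ ⟪y, u⟫` on `K`, `‖u‖ = 1`, `s ∈ [0,1]`. Then `h = ⟪y, u⟫ > 0`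
(as `0 ∈ K`, `h ≥ 0`; if `h = 0` then `⟪x, u⟫ = 0` is the maximum of `⟪·, u⟫` on `K`, impossible in the interior), `g x = s` (`x ∈ r • K` implies
`⟪x, u⟫ ≤ r h`) and `g z ≥ ⟪z, u⟫ / h` for all `z ∈ K`, so `z ↦ g z - ⟪z, u⟫ / h` has a local minimum at `x`: `fderiv ℝ g x = ⟪·, u⟫ / h`, which
determines the unit vector `u`. So `segs K ω₁ ∩ segs K ω₂ ∩ interior K` is null; `segs K ω ⊆ K` and the frontier of the convex set `K` is null
(`Convex.addHaar_frontier`). -/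
def StmtOverlap : Prop :=
  ∀ (E : Type) [NormedAddCommGroup E] [InnerProductSpace ℝ E] [FiniteDimensional ℝ E]
    [MeasurableSpace E] [BorelSpace E] (lam : Measure E) [lam.IsAddHaarMeasure]
    (K ω₁ ω₂ : Set E), IsCompact K → Convex ℝ K → (0 : E) ∈ K →
    ω₁ ⊆ sphere (0 : E) 1 → ω₂ ⊆ sphere (0 : E) 1 → Disjoint ω₁ ω₂ →
    lam (segs K ω₁ ∩ segs K ω₂) = 0

/-- **Borel.** From the inequality for compact sets to equality for Borel sets.
Uses: StmtOverlap.
Proof. Inner regularity of `mu`: for measurable `ω ⊆ sphere` and `ε > 0` there are compact `ω' ⊆ ω`, `ω'' ⊆ sphere \ ω` with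
`mu ω' ≥ mu ω - ε`, `mu ω'' ≥ mu (sphere \ ω) - ε = |μ| - mu ω - ε` (`MeasurableSet.exists_isCompact_lt_add`). `segs K ω''` is compact (image of a
compact set), hence measurable. Lower bound: `lam (segs K ω) ≥ lam (segs K ω')`. Upper bound: `segs K ω ∪ segs K ω'' ⊆ K`,
`lam (segs K ω) + lam (segs K ω'') = lam (segs K ω ∪ segs K ω'') + lam (segs K ω ∩ segs K ω'')` (`measure_union_add_inter` with the
measurable set `segs K ω''`) `≤ lam K + 0`. Multiply by `|μ|` and let `ε → 0`. -/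
def StmtBorel : Prop :=
  ∀ (E : Type) [NormedAddCommGroup E] [InnerProductSpace ℝ E] [FiniteDimensional ℝ E]
    [MeasurableSpace E] [BorelSpace E] (lam mu : Measure E) [lam.IsAddHaarMeasure]
    [IsFiniteMeasure mu] (K : Set E), IsCompact K → Convex ℝ K → (0 : E) ∈ K → 0 < lam.real K →
    mu ≠ 0 → mu (sphere (0 : E) 1)ᶜ = 0 →
    (∀ ω : Set E, IsCompact ω → ω ⊆ sphere (0 : E) 1 →
      mu.real ω * lam.real K ≤ mu.real univ * lam.real (segs K ω)) →
    ∀ ω : Set E, MeasurableSet ω → ω ⊆ sphere (0 : E) 1 →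
      mu.real univ * lam.real (segs K ω) = mu.real ω * lam.real K

/-- **QGeom.** Elementary facts on the truncated cone and the disc.
Uses: nothing.
Proof. `⟪x, u⟫ = ht x ht u + ⟪x'', u''⟫`, `|⟪x'', u''⟫| ≤ hor x hor u`, `x'' = x - ht x v`. (3): `0 ≤ ht x ≤ 1` on `QQ`, `ht u + 2 R hor u ≥ R hor u ≥ 0`.
(4): `x = v/2 + (3R/4) u''/‖u''‖`. (6): `ht u ^ 2 + hor u ^ 2 = 1`; if `ht u ≥ 1/2` clear; if `hor u ≥ 1/2` use `ht u + 2 R hor u ≥ R hor u`; otherwise
`ht u < 0` and `ht u ≤ -√3/2`, so `R hor u ≥ 1/2`. (2): the ball of radius `min (1/8) (R/8)` around `v/2` is contained in `QQ`. -/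
def StmtQGeom : Prop :=
  ∀ (E : Type) [NormedAddCommGroup E] [InnerProductSpace ℝ E] [FiniteDimensional ℝ E]
    [MeasurableSpace E] [BorelSpace E] (lam : Measure E) [lam.IsAddHaarMeasure]
    (v : E) (R : ℝ), ‖v‖ = 1 → 0 < R →
    (IsCompact (QQ v R) ∧ Convex ℝ (QQ v R) ∧ (0 : E) ∈ QQ v R) ∧
    (0 < lam.real (QQ v R) ∧ DD v R ⊆ QQ v R ∧ (DD v R).Nonempty) ∧
    (∀ x ∈ QQ v R, ∀ u : E, -(R * hor v u) ≤ ht v u → ⟪x, u⟫ ≤ ht v u + 2 * R * hor v u) ∧
    (∀ u : E, ∃ x ∈ DD v R, ⟪x, u⟫ = 1 / 2 * ht v u + 3 / 4 * R * hor v u) ∧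
    (∀ x ∈ QQ v R, ht v x = 1 → ∀ u : E, ht v u - 2 * R * hor v u ≤ ⟪x, u⟫) ∧
    (∀ u : E, ‖u‖ = 1 → -(R * hor v u) ≤ ht v u → min (1 / 2) (R / 2) ≤ ht v u + 2 * R * hor v u)

/-- **Ball.** A convex subset of the truncated cone of almost full volume contains the disc, enlarged by `16/15`.
Uses: nothing.
Proof. Let `S x = R x + (1 - R) ⟪x, v⟫ v` (linear, invertible, `ht (S x) = ht x`, `hor (S x) = R hor x`), so `QQ v R = S '' QQ v 1`, `DD v R = S '' DD v 1`;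
`lam (S '' A) = |det S| lam A` (`Measure.addHaar_image_continuousLinearMap`). Suppose `d ∈ DD v R`, `d = S e`, `e ∈ DD v 1`, `p = S (16/15 e) ∉ K`. Separate:
`w ≠ 0` with `⟪x, w⟫ < ⟪p, w⟫` on `K` (`geometric_hahn_banach_closed_point`). The ball `B = ball (16/15 e) (1/10)` is contained in `QQ v 1`
(`ht` of its points between `8/15 - 1/10` and `8/15 + 1/10`, `hor ≤ 4/5 + 1/10 ≤ 2 (8/15 - 1/10)`... use `2 (8/15) - 4/5 = 4/15 ≥ 3/10 · 8/9`: precisely
`hor x ≤ 4/5 + b`, `ht x ≥ 8/15 - a` with `a ^ 2 + b ^ 2 ≤ 1/100`, `b + 2 a ≤ √5/10 ≤ 4/15`). The half `{x ∈ S '' B | ⟪x, w⟫ ≥ ⟪p, w⟫}` is disjoint from `K` and has measure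
`≥ 1/2 |det S| lam (ball 0 (1/10))` (point reflection in `p`), and `lam (QQ v R) = |det S| lam (QQ v 1) ≤ |det S| lam (closedBall 0 3)`. As
`lam (ball 0 (1/10)) = 30^(-n) lam (closedBall 0 3)` we get `lam K ≤ lam QQ - 1/(2·30^n) lam QQ`, a contradiction. -/
def StmtBall : Prop :=
  ∀ (E : Type) [NormedAddCommGroup E] [InnerProductSpace ℝ E] [FiniteDimensional ℝ E]
    [MeasurableSpace E] [BorelSpace E] (lam : Measure E) [lam.IsAddHaarMeasure]
    (v : E) (R : ℝ) (K : Set E), ‖v‖ = 1 → 0 < R → IsCompact K → Convex ℝ K → K ⊆ QQ v R →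
    (1 - 1 / (2 * 30 ^ Module.finrank ℝ E)) * lam.real (QQ v R) < lam.real K →
    DD v R ⊆ (15 / 16 : ℝ) • K

/-- **Energy.** The constraint of the minimisation problem is inactive.
Uses: StmtExistsMin, StmtQGeom, StmtBall.
Proof. `Q = QQ v R`, `D = DD v R`, `c = 1/4 min (1/2) (R/2)`: for allowed unit `u` (`ht u ≥ -R hor u`, a.e.) QGeom (4), (6) give a point of `D` with
`⟪x, u⟫ = ht u/2 + 3/4 R hor u ≥ 1/4 (ht u + 2 R hor u) ≥ c`. ExistsMin gives a minimiser `K₀`; let `a = max ht` over `K₀` (attained, `a ≥ 1/2` since `D ⊆ K₀`, `a ≤ 1`) and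
`K = a⁻¹ • K₀`: `K ⊆ Q` (if `x ∈ K₀` then `hor (x/a) ≤ 2 R ht (x/a)`, `ht (x/a) ≤ 1`), `D ⊆ K₀ ⊆ K` (`0 ∈ K₀` convex), and `Phi K = Phi K₀` (`supp_smul`,
`lam (a⁻¹ • K₀) = a^(-n) lam K₀`; needs `n ≥ 1`). So `K` is a minimiser containing a point with `ht = 1`. Compare with `Q`: `Phi K ≤ Phi Q` gives
`(|μ|/n) log (lam Q/lam K) ≤ ∫ (log supp Q - log supp K) ≤ |μ| log ((M+2)/(M-2)) + mu{ht < M R hor} log 4`, because `supp Q u ≤ ht u + 2 R hor u`,
`supp K u ≥ ht u - 2 R hor u` (QGeom (5)), so the quotient is `≤ (M+2)/(M-2)` if `ht u ≥ M R hor u`, and `supp K u ≥ supp D u ≥ 1/4 supp Q u` always. With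
`M = 2 + 32 n 30^n`, `κ = 1/(8 n 30^n)`: `log ((M+2)/(M-2)) ≤ 4/(M-2) = 1/(8 n 30^n)`, `log 4 ≤ 3/2`, so `log (lam Q/lam K) ≤ 1/(8·30^n) + 3/(16·30^n) < 1/(2·30^n)` and
`lam K ≥ lam Q exp(-..) > (1 - 1/(2·30^n)) lam Q` (`1 - x ≤ exp (-x)`). Apply Ball. -/
def StmtEnergy : Prop :=
  ∀ (E : Type) [NormedAddCommGroup E] [InnerProductSpace ℝ E] [FiniteDimensional ℝ E]
    [MeasurableSpace E] [BorelSpace E] (lam mu : Measure E) [lam.IsAddHaarMeasure]
    [IsFiniteMeasure mu] (v : E) (R : ℝ), ‖v‖ = 1 → 0 < R → mu ≠ 0 →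
    mu (sphere (0 : E) 1)ᶜ = 0 → mu {u | ht v u < -(R * hor v u)} = 0 →
    mu.real {u | ht v u < (2 + 32 * Module.finrank ℝ E * 30 ^ Module.finrank ℝ E) * R * hor v u} ≤
      1 / (8 * Module.finrank ℝ E * 30 ^ Module.finrank ℝ E) * mu.real univ →
    ∃ K : Set E, Adm (DD v R) (QQ v R) K ∧ 0 < lam.real K ∧ DD v R ⊆ (15 / 16 : ℝ) • K ∧
      ∀ K' : Set E, Adm (DD v R) (QQ v R) K' → 0 < lam.real K' → Phi lam mu K ≤ Phi lam mu K'

/-- **Cap.** The theorem, first form (for a general Haar measure).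
Uses: StmtEnergy, StmtQGeom, StmtVariation, StmtBorel.
Proof. Energy gives `K`. The hypothesis of Variation holds with `t₀ = 1/16`: if `(1-t) • K ⊆ K' ⊆ K`, `t ≤ 1/16`, then `DD ⊆ (15/16) • K ⊆ (1 - t) • K ⊆ K'`, `0 ∈ K'`, `lam K' > 0`, so `K'` is
admissible. Borel gives `|μ| lam (segs K ω) = mu ω lam K`. Put `K₁ = r • K`, `r ^ n = |μ|/lam K`: `segs (r • K) ω = r • segs K ω`, so `lam.real (segs K₁ ω) = mu.real ω`.
`interior K₁ ≠ ∅` because a convex set with empty interior is null (`Convex.interior_nonempty_iff_affineSpan_eq_top`, `Measure.addHaar_affineSubspace`). -/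
def StmtCap : Prop :=
  ∀ (E : Type) [NormedAddCommGroup E] [InnerProductSpace ℝ E] [FiniteDimensional ℝ E]
    [MeasurableSpace E] [BorelSpace E] (lam mu : Measure E) [lam.IsAddHaarMeasure]
    [IsFiniteMeasure mu] (v : E) (R : ℝ), ‖v‖ = 1 → 0 < R → mu ≠ 0 →
    mu (sphere (0 : E) 1)ᶜ = 0 → mu {u | ht v u < -(R * hor v u)} = 0 →
    mu.real {u | ht v u < (2 + 32 * Module.finrank ℝ E * 30 ^ Module.finrank ℝ E) * R * hor v u} ≤
      1 / (8 * Module.finrank ℝ E * 30 ^ Module.finrank ℝ E) * mu.real univ →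
    ∃ K : Set E, IsCompact K ∧ Convex ℝ K ∧ (interior K).Nonempty ∧ (0 : E) ∈ K ∧
      ∀ ω : Set E, MeasurableSet ω → ω ⊆ sphere (0 : E) 1 → lam (segs K ω) = mu ω

/-- **Hemi.** The theorem for closed hemispheres.
Uses: StmtCap.
Proof. The sets `{u | ht u < M R hor u}` decrease as `R ↓ 0` to a subset of `{u | ht u ≤ 0}` (if `ht u > 0` then `ht u ≥ M R hor u` for small `R`), so their measures
tend to at most `mu {ht ≤ 0} = mu {ht = 0} < κ |μ|` (`tendsto_measure_iInter_atTop` along `R = 1/(k+1)`); `mu {ht < -(R hor)} ≤ mu {ht < 0} = 0`. -/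
def StmtHemi : Prop :=
  ∀ (E : Type) [NormedAddCommGroup E] [InnerProductSpace ℝ E] [FiniteDimensional ℝ E]
    [MeasurableSpace E] [BorelSpace E] (lam mu : Measure E) [lam.IsAddHaarMeasure]
    [IsFiniteMeasure mu] (v : E), ‖v‖ = 1 → mu ≠ 0 →
    mu (sphere (0 : E) 1)ᶜ = 0 → mu {u | ⟪u, v⟫ < 0} = 0 →
    mu.real {u | ⟪u, v⟫ = 0} < 1 / (8 * Module.finrank ℝ E * 30 ^ Module.finrank ℝ E) * mu.real univ →
    ∃ K : Set E, IsCompact K ∧ Convex ℝ K ∧ (interior K).Nonempty ∧ (0 : E) ∈ K ∧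
      ∀ ω : Set E, MeasurableSet ω → ω ⊆ sphere (0 : E) 1 → lam (segs K ω) = mu ω

end Pool.Agent.Lib.MP_abca01_gt
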